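import Pool.Agent.Lib.MP_322c76_al.BW.Defs

set_option autoImplicit false

namespace Pool.Agent.Lib.MP_322c76_al.BW

variable {k n D : ℕ}

/-! ROW Act: basic facts -/

@[simp] theorem act_one (ω : Conf k) : act ω 1 = 1 := by simp [act]

theorem act_mul (ω : Conf k) (g h : Wd k) (x : ℤ) : act ω (g * h) x = act ω g (act ω h x) := by
  simp [act]

theorem act_inv_act (ω : Conf k) (g : Wd k) (x : ℤ) : act ω g⁻¹ (act ω g x) = x := by
  rw [← act_mul, inv_mul_cancel, act_one]; rfl

theorem act_act_inv (ω : Conf k) (g : Wd k) (x : ℤ) : act ω g (act ω g⁻¹ x) = x := by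
  rw [← act_mul, mul_inv_cancel, act_one]; rfl

theorem act_pow (ω : Conf k) (g : Wd k) (i : ℕ) (x : ℤ) :
    act ω (g ^ (i + 1)) x = act ω g (act ω (g ^ i) x) := by
  rw [pow_succ', act_mul]

/-- the permutation of a letter -/
private def act_lt (ω : Conf k) (a : Fin k × Bool) : Equiv.Perm ℤ :=
  cond a.2 (ω a.1) (ω a.1)⁻¹

/-- the permutation of a list of letters -/
private def act_ls (ω : Conf k) : List (Fin k × Bool) → Equiv.Perm ℤ
  | [] => 1
  | a :: L => act_lt ω a * act_ls ω L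

private theorem act_ls_mk (ω : Conf k) (L : List (Fin k × Bool)) :
    act ω (FreeGroup.mk L) = act_ls ω L := by
  induction L with
  | nil => simp [act, act_ls, ← FreeGroup.one_eq_mk]
  | cons a L ih =>
    have : (FreeGroup.mk (a :: L) : Wd k) = FreeGroup.mk [a] * FreeGroup.mk L := by
      simp [FreeGroup.mul_mk]
    ext x
    rw [this, act_mul, ih]
    simp [act_ls, act_lt, act, FreeGroup.lift_mk]

private theorem act_ls_word (ω : Conf k) (g : Wd k) : act ω g = act_ls ω g.toWord := by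
  rw [← act_ls_mk, FreeGroup.mk_toWord]

private theorem act_lt_disp {ω : Conf k} (h : ∀ j x, |ω j x - x| ≤ D) (a : Fin k × Bool) (x : ℤ) :
    |act_lt ω a x - x| ≤ D := by
  obtain ⟨j, b⟩ := a
  cases b with
  | true => exact h j x
  | false =>
    have h1 := h j ((ω j)⁻¹ x)
    have h2 : ω j ((ω j)⁻¹ x) = x := by simp
    rw [h2, abs_sub_comm] at h1
    exact h1

private theorem act_ls_disp {ω : Conf k} (h : ∀ j x, |ω j x - x| ≤ D) (L : List (Fin k × Bool))
    (x : ℤ) : |act_ls ω L x - x| ≤ D * L.length := by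
  induction L with
  | nil => simp [act_ls]
  | cons a L ih =>
    have h1 := act_lt_disp h a (act_ls ω L x)
    have h2 : act_ls ω (a :: L) x = act_lt ω a (act_ls ω L x) := rfl
    rw [h2]
    calc |act_lt ω a (act_ls ω L x) - x|
        = |(act_lt ω a (act_ls ω L x) - act_ls ω L x) + (act_ls ω L x - x)| := by ring_nf
      _ ≤ _ := (abs_add_le _ _).trans (add_le_add h1 ih)
      _ = D * (a :: L).length := by push_cast [List.length_cons]; ring

/-- also for inverses: a permutation with `|σ x - x| ≤ D` for all `x` has `|σ⁻¹ x - x| ≤ D` -/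
theorem act_disp {ω : Conf k} (h : ∀ j x, |ω j x - x| ≤ D) (g : Wd k) (x : ℤ) :
    |act ω g x - x| ≤ D * g.norm := by
  rw [act_ls_word]
  exact act_ls_disp h _ _

theorem act_shift (ω : Conf k) (c : ℤ) (g : Wd k) (x : ℤ) :
    act (shift ω c) g x = act ω g (x + c) - c := by
  have key : ∀ g : Wd k, ∀ x, act (shift ω c) g x = act ω g (x + c) - c := by
    intro g
    induction g using FreeGroup.induction_on with
    | C1 => intro x; simp
    | of j => intro x; simp [act, shift, sub_eq_add_neg]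
    | inv_of j ih =>
      intro x
      apply (act (shift ω c) (FreeGroup.of j)).injective
      have ih' : ∀ x, act (shift ω c) (FreeGroup.of j) x = act ω (FreeGroup.of j) (x + c) - c := ih
      have e1 : act (shift ω c) (FreeGroup.of j) (act (shift ω c) (FreeGroup.of j)⁻¹ x) = x :=
        act_act_inv _ _ _
      have e2 := ih' (act ω (FreeGroup.of j)⁻¹ (x + c) - c)
      rw [sub_add_cancel, act_act_inv, add_sub_cancel_right] at e2
      exact e1.trans e2.symm
    | mul a b ha hb =>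
      intro x
      rw [act_mul, act_mul, hb, ha, sub_add_cancel]
  exact key g x

theorem act_reroot (ω : Conf k) (g h : Wd k) (x : ℤ) :
    act (reroot ω g) h x = act ω h (x + act ω g 0) - act ω g 0 := act_shift _ _ _ _

private theorem act_shift_apply (ω : Conf k) (c : ℤ) (j : Fin k) (x : ℤ) :
    shift ω c j x = ω j (x + c) - c := by
  simp [shift, sub_eq_add_neg]

theorem reroot_reroot (ω : Conf k) (g h : Wd k) : reroot (reroot ω g) h = reroot ω (h * g) := by
  have e1 : act ω (h * g) 0 = act (reroot ω g) h 0 + act ω g 0 := by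
    rw [act_reroot, act_mul, zero_add]; ring
  funext j
  ext x
  unfold reroot
  rw [e1, act_shift_apply, act_shift_apply, act_shift_apply]
  unfold reroot
  rw [add_assoc]
  ring

theorem reroot_one (ω : Conf k) : reroot ω 1 = ω := by
  funext j
  ext x
  unfold reroot
  rw [act_shift_apply]
  simp

theorem Agree.mono {R R' : ℕ} (h : R ≤ R') {ω ω' : Conf k} (hA : Agree R' ω ω') : Agree R ω ω' :=
  fun j x hx => hA j x (hx.trans (by exact_mod_cast h))

private theorem act_ls_eq {ω ω' : Conf k} (h : ∀ j x, |ω j x - x| ≤ D) {R : ℕ}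
    (hA : Agree R ω ω') (L : List (Fin k × Bool)) (x : ℤ) (hx : |x| + D * L.length ≤ R) :
    act_ls ω L x = act_ls ω' L x := by
  induction L with
  | nil => rfl
  | cons a L ih =>
    have hx' : |x| + D * L.length ≤ R := by
      refine le_trans ?_ hx
      have : (0 : ℤ) ≤ D := Int.natCast_nonneg _
      push_cast [List.length_cons]
      nlinarith
    have e1 : act_ls ω (a :: L) x = act_lt ω a (act_ls ω L x) := rfl
    have e2 : act_ls ω' (a :: L) x = act_lt ω' a (act_ls ω' L x) := rfl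
    rw [e1, e2, ← ih hx']
    have h2 := act_ls_disp h L x
    have h3 : |act_ls ω L x| ≤ R := by
      have h4 : |act_ls ω L x| ≤ |act_ls ω L x - x| + |x| := by
        have := abs_add_le (act_ls ω L x - x) x
        rwa [sub_add_cancel] at this
      linarith
    obtain ⟨j, b⟩ := a
    have h5 := hA j _ h3
    cases b with
    | true => exact h5.1
    | false => exact h5.2

theorem Agree.act_eq {ω ω' : Conf k} (h : ∀ j x, |ω j x - x| ≤ D) {R : ℕ} (hA : Agree R ω ω')
    (g : Wd k) (x : ℤ) (hx : |x| + D * g.norm ≤ R) : act ω g x = act ω' g x := by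
  rw [act_ls_word, act_ls_word]
  exact act_ls_eq h hA _ _ hx

private theorem act_ls_walk {ω : Conf k} (h : ∀ j x, |ω j x - x| ≤ D) (L : List (Fin k × Bool))
    (x c : ℤ) (hc : (x ≤ c ∧ c ≤ act_ls ω L x) ∨ (act_ls ω L x ≤ c ∧ c ≤ x)) :
    ∃ L₁ L₂ : List (Fin k × Bool), L = L₂ ++ L₁ ∧ |act_ls ω L₁ x - c| ≤ D := by
  induction L with
  | nil =>
    refine ⟨[], [], rfl, ?_⟩
    have e : act_ls ω [] x = x := rfl
    rw [e] at hc ⊢
    have : c = x := by omega
    subst this
    simp
  | cons a L ih =>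
    have e1 : act_ls ω (a :: L) x = act_lt ω a (act_ls ω L x) := rfl
    by_cases hin : (x ≤ c ∧ c ≤ act_ls ω L x) ∨ (act_ls ω L x ≤ c ∧ c ≤ x)
    · obtain ⟨L₁, L₂, hL, hd⟩ := ih hin
      exact ⟨L₁, a :: L₂, by simp [hL], hd⟩
    · refine ⟨L, [a], rfl, ?_⟩
      have h1 := act_lt_disp h a (act_ls ω L x)
      rw [e1] at hc
      rw [abs_le] at h1 ⊢
      omega

/-- a word of norm `m + 1` is a letter (or its inverse) times a word of norm `m`; so walking along a
word one moves by steps `≤ D`: every level `c` between `x` and `g x` is met. The prefix `g₁` is a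
suffix of the reduced word `g = g₂ g₁`. -/
theorem walk {ω : Conf k} (h : ∀ j x, |ω j x - x| ≤ D) (g : Wd k) (x c : ℤ)
    (hc : (x ≤ c ∧ c ≤ act ω g x) ∨ (act ω g x ≤ c ∧ c ≤ x)) :
    ∃ g₁ g₂ : Wd k, g = g₂ * g₁ ∧ g.norm = g₂.norm + g₁.norm ∧ |act ω g₁ x - c| ≤ D := by
  rw [act_ls_word] at hc
  obtain ⟨L₁, L₂, hL, hd⟩ := act_ls_walk h g.toWord x c hc
  have hg : g = FreeGroup.mk L₂ * FreeGroup.mk L₁ := by
    rw [FreeGroup.mul_mk, ← hL, FreeGroup.mk_toWord]
  refine ⟨FreeGroup.mk L₁, FreeGroup.mk L₂, hg, ?_, ?_⟩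
  · have h1 : (FreeGroup.mk L₁ : Wd k).norm ≤ L₁.length := FreeGroup.norm_mk_le
    have h2 : (FreeGroup.mk L₂ : Wd k).norm ≤ L₂.length := FreeGroup.norm_mk_le
    have h3 : g.norm ≤ (FreeGroup.mk L₂ : Wd k).norm + (FreeGroup.mk L₁ : Wd k).norm := by
      conv_lhs => rw [hg]
      exact FreeGroup.norm_mul_le _ _
    have h4 : g.norm = L₂.length + L₁.length := by
      have : g.norm = g.toWord.length := rfl
      rw [this, hL, List.length_append]
    omega
  · rw [act_ls_mk]
    exact hd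

theorem mem_orb_zero (ω : Conf k) : (0 : ℤ) ∈ Orb ω := ⟨1, by simp⟩

theorem act_mem_orb {ω : Conf k} {x : ℤ} (hx : x ∈ Orb ω) (g : Wd k) : act ω g x ∈ Orb ω := by
  obtain ⟨h, rfl⟩ := hx
  exact ⟨g * h, act_mul _ _ _ _⟩

theorem orb_trans {ω : Conf k} {x y : ℤ} (hx : x ∈ Orb ω) (hy : y ∈ Orb ω) :
    ∃ g : Wd k, act ω g x = y := by
  obtain ⟨a, rfl⟩ := hx
  obtain ⟨b, rfl⟩ := hy
  exact ⟨b * a⁻¹, by rw [act_mul, act_inv_act]⟩

theorem mem_orb_reroot {ω : Conf k} {g : Wd k} {y : ℤ} :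
    y ∈ Orb (reroot ω g) ↔ y + act ω g 0 ∈ Orb ω := by
  constructor
  · rintro ⟨h, rfl⟩
    refine ⟨h * g, ?_⟩
    rw [act_reroot, act_mul, zero_add]
    ring
  · rintro ⟨h, hh⟩
    refine ⟨h * g⁻¹, ?_⟩
    rw [act_reroot, act_mul, zero_add, act_inv_act, hh]
    ring

end Pool.Agent.Lib.MP_322c76_al.BW
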