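import Pool.Agent.Lib.MP_322c76_al.BW.Defs

set_option autoImplicit false

namespace Pool.Agent.Lib.MP_322c76_al.BW

variable {G : Type*} [Group G]

/-! ROW Ball -/

theorem mem_bl_succ {T : Finset G} {r : ℕ} {x : G} :
    x ∈ bl T (r + 1) ↔ ∃ y ∈ bl T r, ∃ t ∈ T, y * t = x := by
  classical
  rw [bl, Finset.mem_image]
  constructor
  · rintro ⟨⟨y, t⟩, h, rfl⟩
    rw [Finset.mem_product] at h
    exact ⟨y, h.1, t, h.2, rfl⟩
  · rintro ⟨y, hy, t, ht, rfl⟩
    exact ⟨(y, t), Finset.mem_product.2 ⟨hy, ht⟩, rfl⟩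

theorem one_mem_bl {T : Finset G} (hT : GenSet T) (r : ℕ) : (1 : G) ∈ bl T r := by
  induction r with
  | zero => simp [bl]
  | succ r ih => exact mem_bl_succ.2 ⟨1, ih, 1, hT.one, one_mul 1⟩

theorem bl_one {T : Finset G} : bl T 1 = T := by
  ext x
  have h := @mem_bl_succ G _ T 0 x
  rw [zero_add] at h
  rw [h]
  simp [bl]

theorem bl_mono {T : Finset G} (hT : GenSet T) {r s : ℕ} (h : r ≤ s) : bl T r ⊆ bl T s := by
  induction h with
  | refl => exact fun _ h => h
  | step _ ih => exact fun x hx => mem_bl_succ.2 ⟨x, ih hx, 1, hT.one, mul_one x⟩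

theorem bl_mul {T : Finset G} {r s : ℕ} {x y : G} (hx : x ∈ bl T r)
    (hy : y ∈ bl T s) : x * y ∈ bl T (r + s) := by
  induction s generalizing y with
  | zero =>
    have : y = 1 := by simpa [bl] using hy
    subst this
    simpa using hx
  | succ s ih =>
    obtain ⟨z, hz, t, ht, rfl⟩ := mem_bl_succ.1 hy
    exact mem_bl_succ.2 ⟨x * z, ih hz, t, ht, mul_assoc _ _ _⟩

theorem bl_split {T : Finset G} {r s : ℕ} {x : G} (hx : x ∈ bl T (r + s)) :
    ∃ y ∈ bl T r, ∃ z ∈ bl T s, y * z = x := by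
  induction s generalizing x with
  | zero => exact ⟨x, hx, 1, by simp [bl], mul_one x⟩
  | succ s ih =>
    obtain ⟨u, hu, t, ht, rfl⟩ := mem_bl_succ.1 hx
    obtain ⟨y, hy, z, hz, rfl⟩ := ih hu
    exact ⟨y, hy, z * t, mem_bl_succ.2 ⟨z, hz, t, ht, rfl⟩, (mul_assoc _ _ _).symm⟩

theorem bl_inv {T : Finset G} (hT : GenSet T) {r : ℕ} {x : G} (hx : x ∈ bl T r) :
    x⁻¹ ∈ bl T r := by
  induction r generalizing x with
  | zero =>
    have : x = 1 := by simpa [bl] using hx
    subst this
    simpa using hx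
  | succ r ih =>
    obtain ⟨u, hu, t, ht, rfl⟩ := mem_bl_succ.1 hx
    rw [mul_inv_rev]
    have h1 : t⁻¹ ∈ bl T 1 := by rw [bl_one]; exact hT.inv t ht
    have h := bl_mul h1 (ih hu)
    rwa [Nat.add_comm] at h

theorem exists_bl {T : Finset G} (hT : GenSet T) (x : G) : ∃ r, x ∈ bl T r := by
  have hx : x ∈ Subgroup.closure (T : Set G) := by rw [hT.gen]; trivial
  induction hx using Subgroup.closure_induction with
  | mem y hy => exact ⟨1, by rw [bl_one]; exact hy⟩
  | one => exact ⟨0, one_mem_bl hT 0⟩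
  | mul y z _ _ hy hz =>
    obtain ⟨r, hr⟩ := hy
    obtain ⟨s, hs⟩ := hz
    exact ⟨r + s, bl_mul hr hs⟩
  | inv y _ hy =>
    obtain ⟨r, hr⟩ := hy
    exact ⟨r, bl_inv hT hr⟩

/-- if `G` is infinite the balls grow strictly -/
theorem lt_card_bl {T : Finset G} (hT : GenSet T) [Infinite G] (r : ℕ) : r < (bl T r).card := by
  -- the balls are strictly increasing
  have hstep : ∀ r, bl T r ≠ bl T (r + 1) := by
    intro r h
    have hst : ∀ s, bl T (r + s) = bl T r := by
      intro s
      induction s with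
      | zero => rfl
      | succ s ih =>
        ext x
        constructor
        · intro hx
          obtain ⟨y, hy, t, ht, rfl⟩ := (mem_bl_succ (r := r + s)).1 hx
          rw [ih] at hy
          rw [h]
          exact mem_bl_succ.2 ⟨y, hy, t, ht, rfl⟩
        · intro hx
          exact bl_mono hT (Nat.le_add_right r (s + 1)) hx
    have hall : ∀ x : G, x ∈ bl T r := by
      intro x
      obtain ⟨s, hs⟩ := exists_bl hT x
      rw [← hst s]
      exact bl_mono hT (Nat.le_add_left s r) hs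
    exact Set.infinite_univ (α := G) ((bl T r).finite_toSet.subset fun x _ => hall x)
  induction r with
  | zero => simp [bl]
  | succ r ih =>
    have h1 : bl T r ⊂ bl T (r + 1) :=
      (bl_mono hT (Nat.le_succ r)).ssubset_of_ne (hstep r)
    have h2 := Finset.card_lt_card h1
    omega

end Pool.Agent.Lib.MP_322c76_al.BW
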