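import Pool.Agent.Lib.MP_322c76_al.BW.Defs

/-!
# Bounded cutwidth (MP_322c76_al): definitions

`Pre k`: a transitive action of the free group on a linearly ordered set, seen from a point.
-/

set_option autoImplicit false

namespace Pool.Agent.Lib.MP_322c76_al.BW

variable {k : ℕ}

/-- a transitive action of the free group on a linearly ordered set, seen from a point `x₀`:
`le g h` means `g x₀ ≤ h x₀` -/
structure Pre (k : ℕ) where
  le : Wd k → Wd k → Prop
  trans : ∀ g h l, le g h → le h l → le g l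
  total : ∀ g h, le g h ∨ le h g
  congr : ∀ g h, le g h → le h g → ∀ u, le (u * g) (u * h)

/-- equality of points -/
def Pre.Eqv (P : Pre k) (g h : Wd k) : Prop := P.le g h ∧ P.le h g

/-- the edge `(j, y)` from `y` to `a_j y` crosses the cut just below `x` -/
def Pre.Cross (P : Pre k) (x : Wd k) (e : Fin k × Wd k) : Prop :=
  (¬ P.le x e.2 ∧ P.le x (FreeGroup.of e.1 * e.2)) ∨
    (¬ P.le x (FreeGroup.of e.1 * e.2) ∧ P.le x e.2)

/-- different edges -/
def Pre.Ne (P : Pre k) (e e' : Fin k × Wd k) : Prop := e.1 ≠ e'.1 ∨ ¬ P.Eqv e.2 e'.2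

/-- every cut is crossed by at most `c` edges -/
def Pre.CutLe (P : Pre k) (c : ℕ) : Prop := ∀ x : Wd k, ∀ F : Finset (Fin k × Wd k),
  (∀ e ∈ F, P.Cross x e) → (∀ e ∈ F, ∀ e' ∈ F, e ≠ e' → P.Ne e e') → F.card ≤ c

/-- there are at least `N` points -/
def Pre.Big (P : Pre k) (N : ℕ) : Prop := ∃ F : Finset (Wd k), N ≤ F.card ∧
  ∀ g ∈ F, ∀ h ∈ F, g ≠ h → ¬ P.Eqv g h

/-- the cut at `t` is crossed by `M` different edges which start at distance at most `r` from `t` -/
def Pre.Tight (P : Pre k) (M r : ℕ) (t : Wd k) : Prop := ∃ F : Finset (Fin k × Wd k), F.card = M ∧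
  (∀ e ∈ F, P.Cross t e) ∧ (∀ e ∈ F, ∀ e' ∈ F, e ≠ e' → P.Ne e e') ∧
    ∀ e ∈ F, ∃ u : Wd k, u.norm ≤ r ∧ P.Eqv (u * t) e.2

end Pool.Agent.Lib.MP_322c76_al.BW
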