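import Pool.Agent.Lib.MP_322c76_al.BW.Defs
import Pool.Agent.Lib.MP_322c76_al.BW.Ball

set_option autoImplicit false

namespace Pool.Agent.Lib.MP_322c76_al.BW

variable {G : Type*} [Group G]

/-! ROW Cacc (Caccioppoli). Cutoff `φ x = min 1 (max 0 ((2R - |x|)/R))`, `|x|` = least `r` with
`x ∈ bl T r`; `φ = 1` on `bl T R`, `φ = 0` outside `bl T (2R)`, `|φ(xt) - φ(x)| ≤ 1/R`.
`0 = - 2 ∑_x φ(x)² f(x) lap f x = ∑_x ∑_t w t (φ(xt)² f(xt) - φ(x)² f(x)) (f(xt) - f(x))` (substitute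
`(x,t) → (xt, t⁻¹)`, finite sums over `bl T (2R+1)`). With `a = φ(xt), b = φ(x), α = f(xt), β = f(x)`:
`(a²α - b²β)(α - β) = b²(α-β)² + (a²-b²) α (α-β)`, and `|a²-b²| ≤ 2b|a-b| + |a-b|²`, so it is
`≥ b²(α-β)²/2 - C |a-b|² (α² + β²)`. Sum up, weights in `[1,W]`, `2R+1 ≤ 3R`. -/

theorem cacc_pointwise (a b α β : ℝ) : b ^ 2 * (α - β) ^ 2 / 2 - 4 * ((a - b) ^ 2 * (α ^ 2 + β ^ 2)) ≤
    (a ^ 2 * α - b ^ 2 * β) * (α - β) := by
  have h1 : 0 ≤ (b * (α - β) + 2 * (a - b) * α) ^ 2 := sq_nonneg _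
  have h2 : 0 ≤ (a - b) ^ 2 * (3 * α ^ 2 - α * β + 4 * β ^ 2) := by
    refine mul_nonneg (sq_nonneg _) ?_
    nlinarith [sq_nonneg (α - β), sq_nonneg α, sq_nonneg β]
  nlinarith

theorem cacc_shift {T : Finset G} (B : Finset G) (f : G → ℝ) [DecidableEq G] :
    ∑ p ∈ B ×ˢ T, (if p.1 * p.2 ∈ B then f (p.1 * p.2) ^ 2 else 0) ≤ T.card * ∑ x ∈ B, f x ^ 2 := by
  rw [Finset.sum_product_right]
  have h : ∀ t ∈ T, ∑ x ∈ B, (if x * t ∈ B then f (x * t) ^ 2 else 0) ≤ ∑ x ∈ B, f x ^ 2 := by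
    intro t _
    rw [← Finset.sum_filter]
    have e : ∑ x ∈ B.filter (fun x => x * t ∈ B), f (x * t) ^ 2 =
        ∑ y ∈ (B.filter (fun x => x * t ∈ B)).image (fun x => x * t), f y ^ 2 := by
      rw [Finset.sum_image]
      intro x _ y _ h
      exact mul_right_cancel h
    rw [e]
    refine Finset.sum_le_sum_of_subset_of_nonneg ?_ fun _ _ _ => sq_nonneg _
    intro y hy
    obtain ⟨x, hx, rfl⟩ := Finset.mem_image.1 hy
    exact (Finset.mem_filter.1 hx).2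
  refine (Finset.sum_le_sum h).trans (le_of_eq ?_)
  rw [Finset.sum_const, nsmul_eq_mul]

theorem caccioppoli {T : Finset G} (hT : GenSet T) {w : G → ℝ} {W : ℝ} (hw : Weight T w W) :
    ∃ C : ℝ, 0 < C ∧ ∀ f : G → ℝ, (∀ x, lap T w f x = 0) → ∀ R : ℕ, 1 ≤ R →
      ∑ x ∈ bl T R, grad T f x ≤ C / (R : ℝ) ^ 2 * ∑ x ∈ bl T (3 * R), f x ^ 2 := by
  classical
  have hW : 1 ≤ W := (hw.one_le 1 hT.one).trans (hw.le 1 hT.one)
  have hTc : (1 : ℝ) ≤ T.card := by exact_mod_cast Finset.card_pos.2 ⟨1, hT.one⟩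
  refine ⟨16 * W * T.card, by positivity, fun f hf R hR => ?_⟩
  obtain ⟨ℓ, hℓ⟩ : ∃ ℓ : G → ℕ, ∀ x r, x ∈ bl T r ↔ ℓ x ≤ r :=
    ⟨fun x => Nat.find (exists_bl hT x), fun x r => ⟨fun h => Nat.find_min' _ h,
      fun h => bl_mono hT h (Nat.find_spec (exists_bl hT x))⟩⟩
  have h1 : ∀ x, ∀ t ∈ T, ℓ (x * t) ≤ ℓ x + 1 := fun x t ht =>
    (hℓ _ _).1 (mem_bl_succ.2 ⟨x, (hℓ _ _).2 le_rfl, t, ht, rfl⟩)
  have h2 : ∀ x, ∀ t ∈ T, ℓ x ≤ ℓ (x * t) + 1 := fun x t ht => by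
    have h := h1 (x * t) t⁻¹ (hT.inv t ht)
    rwa [mul_inv_cancel_right] at h
  obtain ⟨n, hn⟩ : ∃ n : G → ℝ, ∀ x, n x = ((min (2 * R - ℓ x) R : ℕ) : ℝ) := ⟨_, fun _ => rfl⟩
  have hn1 : ∀ x, ∀ t ∈ T, (n (x * t) - n x) ^ 2 ≤ 1 := by
    intro x t ht
    have e1 := h1 x t ht
    have e2 := h2 x t ht
    have e3 : min (2 * R - ℓ (x * t)) R ≤ min (2 * R - ℓ x) R + 1 := by omega
    have e4 : min (2 * R - ℓ x) R ≤ min (2 * R - ℓ (x * t)) R + 1 := by omega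
    have e5 : n (x * t) ≤ n x + 1 := by rw [hn, hn]; exact_mod_cast e3
    have e6 : n x ≤ n (x * t) + 1 := by rw [hn, hn]; exact_mod_cast e4
    nlinarith
  have hn2 : ∀ x ∈ bl T R, n x = R := by
    intro x hx
    have h := (hℓ _ _).1 hx
    rw [hn]
    congr 1
    omega
  have hn3 : ∀ x, 2 * R ≤ ℓ x → n x = 0 := by
    intro x hx
    rw [hn, Nat.sub_eq_zero_of_le hx, Nat.zero_min, Nat.cast_zero]
  set B : Finset G := bl T (3 * R) with hB
  have hBR : bl T R ⊆ B := bl_mono hT (by omega)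
  have key : ∑ p ∈ B ×ˢ T, w p.2 * ((n (p.1 * p.2) ^ 2 * f (p.1 * p.2) - n p.1 ^ 2 * f p.1) *
      (f (p.1 * p.2) - f p.1)) = 0 := by
    set F : G × G → ℝ := fun p => w p.2 * (n p.1 ^ 2 * f p.1 * (f (p.1 * p.2) - f p.1)) with hF
    have e1 : ∑ p ∈ B ×ˢ T, F p = 0 := by
      rw [Finset.sum_product]
      refine Finset.sum_eq_zero fun x _ => ?_
      have e : ∀ t ∈ T, F (x, t) = n x ^ 2 * f x * (w t * (f (x * t) - f x)) := by
        intro t _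
        show w t * (n x ^ 2 * f x * (f (x * t) - f x)) = _
        ring
      rw [Finset.sum_congr rfl e, ← Finset.mul_sum]
      have h := hf x
      rw [lap] at h
      rw [h, mul_zero]
    have hsup : ∀ p : G × G, F p ≠ 0 → ℓ p.1 < 2 * R := by
      intro p hp
      by_contra hcon
      apply hp
      show w p.2 * (n p.1 ^ 2 * f p.1 * (f (p.1 * p.2) - f p.1)) = 0
      rw [hn3 p.1 (by omega)]
      ring
    have e2 : ∑ p ∈ B ×ˢ T, F (p.1 * p.2, p.2⁻¹) = ∑ p ∈ B ×ˢ T, F p := by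
      refine Finset.sum_bij_ne_zero (fun p _ _ => (p.1 * p.2, p.2⁻¹)) ?_ ?_ ?_ ?_
      · intro p hp hne
        rw [Finset.mem_product] at hp ⊢
        refine ⟨?_, hT.inv _ hp.2⟩
        have h := hsup _ hne
        exact (hℓ _ _).2 (by simp only at h ⊢; omega)
      · intro p _ _ q _ _ h
        have a1 : p.2 = q.2 := inv_injective (Prod.ext_iff.1 h).2
        have a2 : p.1 * p.2 = q.1 * q.2 := (Prod.ext_iff.1 h).1
        rw [a1] at a2
        exact Prod.ext (mul_right_cancel a2) a1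
      · intro b hb hne
        rw [Finset.mem_product] at hb
        have h := hsup _ hne
        have h' := h1 b.1 b.2 hb.2
        refine ⟨(b.1 * b.2, b.2⁻¹), ?_, ?_, ?_⟩
        · rw [Finset.mem_product]
          exact ⟨(hℓ _ _).2 (by simp only; omega), hT.inv _ hb.2⟩
        · simp only [mul_inv_cancel_right, inv_inv]
          exact hne
        · simp only [mul_inv_cancel_right, inv_inv]
      · intro p _ _
        rfl
    have e3 : ∀ p ∈ B ×ˢ T, w p.2 * ((n (p.1 * p.2) ^ 2 * f (p.1 * p.2) - n p.1 ^ 2 * f p.1) *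
        (f (p.1 * p.2) - f p.1)) = -F (p.1 * p.2, p.2⁻¹) - F p := by
      intro p hp
      rw [Finset.mem_product] at hp
      show _ = -(w p.2⁻¹ * (n (p.1 * p.2) ^ 2 * f (p.1 * p.2) *
        (f (p.1 * p.2 * p.2⁻¹) - f (p.1 * p.2)))) -
        w p.2 * (n p.1 ^ 2 * f p.1 * (f (p.1 * p.2) - f p.1))
      rw [mul_inv_cancel_right, hw.inv _ hp.2]
      ring
    rw [Finset.sum_congr rfl e3, Finset.sum_sub_distrib, Finset.sum_neg_distrib, e2, e1]
    ring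
  have hR0 : (0 : ℝ) < R := by exact_mod_cast hR
  -- the energy
  have hA : (R : ℝ) ^ 2 * ∑ x ∈ bl T R, grad T f x ≤
      ∑ p ∈ B ×ˢ T, w p.2 * (n p.1 ^ 2 * (f (p.1 * p.2) - f p.1) ^ 2) := by
    have e1 : (R : ℝ) ^ 2 * ∑ x ∈ bl T R, grad T f x =
        ∑ p ∈ bl T R ×ˢ T, n p.1 ^ 2 * (f (p.1 * p.2) - f p.1) ^ 2 := by
      rw [Finset.sum_product, Finset.mul_sum]
      refine Finset.sum_congr rfl fun x hx => ?_
      rw [grad, Finset.mul_sum]
      refine Finset.sum_congr rfl fun t _ => ?_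
      simp only
      rw [hn2 x hx]
    rw [e1]
    refine (Finset.sum_le_sum_of_subset_of_nonneg (Finset.product_subset_product_left hBR)
      fun p _ _ => by positivity).trans (Finset.sum_le_sum fun p hp => ?_)
    rw [Finset.mem_product] at hp
    exact le_mul_of_one_le_left (by positivity) (hw.one_le _ hp.2)
  have hD : ∑ p ∈ B ×ˢ T, w p.2 * ((n (p.1 * p.2) - n p.1) ^ 2 * (f (p.1 * p.2) ^ 2 + f p.1 ^ 2)) ≤
      2 * W * T.card * ∑ x ∈ B, f x ^ 2 := by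
    have e1 : ∀ p ∈ B ×ˢ T,
        w p.2 * ((n (p.1 * p.2) - n p.1) ^ 2 * (f (p.1 * p.2) ^ 2 + f p.1 ^ 2)) ≤
        W * ((if p.1 * p.2 ∈ B then f (p.1 * p.2) ^ 2 else 0) + f p.1 ^ 2) := by
      intro p hp
      rw [Finset.mem_product] at hp
      have a1 := hw.le _ hp.2
      have a0 : 0 ≤ w p.2 := zero_le_one.trans (hw.one_le _ hp.2)
      by_cases hq : p.1 * p.2 ∈ B
      · rw [if_pos hq]
        refine mul_le_mul a1 ?_ (by positivity) (by linarith)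
        exact mul_le_of_le_one_left (by positivity) (hn1 _ _ hp.2)
      · rw [if_neg hq]
        have b1 : ¬ ℓ (p.1 * p.2) ≤ 3 * R := fun h => hq ((hℓ _ _).2 h)
        have b2 := h1 p.1 p.2 hp.2
        rw [hn3 (p.1 * p.2) (by omega), hn3 p.1 (by omega)]
        have : 0 ≤ W * (0 + f p.1 ^ 2) := by positivity
        simpa using this
    refine (Finset.sum_le_sum e1).trans ?_
    rw [← Finset.mul_sum, Finset.sum_add_distrib]
    have e2 : ∑ p ∈ B ×ˢ T, f p.1 ^ 2 = T.card * ∑ x ∈ B, f x ^ 2 := by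
      rw [Finset.sum_product_right]
      simp only
      rw [Finset.sum_const, nsmul_eq_mul]
    rw [e2]
    have e3 := cacc_shift (T := T) B f
    have e4 : W * (∑ p ∈ B ×ˢ T, (if p.1 * p.2 ∈ B then f (p.1 * p.2) ^ 2 else 0) +
        T.card * ∑ x ∈ B, f x ^ 2) ≤ W * (T.card * ∑ x ∈ B, f x ^ 2 + T.card * ∑ x ∈ B, f x ^ 2) :=
      mul_le_mul_of_nonneg_left (by linarith) (by linarith)
    refine e4.trans (le_of_eq ?_)
    ring
  have hAD : (∑ p ∈ B ×ˢ T, w p.2 * (n p.1 ^ 2 * (f (p.1 * p.2) - f p.1) ^ 2)) / 2 -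
      4 * ∑ p ∈ B ×ˢ T, w p.2 * ((n (p.1 * p.2) - n p.1) ^ 2 *
        (f (p.1 * p.2) ^ 2 + f p.1 ^ 2)) ≤ 0 := by
    rw [← key, Finset.sum_div, Finset.mul_sum, ← Finset.sum_sub_distrib]
    refine Finset.sum_le_sum fun p hp => ?_
    rw [Finset.mem_product] at hp
    have a0 : 0 ≤ w p.2 := zero_le_one.trans (hw.one_le _ hp.2)
    have h := mul_le_mul_of_nonneg_left
      (cacc_pointwise (n (p.1 * p.2)) (n p.1) (f (p.1 * p.2)) (f p.1)) a0
    refine le_trans (le_of_eq ?_) h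
    ring
  have hfin : (R : ℝ) ^ 2 * ∑ x ∈ bl T R, grad T f x ≤ 16 * W * T.card * ∑ x ∈ B, f x ^ 2 := by
    linarith
  rw [div_mul_eq_mul_div, le_div_iff₀ (by positivity)]
  linarith

end Pool.Agent.Lib.MP_322c76_al.BW
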