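import Pool.Agent.Lib.MP_322c76_al.BW.Defs
import Pool.Agent.Lib.MP_322c76_al.BW.Act

set_option autoImplicit false

namespace Pool.Agent.Lib.MP_322c76_al.BW

variable {k n D : ℕ}

/-! ROW EAct: facts on `E` -/

theorem E_act (Γ : ℕ) (ω : Conf k) (g : Wd k) (x y : ℤ) :
    act ω g y ∈ E Γ ω (act ω g x) ↔ y ∈ E Γ ω x := by
  constructor
  · intro h g'
    have h1 := h (g' * g⁻¹)
    rw [act_mul, act_mul, act_inv_act, act_inv_act] at h1
    exact h1
  · intro h g'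
    have h1 := h (g' * g)
    rw [act_mul, act_mul] at h1
    exact h1

theorem E_reroot (Γ : ℕ) (ω : Conf k) (g : Wd k) (x y : ℤ) :
    y ∈ E Γ (reroot ω g) x ↔ y + act ω g 0 ∈ E Γ ω (x + act ω g 0) := by
  constructor
  · intro h g'
    have h1 := h g'
    rw [act_reroot, act_reroot, sub_sub_sub_cancel_right] at h1
    exact h1
  · intro h g'
    have h1 := h g'
    rw [act_reroot, act_reroot, sub_sub_sub_cancel_right]
    exact h1

theorem E_self (Γ : ℕ) (ω : Conf k) (x : ℤ) : x ∈ E Γ ω x := by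
  intro g
  rw [sub_self, abs_zero]
  exact Int.natCast_nonneg Γ

theorem E_symm {Γ : ℕ} {ω : Conf k} {x y : ℤ} (h : y ∈ E Γ ω x) : x ∈ E Γ ω y := by
  intro g
  rw [abs_sub_comm]
  exact h g

theorem E_trans {Γ Γ' : ℕ} {ω : Conf k} {x y z : ℤ} (h : y ∈ E Γ ω x) (h' : z ∈ E Γ' ω y) :
    z ∈ E (Γ + Γ') ω x := by
  intro g
  have h1 := h g
  have h2 := h' g
  have h3 := abs_sub_le (act ω g z) (act ω g y) (act ω g x)
  push_cast
  linarith

theorem E_mono {Γ Γ' : ℕ} (h : Γ ≤ Γ') (ω : Conf k) (x : ℤ) : E Γ ω x ⊆ E Γ' ω x := by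
  intro y hy g
  exact (hy g).trans (by exact_mod_cast h)

theorem E_abs {Γ : ℕ} {ω : Conf k} {x y : ℤ} (h : y ∈ E Γ ω x) : |y - x| ≤ Γ := by
  have h1 := h 1
  rw [act_one] at h1
  exact h1

theorem E_finite (Γ : ℕ) (ω : Conf k) (x : ℤ) : (E Γ ω x).Finite := by
  refine (Set.finite_Icc (x - Γ) (x + Γ)).subset ?_
  intro y hy
  have h := abs_le.mp (E_abs hy)
  exact ⟨by linarith [h.1], by linarith [h.2]⟩

end Pool.Agent.Lib.MP_322c76_al.BW
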