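import Pool.Agent.Lib.MP_322c76_al.BW.Defs
import Pool.Agent.Lib.MP_322c76_al.BW.EAct

set_option autoImplicit false

namespace Pool.Agent.Lib.MP_322c76_al.BW

variable {k n D : ℕ}

/-! ROW Cycf: facts on `Cyc`. `Cyc` at `x` for `h` gives `Cyc` at `g x` for `g h g⁻¹`, and at `h^i x` for
`h`; the points `h^i x`, `i < m`, are pairwise in different classes; for maximal `m` also
`h^m x ∈ E Γ₀ ω x` (else `Cyc (m+1)`). -/

private theorem cycf_mul (ω : Conf k) (g h : Wd k) (x : ℤ) :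
    act ω (g * h) x = act ω g (act ω h x) := by
  simp [act]

theorem cyc_conj {Γ₀ : ℕ} {ω : Conf k} {x : ℤ} {h : Wd k} {m : ℕ} (hc : Cyc Γ₀ ω x h m) (g : Wd k) :
    Cyc Γ₀ ω (act ω g x) (g * h * g⁻¹) m := by
  intro i hi him hmem
  rw [conj_pow, ← cycf_mul, inv_mul_cancel_right, cycf_mul, E_act] at hmem
  exact hc i hi him hmem

theorem cyc_ne {Γ₀ : ℕ} {ω : Conf k} {x : ℤ} {h : Wd k} {m : ℕ} (hc : Cyc Γ₀ ω x h m) {i j : ℕ}
    (hij : i < j) (hj : j < m) : act ω (h ^ j) x ∉ E Γ₀ ω (act ω (h ^ i) x) := by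
  intro hmem
  obtain ⟨d, rfl⟩ : ∃ d, j = i + d := ⟨j - i, by omega⟩
  rw [pow_add, cycf_mul, E_act] at hmem
  exact hc d (by omega) (by omega) hmem

theorem cyc_close {S : Sys k n D} {Γ₀ m : ℕ} (hS : Stable S Γ₀) (hM : MaxCyc S Γ₀ m) {ω : Conf k}
    (hω : ω ∈ S.Y) {x : ℤ} (hx : x ∈ Orb ω) {h : Wd k} (hc : Cyc Γ₀ ω x h m) :
    act ω (h ^ m) x ∈ E Γ₀ ω x := by
  by_contra hn
  refine hM.2.2 ω hω x hx h fun i hi him => ?_
  rcases Nat.lt_or_ge i m with h1 | h1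
  · exact hc i hi h1
  · obtain rfl : i = m := by omega
    exact hn

theorem cyc_rotate {S : Sys k n D} {Γ₀ m : ℕ} (hS : Stable S Γ₀) (hM : MaxCyc S Γ₀ m) {ω : Conf k}
    (hω : ω ∈ S.Y) {x : ℤ} (hx : x ∈ Orb ω) {h : Wd k} (hc : Cyc Γ₀ ω x h m) (i : ℕ) :
    Cyc Γ₀ ω (act ω (h ^ i) x) h m := by
  intro j hj hjm hmem
  rw [← cycf_mul, ← pow_add, add_comm, pow_add, cycf_mul, E_act] at hmem
  exact hc j hj hjm hmem

end Pool.Agent.Lib.MP_322c76_al.BW
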