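import Pool.Agent.Lib.MP_322c76_al.BW.Defs
import Pool.Agent.Lib.MP_322c76_al.BW.Act

set_option autoImplicit false

namespace Pool.Agent.Lib.MP_322c76_al.BW

variable {k n D : ℕ}

/-! ROW Hair (no hairpins). See the note: `H` = maximum over `ω ∈ Y` of the number of points of
`Orb ω ∩ [-W', W']`, `W' = max W D`, attained at `ω₁`, all these points reached from `0` by words of
length `≤ r₀`; by `recu` every point `p` of `Orb ω` has a word `g`, `|g| ≤ λ`, such that
`t = g p` is TIGHT: all points of `Orb ω ∩ [t-W', t+W']` are reached from `t` by words of length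
`≤ r₀`. Let `x, y ∈ Orb ω`, `|x - y| ≤ W'`, let `g` be a shortest word with `g x = y`, `v_i` the points
on the way, `R = |g|`; these are distinct, `ρ = max |v_i - x|`, `R ≤ 2ρ`, say `ρ = v_M - x > 0`.
Take `t` tight within `λ` of the last `v_i ≤ x + ρ/2` before `M`. If `ρ` is large then
`x + W' < t < v_M`, and the way passes within `D` of `t` before and after `M` (at `v_i`, `v_j`),
`v_j = g' v_i` with `|g'| ≤ 2 r₀`, so `j - i ≤ 2 r₀` (shortest word), so
`ρ ≤ (t - x) + D + 2 D r₀ ≤ ρ/2 + Dλ + D + 2 D r₀`. -/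

/-- discrete intermediate values -/
theorem hair_divt (d : ℤ) (hd : 0 ≤ d) (u : ℕ → ℤ) (c : ℤ) (a : ℕ) (b : ℕ) (hab : a ≤ b)
    (hs : ∀ i, a ≤ i → i < b → |u (i + 1) - u i| ≤ d) (h1 : u a ≤ c) (h2 : c ≤ u b) :
    ∃ i, a ≤ i ∧ i ≤ b ∧ |u i - c| ≤ d := by
  induction b, hab using Nat.le_induction with
  | base => exact ⟨a, le_rfl, le_rfl, by rw [le_antisymm h1 h2, sub_self, abs_zero]; exact hd⟩
  | succ b hab ih =>
    by_cases h : c ≤ u b
    · obtain ⟨i, h3, h4, h5⟩ := ih (fun i hi hi' => hs i hi (by omega)) h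
      exact ⟨i, h3, by omega, h5⟩
    · push Not at h
      have h3 := hs b hab (Nat.lt_succ_self b)
      refine ⟨b, hab, by omega, ?_⟩
      rw [abs_le] at h3 ⊢
      constructor
      · linarith [h3.2]
      · linarith

/-- telescoping -/
theorem hair_tele (d : ℤ) (u : ℕ → ℤ) (a b : ℕ) (hab : a ≤ b)
    (hs : ∀ i, a ≤ i → i < b → |u (i + 1) - u i| ≤ d) : u b ≤ u a + d * ((b : ℤ) - a) := by
  induction b, hab using Nat.le_induction with
  | base => simp
  | succ b hab ih =>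
    have h1 := ih (fun i hi hi' => hs i hi (by omega))
    have h2 := (abs_le.1 (hs b hab (Nat.lt_succ_self b))).2
    push_cast
    linarith

/-- the combinatorial core -/
theorem hair_core (d w l r : ℤ) (hd : 0 ≤ d) (hdw : d ≤ w) (hl : 0 ≤ l) (hr : 0 ≤ r) (u : ℕ → ℤ)
    (R M : ℕ) (hM : M ≤ R) (h0 : u 0 = 0) (hR : u R ≤ w)
    (hs : ∀ i < R, |u (i + 1) - u i| ≤ d)
    (ht : ∀ i ≤ R, ∃ τ : ℤ, |τ - u i| ≤ d * l ∧ ∀ a b : ℕ, a ≤ b → b ≤ R → |u a - τ| ≤ w →
      |u b - τ| ≤ w → (b : ℤ) ≤ a + 2 * r) :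
    u M ≤ 2 * (w + 2 * d + d * l + d * (2 * r)) + 2 := by
  by_contra hcon
  push Not at hcon
  have hdl : 0 ≤ d * l := mul_nonneg hd hl
  have hdr : 0 ≤ d * (2 * r) := mul_nonneg hd (by linarith)
  set c : ℤ := u M / 2 with hc
  have hc1 : 2 * c ≤ u M := by omega
  have hc2 : u M ≤ 2 * c + 1 := by omega
  obtain ⟨i, -, hi, h1⟩ := hair_divt d hd u c 0 M (Nat.zero_le _) (fun i _ hi => hs i (by omega))
    (by rw [h0]; omega) (by omega)
  obtain ⟨τ, h2, h3⟩ := ht i (by omega)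
  rw [abs_le] at h1 h2
  have hτ1 : w < τ := by linarith [h1.1, h2.1]
  have hτ2 : τ ≤ u M := by linarith [h1.2, h2.2]
  obtain ⟨a, -, ha, h4⟩ := hair_divt d hd u τ 0 M (Nat.zero_le _) (fun i _ hi => hs i (by omega))
    (by rw [h0]; linarith) hτ2
  obtain ⟨b, hb, hb', h5⟩ := hair_divt d hd (fun i => - u i) (-τ) M R hM
    (fun i _ hi => by
      have := hs i hi
      rw [abs_le] at this ⊢
      constructor <;> linarith [this.1, this.2])
    (by linarith) (by linarith)
  have h5' : |u b - τ| ≤ d := by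
    rw [abs_le] at h5 ⊢
    constructor <;> linarith [h5.1, h5.2]
  have h6 := h3 a b (by omega) hb' (h4.trans hdw) (h5'.trans hdw)
  have h7 := hair_tele d u a M ha (fun i _ hi => hs i (by omega))
  have h8 : d * ((M : ℤ) - a) ≤ d * (2 * r) := by
    apply mul_le_mul_of_nonneg_left _ hd
    have : (M : ℤ) ≤ b := by exact_mod_cast hb
    linarith
  rw [abs_le] at h4
  linarith [h4.2, h1.2, h2.2]

/-- a shortest path in the orbit -/
theorem hair_path {ω : Conf k} (h : ∀ j x, |ω j x - x| ≤ D) {x y : ℤ} (hx : x ∈ Orb ω)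
    (hy : y ∈ Orb ω) :
    ∃ (R : ℕ) (v : ℕ → ℤ), v 0 = x ∧ v R = y ∧ (∀ i, v i ∈ Orb ω) ∧
      (∀ i < R, |v (i + 1) - v i| ≤ D) ∧ (∃ g : Wd k, g.norm ≤ R ∧ act ω g x = y) ∧
      ∀ i j, i ≤ j → j ≤ R → ∀ g : Wd k, act ω g (v i) = v j → j ≤ i + g.norm := by
  classical
  have hex : ∃ m : ℕ, ∃ g : Wd k, g.norm = m ∧ act ω g x = y := by
    obtain ⟨g, hg⟩ := orb_trans hx hy
    exact ⟨_, g, rfl, hg⟩
  obtain ⟨g, hgn, hg⟩ := Nat.find_spec hex
  set R := Nat.find hex with hR
  have hmin : ∀ g' : Wd k, act ω g' x = y → R ≤ g'.norm := fun g' hg' =>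
    Nat.find_min' hex ⟨g', rfl, hg'⟩
  set L := g.toWord with hL
  have hLR : L.length = R := hgn
  have hgL : FreeGroup.mk L = g := FreeGroup.mk_toWord
  refine ⟨R, fun i => act ω (FreeGroup.mk (L.drop (R - i))) x, ?_, ?_, ?_, ?_, ?_, ?_⟩
  · have : L.drop (R - 0) = [] := by
      rw [List.drop_eq_nil_iff]
      omega
    simp only [this]
    rw [← FreeGroup.one_eq_mk, act_one]
    rfl
  · simp only [Nat.sub_self, List.drop_zero]
    rw [hgL, hg]
  · exact fun i => act_mem_orb hx _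
  · intro i hi
    have h1 : L.drop (R - (i + 1)) = [L[R - (i + 1)]'(by omega)] ++ L.drop (R - i) := by
      rw [List.drop_eq_getElem_cons (by omega : R - (i + 1) < L.length)]
      have : R - (i + 1) + 1 = R - i := by omega
      rw [this]
      rfl
    simp only
    rw [h1, ← FreeGroup.mul_mk, act_mul]
    refine (act_disp h _ _).trans ?_
    have h2 : (FreeGroup.mk [L[R - (i + 1)]'(by omega)] : Wd k).norm ≤ 1 := by
      refine (FreeGroup.norm_mk_le).trans ?_
      simp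
    have h3 : ((FreeGroup.mk [L[R - (i + 1)]'(by omega)] : Wd k).norm : ℤ) ≤ 1 := by
      exact_mod_cast h2
    nlinarith [Int.natCast_nonneg D]
  · exact ⟨g, hgn.le, hg⟩
  · intro i j hij hjR g' hg'
    simp only at hg'
    have h1 : act ω (FreeGroup.mk (L.take (R - j)) * (g' * FreeGroup.mk (L.drop (R - i)))) x = y := by
      rw [act_mul, act_mul, hg', ← act_mul, FreeGroup.mul_mk, List.take_append_drop, hgL, hg]
    have h2 := hmin _ h1
    have h3 : (FreeGroup.mk (L.take (R - j)) : Wd k).norm ≤ R - j := by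
      refine (FreeGroup.norm_mk_le).trans ?_
      simp
    have h4 : (FreeGroup.mk (L.drop (R - i)) : Wd k).norm ≤ i := by
      refine (FreeGroup.norm_mk_le).trans ?_
      rw [List.length_drop]
      omega
    have h5 := FreeGroup.norm_mul_le (FreeGroup.mk (L.take (R - j)))
      (g' * FreeGroup.mk (L.drop (R - i)))
    have h6 := FreeGroup.norm_mul_le g' (FreeGroup.mk (L.drop (R - i)))
    omega

/-- tight points, near the origin -/
theorem hair_tight0 (S : Sys k n D) (W : ℕ) : ∃ r l : ℕ, ∀ ω ∈ S.Y, ∃ t : ℤ, |t| ≤ D * l ∧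
    ∀ z ∈ Orb ω, |z - t| ≤ W → ∃ g : Wd k, g.norm ≤ r ∧ act ω g t = z := by
  classical
  let F : Conf k → Set ℤ := fun ω => Orb ω ∩ Set.Icc (-(W : ℤ)) W
  have hfin : ∀ ω, (F ω).Finite := fun ω => (Set.finite_Icc _ _).subset Set.inter_subset_right
  let s : Set ℕ := {m | ∃ ω ∈ S.Y, (F ω).ncard = m}
  have hsne : s.Nonempty := by
    obtain ⟨ω, hω⟩ := S.ne
    exact ⟨_, ω, hω, rfl⟩
  have hsb : BddAbove s := by
    refine ⟨(Set.Icc (-(W : ℤ)) W).ncard, ?_⟩
    rintro m ⟨ω, -, rfl⟩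
    exact Set.ncard_le_ncard Set.inter_subset_right (Set.finite_Icc _ _)
  obtain ⟨ω₁, hω₁, hmax⟩ := Nat.sSup_mem hsne hsb
  have hle : ∀ ω ∈ S.Y, (F ω).ncard ≤ (F ω₁).ncard := by
    intro ω hω
    rw [hmax]
    exact le_csSup hsb ⟨ω, hω, rfl⟩
  have hG : ∀ z : ℤ, ∃ g : Wd k, z ∈ Orb ω₁ → act ω₁ g 0 = z := by
    intro z
    by_cases hz : z ∈ Orb ω₁
    · obtain ⟨g, hg⟩ := hz
      exact ⟨g, fun _ => hg⟩
    · exact ⟨1, fun h => absurd h hz⟩
  choose G hG using hG
  let r : ℕ := (hfin ω₁).toFinset.sup fun z => (G z).norm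
  have hr : ∀ z ∈ F ω₁, (G z).norm ≤ r := fun z hz =>
    Finset.le_sup (f := fun z => (G z).norm) ((hfin ω₁).mem_toFinset.2 hz)
  obtain ⟨l, hl⟩ := S.recu ω₁ hω₁ (D * r)
  refine ⟨r, l, fun ω hω => ?_⟩
  obtain ⟨g, hgl, hA⟩ := hl ω hω
  have hω' : reroot ω g ∈ S.Y := S.rr ω hω g
  have hsub : ∀ z ∈ F ω₁, act (reroot ω g) (G z) 0 = z := by
    intro z hz
    rw [Agree.act_eq (S.disp _ hω') hA (G z) 0 ?_]
    · exact hG z hz.1
    · rw [abs_zero, zero_add]
      have := hr z hz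
      exact_mod_cast Nat.mul_le_mul_left D this
  have heq : F ω₁ = F (reroot ω g) := by
    refine Set.eq_of_subset_of_ncard_le ?_ (hle _ hω') (hfin _)
    intro z hz
    exact ⟨⟨G z, hsub z hz⟩, hz.2⟩
  refine ⟨act ω g 0, ?_, ?_⟩
  · have h1 := act_disp (S.disp ω hω) g 0
    rw [sub_zero] at h1
    refine h1.trans ?_
    exact_mod_cast Nat.mul_le_mul_left D hgl
  · intro z hz hzt
    have h1 : z - act ω g 0 ∈ F (reroot ω g) := by
      refine ⟨?_, ?_⟩
      · rw [mem_orb_reroot, sub_add_cancel]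
        exact hz
      · rw [Set.mem_Icc]
        exact abs_le.1 hzt
    rw [← heq] at h1
    refine ⟨G (z - act ω g 0), hr _ h1, ?_⟩
    have h2 := hsub _ h1
    rw [act_reroot, zero_add] at h2
    linarith

/-- tight points -/
theorem hair_tight (S : Sys k n D) (W : ℕ) : ∃ r l : ℕ, ∀ ω ∈ S.Y, ∀ p ∈ Orb ω, ∃ t : ℤ,
    |t - p| ≤ D * l ∧
    ∀ z ∈ Orb ω, |z - t| ≤ W → ∃ g : Wd k, g.norm ≤ r ∧ act ω g t = z := by
  obtain ⟨r, l, h⟩ := hair_tight0 S W
  refine ⟨r, l, fun ω hω p hp => ?_⟩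
  obtain ⟨gp, rfl⟩ := hp
  obtain ⟨t, h1, h2⟩ := h (reroot ω gp) (S.rr ω hω gp)
  refine ⟨t + act ω gp 0, by rwa [add_sub_cancel_right], fun z hz hzt => ?_⟩
  obtain ⟨g, hg, hg'⟩ := h2 (z - act ω gp 0) (by rw [mem_orb_reroot, sub_add_cancel]; exact hz)
    (by
      have : z - act ω gp 0 - t = z - (t + act ω gp 0) := by ring
      rwa [this])
  refine ⟨g, hg, ?_⟩
  rw [act_reroot] at hg'
  linarith

theorem no_hairpin (S : Sys k n D) (W : ℕ) : ∃ κ : ℕ, ∀ ω ∈ S.Y, ∀ x ∈ Orb ω, ∀ y ∈ Orb ω,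
    |x - y| ≤ W → ∃ g : Wd k, g.norm ≤ κ ∧ act ω g x = y := by
  classical
  obtain ⟨r, l, htight⟩ := hair_tight S (max W D)
  set B : ℕ := 2 * (max W D + 2 * D + D * l + D * (2 * r)) + 2 with hB
  refine ⟨2 * B, fun ω hω x hx y hy hxy => ?_⟩
  have hdisp := S.disp ω hω
  obtain ⟨R, v, hv0, hvR, hvo, hvs, ⟨g, hgR, hg⟩, hgeo⟩ := hair_path hdisp hx hy
  have hWD : (W : ℤ) ≤ ((max W D : ℕ) : ℤ) := by exact_mod_cast le_max_left W D
  have hbound : ∀ σ : ℤ, (σ = 1 ∨ σ = -1) → ∀ M ≤ R, σ * (v M - x) ≤ B := by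
    intro σ hσ M hM
    have hσa : ∀ z : ℤ, |σ * z| = |z| := by
      intro z
      rcases hσ with rfl | rfl
      · rw [one_mul]
      · rw [neg_one_mul, abs_neg]
    have h1 := hair_core (D : ℤ) ((max W D : ℕ) : ℤ) (l : ℤ) (r : ℤ) (Int.natCast_nonneg D)
      (by exact_mod_cast le_max_right W D) (Int.natCast_nonneg l) (Int.natCast_nonneg r)
      (fun i => σ * (v i - x)) R M hM (by simp only [hv0, sub_self, mul_zero])
      (by
        simp only [hvR]
        refine (le_abs_self _).trans ?_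
        rw [hσa, abs_sub_comm]
        exact hxy.trans hWD)
      (fun i hi => by
        have : σ * (v (i + 1) - x) - σ * (v i - x) = σ * (v (i + 1) - v i) := by ring
        simp only [this]
        rw [hσa]
        exact hvs i hi)
      (fun i hi => by
        obtain ⟨t, ht1, ht2⟩ := htight ω hω (v i) (hvo i)
        refine ⟨σ * (t - x), ?_, ?_⟩
        · have : σ * (t - x) - σ * (v i - x) = σ * (t - v i) := by ring
          simp only [this]
          rw [hσa]
          exact ht1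
        · intro a b hab hbR ha hb
          have ha' : |v a - t| ≤ ((max W D : ℕ) : ℤ) := by
            have : σ * (v a - x) - σ * (t - x) = σ * (v a - t) := by ring
            simp only [this] at ha
            rwa [hσa] at ha
          have hb' : |v b - t| ≤ ((max W D : ℕ) : ℤ) := by
            have : σ * (v b - x) - σ * (t - x) = σ * (v b - t) := by ring
            simp only [this] at hb
            rwa [hσa] at hb
          obtain ⟨ga, hga, hga'⟩ := ht2 (v a) (hvo a) ha'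
          obtain ⟨gb, hgb, hgb'⟩ := ht2 (v b) (hvo b) hb'
          have h2 : act ω (gb * ga⁻¹) (v a) = v b := by
            rw [act_mul, ← hga', act_inv_act, hgb']
          have h3 := hgeo a b hab hbR _ h2
          have h4 := FreeGroup.norm_mul_le gb ga⁻¹
          rw [FreeGroup.norm_inv_eq] at h4
          have h5 : b ≤ a + 2 * r := by omega
          exact_mod_cast h5)
    refine h1.trans (le_of_eq ?_)
    rw [hB]
    push_cast
    ring
  have hmem : ∀ i ∈ Finset.range (R + 1), v i ∈ Finset.Icc (x - B) (x + B) := by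
    intro i hi
    rw [Finset.mem_range] at hi
    have h1 := hbound 1 (Or.inl rfl) i (by omega)
    have h2 := hbound (-1) (Or.inr rfl) i (by omega)
    rw [Finset.mem_Icc]
    constructor <;> linarith
  have hinj : Set.InjOn v (Finset.range (R + 1) : Set ℕ) := by
    have key : ∀ i j, i < j → j ≤ R → v i ≠ v j := by
      intro i j hij hj he
      have h1 := hgeo i j hij.le hj 1 (by rw [act_one]; exact he)
      rw [FreeGroup.norm_one] at h1
      omega
    intro i hi j hj he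
    rw [Finset.coe_range, Set.mem_Iio] at hi hj
    rcases lt_trichotomy i j with h1 | h1 | h1
    · exact absurd he (key i j h1 (by omega))
    · exact h1
    · exact absurd he.symm (key j i h1 (by omega))
  have hcard := Finset.card_le_card_of_injOn v hmem hinj
  rw [Finset.card_range, Int.card_Icc] at hcard
  refine ⟨g, hgR.trans ?_, hg⟩
  omega

end Pool.Agent.Lib.MP_322c76_al.BW
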