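import Pool.Agent.Lib.MP_322c76_al.BW.Defs
import Pool.Agent.Lib.MP_322c76_al.BW.EAct

set_option autoImplicit false

namespace Pool.Agent.Lib.MP_322c76_al.BW

variable {k n D : ℕ}

/-! ROW Rel: with `Γ₀` stable, `y ∈ E Γ₀ ω x` is an equivalence relation on `Orb ω`. -/

theorem rel_trans {S : Sys k n D} {Γ₀ : ℕ} (hS : Stable S Γ₀) {ω : Conf k} (hω : ω ∈ S.Y)
    {x y z : ℤ} (hx : x ∈ Orb ω) (h1 : y ∈ E Γ₀ ω x) (h2 : z ∈ E Γ₀ ω y) : z ∈ E Γ₀ ω x :=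
  hS ω hω (Γ₀ + Γ₀) x hx (E_trans h1 h2)

end Pool.Agent.Lib.MP_322c76_al.BW
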