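import Pool.Agent.Lib.MP_322c76_al.BW.Defs
import Pool.Agent.Lib.MP_322c76_al.BW.Act
import Pool.Agent.Lib.MP_322c76_al.BW.EAct
import Pool.Agent.Lib.MP_322c76_al.BW.Cycf
import Pool.Agent.Lib.MP_322c76_al.BW.Rel

set_option autoImplicit false

namespace Pool.Agent.Lib.MP_322c76_al.BW

variable {k n D : ℕ}

/-! ROW Lem1. Suppose `u` fixes the classes of `h^i x`, `1 ≤ i < m`, but not that of `x`. For
`h' = u⁻¹ h⁻¹` the points `h'^i x` are equivalent to `h^(m-i) x` for `1 ≤ i < m` and `h'^m x` is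
equivalent to `u⁻¹ x`, which is equivalent to none of `x, h^i x`: `Cyc (m+1)`, contradiction. -/

theorem lemma1 {S : Sys k n D} {Γ₀ m : ℕ} (hS : Stable S Γ₀) (hM : MaxCyc S Γ₀ m) {ω : Conf k}
    (hω : ω ∈ S.Y) {x : ℤ} (hx : x ∈ Orb ω) {h : Wd k} (hc : Cyc Γ₀ ω x h m) (u : Wd k)
    (hu : ∀ i : ℕ, 0 < i → i < m → act ω u (act ω (h ^ i) x) ∈ E Γ₀ ω (act ω (h ^ i) x)) :
    act ω u x ∈ E Γ₀ ω x := by
  by_contra hcon
  have hm2 : 2 ≤ m := hM.1
  have hinv : ∀ y : ℤ, act ω u y ∈ E Γ₀ ω y → act ω u⁻¹ y ∈ E Γ₀ ω y := by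
    intro y hy
    have h1 := (E_act Γ₀ ω u⁻¹ y (act ω u y)).2 hy
    rw [act_inv_act] at h1
    exact E_symm h1
  have hinv' : ∀ y : ℤ, act ω u⁻¹ y ∈ E Γ₀ ω y → act ω u y ∈ E Γ₀ ω y := by
    intro y hy
    have h1 := (E_act Γ₀ ω u y (act ω u⁻¹ y)).2 hy
    rw [act_act_inv] at h1
    exact E_symm h1
  have hfix : ∀ i : ℕ, 0 < i → i < m →
      act ω u⁻¹ (act ω (h ^ i) x) ∈ E Γ₀ ω (act ω (h ^ i) x) := fun i h1 h2 =>
    hinv _ (hu i h1 h2)
  set h' : Wd k := u⁻¹ * h⁻¹ with hh'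
  have hstep : ∀ j : ℕ, act ω h' (act ω (h ^ (j + 1)) x) = act ω u⁻¹ (act ω (h ^ j) x) := by
    intro j
    rw [hh', act_mul, act_pow, act_inv_act]
  -- one step of the induction
  have hgen : ∀ i j : ℕ, act ω (h' ^ i) x ∈ E Γ₀ ω (act ω (h ^ (j + 1)) x) →
      act ω (h' ^ (i + 1)) x ∈ E Γ₀ ω (act ω u⁻¹ (act ω (h ^ j) x)) := by
    intro i j hij
    have h1 := (E_act Γ₀ ω h' (act ω (h ^ (j + 1)) x) (act ω (h' ^ i) x)).2 hij
    rwa [hstep, ← act_pow] at h1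
  have hind : ∀ i : ℕ, i + 1 < m →
      act ω (h' ^ (i + 1)) x ∈ E Γ₀ ω (act ω (h ^ (m - (i + 1))) x) := by
    intro i
    induction i with
    | zero =>
      intro h1
      have h2 : act ω (h' ^ 0) x ∈ E Γ₀ ω (act ω (h ^ (m - 1 + 1)) x) := by
        rw [pow_zero, act_one, Nat.sub_add_cancel (by omega)]
        exact E_symm (cyc_close hS hM hω hx hc)
      have h3 := hgen 0 (m - 1) h2
      exact rel_trans hS hω (act_mem_orb hx _) (hfix (m - 1) (by omega) (by omega)) h3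
    | succ i ih =>
      intro h1
      have h2 := ih (by omega)
      have e : m - (i + 1) = m - (i + 1 + 1) + 1 := by omega
      rw [e] at h2
      have h3 := hgen (i + 1) _ h2
      exact rel_trans hS hω (act_mem_orb hx _) (hfix _ (by omega) (by omega)) h3
  refine hM.2.2 ω hω x hx h' fun i hi0 him => ?_
  rcases Nat.lt_succ_iff_lt_or_eq.1 him with him | him
  · obtain ⟨j, rfl⟩ : ∃ j, i = j + 1 := ⟨i - 1, by omega⟩
    intro hE
    have h1 := hind j him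
    -- `x ~ h'^(j+1) x ~ h^(m-(j+1)) x`
    exact hc (m - (j + 1)) (by omega) (by omega) (rel_trans hS hω hx hE (E_symm h1))
  · subst him
    intro hE
    have h1 := hind (i - 2) (by omega)
    have e1 : i - 2 + 1 = i - 1 := by omega
    have e2 : i - (i - 1) = 0 + 1 := by omega
    rw [e1, e2] at h1
    have h2 := hgen (i - 1) 0 h1
    rw [Nat.sub_add_cancel (by omega), pow_zero, act_one] at h2
    exact hcon (hinv' x (rel_trans hS hω hx hE (E_symm h2)))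

end Pool.Agent.Lib.MP_322c76_al.BW
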