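import Pool.Agent.Lib.MP_322c76_al.BW.Defs
import Pool.Agent.Lib.MP_322c76_al.BW.EAct

set_option autoImplicit false

namespace Pool.Agent.Lib.MP_322c76_al.BW

variable {k n D : ℕ}

/-! ROW ECst. For `y ∉ E Γ ω 0`, `|y| ≤ Γ`, some word separates `y` and `0`, and does so for all
`ω'` that agree with `ω` on a large window (finitely many `y`): so nearby `E Γ ω' 0 ⊆ E Γ ω 0`.
`(E Γ ω 0).ncard` is invariant under `reroot` (`E_act`, `E_reroot`: translation by `act ω g 0`). Take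
`ω₀ ∈ Y` with the least `ncard =: s`; near `ω₀` it is `s`; by `recu` it is `s` everywhere. Then the
inclusion nearby is an equality. -/

/-- nearby, the set `E` can only shrink -/
private theorem ecst_upper (S : Sys k n D) (Γ : ℕ) {ω : Conf k} :
    ∃ R : ℕ, ∀ ω' ∈ S.Y, Agree R ω' ω → E Γ ω' 0 ⊆ E Γ ω 0 := by
  classical
  have key : ∀ y : ℤ, ∃ R : ℕ, ∀ ω' ∈ S.Y, Agree R ω' ω → y ∈ E Γ ω' 0 → y ∈ E Γ ω 0 := by
    intro y
    by_cases hy : y ∈ E Γ ω 0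
    · exact ⟨0, fun _ _ _ _ => hy⟩
    · have hy' : ∃ g : Wd k, ¬ |act ω g y - act ω g 0| ≤ Γ := by
        by_contra hcon
        push Not at hcon
        exact hy hcon
      obtain ⟨g, hg⟩ := hy'
      refine ⟨y.natAbs + D * g.norm, fun ω' hω' hA hyE => ?_⟩
      exfalso
      have h1 := Agree.act_eq (S.disp ω' hω') hA g y (by push_cast; simp)
      have h2 := Agree.act_eq (S.disp ω' hω') hA g 0 (by push_cast; simp)
      have h3 := hyE g
      rw [h1, h2] at h3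
      exact hg h3
  choose R hR using key
  refine ⟨(Finset.Icc (-(Γ : ℤ)) Γ).sup R, fun ω' hω' hA y hy => ?_⟩
  have hyI : y ∈ Finset.Icc (-(Γ : ℤ)) Γ := by
    have h := E_abs hy
    rw [sub_zero, abs_le] at h
    exact Finset.mem_Icc.mpr h
  exact hR y ω' hω' (hA.mono (Finset.le_sup (f := R) hyI)) hy

private theorem ecst_reroot (Γ : ℕ) (ω : Conf k) (g : Wd k) :
    (E Γ (reroot ω g) 0).ncard = (E Γ ω 0).ncard := by
  have h : E Γ (reroot ω g) 0 = (fun y => act ω g y - act ω g 0) '' E Γ ω 0 := by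
    ext y
    rw [E_reroot]
    constructor
    · intro hy
      refine ⟨(act ω g).symm (y + act ω g 0), ?_, by simp⟩
      rw [← E_act Γ ω g]
      simpa using hy
    · rintro ⟨z, hz, rfl⟩
      rw [← E_act Γ ω g] at hz
      simpa using hz
  rw [h]
  refine Set.ncard_image_of_injective _ fun a b hab => ?_
  exact (act ω g).injective (sub_left_injective hab)

theorem E_card_const (S : Sys k n D) (Γ : ℕ) : ∃ s : ℕ, ∀ ω ∈ S.Y, (E Γ ω 0).ncard = s := by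
  classical
  have hex : ∃ s : ℕ, ∃ ω ∈ S.Y, (E Γ ω 0).ncard = s := by
    obtain ⟨ω, hω⟩ := S.ne
    exact ⟨_, ω, hω, rfl⟩
  obtain ⟨ω₀, hω₀, hs⟩ := Nat.find_spec hex
  obtain ⟨R, hR⟩ := ecst_upper S Γ (ω := ω₀)
  obtain ⟨L, hL⟩ := S.recu ω₀ hω₀ R
  refine ⟨Nat.find hex, fun ω hω => ?_⟩
  obtain ⟨g, -, hg⟩ := hL ω hω
  have hY := S.rr ω hω g
  rw [← ecst_reroot Γ ω g]
  refine le_antisymm ?_ (Nat.find_min' hex ⟨_, hY, rfl⟩)
  rw [← hs]
  exact Set.ncard_le_ncard (hR _ hY hg) (E_finite Γ ω₀ 0)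

theorem E_local (S : Sys k n D) (Γ : ℕ) : ∀ ω ∈ S.Y, ∃ R : ℕ, ∀ ω' ∈ S.Y, Agree R ω' ω →
    E Γ ω' 0 = E Γ ω 0 := by
  intro ω hω
  obtain ⟨s, hs⟩ := E_card_const S Γ
  obtain ⟨R, hR⟩ := ecst_upper S Γ (ω := ω)
  refine ⟨R, fun ω' hω' hA => ?_⟩
  exact Set.eq_of_subset_of_ncard_le (hR ω' hω' hA) (by rw [hs ω hω, hs ω' hω']) (E_finite Γ ω 0)

end Pool.Agent.Lib.MP_322c76_al.BW
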