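import Pool.Agent.Lib.MP_322c76_al.BW.Defs
import Pool.Agent.Lib.MP_322c76_al.BW.Cycf
import Pool.Agent.Lib.MP_322c76_al.BW.ECst

set_option autoImplicit false

namespace Pool.Agent.Lib.MP_322c76_al.BW

variable {k n D : ℕ}

/-! ROW Near. `Cyc` at `0` is a local condition (`E_local`), so it recurs (`recu`). -/

private theorem near_reroot {Γ₀ : ℕ} {ω : Conf k} {g h : Wd k} {m : ℕ} :
    Cyc Γ₀ (reroot ω g) 0 h m ↔ Cyc Γ₀ ω (act ω g 0) h m := by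
  have key : ∀ i : ℕ, act (reroot ω g) (h ^ i) 0 ∈ E Γ₀ (reroot ω g) 0 ↔
      act ω (h ^ i) (act ω g 0) ∈ E Γ₀ ω (act ω g 0) := by
    intro i
    rw [E_reroot, act_reroot, zero_add, sub_add_cancel]
  constructor
  · intro H i h1 h2 h3
    exact H i h1 h2 ((key i).2 h3)
  · intro H i h1 h2 h3
    exact H i h1 h2 ((key i).1 h3)

theorem cyc_near {S : Sys k n D} {Γ₀ m : ℕ} (hS : Stable S Γ₀) (hM : MaxCyc S Γ₀ m) :
    ∃ L : ℕ, ∀ ω ∈ S.Y, ∀ o ∈ Orb ω, ∃ g h : Wd k, g.norm ≤ L ∧ h.norm ≤ L ∧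
      Cyc Γ₀ ω (act ω g o) h m := by
  obtain ⟨-, ⟨ω₀, hω₀, x₀, ⟨g₀, rfl⟩, h, hc⟩, -⟩ := hM
  have hc1 : Cyc Γ₀ (reroot ω₀ g₀) 0 h m := near_reroot.2 hc
  have hω₁ := S.rr ω₀ hω₀ g₀
  obtain ⟨R, hR⟩ := E_local S Γ₀ (reroot ω₀ g₀) hω₁
  -- a window on which all the points `h^i 0` are seen
  obtain ⟨R', hR'⟩ : ∃ R' : ℕ, ∀ i < m, D * (h ^ i).norm ≤ R' := by
    refine ⟨∑ i ∈ Finset.range m, D * (h ^ i).norm, fun i hi => ?_⟩
    exact Finset.single_le_sum (f := fun i => D * (h ^ i).norm) (fun _ _ => Nat.zero_le _)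
      (Finset.mem_range.2 hi)
  obtain ⟨L, hL⟩ := S.recu _ hω₁ (max R R')
  refine ⟨max L h.norm, fun ω hω o ho => ?_⟩
  obtain ⟨g₁, rfl⟩ := ho
  obtain ⟨g, hg, hA⟩ := hL (reroot ω g₁) (S.rr ω hω g₁)
  rw [reroot_reroot] at hA
  refine ⟨g, h, hg.trans (le_max_left _ _), le_max_right _ _, ?_⟩
  rw [← act_mul]
  refine near_reroot.1 fun i h1 h2 h3 => hc1 i h1 h2 ?_
  have hω₂ := S.rr ω hω (g * g₁)
  rw [hR _ hω₂ (hA.mono (le_max_left _ _))] at h3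
  have h4 : act (reroot ω (g * g₁)) (h ^ i) 0 = act (reroot ω₀ g₀) (h ^ i) 0 := by
    refine Agree.act_eq (S.disp _ hω₂) (hA.mono (le_max_right _ _)) _ _ ?_
    have := hR' i h2
    rw [abs_zero, zero_add]
    exact_mod_cast this
  rwa [h4] at h3

end Pool.Agent.Lib.MP_322c76_al.BW
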