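import Pool.Agent.Lib.MP_322c76_al.BW.Defs
import Pool.Agent.Lib.MP_322c76_al.BW.ECst

set_option autoImplicit false

namespace Pool.Agent.Lib.MP_322c76_al.BW

variable {k n D : ℕ}

/-! ROW Sep (separation). Reroot at `x`; finitely many `y`; `cpt` with
`P t ω := y ∈ E Γ₀ ω 0 ∨ ∃ g, norm ≤ t ∧ Γ < |act ω g y - act ω g 0|`, and `E_local`. If
`y ∉ E Γ₀ ω 0` then `y ∉ E Γ ω 0` by stability. -/

private theorem sep_zero {S : Sys k n D} {Γ₀ : ℕ} (hS : Stable S Γ₀) (Γ : ℕ) (y : ℤ) :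
    ∃ t : ℕ, ∀ ω ∈ S.Y, y ∈ E Γ₀ ω 0 ∨
      ∃ g : Wd k, g.norm ≤ t ∧ (Γ : ℤ) < |act ω g y - act ω g 0| := by
  refine S.cpt (fun t ω => y ∈ E Γ₀ ω 0 ∨
      ∃ g : Wd k, g.norm ≤ t ∧ (Γ : ℤ) < |act ω g y - act ω g 0|) ?_ ?_
  · rintro t ω (h | ⟨g, hg, h⟩)
    · exact Or.inl h
    · exact Or.inr ⟨g, hg.trans (Nat.le_succ t), h⟩
  · intro ω hω
    by_cases hy : y ∈ E Γ₀ ω 0
    · obtain ⟨R, hR⟩ := E_local S Γ₀ ω hω
      refine ⟨0, R, fun ω' hω' hA => Or.inl ?_⟩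
      rw [hR ω' hω' hA]
      exact hy
    · have hy2 : y ∉ E Γ ω 0 := fun h => hy (hS ω hω Γ 0 (mem_orb_zero ω) h)
      have hy3 : ∃ g : Wd k, (Γ : ℤ) < |act ω g y - act ω g 0| := by
        by_contra hcon
        push Not at hcon
        exact hy2 hcon
      obtain ⟨g, hg⟩ := hy3
      refine ⟨g.norm, y.natAbs + D * g.norm, fun ω' hω' hA => Or.inr ⟨g, le_rfl, ?_⟩⟩
      have h1 : act ω' g y = act ω g y := by
        refine Agree.act_eq (S.disp ω' hω') hA g y ?_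
        rw [Int.abs_eq_natAbs]
        push_cast
        exact le_rfl
      have h2 : act ω' g 0 = act ω g 0 := by
        refine Agree.act_eq (S.disp ω' hω') hA g 0 ?_
        rw [abs_zero]
        push_cast
        have := abs_nonneg y
        linarith
      rw [h1, h2]
      exact hg

theorem separation {S : Sys k n D} {Γ₀ : ℕ} (hS : Stable S Γ₀) (ρ Γ : ℕ) : ∃ L : ℕ, ∀ ω ∈ S.Y,
    ∀ x ∈ Orb ω, ∀ y : ℤ, |y - x| ≤ ρ → y ∉ E Γ₀ ω x →
      ∃ g : Wd k, g.norm ≤ L ∧ Γ < |act ω g y - act ω g x| := by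
  choose t ht using fun y => sep_zero hS Γ y
  refine ⟨(Finset.Icc (-(ρ : ℤ)) ρ).sup t, fun ω hω x hx y hy hyE => ?_⟩
  obtain ⟨g₀, rfl⟩ := hx
  rcases ht (y - act ω g₀ 0) (reroot ω g₀) (S.rr ω hω g₀) with h | ⟨g, hg, h⟩
  · rw [E_reroot] at h
    exact absurd (by simpa using h) hyE
  · refine ⟨g, hg.trans (Finset.le_sup (f := t) ?_), ?_⟩
    · rw [Finset.mem_Icc]
      exact abs_le.mp hy
    · rw [act_reroot, act_reroot] at h
      simpa using h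

end Pool.Agent.Lib.MP_322c76_al.BW
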