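import Pool.Agent.Lib.MP_322c76_al.BW.Defs
import Pool.Agent.Lib.MP_322c76_al.BW.Act
import Pool.Agent.Lib.MP_322c76_al.BW.Sep

set_option autoImplicit false

namespace Pool.Agent.Lib.MP_322c76_al.BW

variable {k n D : ℕ}

/-! ROW Split (the induction step of Lemma 2, for a finite set of points). `P : Finset ℤ` of points
of `Orb ω`, pairwise in different classes; `T ⊆ P` the top part: `σ x ≥ σ y + Δ` for `x ∈ T`,
`y ∈ P \ T`, `|T| = t ≥ 2`. Then a word `g`, `|g| ≤ L(Γ')`, moves `P` so that a smaller nonempty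
part `T' ⊂ T` is by `Γ'` above the rest. (`Δ = 2 D L + Γ'`.) -/

/-- a finite set of integers has a gap or a small spread -/
private theorem split_gap (T : Finset ℤ) (hT : T.Nonempty) (φ : ℤ → ℤ) (Γ' : ℕ) :
    (∃ T' ⊂ T, T'.Nonempty ∧ ∀ x ∈ T', ∀ y ∈ T, y ∉ T' → φ y + Γ' ≤ φ x) ∨
      ∀ x ∈ T, ∀ y ∈ T, φ x - φ y ≤ T.card * Γ' := by
  by_cases hg : ∃ T' ⊂ T, T'.Nonempty ∧ ∀ x ∈ T', ∀ y ∈ T, y ∉ T' → φ y + Γ' ≤ φ x
  · exact Or.inl hg
  · right
    obtain ⟨a, haT, ha⟩ := T.exists_max_image φ hT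
    have hS : ∀ j : ℕ, (∀ x ∈ T, φ a - j * Γ' ≤ φ x) ∨
        j + 1 ≤ (T.filter fun x => φ a - j * Γ' ≤ φ x).card := by
      intro j
      induction j with
      | zero =>
        right
        have : a ∈ T.filter fun x => φ a - ((0 : ℕ) : ℤ) * Γ' ≤ φ x := by
          rw [Finset.mem_filter]
          exact ⟨haT, by simp⟩
        exact Finset.card_pos.2 ⟨a, this⟩
      | succ j ih =>
        rcases ih with ih | ih
        · left
          intro x hx
          have h1 := ih x hx
          have h2 : (0 : ℤ) ≤ (Γ' : ℤ) := Int.natCast_nonneg _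
          push_cast
          linarith
        · by_cases hall : ∀ x ∈ T, φ a - j * Γ' ≤ φ x
          · left
            intro x hx
            have h1 := hall x hx
            have h2 : (0 : ℤ) ≤ (Γ' : ℤ) := Int.natCast_nonneg _
            push_cast
            linarith
          · right
            set T' := T.filter fun x => φ a - j * Γ' ≤ φ x with hT'
            have hsub : T' ⊂ T := by
              refine ⟨Finset.filter_subset _ _, fun hcon => hall fun x hx => ?_⟩
              exact (Finset.mem_filter.1 (hcon hx)).2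
            have hne : T'.Nonempty := Finset.card_pos.1 (by omega)
            by_contra hlt
            refine hg ⟨T', hsub, hne, fun x hx y hy hyT => ?_⟩
            by_contra hcon
            push Not at hcon
            apply hlt
            have hx2 := (Finset.mem_filter.1 hx).2
            have hy2 : y ∈ T.filter fun x => φ a - ((j + 1 : ℕ) : ℤ) * Γ' ≤ φ x := by
              rw [Finset.mem_filter]
              refine ⟨hy, ?_⟩
              push_cast
              linarith
            have hss : T' ⊂ T.filter fun x => φ a - ((j + 1 : ℕ) : ℤ) * Γ' ≤ φ x := by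
              refine ⟨fun z hz => ?_, fun hc => hyT (hc hy2)⟩
              rw [Finset.mem_filter] at hz ⊢
              refine ⟨hz.1, ?_⟩
              have h2 : (0 : ℤ) ≤ (Γ' : ℤ) := Int.natCast_nonneg _
              push_cast
              linarith [hz.2]
            have := Finset.card_lt_card hss
            omega
    have h3 : ∀ x ∈ T, φ a - T.card * Γ' ≤ φ x := by
      rcases hS T.card with h | h
      · exact h
      · exact absurd (Finset.card_filter_le T fun x => φ a - (T.card : ℤ) * Γ' ≤ φ x) (by omega)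
    intro x hx y hy
    have h1 := ha x hx
    have h2 := h3 y hy
    linarith

theorem split {S : Sys k n D} {Γ₀ : ℕ} (hS : Stable S Γ₀) (Γ' t : ℕ) :
    ∃ Δ L : ℕ, ∀ ω ∈ S.Y, ∀ σ : ℤ, σ = 1 ∨ σ = -1 → ∀ P T : Finset ℤ, T ⊆ P → 2 ≤ T.card →
      T.card ≤ t → (∀ x ∈ P, x ∈ Orb ω) → (∀ x ∈ P, ∀ y ∈ P, x ≠ y → y ∉ E Γ₀ ω x) →
      (∀ x ∈ T, ∀ y ∈ P, y ∉ T → σ * y + Δ ≤ σ * x) →
      ∃ g : Wd k, g.norm ≤ L ∧ ∃ T' ⊂ T, T'.Nonempty ∧
        ∀ x ∈ T', ∀ y ∈ P, y ∉ T' → σ * act ω g y + Γ' ≤ σ * act ω g x := by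
  obtain ⟨L, hL⟩ := separation hS (t * Γ') (t * Γ')
  refine ⟨2 * (D * L) + Γ', L, fun ω hω σ hσ P T hTP h2T hTt hPO hPE hgap => ?_⟩
  have hcard : (T.card : ℤ) * Γ' ≤ ((t * Γ' : ℕ) : ℤ) := by
    push_cast
    exact mul_le_mul_of_nonneg_right (by exact_mod_cast hTt) (Int.natCast_nonneg _)
  have hne : T.Nonempty := Finset.card_pos.1 (by omega)
  have hDL : (0 : ℤ) ≤ (D : ℤ) * L := by positivity
  rcases split_gap T hne (fun x => σ * x) Γ' with ⟨T', hsub, hne', hg⟩ | hsp
  · refine ⟨1, by simp, T', hsub, hne', fun x hx y hy hyT => ?_⟩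
    rw [act_one]
    simp only [Equiv.Perm.coe_one, id_eq]
    by_cases hyT2 : y ∈ T
    · exact hg x hx y hyT2 hyT
    · have h1 := hgap x (hsub.1 hx) y hy hyT2
      push_cast at h1
      linarith
  · obtain ⟨x, hx, y, hy, hxy⟩ := Finset.one_lt_card.1 (by omega : 1 < T.card)
    have hdist : |y - x| ≤ ((t * Γ' : ℕ) : ℤ) := by
      have h1 := hsp x hx y hy
      have h2 := hsp y hy x hx
      rcases hσ with rfl | rfl <;> rw [abs_le] <;> constructor <;> linarith
    obtain ⟨g, hgL, hgs⟩ := hL ω hω x (hPO x (hTP hx)) y hdist (hPE x (hTP hx) y (hTP hy) hxy)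
    rcases split_gap T hne (fun x => σ * act ω g x) Γ' with ⟨T', hsub, hne', hg⟩ | hsp'
    · refine ⟨g, hgL, T', hsub, hne', fun x' hx' y' hy' hyT => ?_⟩
      by_cases hyT2 : y' ∈ T
      · exact hg x' hx' y' hyT2 hyT
      · have h1 := hgap x' (hsub.1 hx') y' hy' hyT2
        have h3 := act_disp (S.disp ω hω) g x'
        have h4 := act_disp (S.disp ω hω) g y'
        have h5 : (D : ℤ) * g.norm ≤ D * L :=
          mul_le_mul_of_nonneg_left (by exact_mod_cast hgL) (Int.natCast_nonneg _)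
        rw [abs_le] at h3 h4
        push_cast at h1
        rcases hσ with rfl | rfl <;> linarith [h3.1, h3.2, h4.1, h4.2]
    · exfalso
      have h1 := hsp' x hx y hy
      have h2 := hsp' y hy x hx
      rcases lt_abs.1 hgs with h3 | h3 <;> rcases hσ with rfl | rfl <;> linarith

end Pool.Agent.Lib.MP_322c76_al.BW
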