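import Pool.Agent.Lib.MP_322c76_al.BW.Defs
import Pool.Agent.Lib.MP_322c76_al.BW.Split
import Pool.Agent.Lib.MP_322c76_al.BW.Near

set_option autoImplicit false

namespace Pool.Agent.Lib.MP_322c76_al.BW

variable {k n D : ℕ}

/-! ROW Top (Lemma 2). Scales `Γ_1 = Γ`, `Γ_(t+1) = max (Δ (Γ_t, m)) Γ_t ..`; start with `T = P =` the
`m` points of a cycle from `cyc_near`, apply `split` until one point is left; conjugate `h`, rotate
so that this point is `x` (`cyc_conj`, `cyc_rotate`). ATTENTION: after rotating, the point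
`h^(s+i) x` with `s + i ≥ m` is only equivalent to the point `h^(s+i-m) x` of `P`, so at distance `≤ Γ₀`:
aim at the gap `Γ + Γ₀`. -/

private theorem top_iter {S : Sys k n D} {Γ₀ : ℕ} (hS : Stable S Γ₀) (Γ' t : ℕ) :
    ∃ Δ L : ℕ, ∀ ω ∈ S.Y, ∀ σ : ℤ, σ = 1 ∨ σ = -1 → ∀ P T : Finset ℤ, T ⊆ P → T.Nonempty →
      T.card ≤ t → (∀ x ∈ P, x ∈ Orb ω) → (∀ x ∈ P, ∀ y ∈ P, x ≠ y → y ∉ E Γ₀ ω x) →
      (∀ x ∈ T, ∀ y ∈ P, y ∉ T → σ * y + Δ ≤ σ * x) →
      ∃ g : Wd k, g.norm ≤ L ∧ ∃ x ∈ T, ∀ y ∈ P, y ≠ x → σ * act ω g y + Γ' ≤ σ * act ω g x := by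
  classical
  induction t with
  | zero =>
    refine ⟨0, 0, fun ω _ σ _ P T _ hne hcard => ?_⟩
    have := hne.card_pos
    omega
  | succ t ih =>
    obtain ⟨Δ₁, L₁, h₁⟩ := ih
    obtain ⟨Δ₂, L₂, h₂⟩ := split hS Δ₁ (t + 1)
    refine ⟨max Δ₂ Γ', L₁ + L₂, fun ω hω σ hσ P T hTP hne hcard horb hcl hgap => ?_⟩
    rcases Nat.lt_or_ge T.card 2 with hT | hT
    · have h1 : T.card = 1 := by
        have := hne.card_pos
        omega
      obtain ⟨x, hx⟩ := Finset.card_eq_one.mp h1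
      refine ⟨1, by simp, x, by simp [hx], fun y hy hyx => ?_⟩
      have h3 := hgap x (by simp [hx]) y hy (by simp [hx, hyx])
      simp only [act_one, Equiv.Perm.coe_one, id_eq]
      have h4 : (Γ' : ℤ) ≤ ((max Δ₂ Γ' : ℕ) : ℤ) := by exact_mod_cast le_max_right _ _
      linarith
    · obtain ⟨g₁, hg₁, T', hT', hne', hgap'⟩ := h₂ ω hω σ hσ P T hTP hT hcard horb hcl
        (fun x hx y hy hyT => by
          have h3 := hgap x hx y hy hyT
          have h4 : (Δ₂ : ℤ) ≤ ((max Δ₂ Γ' : ℕ) : ℤ) := by exact_mod_cast le_max_left _ _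
          linarith)
      have hlt := Finset.card_lt_card hT'
      obtain ⟨g₂, hg₂, x₁, hx₁, hfin⟩ := h₁ ω hω σ hσ (P.image (act ω g₁)) (T'.image (act ω g₁))
        (Finset.image_subset_image (hT'.1.trans hTP)) (hne'.image _)
        (Finset.card_image_le.trans (by omega))
        (by
          intro x hx
          obtain ⟨x₀, hx₀, rfl⟩ := Finset.mem_image.mp hx
          exact act_mem_orb (horb x₀ hx₀) g₁)
        (by
          intro x hx y hy hxy
          obtain ⟨x₀, hx₀, rfl⟩ := Finset.mem_image.mp hx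
          obtain ⟨y₀, hy₀, rfl⟩ := Finset.mem_image.mp hy
          rw [E_act]
          exact hcl x₀ hx₀ y₀ hy₀ (fun h => hxy (by rw [h])))
        (by
          intro x hx y hy hyT
          obtain ⟨x₀, hx₀, rfl⟩ := Finset.mem_image.mp hx
          obtain ⟨y₀, hy₀, rfl⟩ := Finset.mem_image.mp hy
          exact hgap' x₀ hx₀ y₀ hy₀ (fun h => hyT (Finset.mem_image_of_mem _ h)))
      obtain ⟨x₀, hx₀, rfl⟩ := Finset.mem_image.mp hx₁
      refine ⟨g₂ * g₁, ?_, x₀, hT'.1 hx₀, fun y hy hyx => ?_⟩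
      · have := FreeGroup.norm_mul_le g₂ g₁
        omega
      · rw [act_mul, act_mul]
        exact hfin _ (Finset.mem_image_of_mem _ hy) (fun h => hyx ((act ω g₁).injective h))

theorem top_gap {S : Sys k n D} {Γ₀ m : ℕ} (hS : Stable S Γ₀) (hM : MaxCyc S Γ₀ m) (Γ : ℕ) :
    ∃ L : ℕ, ∀ ω ∈ S.Y, ∀ σ : ℤ, σ = 1 ∨ σ = -1 → ∀ o ∈ Orb ω, ∃ g h : Wd k, g.norm ≤ L ∧
      h.norm ≤ L ∧ Cyc Γ₀ ω (act ω g o) h m ∧ ∀ i : ℕ, 0 < i → i < m →
        σ * act ω (h ^ i) (act ω g o) + Γ ≤ σ * act ω g o := by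
  classical
  obtain ⟨L₀, hL₀⟩ := cyc_near hS hM
  obtain ⟨Δ, L₁, hL₁⟩ := top_iter hS (Γ + Γ₀) m
  have hm := hM.1
  refine ⟨2 * L₁ + (m + 1) * L₀, fun ω hω σ hσ o ho => ?_⟩
  obtain ⟨g₀, h₀, hg₀, hh₀, hc⟩ := hL₀ ω hω o ho
  set x₀ := act ω g₀ o with hx₀
  have hx₀o : x₀ ∈ Orb ω := act_mem_orb ho g₀
  have hpow : ∀ i j : ℕ, act ω (h₀ ^ (i + j)) x₀ = act ω (h₀ ^ i) (act ω (h₀ ^ j) x₀) := by
    intro i j
    rw [pow_add, act_mul]
  have hne : ∀ i j : ℕ, i < m → j < m → act ω (h₀ ^ i) x₀ ≠ act ω (h₀ ^ j) x₀ →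
      act ω (h₀ ^ j) x₀ ∉ E Γ₀ ω (act ω (h₀ ^ i) x₀) := by
    intro i j hi hj hij
    rcases lt_trichotomy i j with h | h | h
    · exact cyc_ne hc h hj
    · exact absurd (by rw [h]) hij
    · exact fun h' => cyc_ne hc h hi (E_symm h')
  obtain ⟨g₁, hg₁, x, hx, hfin⟩ := hL₁ ω hω σ hσ ((Finset.range m).image fun i => act ω (h₀ ^ i) x₀)
    ((Finset.range m).image fun i => act ω (h₀ ^ i) x₀) (le_refl _)
    ((Finset.nonempty_range_iff.mpr (by omega)).image _)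
    (Finset.card_image_le.trans (by simp))
    (by
      intro x hx
      obtain ⟨i, _, rfl⟩ := Finset.mem_image.mp hx
      exact act_mem_orb hx₀o _)
    (by
      intro x hx y hy hxy
      obtain ⟨i, hi, rfl⟩ := Finset.mem_image.mp hx
      obtain ⟨j, hj, rfl⟩ := Finset.mem_image.mp hy
      exact hne i j (Finset.mem_range.mp hi) (Finset.mem_range.mp hj) hxy)
    (fun x _ y hy hyT => absurd hy hyT)
  obtain ⟨s, hs, rfl⟩ := Finset.mem_image.mp hx
  rw [Finset.mem_range] at hs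
  have hroot : act ω (g₁ * h₀ ^ s * g₀) o = act ω g₁ (act ω (h₀ ^ s) x₀) := by
    rw [act_mul, act_mul]
  have hnpow : ∀ i : ℕ, (h₀ ^ i).norm ≤ i * L₀ := by
    intro i
    induction i with
    | zero => simp
    | succ i ih =>
      rw [pow_succ]
      have h1 := FreeGroup.norm_mul_le (h₀ ^ i) h₀
      have h2 : (i + 1) * L₀ = i * L₀ + L₀ := by ring
      omega
  refine ⟨g₁ * h₀ ^ s * g₀, g₁ * h₀ * g₁⁻¹, ?_, ?_, ?_, ?_⟩
  · have h1 := FreeGroup.norm_mul_le (g₁ * h₀ ^ s) g₀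
    have h2 := FreeGroup.norm_mul_le g₁ (h₀ ^ s)
    have h3 := hnpow s
    have h4 : s * L₀ ≤ m * L₀ := Nat.mul_le_mul_right _ hs.le
    have h5 : (m + 1) * L₀ = m * L₀ + L₀ := by ring
    omega
  · have h1 := FreeGroup.norm_mul_le (g₁ * h₀) g₁⁻¹
    have h2 := FreeGroup.norm_mul_le g₁ h₀
    have h3 : g₁⁻¹.norm = g₁.norm := FreeGroup.norm_inv_eq
    have h5 : (m + 1) * L₀ = m * L₀ + L₀ := by ring
    omega
  · rw [hroot]
    exact cyc_conj (cyc_rotate hS hM hω hx₀o hc s) g₁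
  · intro i hi him
    rw [hroot]
    have h1 : act ω ((g₁ * h₀ * g₁⁻¹) ^ i) (act ω g₁ (act ω (h₀ ^ s) x₀)) =
        act ω g₁ (act ω (h₀ ^ (i + s)) x₀) := by
      rw [conj_pow, act_mul, act_mul, act_inv_act, hpow]
    rw [h1]
    rcases Nat.lt_or_ge (i + s) m with h | h
    · have h2 := cyc_ne hc (by omega : s < i + s) h
      have h3 := hfin (act ω (h₀ ^ (i + s)) x₀)
        (Finset.mem_image.mpr ⟨i + s, Finset.mem_range.mpr h, rfl⟩)
        (fun h' => h2 (by rw [h']; exact E_self _ _ _))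
      have h4 : (0 : ℤ) ≤ (Γ₀ : ℤ) := Int.natCast_nonneg _
      push_cast at h3
      linarith
    · obtain ⟨r, hr⟩ := Nat.exists_eq_add_of_le h
      have hrs : r < s := by omega
      have h2 : act ω g₁ (act ω (h₀ ^ (i + s)) x₀) ∈ E Γ₀ ω (act ω g₁ (act ω (h₀ ^ r) x₀)) := by
        rw [E_act, hr, Nat.add_comm m r, hpow, E_act]
        exact cyc_close hS hM hω hx₀o hc
      have h3 := abs_le.mp (E_abs h2)
      have h5 := cyc_ne hc hrs hs
      have h6 := hfin (act ω (h₀ ^ r) x₀)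
        (Finset.mem_image.mpr ⟨r, Finset.mem_range.mpr (by omega), rfl⟩)
        (fun h' => h5 (by rw [h']; exact E_self _ _ _))
      push_cast at h6
      rcases hσ with rfl | rfl
      · linarith [h3.2]
      · linarith [h3.1]

end Pool.Agent.Lib.MP_322c76_al.BW
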