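import Pool.Agent.Lib.MP_322c76_al.BW.Defs
import Pool.Agent.Lib.MP_322c76_al.BW.Act
import Pool.Agent.Lib.MP_322c76_al.BW.Cycf
import Pool.Agent.Lib.MP_322c76_al.BW.Top
import Pool.Agent.Lib.MP_322c76_al.BW.Lem1
import Pool.Agent.Lib.MP_322c76_al.BW.Hair

set_option autoImplicit false

namespace Pool.Agent.Lib.MP_322c76_al.BW

variable {k n D : ℕ}

/-! ROW Trans (Lemma 3, transport). See the note. `κ = κ_D` from `no_hairpin`, `Γ > 3 D κ`,
`λ` from `top_gap`, `S₀ = Dλ + 2D + 1`. `o ∈ Orb ω` with `σ z - S₀ - 2D ≤ σ o ≤ σ z - S₀` by `walk`.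
`x = g o`, `v` a shortest word with `v x = z`. For `f = h^i x`: if `σ (v f) ≥ σ z` then by `walk`
(twice) `v = v₄ v₃ v₁` with `v₁ f` within `D` of `x` and `v₃ v₁ f` within `D` of `z`, so
`|v| ≤ |v₃| + 2κ`, `|v₁| ≤ 2κ`, `|f - x| ≤ 3 D κ < Γ`, contradiction. So `u` fixes the classes of the
`v h^i x`, and `lemma1` for `v h v⁻¹` at `z`. -/

private theorem trans_norm_pow (h : Wd k) (i : ℕ) : (h ^ i).norm ≤ i * h.norm := by
  induction i with
  | zero => simp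
  | succ i ih =>
    rw [pow_succ]
    calc (h ^ i * h).norm ≤ (h ^ i).norm + h.norm := FreeGroup.norm_mul_le _ _
      _ ≤ i * h.norm + h.norm := by omega
      _ = (i + 1) * h.norm := by ring

/-- an orbit point at a prescribed level -/
private theorem trans_level {S : Sys k n D} {ω : Conf k} (hω : ω ∈ S.Y) {σ : ℤ}
    (hσ : σ = 1 ∨ σ = -1) {z : ℤ} (hz : z ∈ Orb ω) (S₀ : ℤ) (hS₀ : 0 ≤ S₀)
    (ho : ∃ o ∈ Orb ω, σ * o ≤ σ * z - (S₀ + D)) :
    ∃ o ∈ Orb ω, σ * z - S₀ - 2 * D ≤ σ * o ∧ σ * o ≤ σ * z - S₀ := by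
  obtain ⟨o, hoO, hol⟩ := ho
  obtain ⟨g, hg⟩ := orb_trans hz hoO
  have hD0 : (0 : ℤ) ≤ D := Int.natCast_nonneg _
  obtain ⟨g₁, g₂, -, -, h3⟩ := walk (S.disp ω hω) g z (z - σ * (S₀ + D)) (by
    rw [hg]
    rcases hσ with rfl | rfl
    · right
      constructor <;> linarith
    · left
      constructor <;> linarith)
  refine ⟨act ω g₁ z, act_mem_orb hz _, ?_⟩
  rw [abs_le] at h3
  rcases hσ with rfl | rfl <;> constructor <;> linarith [h3.1, h3.2]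

/-- the claim: the point `v f` stays below `z` -/
private theorem trans_below {S : Sys k n D} {κ : ℕ}
    (hκ : ∀ ω ∈ S.Y, ∀ x ∈ Orb ω, ∀ y ∈ Orb ω, |x - y| ≤ D → ∃ g : Wd k, g.norm ≤ κ ∧ act ω g x = y)
    {ω : Conf k} (hω : ω ∈ S.Y) {σ : ℤ} (hσ : σ = 1 ∨ σ = -1) {x z f : ℤ} (hx : x ∈ Orb ω)
    (hz : z ∈ Orb ω) (hf : f ∈ Orb ω) (hxz : σ * x + D ≤ σ * z)
    (hfx : σ * f + (3 * (D * κ) + 1) ≤ σ * x) {v : Wd k} (hv : act ω v x = z)
    (hmin : ∀ v' : Wd k, act ω v' x = z → v.norm ≤ v'.norm) : σ * act ω v f < σ * z := by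
  by_contra hcon
  push Not at hcon
  have hD0 : (0 : ℤ) ≤ D := Int.natCast_nonneg _
  have hDκ : (0 : ℤ) ≤ (D : ℤ) * κ := by positivity
  obtain ⟨v₁, v₂, hv12, hn12, h1⟩ := walk (S.disp ω hω) v f x (by
    rcases hσ with rfl | rfl
    · left
      constructor <;> linarith
    · right
      constructor <;> linarith)
  have h2 : act ω v₂ (act ω v₁ f) = act ω v f := by rw [hv12, act_mul]
  have h1' := abs_le.1 h1
  obtain ⟨v₃, v₄, hv34, hn34, h3⟩ := walk (S.disp ω hω) v₂ (act ω v₁ f) z (by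
    rw [h2]
    rcases hσ with rfl | rfl
    · left
      constructor <;> linarith [h1'.1, h1'.2]
    · right
      constructor <;> linarith [h1'.1, h1'.2])
  have hfi : act ω v₁ f ∈ Orb ω := act_mem_orb hf _
  have hfj : act ω v₃ (act ω v₁ f) ∈ Orb ω := act_mem_orb hfi _
  obtain ⟨a, ha, hax⟩ := hκ ω hω _ hfi x hx h1
  obtain ⟨b, hb, hbz⟩ := hκ ω hω _ hfj z hz h3
  have hw : act ω (b * v₃ * a⁻¹) x = z := by
    rw [act_mul, act_mul, ← hax, act_inv_act]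
    exact hbz
  have h4 := hmin _ hw
  have h5 : (b * v₃ * a⁻¹).norm ≤ b.norm + v₃.norm + a.norm := by
    refine (FreeGroup.norm_mul_le _ _).trans ?_
    rw [FreeGroup.norm_inv_eq]
    have := FreeGroup.norm_mul_le b v₃
    omega
  have h6 : v₁.norm ≤ 2 * κ := by omega
  have h7 : (a * v₁).norm ≤ 3 * κ := (FreeGroup.norm_mul_le _ _).trans (by omega)
  have h8 := act_disp (S.disp ω hω) (a * v₁) f
  rw [act_mul, hax] at h8
  have h9 : (D : ℤ) * (a * v₁).norm ≤ D * (3 * κ) :=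
    mul_le_mul_of_nonneg_left (by exact_mod_cast h7) hD0
  have h10 := abs_le.1 h8
  rcases hσ with rfl | rfl <;> linarith [h10.1, h10.2]

theorem transport {S : Sys k n D} {Γ₀ m : ℕ} (hS : Stable S Γ₀) (hM : MaxCyc S Γ₀ m) :
    ∃ l : ℕ, ∀ ω ∈ S.Y, ∀ σ : ℤ, σ = 1 ∨ σ = -1 → ∀ z ∈ Orb ω, (∃ o ∈ Orb ω, σ * o ≤ σ * z - l) →
      ∀ u : Wd k, (∀ y ∈ Orb ω, σ * z - l ≤ σ * y → σ * y < σ * z → act ω u y ∈ E Γ₀ ω y) →
        act ω u z ∈ E Γ₀ ω z := by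
  obtain ⟨κ, hκ⟩ := no_hairpin S D
  obtain ⟨la, hla⟩ := top_gap hS hM (3 * (D * κ) + 1)
  obtain ⟨κ₁, hκ₁⟩ := no_hairpin S (D * la + 2 * D + 1 + 2 * D + D * la)
  refine ⟨D * κ₁ + D * (m * la) + (D * la + 2 * D + 1 + 2 * D + D * la),
    fun ω hω σ hσ z hz ho u hu => ?_⟩
  have hD0 : (0 : ℤ) ≤ D := Int.natCast_nonneg _
  have hDla : (0 : ℤ) ≤ (D : ℤ) * la := by positivity
  have hDκ₁ : (0 : ℤ) ≤ (D : ℤ) * κ₁ := by positivity
  have hDm : (0 : ℤ) ≤ (D : ℤ) * (m * la) := by positivity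
  push_cast at hu
  obtain ⟨o, hoO, ho1, ho2⟩ := trans_level hω hσ hz ((D : ℤ) * la + 2 * D + 1) (by linarith) (by
    obtain ⟨o, h1, h2⟩ := ho
    refine ⟨o, h1, ?_⟩
    push_cast at h2
    linarith)
  obtain ⟨g, h, hg, hh, hcyc, hgap⟩ := hla ω hω σ hσ o hoO
  set x := act ω g o with hx
  have hxO : x ∈ Orb ω := act_mem_orb hoO _
  have hxo := act_disp (S.disp ω hω) g o
  rw [← hx] at hxo
  have hgD : (D : ℤ) * g.norm ≤ D * la := mul_le_mul_of_nonneg_left (by exact_mod_cast hg) hD0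
  have hxo' := abs_le.1 hxo
  have hxz1 : σ * x ≤ σ * z - 2 * D - 1 := by
    rcases hσ with rfl | rfl <;> linarith [hxo'.1, hxo'.2]
  have hxz2 : σ * z - ((D : ℤ) * la + 2 * D + 1 + 2 * D + D * la) ≤ σ * x := by
    rcases hσ with rfl | rfl <;> linarith [hxo'.1, hxo'.2]
  have hxzabs : |x - z| ≤ ((D * la + 2 * D + 1 + 2 * D + D * la : ℕ) : ℤ) := by
    push_cast
    rw [abs_le]
    rcases hσ with rfl | rfl <;> constructor <;> linarith
  -- a shortest word from `x` to `z`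
  classical
  obtain ⟨v₀, hv₀, hv₀z⟩ := hκ₁ ω hω x hxO z hz hxzabs
  have hex : ∃ q : ℕ, ∃ v : Wd k, v.norm = q ∧ act ω v x = z := ⟨_, v₀, rfl, hv₀z⟩
  obtain ⟨v, hvq, hvz⟩ := Nat.find_spec hex
  have hmin : ∀ v' : Wd k, act ω v' x = z → v.norm ≤ v'.norm := by
    intro v' hv'
    rw [hvq]
    exact Nat.find_min' hex ⟨v', rfl, hv'⟩
  have hvκ : v.norm ≤ κ₁ := (hmin v₀ hv₀z).trans hv₀
  have hvD : (D : ℤ) * v.norm ≤ D * κ₁ := mul_le_mul_of_nonneg_left (by exact_mod_cast hvκ) hD0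
  have hcyc2 : Cyc Γ₀ ω z (v * h * v⁻¹) m := by
    rw [← hvz]
    exact cyc_conj hcyc v
  refine lemma1 hS hM hω hz hcyc2 u fun i hi0 him => ?_
  have e : act ω ((v * h * v⁻¹) ^ i) z = act ω v (act ω (h ^ i) x) := by
    rw [conj_pow, act_mul, act_mul, ← hvz, act_inv_act]
  rw [e]
  have hfO : act ω (h ^ i) x ∈ Orb ω := act_mem_orb hxO _
  have hgi := hgap i hi0 him
  push_cast at hgi
  have hlt := trans_below hκ hω hσ hxO hz hfO (by linarith) hgi hvz hmin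
  refine hu _ (act_mem_orb hfO _) ?_ hlt
  have h1 := act_disp (S.disp ω hω) (h ^ i) x
  have h2 := act_disp (S.disp ω hω) v (act ω (h ^ i) x)
  have h3 : (h ^ i).norm ≤ m * la := by
    refine (trans_norm_pow h i).trans ?_
    exact Nat.mul_le_mul him.le hh
  have h4 : (D : ℤ) * (h ^ i).norm ≤ D * (m * la) :=
    mul_le_mul_of_nonneg_left (by exact_mod_cast h3) hD0
  have h1' := abs_le.1 h1
  have h2' := abs_le.1 h2
  rcases hσ with rfl | rfl <;> linarith [h1'.1, h1'.2, h2'.1, h2'.2]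

end Pool.Agent.Lib.MP_322c76_al.BW
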