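import Pool.Agent.Lib.MP_322c76_al.BW.Defs
import Pool.Agent.Lib.MP_322c76_al.BW.Act
import Pool.Agent.Lib.MP_322c76_al.BW.Trans

set_option autoImplicit false

namespace Pool.Agent.Lib.MP_322c76_al.BW

variable {k n D : ℕ}

/-! ROW Clos: induction on `|z|`, both signs; `0 ∈ Orb ω`. -/

theorem closure {S : Sys k n D} {Γ₀ m : ℕ} (hS : Stable S Γ₀) (hM : MaxCyc S Γ₀ m) :
    ∃ l : ℕ, ∀ ω ∈ S.Y, ∀ u : Wd k, (∀ y ∈ Orb ω, |y| ≤ l → act ω u y ∈ E Γ₀ ω y) →
      ∀ y ∈ Orb ω, act ω u y ∈ E Γ₀ ω y := by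
  obtain ⟨l, hl⟩ := transport hS hM
  refine ⟨l, fun ω hω u hu => ?_⟩
  have key : ∀ N : ℕ, ∀ z ∈ Orb ω, z.natAbs = N → act ω u z ∈ E Γ₀ ω z := by
    intro N
    induction N using Nat.strong_induction_on with
    | _ N ih =>
      intro z hz hN
      by_cases hzl : |z| ≤ l
      · exact hu z hz hzl
      · push Not at hzl
        have hl0 : (0 : ℤ) ≤ l := Int.natCast_nonneg l
        rcases le_or_gt 0 z with h0 | h0
        · rw [abs_of_nonneg h0] at hzl
          refine hl ω hω 1 (Or.inl rfl) z hz ⟨0, mem_orb_zero ω, by linarith⟩ u ?_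
          intro y hy h1 h2
          exact ih y.natAbs (by omega) y hy rfl
        · rw [abs_of_neg h0] at hzl
          refine hl ω hω (-1) (Or.inr rfl) z hz ⟨0, mem_orb_zero ω, by linarith⟩ u ?_
          intro y hy h1 h2
          exact ih y.natAbs (by omega) y hy rfl
  exact fun y hy => key _ y hy rfl

end Pool.Agent.Lib.MP_322c76_al.BW
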