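import Pool.Agent.Lib.MP_322c76_al.BW.Defs
import Pool.Agent.Lib.MP_322c76_al.Series

set_option autoImplicit false

namespace Pool.Agent.Lib.MP_322c76_al.BW

variable {k n D : ℕ}

/-! ROW Cnt (counting). All orbits have `≤ L` points, the action is faithful: `G` embeds in the
product of `Equiv.Perm (Fin L)` over all homomorphisms `φ : FreeGroup (Fin k) → Perm (Fin L)` (an orbit
with `≤ L` points is a subset of `Fin L`; extend by the identity), more precisely two words
with the same image under all `φ` act in the same way; `|G| ≤ B := (L!)^((L!)^k)`. Every element of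
`G` is a positive word of length `< |G| ≤ B` (`pos_word`, `short_word` in `Series.lean`), so
`N := max 1 B` gives `g^n = 1`. -/

private theorem cnt_embed {G : Type*} [Group G] {X : Type*} [MulAction G X] (L : ℕ) (x : X)
    (h : ∀ F : Finset X, (∀ y ∈ F, ∃ g : G, g • x = y) → F.card ≤ L) :
    Nonempty (MulAction.orbit G x ↪ Fin L) := by
  classical
  have hfin : (MulAction.orbit G x).Finite := by
    by_contra hinf
    obtain ⟨F, hF, hc⟩ := Set.Infinite.exists_subset_card_eq hinf (L + 1)
    have := h F fun y hy => MulAction.mem_orbit_iff.1 (hF hy)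
    omega
  have h1 : Nat.card (MulAction.orbit G x) ≤ L := by
    have h2 := h hfin.toFinset fun y hy => MulAction.mem_orbit_iff.1 (hfin.mem_toFinset.1 hy)
    rwa [← Set.ncard_eq_toFinset_card _ hfin, ← Nat.card_coe_set_eq] at h2
  have := hfin.to_subtype
  refine ⟨(Finite.equivFin (MulAction.orbit G x)).toEmbedding.trans (Fin.castLEEmb h1)⟩

theorem of_orbits (k n L : ℕ) (hn : 1 ≤ n) : ∃ N B : ℕ, ∀ (G : Type*) [Group G] (a : Fin k → G),
    Subgroup.closure (Set.range a) = ⊤ → ∀ (X : Type*) [MulAction G X] [FaithfulSMul G X],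
      (∀ (x : X) (F : Finset X), (∀ y ∈ F, ∃ g : G, g • x = y) → F.card ≤ L) →
      (∀ w : List (Fin k), w.length ≤ N → wp a w ^ n = 1) →
        Finite G ∧ Nat.card G ≤ B ∧ ∀ g : G, g ^ n = 1 := by
  classical
  let T := (Fin k → Equiv.Perm (Fin L)) → Equiv.Perm (Fin L)
  refine ⟨max 1 (Nat.card T), Nat.card T, fun G _ a hgen X _ _ horb hw => ?_⟩
  have hsurj : Function.Surjective (FreeGroup.lift a) :=
    FreeGroup.lift_surjective_iff_closure_range_eq_top.2 hgen
  choose s hs using hsurj
  let Θ : G → T := fun g φ => FreeGroup.lift φ (s g)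
  have hinj : Function.Injective Θ := by
    intro g g' hgg
    refine eq_of_smul_eq_smul fun x : X => ?_
    obtain ⟨e⟩ := cnt_embed L x (horb x)
    let f : G →* Equiv.Perm (Fin L) :=
      (Equiv.Perm.viaEmbeddingHom e).comp (MulAction.toPermHom G (MulAction.orbit G x))
    have h1 : ∀ w : FreeGroup (Fin k), FreeGroup.lift (fun i => f (a i)) w =
        f (FreeGroup.lift a w) := by
      intro w
      have : FreeGroup.lift (fun i => f (a i)) = f.comp (FreeGroup.lift a) := by
        ext i
        simp
      rw [this]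
      rfl
    have h2 : FreeGroup.lift (fun i => f (a i)) (s g) = FreeGroup.lift (fun i => f (a i)) (s g') :=
      congrFun hgg _
    rw [h1, h1, hs, hs] at h2
    have h3 : MulAction.toPermHom G (MulAction.orbit G x) g =
        MulAction.toPermHom G (MulAction.orbit G x) g' :=
      Equiv.Perm.viaEmbeddingHom_injective e h2
    have h4 := congrArg (fun σ : Equiv.Perm (MulAction.orbit G x) =>
      ((σ ⟨x, MulAction.mem_orbit_self x⟩ : MulAction.orbit G x) : X)) h3
    exact h4
  have hfin : Finite G := Finite.of_injective Θ hinj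
  have hcard : Nat.card G ≤ Nat.card T := Nat.card_le_card_of_injective Θ hinj
  refine ⟨hfin, hcard, fun g => ?_⟩
  have ha : ∀ i, a i ^ n = 1 := by
    intro i
    have := hw [i] (by simp)
    rwa [wp_single] at this
  obtain ⟨w, hwl, hwg⟩ := short_word a (fun g => pos_word a hn ha (hgen ▸ Subgroup.mem_top g)) g
  rw [← hwg]
  exact hw w ((hwl.le.trans hcard).trans (le_max_right _ _))

end Pool.Agent.Lib.MP_322c76_al.BW
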