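import Pool.Agent.Lib.MP_322c76_al.BW.Defs
import Pool.Agent.Lib.MP_322c76_al.BW.Ball

set_option autoImplicit false

namespace Pool.Agent.Lib.MP_322c76_al.BW

variable {G : Type*} [Group G]

/-! ROW Pack (packing). `X ⊆ bl T R` maximal with `x · bl T ρ`, `x ∈ X`, pairwise disjoint. -/

/-- the translates of `B` by the points of `X` are pairwise disjoint -/
private def Sep (B X : Finset G) : Prop :=
  ∀ x ∈ X, ∀ x' ∈ X, ∀ b ∈ B, ∀ b' ∈ B, x * b = x' * b' → x = x'

private theorem sep_card {B X S : Finset G} (h : Sep B X)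
    (hS : ∀ x ∈ X, ∀ b ∈ B, x * b ∈ S) : X.card * B.card ≤ S.card := by
  classical
  rw [← Finset.card_product]
  refine Finset.card_le_card_of_injOn (fun p => p.1 * p.2) ?_ ?_
  · intro p hp
    have hp' := Finset.mem_product.1 (Finset.mem_coe.1 hp)
    exact Finset.mem_coe.2 (hS _ hp'.1 _ hp'.2)
  · intro p hp q hq hpq
    have hp' := Finset.mem_product.1 (Finset.mem_coe.1 hp)
    have hq' := Finset.mem_product.1 (Finset.mem_coe.1 hq)
    have hpq' : p.1 * p.2 = q.1 * q.2 := hpq
    have h1 : p.1 = q.1 := h _ hp'.1 _ hq'.1 _ hp'.2 _ hq'.2 hpq'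
    rw [h1] at hpq'
    exact Prod.ext h1 (mul_left_cancel hpq')

open Classical in
theorem packing {T : Finset G} (hT : GenSet T) (R ρ : ℕ) :
    ∃ X : Finset G, X ⊆ bl T R ∧ X.card * (bl T ρ).card ≤ (bl T (R + ρ)).card ∧
      (∀ z ∈ bl T R, ∃ x ∈ X, ∃ y ∈ bl T (2 * ρ), x * y = z) ∧
      ∀ z : G, (X.filter fun x => x⁻¹ * z ∈ bl T (6 * ρ)).card * (bl T ρ).card ≤
        (bl T (7 * ρ)).card := by
  obtain ⟨X, hX, hmax⟩ := Finset.exists_max_image
    ((bl T R).powerset.filter fun X => Sep (bl T ρ) X) Finset.card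
    ⟨∅, by
      refine Finset.mem_filter.2 ⟨Finset.empty_mem_powerset _, ?_⟩
      intro x hx
      exact absurd hx (Finset.notMem_empty x)⟩
  obtain ⟨hX1, hX2⟩ := Finset.mem_filter.1 hX
  have hXR : X ⊆ bl T R := Finset.mem_powerset.1 hX1
  refine ⟨X, hXR, ?_, ?_, ?_⟩
  · exact sep_card hX2 fun x hx b hb => bl_mul (hXR hx) hb
  · intro z hz
    by_cases hzX : z ∈ X
    · exact ⟨z, hzX, 1, one_mem_bl hT _, mul_one z⟩
    · have hnot : ¬ Sep (bl T ρ) (insert z X) := by
        intro hsep
        have hmem : insert z X ∈ (bl T R).powerset.filter fun X => Sep (bl T ρ) X := by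
          refine Finset.mem_filter.2 ⟨Finset.mem_powerset.2 ?_, hsep⟩
          exact Finset.insert_subset hz hXR
        have := hmax _ hmem
        rw [Finset.card_insert_of_notMem hzX] at this
        omega
      unfold Sep at hnot
      push Not at hnot
      obtain ⟨x, hx, x', hx', b, hb, b', hb', hbb, hne⟩ := hnot
      have key : ∀ u ∈ X, ∀ c ∈ bl T ρ, ∀ c' ∈ bl T ρ, u * c = z * c' →
          ∃ x ∈ X, ∃ y ∈ bl T (2 * ρ), x * y = z := by
        intro u hu c hc c' hc' hcc
        refine ⟨u, hu, c * c'⁻¹, ?_, ?_⟩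
        · have := bl_mul (T := T) hc (bl_inv hT hc')
          rwa [← two_mul] at this
        · rw [← mul_assoc, hcc, mul_assoc, mul_inv_cancel, mul_one]
      rcases Finset.mem_insert.1 hx with hxz | hxX
      · rcases Finset.mem_insert.1 hx' with hxz' | hxX'
        · exact absurd (hxz.trans hxz'.symm) hne
        · subst hxz
          exact key x' hxX' b' hb' b hb hbb.symm
      · rcases Finset.mem_insert.1 hx' with hxz' | hxX'
        · subst hxz'
          exact key x hxX b hb b' hb' hbb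
        · exact absurd (hX2 x hxX x' hxX' b hb b' hb' hbb) hne
  · intro z
    have hsep : Sep (bl T ρ) (X.filter fun x => x⁻¹ * z ∈ bl T (6 * ρ)) := by
      intro x hx x' hx' b hb b' hb' hbb
      exact hX2 x (Finset.mem_of_mem_filter x hx) x' (Finset.mem_of_mem_filter x' hx')
        b hb b' hb' hbb
    have h1 := sep_card (S := (bl T (7 * ρ)).image fun y => z * y) hsep (by
      intro x hx b hb
      have hx' := (Finset.mem_filter.1 hx).2
      refine Finset.mem_image.2 ⟨z⁻¹ * x * b, ?_, ?_⟩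
      · have h2 := bl_inv hT hx'
        rw [mul_inv_rev, inv_inv] at h2
        have h3 := bl_mul (T := T) h2 hb
        have h4 : 6 * ρ + ρ = 7 * ρ := by ring
        rwa [h4] at h3
      · rw [mul_assoc, mul_inv_cancel_left])
    exact h1.trans Finset.card_image_le

end Pool.Agent.Lib.MP_322c76_al.BW
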