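import Pool.Agent.Lib.MP_322c76_al.BW.Defs
import Pool.Agent.Lib.MP_322c76_al.BW.Ball

set_option autoImplicit false

namespace Pool.Agent.Lib.MP_322c76_al.BW

variable {G : Type*} [Group G]

/-! ROW Poin (Poincaré). For `y, z ∈ bl T r` put `g = y⁻¹ z ∈ bl T (2r)`, `z = y g`. Write
`g = t_1 ... t_m`, `m = 2r`; `f(x y g) - f(x y)` is a sum of `m` differences along edges at
`x y g_i ∈ x · bl T (3r)`, Cauchy-Schwarz; for fixed `g, i` the map `y ↦ y g_i` is injective. -/

private theorem poin_path {T : Finset G} : ∀ {m : ℕ} {g : G}, g ∈ bl T m →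
    ∃ p : ℕ → G, p 0 = 1 ∧ p m = g ∧ (∀ i < m, ∃ t ∈ T, p (i + 1) = p i * t) ∧
      ∀ i ≤ m, p i ∈ bl T i := by
  intro m
  induction m with
  | zero =>
    intro g hg
    have hg1 : g = 1 := by simpa [bl] using hg
    refine ⟨fun _ => 1, rfl, hg1.symm, fun i hi => absurd hi (by omega), fun i hi => ?_⟩
    have : i = 0 := by omega
    subst this
    simp [bl]
  | succ m ih =>
    intro g hg
    obtain ⟨y, hy, t, ht, hyt⟩ := mem_bl_succ.1 hg
    obtain ⟨p, hp0, hpm, hps, hpb⟩ := ih hy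
    refine ⟨fun i => if i ≤ m then p i else g, by simp [hp0], by simp, ?_, ?_⟩
    · intro i hi
      rcases Nat.lt_or_ge i m with h | h
      · obtain ⟨s, hs, hps'⟩ := hps i h
        refine ⟨s, hs, ?_⟩
        beta_reduce
        rw [if_pos (by omega : i + 1 ≤ m), if_pos h.le, hps']
      · have him : i = m := by omega
        subst him
        refine ⟨t, ht, ?_⟩
        beta_reduce
        rw [if_neg (by omega), if_pos le_rfl, hpm, hyt]
    · intro i hi
      rcases Nat.lt_or_ge m i with h | h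
      · have him : i = m + 1 := by omega
        subst him
        beta_reduce
        rw [if_neg (by omega)]
        exact hg
      · beta_reduce
        rw [if_pos h]
        exact hpb i h

private theorem poin_grad_nonneg (T : Finset G) (f : G → ℝ) (x : G) : 0 ≤ grad T f x :=
  Finset.sum_nonneg fun _ _ => sq_nonneg _

private theorem poin_sq {T : Finset G} (f : G → ℝ) (a : G) (m : ℕ) (p : ℕ → G) (hp0 : p 0 = 1)
    (hps : ∀ i < m, ∃ t ∈ T, p (i + 1) = p i * t) :
    (f a - f (a * p m)) ^ 2 ≤ (m : ℝ) * ∑ i ∈ Finset.range m, grad T f (a * p i) := by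
  have h1 : f (a * p m) - f a = ∑ i ∈ Finset.range m, (f (a * p (i + 1)) - f (a * p i)) := by
    rw [Finset.sum_range_sub (fun i => f (a * p i)), hp0, mul_one]
  have h2 : (f a - f (a * p m)) ^ 2 = (f (a * p m) - f a) ^ 2 := by ring
  rw [h2, h1]
  refine sq_sum_le_card_mul_sum_sq.trans ?_
  rw [Finset.card_range]
  refine mul_le_mul_of_nonneg_left (Finset.sum_le_sum fun i hi => ?_) (Nat.cast_nonneg _)
  obtain ⟨t, ht, hpt⟩ := hps i (Finset.mem_range.1 hi)
  rw [hpt, ← mul_assoc]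
  exact Finset.single_le_sum (f := fun t => (f (a * p i * t) - f (a * p i)) ^ 2)
    (fun _ _ => sq_nonneg _) ht

theorem poincare {T : Finset G} (hT : GenSet T) (f : G → ℝ) (x : G) (r : ℕ) :
    ∑ y ∈ bl T r, ∑ z ∈ bl T r, (f (x * y) - f (x * z)) ^ 2 ≤
      4 * (r : ℝ) ^ 2 * (bl T (2 * r)).card * ∑ y ∈ bl T (3 * r), grad T f (x * y) := by
  classical
  choose! p hp using fun (g : G) (hg : g ∈ bl T (2 * r)) => poin_path hg
  set S : ℝ := ∑ y ∈ bl T (3 * r), grad T f (x * y) with hS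
  have h1 : ∀ y ∈ bl T r, ∑ z ∈ bl T r, (f (x * y) - f (x * z)) ^ 2 ≤
      ∑ g ∈ bl T (2 * r), (f (x * y) - f (x * y * g)) ^ 2 := by
    intro y hy
    have e : ∑ z ∈ bl T r, (f (x * y) - f (x * z)) ^ 2 =
        ∑ g ∈ (bl T r).image (fun z => y⁻¹ * z), (f (x * y) - f (x * y * g)) ^ 2 := by
      rw [Finset.sum_image (fun a _ b _ h => mul_left_cancel h)]
      refine Finset.sum_congr rfl fun z _ => ?_
      simp [mul_assoc]
    rw [e]
    refine Finset.sum_le_sum_of_subset_of_nonneg ?_ fun _ _ _ => sq_nonneg _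
    intro g hg
    obtain ⟨z, hz, rfl⟩ := Finset.mem_image.1 hg
    have := bl_mul (bl_inv hT hy) hz
    rwa [← two_mul] at this
  have h2 : ∀ y ∈ bl T r, ∀ g ∈ bl T (2 * r), (f (x * y) - f (x * y * g)) ^ 2 ≤
      (2 * r : ℝ) * ∑ i ∈ Finset.range (2 * r), grad T f (x * (y * p g i)) := by
    intro y _ g hg
    obtain ⟨hp0, hpm, hps, _⟩ := hp g hg
    have h := poin_sq (T := T) f (x * y) (2 * r) (p g) hp0 hps
    rw [hpm] at h
    refine h.trans (le_of_eq ?_)
    push_cast
    congr 1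
    exact Finset.sum_congr rfl fun i _ => by rw [mul_assoc]
  have h3 : ∀ g ∈ bl T (2 * r), ∀ i ∈ Finset.range (2 * r),
      ∑ y ∈ bl T r, grad T f (x * (y * p g i)) ≤ S := by
    intro g hg i hi
    obtain ⟨_, _, _, hpb⟩ := hp g hg
    have hi' := Finset.mem_range.1 hi
    have e : ∑ y ∈ bl T r, grad T f (x * (y * p g i)) =
        ∑ w ∈ (bl T r).image (fun y => y * p g i), grad T f (x * w) := by
      rw [Finset.sum_image (fun a _ b _ h => mul_right_cancel h)]
    rw [e, hS]
    refine Finset.sum_le_sum_of_subset_of_nonneg ?_ fun _ _ _ => poin_grad_nonneg _ _ _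
    intro w hw
    obtain ⟨y, hy, rfl⟩ := Finset.mem_image.1 hw
    exact bl_mono hT (by omega) (bl_mul hy (hpb i hi'.le))
  calc ∑ y ∈ bl T r, ∑ z ∈ bl T r, (f (x * y) - f (x * z)) ^ 2
      ≤ ∑ y ∈ bl T r, ∑ g ∈ bl T (2 * r),
          (2 * r : ℝ) * ∑ i ∈ Finset.range (2 * r), grad T f (x * (y * p g i)) :=
        Finset.sum_le_sum fun y hy => (h1 y hy).trans (Finset.sum_le_sum fun g hg => h2 y hy g hg)
    _ = (2 * r : ℝ) * ∑ g ∈ bl T (2 * r), ∑ i ∈ Finset.range (2 * r),
          ∑ y ∈ bl T r, grad T f (x * (y * p g i)) := by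
        rw [Finset.sum_comm, Finset.mul_sum]
        refine Finset.sum_congr rfl fun g _ => ?_
        rw [← Finset.mul_sum, Finset.sum_comm]
    _ ≤ (2 * r : ℝ) * ∑ g ∈ bl T (2 * r), ∑ i ∈ Finset.range (2 * r), S := by
        refine mul_le_mul_of_nonneg_left ?_ (by positivity)
        exact Finset.sum_le_sum fun g hg => Finset.sum_le_sum fun i hi => h3 g hg i hi
    _ = 4 * (r : ℝ) ^ 2 * (bl T (2 * r)).card * S := by
        simp only [Finset.sum_const, Finset.card_range, nsmul_eq_mul]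
        push_cast
        ring

end Pool.Agent.Lib.MP_322c76_al.BW
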