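import Pool.Agent.Lib.MP_322c76_al.BW.Defs
import Pool.Agent.Lib.MP_322c76_al.BW.Cacc
import Pool.Agent.Lib.MP_322c76_al.BW.Poin
import Pool.Agent.Lib.MP_322c76_al.BW.Pack

set_option autoImplicit false

namespace Pool.Agent.Lib.MP_322c76_al.BW

variable {G : Type*} [Group G]

/-! ROW Contr (contraction), from caccioppoli, poincare, packing. For `x ∈ X` the mean of `f` over
`x · bl T (2ρ)` is `0`, so `∑_y f(xy)² = (1/(2|bl 2ρ|)) ∑_{y,z} (f(xy) - f(xz))²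
≤ (16 ρ² |bl 4ρ|/(2 |bl 2ρ|)) ∑_{y ∈ bl 6ρ} grad f (xy) ≤ 8 ρ² K ∑ ...`; sum over `x ∈ X` (each point in
at most `K` of the sets `x · bl 6ρ`), `R + 6ρ ≤ 7R`, Caccioppoli at `7R`. Constant `8 C/49`. -/

private theorem contr_var {A : Type*} (B : Finset A) (a : A → ℝ) (h : ∑ y ∈ B, a y = 0) :
    ∑ y ∈ B, ∑ z ∈ B, (a y - a z) ^ 2 = 2 * B.card * ∑ y ∈ B, a y ^ 2 := by
  have h1 : ∀ y ∈ B, ∑ z ∈ B, (a y - a z) ^ 2 = B.card * a y ^ 2 + ∑ z ∈ B, a z ^ 2 := by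
    intro y _
    have h2 : ∀ z ∈ B, (a y - a z) ^ 2 = a y ^ 2 - 2 * a y * a z + a z ^ 2 := fun z _ => by ring
    rw [Finset.sum_congr rfl h2, Finset.sum_add_distrib, Finset.sum_sub_distrib, ← Finset.mul_sum,
      h, Finset.sum_const, nsmul_eq_mul]
    ring
  rw [Finset.sum_congr rfl h1, Finset.sum_add_distrib, ← Finset.mul_sum, Finset.sum_const,
    nsmul_eq_mul]
  ring

private theorem grad_nonneg (T : Finset G) (f : G → ℝ) (x : G) : 0 ≤ grad T f x :=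
  Finset.sum_nonneg fun _ _ => sq_nonneg _

theorem contraction {T : Finset G} (hT : GenSet T) {w : G → ℝ} {W : ℝ} (hw : Weight T w W) :
    ∃ C : ℝ, 0 < C ∧ ∀ (ρ m : ℕ) (K : ℝ), 1 ≤ ρ → 1 ≤ m →
      ((bl T (7 * ρ)).card : ℝ) ≤ K * (bl T ρ).card →
      ∃ X : Finset G, X.card * (bl T ρ).card ≤ (bl T (m * ρ + ρ)).card ∧
        ∀ f : G → ℝ, (∀ x, lap T w f x = 0) → (∀ x ∈ X, ∑ y ∈ bl T (2 * ρ), f (x * y) = 0) →
          ∑ x ∈ bl T (m * ρ), f x ^ 2 ≤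
            C * K ^ 2 / (m : ℝ) ^ 2 * ∑ x ∈ bl T (21 * (m * ρ)), f x ^ 2 := by
  classical
  obtain ⟨C, hC, hcac⟩ := caccioppoli hT hw
  refine ⟨8 * C / 49, by positivity, fun ρ m K hρ hm hK => ?_⟩
  obtain ⟨X, hX1, hX2, hX3, hX4⟩ := packing hT (m * ρ) ρ
  refine ⟨X, hX2, fun f hf hmean => ?_⟩
  have hρ' : (0 : ℝ) < ρ := by exact_mod_cast hρ
  have hm' : (0 : ℝ) < m := by exact_mod_cast hm
  have hb1 : (0 : ℝ) < (bl T ρ).card := by
    exact_mod_cast Finset.card_pos.2 ⟨1, one_mem_bl hT ρ⟩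
  have hb2 : (0 : ℝ) < (bl T (2 * ρ)).card := by
    exact_mod_cast Finset.card_pos.2 ⟨1, one_mem_bl hT (2 * ρ)⟩
  have hK0 : 0 < K := by
    have h7 : (0 : ℝ) < (bl T (7 * ρ)).card := by
      exact_mod_cast Finset.card_pos.2 ⟨1, one_mem_bl hT (7 * ρ)⟩
    by_contra hcon
    have := mul_nonpos_of_nonpos_of_nonneg (not_lt.1 hcon) hb1.le
    linarith
  -- one point of `X`
  have h1 : ∀ x ∈ X, ∑ y ∈ bl T (2 * ρ), f (x * y) ^ 2 ≤
      8 * (ρ : ℝ) ^ 2 * K * ∑ y ∈ bl T (6 * ρ), grad T f (x * y) := by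
    intro x hx
    have e1 := contr_var (bl T (2 * ρ)) (fun y => f (x * y)) (hmean x hx)
    have e2 := poincare hT f x (2 * ρ)
    rw [e1] at e2
    have e3 : 2 * (2 * ρ) = 4 * ρ := by ring
    have e4 : 3 * (2 * ρ) = 6 * ρ := by ring
    rw [e3, e4] at e2
    have e5 : ((bl T (4 * ρ)).card : ℝ) ≤ K * (bl T (2 * ρ)).card := by
      have a1 : ((bl T (4 * ρ)).card : ℝ) ≤ (bl T (7 * ρ)).card := by
        exact_mod_cast Finset.card_le_card (bl_mono hT (by omega))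
      have a2 : ((bl T ρ).card : ℝ) ≤ (bl T (2 * ρ)).card := by
        exact_mod_cast Finset.card_le_card (bl_mono hT (by omega))
      exact a1.trans (hK.trans (mul_le_mul_of_nonneg_left a2 hK0.le))
    have hS : 0 ≤ ∑ y ∈ bl T (6 * ρ), grad T f (x * y) :=
      Finset.sum_nonneg fun y _ => grad_nonneg T f _
    have e6 : 2 * ((bl T (2 * ρ)).card : ℝ) * ∑ y ∈ bl T (2 * ρ), f (x * y) ^ 2 ≤
        2 * ((bl T (2 * ρ)).card : ℝ) * (8 * (ρ : ℝ) ^ 2 * K * ∑ y ∈ bl T (6 * ρ), grad T f (x * y)) := by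
      refine e2.trans ?_
      calc 4 * ((2 * ρ : ℕ) : ℝ) ^ 2 * (bl T (4 * ρ)).card * ∑ y ∈ bl T (6 * ρ), grad T f (x * y)
          ≤ 4 * ((2 * ρ : ℕ) : ℝ) ^ 2 * (K * (bl T (2 * ρ)).card) *
            ∑ y ∈ bl T (6 * ρ), grad T f (x * y) := by
            refine mul_le_mul_of_nonneg_right ?_ hS
            exact mul_le_mul_of_nonneg_left e5 (by positivity)
        _ = _ := by push_cast; ring
    exact le_of_mul_le_mul_left e6 (by positivity)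
  -- the covering
  have h2 : ∑ z ∈ bl T (m * ρ), f z ^ 2 ≤ ∑ x ∈ X, ∑ y ∈ bl T (2 * ρ), f (x * y) ^ 2 := by
    have e1 : ∑ x ∈ X, ∑ y ∈ bl T (2 * ρ), f (x * y) ^ 2 =
        ∑ p ∈ X ×ˢ bl T (2 * ρ), f (p.1 * p.2) ^ 2 := by
      rw [Finset.sum_product]
    rw [e1]
    have e2 : bl T (m * ρ) ⊆ (X ×ˢ bl T (2 * ρ)).image fun p => p.1 * p.2 := by
      intro z hz
      obtain ⟨x, hx, y, hy, hxy⟩ := hX3 z hz
      exact Finset.mem_image.2 ⟨(x, y), Finset.mem_product.2 ⟨hx, hy⟩, hxy⟩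
    refine (Finset.sum_le_sum_of_subset_of_nonneg e2 fun _ _ _ => sq_nonneg _).trans ?_
    have e3 := Finset.sum_fiberwise_of_maps_to (s := X ×ˢ bl T (2 * ρ))
      (t := (X ×ˢ bl T (2 * ρ)).image fun p => p.1 * p.2) (g := fun p => p.1 * p.2)
      (fun p hp => Finset.mem_image_of_mem _ hp) (fun p => f (p.1 * p.2) ^ 2)
    rw [← e3]
    refine Finset.sum_le_sum fun z hz => ?_
    obtain ⟨p, hp, rfl⟩ := Finset.mem_image.1 hz
    exact Finset.single_le_sum (f := fun q : G × G => f (q.1 * q.2) ^ 2) (fun _ _ => sq_nonneg _)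
      (Finset.mem_filter.2 ⟨hp, rfl⟩)
  -- the multiplicity
  have h3 : ∑ x ∈ X, ∑ y ∈ bl T (6 * ρ), grad T f (x * y) ≤
      K * ∑ z ∈ bl T (7 * (m * ρ)), grad T f z := by
    have hsub : ∀ x ∈ X, ∀ y ∈ bl T (6 * ρ), x * y ∈ bl T (7 * (m * ρ)) := by
      intro x hx y hy
      have a1 := bl_mul (hX1 hx) hy
      refine bl_mono hT ?_ a1
      have : ρ ≤ m * ρ := Nat.le_mul_of_pos_left ρ hm
      omega
    have e1 : ∀ x ∈ X, ∑ y ∈ bl T (6 * ρ), grad T f (x * y) =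
        ∑ z ∈ bl T (7 * (m * ρ)), if x⁻¹ * z ∈ bl T (6 * ρ) then grad T f z else 0 := by
      intro x hx
      rw [← Finset.sum_filter]
      refine Finset.sum_bij (fun y _ => x * y) ?_ ?_ ?_ ?_
      · intro y hy
        refine Finset.mem_filter.2 ⟨hsub x hx y hy, ?_⟩
        rwa [inv_mul_cancel_left]
      · intro y _ y' _ h
        exact mul_left_cancel h
      · intro z hz
        exact ⟨x⁻¹ * z, (Finset.mem_filter.1 hz).2, by rw [mul_inv_cancel_left]⟩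
      · intro y _
        rfl
    rw [Finset.sum_congr rfl e1, Finset.sum_comm, Finset.mul_sum]
    refine Finset.sum_le_sum fun z _ => ?_
    rw [← Finset.sum_filter, Finset.sum_const, nsmul_eq_mul]
    refine mul_le_mul_of_nonneg_right ?_ (grad_nonneg T f z)
    have a1 : (((X.filter fun x => x⁻¹ * z ∈ bl T (6 * ρ)).card : ℝ)) * (bl T ρ).card ≤
        (bl T (7 * ρ)).card := by exact_mod_cast hX4 z
    exact le_of_mul_le_mul_right (a1.trans hK) hb1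
  have hR : 1 ≤ 7 * (m * ρ) := by
    have := Nat.mul_pos hm hρ
    omega
  have h4 := hcac f hf (7 * (m * ρ)) hR
  have e7 : 3 * (7 * (m * ρ)) = 21 * (m * ρ) := by ring
  rw [e7] at h4
  calc ∑ z ∈ bl T (m * ρ), f z ^ 2 ≤ ∑ x ∈ X, ∑ y ∈ bl T (2 * ρ), f (x * y) ^ 2 := h2
    _ ≤ ∑ x ∈ X, 8 * (ρ : ℝ) ^ 2 * K * ∑ y ∈ bl T (6 * ρ), grad T f (x * y) :=
        Finset.sum_le_sum h1
    _ = 8 * (ρ : ℝ) ^ 2 * K * ∑ x ∈ X, ∑ y ∈ bl T (6 * ρ), grad T f (x * y) := by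
        rw [Finset.mul_sum]
    _ ≤ 8 * (ρ : ℝ) ^ 2 * K * (K * (C / ((7 * (m * ρ) : ℕ) : ℝ) ^ 2 *
          ∑ x ∈ bl T (21 * (m * ρ)), f x ^ 2)) := by
        refine mul_le_mul_of_nonneg_left ?_ (by positivity)
        exact h3.trans (mul_le_mul_of_nonneg_left h4 hK0.le)
    _ = 8 * C / 49 * K ^ 2 / (m : ℝ) ^ 2 * ∑ x ∈ bl T (21 * (m * ρ)), f x ^ 2 := by
        push_cast
        field_simp
        ring

end Pool.Agent.Lib.MP_322c76_al.BW
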