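import Pool.Agent.Lib.MP_322c76_al.BW.Defs
import Pool.Agent.Lib.MP_322c76_al.BW.Act

set_option autoImplicit false

namespace Pool.Agent.Lib.MP_322c76_al.BW

variable {k n D : ℕ}

/-! ROW Cpt (compactness). Code a configuration by the displacements of `ω j` and of `(ω j).symm`:
a point of `Fin k × ℤ × Bool → [-D, D]` (compact, product of finite discrete spaces; the image of the
configurations is closed: the two maps are inverse to each other). `Closed' K` below says that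
the image of `K` is closed. -/

/-- `K` is closed for the topology given by agreement on windows -/
def Closed' (D : ℕ) (K : Set (Conf k)) : Prop := ∀ ω : Conf k, (∀ j x, |ω j x - x| ≤ D) →
  (∀ R : ℕ, ∃ ω' ∈ K, Agree R ω' ω) → ω ∈ K

private theorem cpt_ulim (D : ℕ) (U : Ultrafilter (Conf k))
    (hU : {ω : Conf k | ∀ j x, |ω j x - x| ≤ (D : ℤ)} ∈ U) :
    ∃ ω' : Conf k, (∀ j x, |ω' j x - x| ≤ (D : ℤ)) ∧ ∀ R : ℕ, {ω | Agree R ω ω'} ∈ U := by
  have key : ∀ e : Conf k → ℤ, ∀ x : ℤ, (∀ ω : Conf k, (∀ j x, |ω j x - x| ≤ (D : ℤ)) → |e ω - x| ≤ (D : ℤ)) →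
      ∃ v : ℤ, {ω | e ω = v} ∈ U := by
    intro e x he
    have h1 : Set.Icc (x - D) (x + D) ∈ U.map e := by
      rw [Ultrafilter.mem_map]
      refine Filter.mem_of_superset hU fun ω hω => ?_
      have h2 := abs_le.mp (he ω hω)
      exact ⟨by linarith [h2.1], by linarith [h2.2]⟩
    obtain ⟨v, _, hv⟩ := Ultrafilter.eq_pure_of_finite_mem (Set.finite_Icc _ _) h1
    refine ⟨v, ?_⟩
    have h3 : ({v} : Set ℤ) ∈ U.map e := by
      rw [hv]
      exact Filter.mem_pure.mpr rfl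
    rw [Ultrafilter.mem_map] at h3
    exact h3
  have h1 : ∀ j : Fin k, ∀ x : ℤ, ∃ v : ℤ, {ω : Conf k | ω j x = v} ∈ U := fun j x =>
    key (fun ω => ω j x) x fun ω hω => hω j x
  have h2 : ∀ j : Fin k, ∀ x : ℤ, ∃ v : ℤ, {ω : Conf k | (ω j).symm x = v} ∈ U := fun j x =>
    key (fun ω => (ω j).symm x) x fun ω hω => by
      have h3 := hω j ((ω j).symm x)
      rw [Equiv.apply_symm_apply, abs_sub_comm] at h3
      exact h3
  choose v hv using h1
  choose v' hv' using h2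
  have hl : ∀ j x, v' j (v j x) = x := by
    intro j x
    obtain ⟨ω, hω1, hω2⟩ := U.nonempty_of_mem (Filter.inter_mem (hv j x) (hv' j (v j x)))
    have h3 : ω j x = v j x := hω1
    have h4 : (ω j).symm (v j x) = v' j (v j x) := hω2
    rw [← h4, ← h3, Equiv.symm_apply_apply]
  have hr : ∀ j x, v j (v' j x) = x := by
    intro j x
    obtain ⟨ω, hω1, hω2⟩ := U.nonempty_of_mem (Filter.inter_mem (hv j (v' j x)) (hv' j x))
    have h3 : ω j (v' j x) = v j (v' j x) := hω1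
    have h4 : (ω j).symm x = v' j x := hω2
    rw [← h3, ← h4, Equiv.apply_symm_apply]
  refine ⟨fun j => ⟨v j, v' j, hl j, hr j⟩, fun j x => ?_, fun R => ?_⟩
  · obtain ⟨ω, hω1, hω2⟩ := U.nonempty_of_mem (Filter.inter_mem (hv j x) hU)
    have h3 : ω j x = v j x := hω1
    have h4 := hω2 j x
    rw [h3] at h4
    exact h4
  · have h3 : ∀ j : Fin k, ∀ x ∈ Finset.Icc (-(R : ℤ)) R, {ω : Conf k | ω j x = v j x ∧ (ω j).symm x = v' j x} ∈ U :=
      fun j x _ => Filter.inter_mem (hv j x) (hv' j x)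
    have h4 : (⋂ j : Fin k, ⋂ x ∈ Finset.Icc (-(R : ℤ)) R, {ω : Conf k | ω j x = v j x ∧ (ω j).symm x = v' j x}) ∈
        (U : Filter (Conf k)) := by
      rw [Filter.iInter_mem]
      intro j
      rw [Filter.biInter_finset_mem]
      exact h3 j
    refine Filter.mem_of_superset h4 fun ω hω j x hx => ?_
    simp only [Set.mem_iInter] at hω
    exact hω j x (Finset.mem_Icc.mpr (abs_le.mp hx))

theorem finite_subcover (D : ℕ) (K : Set (Conf k)) (hK : ∀ ω ∈ K, ∀ j x, |ω j x - x| ≤ D)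
    (hc : Closed' D K) (ρ : Conf k → ℕ) :
    ∃ F : Finset (Conf k), (∀ ω ∈ F, ω ∈ K) ∧ ∀ ω ∈ K, ∃ ω' ∈ F, Agree (ρ ω') ω ω' := by
  classical
  by_contra hcon
  push Not at hcon
  let A : Finset {ω // ω ∈ K} → Set (Conf k) := fun F => {ω | ω ∈ K ∧ ∀ ω' ∈ F, ¬ Agree (ρ ω'.1) ω ω'.1}
  have hA : ∀ F, (A F).Nonempty := by
    intro F
    obtain ⟨ω, hω, h⟩ := hcon (F.image Subtype.val) (by
      intro ω hω
      obtain ⟨ω', _, rfl⟩ := Finset.mem_image.mp hω
      exact ω'.2)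
    exact ⟨ω, hω, fun ω' hω' => h ω'.1 (Finset.mem_image_of_mem _ hω')⟩
  have hmono : ∀ F F', F ⊆ F' → A F' ⊆ A F := fun F F' h ω hω => ⟨hω.1, fun ω' hω' => hω.2 ω' (h hω')⟩
  have hne : (⨅ F, Filter.principal (A F)).NeBot := by
    apply Filter.iInf_neBot_of_directed'
    · intro F F'
      exact ⟨F ∪ F', Filter.principal_mono.mpr (hmono _ _ Finset.subset_union_left),
        Filter.principal_mono.mpr (hmono _ _ Finset.subset_union_right)⟩
    · intro F
      exact Filter.principal_neBot_iff.mpr (hA F)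
  let U := Ultrafilter.of (⨅ F, Filter.principal (A F))
  have hUA : ∀ F, A F ∈ U := fun F =>
    (Ultrafilter.of_le _).trans (iInf_le _ F) (Filter.mem_principal_self (A F))
  have hUK : K ∈ U := Filter.mem_of_superset (hUA ∅) fun ω hω => hω.1
  obtain ⟨ω', hω', hag⟩ := cpt_ulim D U (Filter.mem_of_superset hUK fun ω hω => hK ω hω)
  have hmem : ω' ∈ K := hc ω' hω' fun R => by
    obtain ⟨ω, h1, h2⟩ := U.nonempty_of_mem (Filter.inter_mem hUK (hag R))
    exact ⟨ω, h1, h2⟩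
  obtain ⟨ω, h1, h2⟩ := U.nonempty_of_mem (Filter.inter_mem (hUA {⟨ω', hmem⟩}) (hag (ρ ω')))
  exact h1.2 ⟨ω', hmem⟩ (Finset.mem_singleton_self _) h2

theorem chain_inter (D : ℕ) (c : Set (Set (Conf k))) (hne : c.Nonempty) (hch : IsChain (· ⊆ ·) c)
    (hK : ∀ K ∈ c, K.Nonempty ∧ Closed' D K ∧ ∀ ω ∈ K, ∀ j x, |ω j x - x| ≤ D) :
    (⋂₀ c).Nonempty := by
  have : Nonempty c := hne.to_subtype
  have hnb : (⨅ K : c, Filter.principal K.1).NeBot := by
    apply Filter.iInf_neBot_of_directed'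
    · intro K K'
      rcases hch.total K.2 K'.2 with h | h
      · exact ⟨K, le_rfl, Filter.principal_mono.mpr h⟩
      · exact ⟨K', Filter.principal_mono.mpr h, le_rfl⟩
    · intro K
      exact Filter.principal_neBot_iff.mpr (hK K.1 K.2).1
  let U := Ultrafilter.of (⨅ K : c, Filter.principal K.1)
  have hUK : ∀ K ∈ c, K ∈ U := fun K hKc =>
    (Ultrafilter.of_le _).trans (iInf_le _ (⟨K, hKc⟩ : c)) (Filter.mem_principal_self K)
  obtain ⟨K0, hK0⟩ := hne
  obtain ⟨ω', hω', hag⟩ := cpt_ulim D U (Filter.mem_of_superset (hUK K0 hK0) fun ω hω => (hK K0 hK0).2.2 ω hω)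
  refine ⟨ω', fun K hKc => (hK K hKc).2.1 ω' hω' fun R => ?_⟩
  obtain ⟨ω, h1, h2⟩ := U.nonempty_of_mem (Filter.inter_mem (hUK K hKc) (hag R))
  exact ⟨ω, h1, h2⟩

end Pool.Agent.Lib.MP_322c76_al.BW
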