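import Pool.Agent.Lib.MP_322c76_al.BW.CDefs

set_option autoImplicit false

namespace Pool.Agent.Lib.MP_322c76_al.BW

variable {k : ℕ}

/-! ROW Cross (paths cross cuts). The way from `x` to `v x` along the reduced word `v`: if `x` and
`v x` are on different sides of the cut at `t`, some step crosses it. Induction on the norm of `v`
(a word of norm `i + 1` is a letter or an inverse letter times a word of norm `i`); a step from
`w` to `a_j w` is the edge `(j, w)`, a step from `w` to `a_j⁻¹ w` is the edge `(j, a_j⁻¹ w)`. -/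

private theorem cross_step (P : Pre k) (t w : Wd k) (j : Fin k)
    (h : (¬ P.le t w ∧ P.le t (FreeGroup.of j * w)) ∨
      (P.le t w ∧ ¬ P.le t (FreeGroup.of j * w))) : P.Cross t (j, w) := by
  rcases h with h | h
  · exact Or.inl h
  · exact Or.inr ⟨h.2, h.1⟩

private theorem cross_list (P : Pre k) (x t : Wd k) (L : List (Fin k × Bool))
    (h : (¬ P.le t x ∧ P.le t (FreeGroup.mk L * x)) ∨
      (P.le t x ∧ ¬ P.le t (FreeGroup.mk L * x))) :
    ∃ (j : Fin k) (u : Wd k), u.norm ≤ L.length ∧ P.Cross t (j, u * x) := by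
  induction L with
  | nil =>
    exfalso
    have e : (FreeGroup.mk [] : Wd k) = 1 := FreeGroup.one_eq_mk.symm
    rw [e, one_mul] at h
    rcases h with h | h
    · exact h.1 h.2
    · exact h.2 h.1
  | cons a L ih =>
    obtain ⟨j, b⟩ := a
    have hn : (FreeGroup.mk L : Wd k).norm ≤ L.length := FreeGroup.norm_mk_le
    have e : (FreeGroup.mk ((j, b) :: L) : Wd k) = FreeGroup.mk [(j, b)] * FreeGroup.mk L := by
      simp [FreeGroup.mul_mk]
    by_cases hin : (¬ P.le t x ∧ P.le t (FreeGroup.mk L * x)) ∨
        (P.le t x ∧ ¬ P.le t (FreeGroup.mk L * x))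
    · obtain ⟨i, u, hu, hc⟩ := ih hin
      exact ⟨i, u, hu.trans (by simp), hc⟩
    · rw [e, mul_assoc] at h
      cases b with
      | true =>
        have e1 : (FreeGroup.mk [(j, true)] : Wd k) = FreeGroup.of j := rfl
        rw [e1] at h
        refine ⟨j, FreeGroup.mk L, hn.trans (by simp), cross_step P t _ j ?_⟩
        tauto
      | false =>
        have e1 : (FreeGroup.mk [(j, false)] : Wd k) = (FreeGroup.of j)⁻¹ := by
          simp [FreeGroup.of, FreeGroup.inv_mk, FreeGroup.invRev]
        rw [e1] at h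
        refine ⟨j, (FreeGroup.of j)⁻¹ * FreeGroup.mk L, ?_, ?_⟩
        · refine (FreeGroup.norm_mul_le _ _).trans ?_
          rw [FreeGroup.norm_inv_eq, FreeGroup.norm_of]
          simp only [List.length_cons]
          omega
        · apply cross_step
          have e2 : FreeGroup.of j * ((FreeGroup.of j)⁻¹ * FreeGroup.mk L * x) =
              FreeGroup.mk L * x := by group
          rw [e2, mul_assoc]
          tauto

theorem exists_cross (P : Pre k) (x v t : Wd k)
    (h : (¬ P.le t x ∧ P.le t (v * x)) ∨ (P.le t x ∧ ¬ P.le t (v * x))) :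
    ∃ (j : Fin k) (u : Wd k), u.norm ≤ v.norm ∧ P.Cross t (j, u * x) := by
  have e : FreeGroup.mk v.toWord = v := FreeGroup.mk_toWord
  rw [← e] at h
  exact cross_list P x t v.toWord h

private theorem cross_eqv_symm (P : Pre k) {g h : Wd k} (hh : P.Eqv g h) : P.Eqv h g :=
  ⟨hh.2, hh.1⟩

private theorem cross_eqv_trans (P : Pre k) {g h l : Wd k} (h1 : P.Eqv g h) (h2 : P.Eqv h l) :
    P.Eqv g l :=
  ⟨P.trans _ _ _ h1.1 h2.1, P.trans _ _ _ h2.2 h1.2⟩

/-- a tight cut has no crossing edges besides the `M` near ones -/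
theorem near_of_tight (P : Pre k) {M r : ℕ} (hcut : P.CutLe M) {t : Wd k} (ht : P.Tight M r t)
    {e : Fin k × Wd k} (he : P.Cross t e) : ∃ u : Wd k, u.norm ≤ r ∧ P.Eqv (u * t) e.2 := by
  classical
  obtain ⟨F, hF, hc, hne, hnear⟩ := ht
  by_contra hcon
  have hmem : e ∉ F := fun hm => hcon (hnear e hm)
  have key : ∀ e' ∈ F, P.Ne e e' := by
    intro e' he'
    by_contra hn
    unfold Pre.Ne at hn
    push Not at hn
    obtain ⟨u, hu, hue⟩ := hnear e' he'
    exact hcon ⟨u, hu, cross_eqv_trans P hue (cross_eqv_symm P hn.2)⟩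
  have key' : ∀ e' ∈ F, P.Ne e' e := by
    intro e' he'
    rcases key e' he' with h | h
    · exact Or.inl (Ne.symm h)
    · exact Or.inr fun h' => h (cross_eqv_symm P h')
  have h1 := hcut t (insert e F) (by
    intro e' he'
    rcases Finset.mem_insert.1 he' with rfl | h
    · exact he
    · exact hc _ h) (by
    intro a ha b hb hab
    rcases Finset.mem_insert.1 ha with h1 | h1
    · rcases Finset.mem_insert.1 hb with h2 | h2
      · exact absurd (h1.trans h2.symm) hab
      · rw [h1]; exact key _ h2
    · rcases Finset.mem_insert.1 hb with h2 | h2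
      · rw [h2]; exact key' _ h1
      · exact hne _ h1 _ h2 hab)
  rw [Finset.card_insert_of_notMem hmem, hF] at h1
  omega

end Pool.Agent.Lib.MP_322c76_al.BW
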