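import Pool.Agent.Lib.MP_322c76_al.BW.CDefs
import Pool.Agent.Lib.MP_322c76_al.BW.Cross

set_option autoImplicit false

namespace Pool.Agent.Lib.MP_322c76_al.BW

variable {k : ℕ}

/-! ROW Intv. Intervals are finite. Let `x ≤ z ≤ y`, `y = v x`, `|v| ≤ d`, `t = g z` tight, `|g| ≤ lam`.
If `x < t ≤ y` then the way from `x` to `y` crosses the cut at `t` (`exists_cross`), so (`near_of_tight`)
a point `u x`, `|u| ≤ d`, is equivalent to `u' t`, `|u'| ≤ r₀`: `z` is reached from `x` by a word of length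
`≤ d + r₀ + lam`. If `t ≤ x`: if `t` is equivalent to `x` then `z` is reached from `x` by `g⁻¹`; otherwise
`t < x ≤ z`, the way from `z` to `t` crosses the cut at `x`, at an edge that starts at `u z`,
`|u| ≤ lam`; take a maximal finite set `F` of different edges crossing the cut at `x` (at most `M`
by `CutLe`): the edge is equivalent to one of them, so `z` is reached from `e.2`, `e ∈ F`, by a word of
norm `≤ lam`. If `t > y`: if `z` is equivalent to `y`, it is reached from `x` by `v`; otherwise `z < y ≤ t`,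
the way from `z` to `t` crosses the cut at `y`, in the same way. So the number of inequivalent `z` is
at most `(2 M + 3) * w`, `w` = number of words of norm `≤ d + r₀ + lam`. -/

private theorem intv_symm (P : Pre k) {a b : Wd k} (h : P.Eqv a b) : P.Eqv b a := ⟨h.2, h.1⟩

private theorem intv_trans (P : Pre k) {a b c : Wd k} (h : P.Eqv a b) (h' : P.Eqv b c) :
    P.Eqv a c := ⟨P.trans _ _ _ h.1 h'.1, P.trans _ _ _ h'.2 h.2⟩

private theorem intv_mul (P : Pre k) {a b : Wd k} (h : P.Eqv a b) (u : Wd k) :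
    P.Eqv (u * a) (u * b) := ⟨P.congr _ _ h.1 h.2 u, P.congr _ _ h.2 h.1 u⟩

/-- If `u z` is equivalent to `b` then `u⁻¹ b` is equivalent to `z`. -/
private theorem intv_inv (P : Pre k) {u z b : Wd k} (h : P.Eqv (u * z) b) :
    P.Eqv (u⁻¹ * b) z := by
  have h1 := intv_mul P (intv_symm P h) u⁻¹
  rwa [inv_mul_cancel_left] at h1

/-- A maximal set of different edges that cross the cut at `x`. -/
private theorem intv_max (P : Pre k) (M : ℕ) (hcut : P.CutLe M) (x : Wd k) :
    ∃ F : Finset (Fin k × Wd k), F.card ≤ M ∧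
      ∀ e, P.Cross x e → ∃ e' ∈ F, P.Eqv e'.2 e.2 := by
  classical
  let Q : ℕ → Prop := fun m => ∃ F : Finset (Fin k × Wd k), F.card = m ∧
    (∀ e ∈ F, P.Cross x e) ∧ ∀ e ∈ F, ∀ e' ∈ F, e ≠ e' → P.Ne e e'
  have hQ0 : Q 0 := ⟨∅, rfl, by simp, by simp⟩
  have hQb : ∀ m, Q m → m ≤ M := by
    rintro m ⟨F, hF, h1, h2⟩
    rw [← hF]
    exact hcut x F h1 h2
  have hmax : Q (Nat.findGreatest Q M) := Nat.findGreatest_spec (Nat.zero_le M) hQ0
  obtain ⟨F, hF, h1, h2⟩ := hmax
  refine ⟨F, hF ▸ Nat.findGreatest_le M, fun e he => ?_⟩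
  by_contra hcon
  push Not at hcon
  have hne : e ∉ F := fun h => hcon e h ⟨(P.total _ _).elim id id, (P.total _ _).elim id id⟩
  have hQ1 : Q (Nat.findGreatest Q M + 1) := by
    refine ⟨insert e F, by rw [Finset.card_insert_of_notMem hne, hF], ?_, ?_⟩
    · intro e' he'
      rcases Finset.mem_insert.1 he' with h | h
      · rw [h]; exact he
      · exact h1 e' h
    · intro a ha b hb hab
      rcases Finset.mem_insert.1 ha with h | h
      · rcases Finset.mem_insert.1 hb with h' | h'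
        · exact absurd (h.trans h'.symm) hab
        · rw [h]
          exact Or.inr (fun h3 => hcon b h' (intv_symm P h3))
      · rcases Finset.mem_insert.1 hb with h' | h'
        · rw [h']
          exact Or.inr (fun h3 => hcon a h h3)
        · exact h2 a h b h' hab
  have h3 := Nat.le_findGreatest (hQb _ hQ1) hQ1
  omega

/-- The case distinction. -/
private theorem intv_key (P : Pre k) (M r₀ lam d : ℕ) (hcut : P.CutLe M)
    (ht : ∀ x, ∃ g : Wd k, g.norm ≤ lam ∧ P.Tight M r₀ (g * x))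
    (lo v z : Wd k) (hv : v.norm ≤ d) (h1 : P.le lo z) (h2 : P.le z (v * lo))
    (Fl Fh : Finset (Fin k × Wd k)) (hl : ∀ e, P.Cross lo e → ∃ e' ∈ Fl, P.Eqv e'.2 e.2)
    (hh : ∀ e, P.Cross (v * lo) e → ∃ e' ∈ Fh, P.Eqv e'.2 e.2) :
    ∃ s b : Wd k, s.norm ≤ d + r₀ + lam ∧ P.Eqv (s * b) z ∧
      (b = lo ∨ b = v * lo ∨ (∃ e ∈ Fl, b = e.2) ∨ ∃ e ∈ Fh, b = e.2) := by
  obtain ⟨g, hg, hT⟩ := ht z
  by_cases c1 : P.le (g * z) lo
  · by_cases c2 : P.le lo (g * z)
    · -- `t` is equivalent to `lo`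
      refine ⟨g⁻¹, lo, ?_, intv_inv P ⟨c1, c2⟩, Or.inl rfl⟩
      rw [FreeGroup.norm_inv_eq]
      omega
    · obtain ⟨j, u, hu, hx⟩ := exists_cross P z g lo (Or.inr ⟨h1, c2⟩)
      obtain ⟨e', he', hE⟩ := hl _ hx
      refine ⟨u⁻¹, e'.2, ?_, intv_inv P (intv_symm P hE), Or.inr (Or.inr (Or.inl ⟨e', he', rfl⟩))⟩
      rw [FreeGroup.norm_inv_eq]
      omega
  · by_cases c2 : P.le (g * z) (v * lo)
    · obtain ⟨j, u, hu, hx⟩ := exists_cross P lo v (g * z) (Or.inl ⟨c1, c2⟩)
      obtain ⟨u', hu', hE⟩ := near_of_tight P hcut hT hx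
      have h3 : P.Eqv ((u' * g) * z) (u * lo) := by rwa [mul_assoc]
      have h4 : P.Eqv (((u' * g)⁻¹ * u) * lo) z := by
        have h5 := intv_inv P h3
        rwa [← mul_assoc] at h5
      refine ⟨(u' * g)⁻¹ * u, lo, ?_, h4, Or.inl rfl⟩
      have h5 := FreeGroup.norm_mul_le (u' * g)⁻¹ u
      have h6 := FreeGroup.norm_mul_le u' g
      rw [FreeGroup.norm_inv_eq] at h5
      omega
    · by_cases c3 : P.le (v * lo) z
      · refine ⟨1, v * lo, ?_, ?_, Or.inr (Or.inl rfl)⟩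
        · rw [FreeGroup.norm_one]
          omega
        · rw [one_mul]
          exact ⟨c3, h2⟩
      · have c4 : P.le (v * lo) (g * z) := (P.total _ _).resolve_left c2
        obtain ⟨j, u, hu, hx⟩ := exists_cross P z g (v * lo) (Or.inl ⟨c3, c4⟩)
        obtain ⟨e', he', hE⟩ := hh _ hx
        refine ⟨u⁻¹, e'.2, ?_, intv_inv P (intv_symm P hE),
          Or.inr (Or.inr (Or.inr ⟨e', he', rfl⟩))⟩
        rw [FreeGroup.norm_inv_eq]
        omega

private theorem intv_fin (r : ℕ) : {g : Wd k | g.norm ≤ r}.Finite := by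
  have h : ((fun g : Wd k => FreeGroup.toWord g) ⁻¹'
      {l : List (Fin k × Bool) | l.length ≤ r}).Finite :=
    Set.Finite.preimage (FreeGroup.toWord_injective.injOn) (List.finite_length_le _ r)
  exact h

theorem interval_bound (P : Pre k) (M r₀ lam : ℕ) (hcut : P.CutLe M)
    (ht : ∀ x, ∃ g : Wd k, g.norm ≤ lam ∧ P.Tight M r₀ (g * x)) (d : ℕ) :
    ∃ B : ℕ, ∀ x v : Wd k, v.norm ≤ d → ∀ F : Finset (Wd k),
      (∀ z ∈ F, (P.le x z ∧ P.le z (v * x)) ∨ (P.le (v * x) z ∧ P.le z x)) →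
      (∀ g ∈ F, ∀ h ∈ F, g ≠ h → ¬ P.Eqv g h) → F.card ≤ B := by
  classical
  have hW := intv_fin (k := k) (d + r₀ + lam)
  refine ⟨(2 + 2 * M) * hW.toFinset.card, fun x v hv F hF hne => ?_⟩
  obtain ⟨Fx, hx1, hx2⟩ := intv_max P M hcut x
  obtain ⟨Fy, hy1, hy2⟩ := intv_max P M hcut (v * x)
  let base : Finset (Wd k) := {x, v * x} ∪ (Fx.image Prod.snd ∪ Fy.image Prod.snd)
  have hbase : base.card ≤ 2 + 2 * M := by
    refine (Finset.card_union_le _ _).trans ?_
    have a1 : ({x, v * x} : Finset (Wd k)).card ≤ 2 := Finset.card_le_two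
    have a2 := Finset.card_union_le (Fx.image Prod.snd) (Fy.image Prod.snd)
    have a3 : (Fx.image Prod.snd).card ≤ Fx.card := Finset.card_image_le
    have a4 : (Fy.image Prod.snd).card ≤ Fy.card := Finset.card_image_le
    omega
  have key : ∀ z ∈ F, ∃ p : Wd k × Wd k, p ∈ base ×ˢ hW.toFinset ∧ P.Eqv (p.2 * p.1) z := by
    intro z hz
    rcases hF z hz with ⟨h1, h2⟩ | ⟨h1, h2⟩
    · obtain ⟨s, b, hs, hE, hb⟩ :=
        intv_key P M r₀ lam d hcut ht x v z hv h1 h2 Fx Fy hx2 hy2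
      refine ⟨(b, s), Finset.mem_product.2 ⟨?_, hW.mem_toFinset.2 hs⟩, hE⟩
      show b ∈ base
      simp only [base, Finset.mem_union, Finset.mem_insert, Finset.mem_singleton,
        Finset.mem_image]
      rcases hb with h | h | ⟨e, he, h⟩ | ⟨e, he, h⟩
      · exact Or.inl (Or.inl h)
      · exact Or.inl (Or.inr h)
      · exact Or.inr (Or.inl ⟨e, he, h.symm⟩)
      · exact Or.inr (Or.inr ⟨e, he, h.symm⟩)
    · have hx3 : v⁻¹ * (v * x) = x := inv_mul_cancel_left v x
      obtain ⟨s, b, hs, hE, hb⟩ :=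
        intv_key P M r₀ lam d hcut ht (v * x) v⁻¹ z (by rwa [FreeGroup.norm_inv_eq]) h1
          (by rwa [hx3]) Fy Fx hy2 (by rwa [hx3])
      refine ⟨(b, s), Finset.mem_product.2 ⟨?_, hW.mem_toFinset.2 hs⟩, hE⟩
      show b ∈ base
      simp only [base, Finset.mem_union, Finset.mem_insert, Finset.mem_singleton,
        Finset.mem_image]
      rcases hb with h | h | ⟨e, he, h⟩ | ⟨e, he, h⟩
      · exact Or.inl (Or.inr h)
      · exact Or.inl (Or.inl (h.trans hx3))
      · exact Or.inr (Or.inr ⟨e, he, h.symm⟩)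
      · exact Or.inr (Or.inl ⟨e, he, h.symm⟩)
  choose! p hp1 hp2 using key
  have hinj : Set.InjOn p F := by
    intro a ha b hb hab
    by_contra hcon
    refine hne a ha b hb hcon ?_
    have h1 := hp2 a ha
    have h2 := hp2 b hb
    rw [← hab] at h2
    exact intv_trans P (intv_symm P h1) h2
  have h1 : F.card ≤ (base ×ˢ hW.toFinset).card := Finset.card_le_card_of_injOn p hp1 hinj
  rw [Finset.card_product] at h1
  exact h1.trans (Nat.mul_le_mul_right _ hbase)

end Pool.Agent.Lib.MP_322c76_al.BW
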