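import Pool.Agent.Lib.MP_322c76_al.BW.CDefs
import Pool.Agent.Lib.MP_322c76_al.BW.Intv

set_option autoImplicit false

namespace Pool.Agent.Lib.MP_322c76_al.BW

variable {k : ℕ}

/-! ROW Emb. Quotient of `Wd k` by `Eqv`: a linearly ordered set `X` with an action of `Wd k`. By
`interval_bound` (`y = (y x⁻¹) x`) all intervals are finite, and the interval between `x` and `a_j x` has
at most `B` points. `p(x) = #[x₀, x)` for `x ≥ x₀` and `- #[x, x₀)` for `x ≤ x₀` is injective and
`|p(a_j x) - p(x)| ≤ B`. `ω j` = the permutation of `ℤ` induced on the image of `p` and the identity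
elsewhere (`Equiv.Perm.extendDomain (..) (Equiv.ofInjective p hp)`), `x₀` = class of `1`,
`p x₀ = 0`, `act ω g (p x) = p (g x)`. -/

private theorem emb_refl (P : Pre k) (g : Wd k) : P.le g g := (P.total g g).elim id id

private def embSetoid (P : Pre k) : Setoid (Wd k) where
  r := P.Eqv
  iseqv := ⟨fun g => ⟨emb_refl P g, emb_refl P g⟩, fun h => ⟨h.2, h.1⟩,
    fun h h' => ⟨P.trans _ _ _ h.1 h'.1, P.trans _ _ _ h'.2 h.2⟩⟩

private theorem emb_quot (P : Pre k) : ∃ (X : Type) (_ : LinearOrder X) (c : Wd k → X)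
    (A : Wd k →* Equiv.Perm X), Function.Surjective c ∧ (∀ g h, c g ≤ c h ↔ P.le g h) ∧
      ∀ g h, A g (c h) = c (g * h) := by
  classical
  let s := embSetoid P
  let leX : Quotient s → Quotient s → Prop := Quotient.lift₂ P.le (by
    intro a b a' b' h h'
    exact propext ⟨fun h1 => P.trans _ _ _ h.2 (P.trans _ _ _ h1 h'.1),
      fun h1 => P.trans _ _ _ h.1 (P.trans _ _ _ h1 h'.2)⟩)
  have hle : ∀ g h : Wd k, leX (Quotient.mk s g) (Quotient.mk s h) ↔ P.le g h :=
    fun _ _ => Iff.rfl
  let L : LinearOrder (Quotient s) :=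
    { le := leX
      le_refl := fun x => by
        induction x using Quotient.inductionOn with
        | h g => exact emb_refl P g
      le_trans := fun x y z => by
        induction x using Quotient.inductionOn with
        | h g =>
          induction y using Quotient.inductionOn with
          | h h =>
            induction z using Quotient.inductionOn with
            | h l => exact fun h1 h2 => P.trans g h l h1 h2
      le_antisymm := fun x y => by
        induction x using Quotient.inductionOn with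
        | h g =>
          induction y using Quotient.inductionOn with
          | h h => exact fun h1 h2 => Quotient.sound ⟨h1, h2⟩
      le_total := fun x y => by
        induction x using Quotient.inductionOn with
        | h g =>
          induction y using Quotient.inductionOn with
          | h h => exact P.total g h
      toDecidableLE := Classical.decRel _ }
  let m : Wd k → Quotient s → Quotient s := fun u => Quotient.map (fun g => u * g)
    (fun g h hgh => ⟨P.congr g h hgh.1 hgh.2 u, P.congr h g hgh.2 hgh.1 u⟩)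
  have hm : ∀ u g : Wd k, m u (Quotient.mk s g) = Quotient.mk s (u * g) := fun _ _ => rfl
  have hmm : ∀ (u v : Wd k) (x : Quotient s), m (u * v) x = m u (m v x) := by
    intro u v x
    induction x using Quotient.inductionOn with
    | h g => rw [hm, hm, hm, mul_assoc]
  have hm1 : ∀ x : Quotient s, m 1 x = x := by
    intro x
    induction x using Quotient.inductionOn with
    | h g => rw [hm, one_mul]
  let A : Wd k →* Equiv.Perm (Quotient s) :=
    { toFun := fun u => ⟨m u, m u⁻¹, fun x => by rw [← hmm, inv_mul_cancel, hm1],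
        fun x => by rw [← hmm, mul_inv_cancel, hm1]⟩
      map_one' := by
        ext x
        exact hm1 x
      map_mul' := fun u v => by
        ext x
        exact hmm u v x }
  exact ⟨Quotient s, L, Quotient.mk s, A, Quotient.mk_surjective, hle, fun g h => rfl⟩

private theorem emb_pos {X : Type} [LinearOrder X] (hfin : ∀ x y : X, (Set.Ico x y).Finite)
    (x₀ : X) : ∃ p : X → ℤ, p x₀ = 0 ∧ ∀ x y, x ≤ y → p y - p x = ((Set.Ico x y).ncard : ℤ) := by
  have hadd : ∀ a b c : X, a ≤ b → b ≤ c →
      ((Set.Ico a c).ncard : ℤ) = (Set.Ico a b).ncard + (Set.Ico b c).ncard := by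
    intro a b c hab hbc
    rw [← Set.Ico_union_Ico_eq_Ico hab hbc, Set.ncard_union_eq _ (hfin _ _) (hfin _ _)]
    · push_cast
      rfl
    · rw [Set.disjoint_left]
      rintro z ⟨_, h1⟩ ⟨h2, _⟩
      exact absurd h1 (not_lt.mpr h2)
  have hemp : ∀ a b : X, b ≤ a → (Set.Ico a b).ncard = 0 := by
    intro a b hab
    rw [Set.Ico_eq_empty (not_lt.mpr hab), Set.ncard_empty]
  refine ⟨fun x => (Set.Ico x₀ x).ncard - (Set.Ico x x₀).ncard, by simp, ?_⟩
  intro x y hxy
  rcases le_total x₀ x with h1 | h1
  · have h2 := h1.trans hxy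
    simp only [hemp x x₀ h1, hemp y x₀ h2, hadd x₀ x y h1 hxy]
    push_cast
    ring
  · rcases le_total x₀ y with h2 | h2
    · simp only [hemp x₀ x h1, hemp y x₀ h2, hadd x x₀ y h1 h2]
      push_cast
      ring
    · simp only [hemp x₀ x h1, hemp x₀ y h2, hadd x y x₀ hxy h2]
      push_cast
      ring

theorem embed (n : ℕ) (P : Pre k) (M r₀ lam : ℕ) (hexp : ∀ g x, P.Eqv (g ^ n * x) x)
    (hcut : P.CutLe M) (hbig : ∀ N, P.Big N)
    (ht : ∀ x, ∃ g : Wd k, g.norm ≤ lam ∧ P.Tight M r₀ (g * x)) :
    ∃ (D : ℕ) (ω : Conf k), (∀ j x, |ω j x - x| ≤ D) ∧ (∀ g : Wd k, act ω g ^ n = 1) ∧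
      ∀ N : ℕ, ∃ F : Finset ℤ, N ≤ F.card ∧ ∀ y ∈ F, ∃ g : Wd k, act ω g 0 = y := by
  classical
  obtain ⟨X, _, c, A, hc, hcle, hA⟩ := emb_quot P
  have hceq : ∀ g h, c g = c h ↔ P.Eqv g h := fun g h =>
    ⟨fun e => ⟨(hcle g h).mp e.le, (hcle h g).mp e.ge⟩,
      fun e => le_antisymm ((hcle g h).mpr e.1) ((hcle h g).mpr e.2)⟩
  -- intervals
  have hB : ∀ d : ℕ, ∃ B : ℕ, ∀ v : Wd k, v.norm ≤ d → ∀ x : X,
      ((Set.Ico x (A v x)).Finite ∧ (Set.Ico x (A v x)).ncard ≤ B) ∧
        ((Set.Ico (A v x) x).Finite ∧ (Set.Ico (A v x) x).ncard ≤ B) := by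
    intro d
    obtain ⟨B, hB⟩ := interval_bound P M r₀ lam hcut ht d
    refine ⟨B, fun v hv x => ?_⟩
    set S : Set X := {z | (x ≤ z ∧ z ≤ A v x) ∨ (A v x ≤ z ∧ z ≤ x)} with hS
    have hcard : ∀ T : Finset X, (T : Set X) ⊆ S → T.card ≤ B := by
      intro T hT
      obtain ⟨x', rfl⟩ := hc x
      have hr : ∀ z, c (Function.surjInv hc z) = z := Function.surjInv_eq hc
      have hinj : Function.Injective (Function.surjInv hc) := Function.injective_surjInv hc
      have h1 := hB x' v hv (T.image (Function.surjInv hc))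
        (by
          intro z hz
          obtain ⟨z', hz', rfl⟩ := Finset.mem_image.mp hz
          have h2 := hT hz'
          rw [hS, Set.mem_ofPred_eq, hA] at h2
          rw [← hcle, ← hcle, ← hcle, ← hcle, hr]
          exact h2)
        (by
          intro g hg h hh hne he
          obtain ⟨g', hg', rfl⟩ := Finset.mem_image.mp hg
          obtain ⟨h', hh', rfl⟩ := Finset.mem_image.mp hh
          rw [← hceq, hr, hr] at he
          exact hne (by rw [he]))
      rwa [Finset.card_image_of_injective _ hinj] at h1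
    have hfinS : S.Finite := by
      by_contra hinf
      obtain ⟨T, hT, hTc⟩ := Set.Infinite.exists_subset_card_eq hinf (B + 1)
      have := hcard T hT
      omega
    have hSle : S.ncard ≤ B := by
      rw [Set.ncard_eq_toFinset_card S hfinS]
      exact hcard _ (by simp)
    have h1 : Set.Ico x (A v x) ⊆ S := fun z hz => Or.inl ⟨hz.1, hz.2.le⟩
    have h2 : Set.Ico (A v x) x ⊆ S := fun z hz => Or.inr ⟨hz.1, hz.2.le⟩
    exact ⟨⟨hfinS.subset h1, (Set.ncard_le_ncard h1 hfinS).trans hSle⟩,
      ⟨hfinS.subset h2, (Set.ncard_le_ncard h2 hfinS).trans hSle⟩⟩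
  have hfin : ∀ x y : X, (Set.Ico x y).Finite := by
    intro x y
    obtain ⟨x', rfl⟩ := hc x
    obtain ⟨y', rfl⟩ := hc y
    obtain ⟨B, hB'⟩ := hB (y' * x'⁻¹).norm
    have h1 := (hB' (y' * x'⁻¹) le_rfl (c x')).1.1
    rwa [hA, inv_mul_cancel_right] at h1
  obtain ⟨p, hp0, hp⟩ := emb_pos hfin (c 1)
  have hpinj : Function.Injective p := by
    have hlt : ∀ x y : X, x < y → p x < p y := by
      intro x y hxy
      have h1 := hp x y hxy.le
      have h2 : 0 < (Set.Ico x y).ncard :=
        (Set.ncard_pos (hfin x y)).mpr ⟨x, le_rfl, hxy⟩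
      have h3 : (0 : ℤ) < ((Set.Ico x y).ncard : ℤ) := by exact_mod_cast h2
      linarith
    intro x y hxy
    rcases lt_trichotomy x y with h | h | h
    · exact absurd hxy (hlt x y h).ne
    · exact h
    · exact absurd hxy (hlt y x h).ne'
  obtain ⟨B, hB1⟩ := hB 1
  set f : X ≃ Set.range p := Equiv.ofInjective p hpinj with hf
  let φ : Equiv.Perm X →* Equiv.Perm ℤ := Equiv.Perm.extendDomainHom f
  have hφ : ∀ (e : Equiv.Perm X) (x : X), φ e (p x) = p (e x) := by
    intro e x
    exact Equiv.Perm.extendDomain_apply_image e f x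
  have hφ' : ∀ (e : Equiv.Perm X) (z : ℤ), z ∉ Set.range p → φ e z = z := by
    intro e z hz
    exact Equiv.Perm.extendDomain_apply_not_subtype e f hz
  let ω : Conf k := fun j => φ (A (FreeGroup.of j))
  have hact : ∀ g : Wd k, act ω g = φ (A g) := by
    intro g
    have h1 : FreeGroup.lift ω = φ.comp A := by
      ext1 j
      simp [ω]
    exact DFunLike.congr_fun h1 g
  refine ⟨B, ω, ?_, ?_, ?_⟩
  · intro j z
    by_cases hz : z ∈ Set.range p
    · obtain ⟨x, rfl⟩ := hz
      have h1 : ω j (p x) = p (A (FreeGroup.of j) x) := hφ _ _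
      rw [h1]
      have h2 := hB1 (FreeGroup.of j) (by rw [FreeGroup.norm_of]) x
      rcases le_total x (A (FreeGroup.of j) x) with h | h
      · rw [hp _ _ h, abs_of_nonneg (Int.natCast_nonneg _)]
        exact_mod_cast h2.1.2
      · rw [abs_sub_comm, hp _ _ h, abs_of_nonneg (Int.natCast_nonneg _)]
        exact_mod_cast h2.2.2
    · have h1 : ω j z = z := hφ' _ _ hz
      rw [h1]
      simp
  · intro g
    rw [hact, ← map_pow, ← map_pow]
    have h1 : A (g ^ n) = 1 := by
      ext x
      obtain ⟨x', rfl⟩ := hc x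
      rw [hA, Equiv.Perm.coe_one, id_eq, hceq]
      exact hexp g x'
    rw [h1, map_one]
  · intro N
    obtain ⟨F, hF, hF'⟩ := hbig N
    refine ⟨F.image (fun g => p (c g)), ?_, ?_⟩
    · rw [Finset.card_image_of_injOn]
      · exact hF
      · intro g hg h hh he
        by_contra hne
        exact hF' g hg h hh hne ((hceq g h).mp (hpinj he))
    · intro y hy
      obtain ⟨g, _, rfl⟩ := Finset.mem_image.mp hy
      refine ⟨g, ?_⟩
      rw [hact, ← hp0, hφ, hA, mul_one]

end Pool.Agent.Lib.MP_322c76_al.BW
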