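import Pool.Agent.Lib.MP_322c76_al.BW.CDefs

set_option autoImplicit false

namespace Pool.Agent.Lib.MP_322c76_al.BW

variable {k : ℕ}

/-! ROW LimB. Connectedness: if `P` has at least `r + 1` points, then words of length `≤ r` reach at least
`r + 1` points: if the words of norm `≤ i` and `≤ i + 1` reach the same points, this set of points is
closed under the letters and their inverses (`congr`), so it is everything. So the number of
points reached grows strictly with `i` until everything is reached.
(`F` is a set of pairwise inequivalent words; take `F'` a maximal such set of words of norm `≤ r`.) -/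

/-- equality of points as a setoid -/
private def limB_setoid (P : Pre k) : Setoid (Wd k) where
  r := P.Eqv
  iseqv :=
    { refl := fun g => ⟨(P.total g g).elim id id, (P.total g g).elim id id⟩
      symm := fun h => ⟨h.2, h.1⟩
      trans := fun h h' => ⟨P.trans _ _ _ h.1 h'.1, P.trans _ _ _ h'.2 h.2⟩ }

/-- the point of a word -/
private def limB_pt (P : Pre k) (g : Wd k) : Quotient (limB_setoid P) :=
  @Quotient.mk _ (limB_setoid P) g

private theorem limB_eq (P : Pre k) (g h : Wd k) : limB_pt P g = limB_pt P h ↔ P.Eqv g h :=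
  @Quotient.eq _ (limB_setoid P) g h

/-- the points reached by words of norm at most `i` -/
private def limB_R (P : Pre k) (i : ℕ) : Set (Quotient (limB_setoid P)) :=
  {q | ∃ g : Wd k, g.norm ≤ i ∧ limB_pt P g = q}

private theorem limB_mul (P : Pre k) {g h : Wd k} (e : limB_pt P g = limB_pt P h) (u : Wd k) :
    limB_pt P (u * g) = limB_pt P (u * h) := by
  rw [limB_eq] at e ⊢
  exact ⟨P.congr g h e.1 e.2 u, P.congr h g e.2 e.1 u⟩

private theorem limB_mono (P : Pre k) (i : ℕ) : limB_R P i ⊆ limB_R P (i + 1) := by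
  rintro q ⟨g, hg, rfl⟩
  exact ⟨g, by omega, rfl⟩

private theorem limB_step (P : Pre k) (i : ℕ) (u : Wd k) (hu : u.norm ≤ 1) (w : Wd k)
    (hw : limB_pt P w ∈ limB_R P i) : limB_pt P (u * w) ∈ limB_R P (i + 1) := by
  obtain ⟨g, hg, e⟩ := hw
  refine ⟨u * g, ?_, limB_mul P e u⟩
  have := FreeGroup.norm_mul_le u g
  omega

private theorem limB_univ (P : Pre k) (i : ℕ) (h : limB_R P i = limB_R P (i + 1)) :
    limB_R P i = Set.univ := by
  have key : ∀ u : Wd k, ∀ w : Wd k, limB_pt P w ∈ limB_R P i → limB_pt P (u * w) ∈ limB_R P i := by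
    intro u
    induction u using FreeGroup.induction_on with
    | C1 => intro w hw; rw [one_mul]; exact hw
    | of x =>
      intro w hw
      rw [h]
      exact limB_step P i _ (FreeGroup.norm_of x).le w hw
    | inv_of x _ =>
      intro w hw
      rw [h]
      refine limB_step P i _ ?_ w hw
      rw [FreeGroup.norm_inv_eq]
      exact (FreeGroup.norm_of x).le
    | mul x y hx hy =>
      intro w hw
      rw [mul_assoc]
      exact hx _ (hy w hw)
  rw [Set.eq_univ_iff_forall]
  intro q
  obtain ⟨g, rfl⟩ := @Quotient.exists_rep _ (limB_setoid P) q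
  have h1 := key g 1 ⟨1, by rw [FreeGroup.norm_one]; exact Nat.zero_le _, rfl⟩
  rw [mul_one] at h1
  exact h1

private theorem limB_card (P : Pre k) (i : ℕ) :
    limB_R P i = Set.univ ∨ ((i + 1 : ℕ) : ℕ∞) ≤ (limB_R P i).encard := by
  induction i with
  | zero =>
    right
    have hne : (limB_R P 0).Nonempty := ⟨limB_pt P 1, 1, by rw [FreeGroup.norm_one], rfl⟩
    have h1 : 1 ≤ (limB_R P 0).encard := Set.one_le_encard_iff_nonempty.2 hne
    simpa using h1
  | succ i ih =>
    by_cases hu : limB_R P i = Set.univ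
    · left
      rw [Set.eq_univ_iff_forall] at hu ⊢
      exact fun q => limB_mono P i (hu q)
    · right
      have h1 : ((i + 1 : ℕ) : ℕ∞) ≤ (limB_R P i).encard := by
        rcases ih with h | h
        · exact absurd h hu
        · exact h
      have hss : limB_R P i ⊂ limB_R P (i + 1) := by
        refine Set.ssubset_iff_subset_ne.2 ⟨limB_mono P i, ?_⟩
        intro h
        exact hu (limB_univ P i h)
      by_cases hf : (limB_R P i).Finite
      · have h2 := hf.encard_lt_encard hss
        have h3 : ((i + 1 : ℕ) : ℕ∞) < (limB_R P (i + 1)).encard := lt_of_le_of_lt h1 h2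
        have h4 := Order.add_one_le_of_lt h3
        push_cast at h4 ⊢
        exact h4
      · have h2 : (limB_R P (i + 1)).Infinite := fun h => hf (h.subset (limB_mono P i))
        rw [h2.encard_eq]
        exact le_top

theorem big_ball (P : Pre k) (r : ℕ) (hb : P.Big (r + 1)) : ∃ F : Finset (Wd k), r + 1 ≤ F.card ∧
    (∀ g ∈ F, g.norm ≤ r) ∧ ∀ g ∈ F, ∀ h ∈ F, g ≠ h → ¬ P.Eqv g h := by
  classical
  have h1 : ((r + 1 : ℕ) : ℕ∞) ≤ (limB_R P r).encard := by
    rcases limB_card P r with h | h
    · rw [h]
      obtain ⟨F, hF, hne⟩ := hb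
      have hinj : Set.InjOn (limB_pt P) (F : Set (Wd k)) := by
        intro g hg h hh e
        by_contra hgh
        exact hne g hg h hh hgh ((limB_eq P g h).1 e)
      have h2 : (limB_pt P '' (F : Set (Wd k))).encard = (F : Set (Wd k)).encard :=
        hinj.encard_image
      calc ((r + 1 : ℕ) : ℕ∞) ≤ (F.card : ℕ∞) := by exact_mod_cast hF
        _ = (F : Set (Wd k)).encard := (Set.encard_coe_eq_coe_finsetCard F).symm
        _ = (limB_pt P '' (F : Set (Wd k))).encard := h2.symm
        _ ≤ Set.univ.encard := Set.encard_le_encard (Set.subset_univ _)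
    · exact h
  obtain ⟨T, hT, hTc⟩ := Set.exists_subset_encard_eq h1
  have hTf : T.Finite := Set.finite_of_encard_eq_coe hTc
  choose! f hf using fun (q : Quotient (limB_setoid P)) (hq : q ∈ T) => hT hq
  refine ⟨hTf.toFinset.image f, ?_, ?_, ?_⟩
  · rw [Finset.card_image_of_injOn]
    · have h2 : T.ncard = r + 1 := by
        rw [Set.ncard_def, hTc]
        rfl
      rw [← Set.ncard_eq_toFinset_card T hTf, h2]
    · intro q hq q' hq' e
      simp only [Set.Finite.coe_toFinset] at hq hq'
      rw [← (hf q hq).2, ← (hf q' hq').2, e]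
  · intro g hg
    obtain ⟨q, hq, rfl⟩ := Finset.mem_image.1 hg
    exact (hf q (hTf.mem_toFinset.1 hq)).1
  · intro g hg h hh hgh he
    obtain ⟨q, hq, rfl⟩ := Finset.mem_image.1 hg
    obtain ⟨q', hq', rfl⟩ := Finset.mem_image.1 hh
    have h2 := (limB_eq P _ _).2 he
    rw [(hf q (hTf.mem_toFinset.1 hq)).2, (hf q' (hTf.mem_toFinset.1 hq')).2] at h2
    exact hgh (by rw [h2])

end Pool.Agent.Lib.MP_322c76_al.BW
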