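import Pool.Agent.Lib.MP_322c76_al.BW.CDefs
import Pool.Agent.Lib.MP_322c76_al.BW.LimB

set_option autoImplicit false

namespace Pool.Agent.Lib.MP_322c76_al.BW

variable {k : ℕ}

/-! ROW Lim (ultralimit). `U` a nonprincipal ultrafilter on `ℕ` (`Filter.hyperfilter ℕ`),
`P.le g h := ∀ᶠ N in U, (Q N).le (g * root N) (h * root N)`. All relations and their negations pass to
the limit, for finitely many words at a time. If `M'` different edges cross the cut at `x` in the
limit, then also, for many `N`, `M'` different edges cross the cut at `x * root N` in `Q N`.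
`Big`: by `big_ball` for the `Q N` seen from `root N` (i.e. for the `Pre` with
`le g h := (Q N).le (g * root N) (h * root N)`, which is `Big` as well) `r + 1` different points are reached by
words of norm `≤ r`; finitely many sets `F` of words of norm `≤ r`, so one of them is good for
`U`-many `N` (`Fin k` is finite, so there are finitely many words of norm `≤ r`).
Last part: if `P` has `M + 1` different edges crossing the cut at `x`, they start at `u x` with
`u.norm ≤ r` for some `r`; for `U`-many `N`, so for some `N ≥ max x.norm r`, `Q N` has `Tight (M + 1) N` at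
`x * root N`. -/

theorem lim_refl (P : Pre k) (g : Wd k) : P.Eqv g g := by
  rcases P.total g g with h | h <;> exact ⟨h, h⟩

/-- the action seen from another point -/
def lim_seen (P : Pre k) (t : Wd k) : Pre k where
  le g h := P.le (g * t) (h * t)
  trans g h l h1 h2 := P.trans _ _ _ h1 h2
  total g h := P.total _ _
  congr g h h1 h2 u := by
    rw [mul_assoc, mul_assoc]
    exact P.congr _ _ h1 h2 u

/-- the right translation of an edge -/
def lim_tr (t : Wd k) : Fin k × Wd k ↪ Fin k × Wd k :=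
  ⟨fun e => (e.1, e.2 * t), fun e e' h => by
    have h1 := congrArg Prod.fst h
    have h2 := congrArg Prod.snd h
    exact Prod.ext h1 (mul_right_cancel h2)⟩

theorem lim_cross {P : Pre k} {t x : Wd k} {e : Fin k × Wd k} (h : (lim_seen P t).Cross x e) :
    P.Cross (x * t) (lim_tr t e) := by
  unfold Pre.Cross at h ⊢
  show (¬ P.le (x * t) (e.2 * t) ∧ P.le (x * t) (FreeGroup.of e.1 * (e.2 * t))) ∨
    (¬ P.le (x * t) (FreeGroup.of e.1 * (e.2 * t)) ∧ P.le (x * t) (e.2 * t))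
  rw [← mul_assoc]
  exact h

theorem lim_ne {P : Pre k} {t : Wd k} {e e' : Fin k × Wd k} (h : (lim_seen P t).Ne e e') :
    P.Ne (lim_tr t e) (lim_tr t e') := h

theorem lim_ne' {P : Pre k} {t : Wd k} {F : Finset (Fin k × Wd k)}
    (h : ∀ e ∈ F, ∀ e' ∈ F, e ≠ e' → (lim_seen P t).Ne e e') :
    ∀ e ∈ F.map (lim_tr t), ∀ e' ∈ F.map (lim_tr t), e ≠ e' → P.Ne e e' := by
  intro e he e' he' hne
  obtain ⟨d, hd, rfl⟩ := Finset.mem_map.1 he
  obtain ⟨d', hd', rfl⟩ := Finset.mem_map.1 he'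
  exact lim_ne (h d hd d' hd' fun hh => hne (by rw [hh]))

theorem lim_cutle {P : Pre k} {t : Wd k} {c : ℕ} (h : P.CutLe c) : (lim_seen P t).CutLe c := by
  intro x F hF hne
  rw [← Finset.card_map (lim_tr t)]
  refine h (x * t) _ ?_ (lim_ne' hne)
  intro e he
  obtain ⟨d, hd, rfl⟩ := Finset.mem_map.1 he
  exact lim_cross (hF d hd)

theorem lim_big {P : Pre k} {t : Wd k} {N : ℕ} (h : P.Big N) : (lim_seen P t).Big N := by
  obtain ⟨F, hF, hne⟩ := h
  refine ⟨F.map ⟨fun g => g * t⁻¹, fun g g' hg => mul_right_cancel hg⟩, by rwa [Finset.card_map], ?_⟩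
  intro g hg g' hg' hgg
  obtain ⟨d, hd, rfl⟩ := Finset.mem_map.1 hg
  obtain ⟨d', hd', rfl⟩ := Finset.mem_map.1 hg'
  have h1 := hne d hd d' hd' fun hh => hgg (by rw [hh])
  intro h2
  refine h1 ?_
  have h3 : P.Eqv (d * t⁻¹ * t) (d' * t⁻¹ * t) := h2
  rwa [inv_mul_cancel_right, inv_mul_cancel_right] at h3

theorem lim_tight {P : Pre k} {t x : Wd k} {M r : ℕ} (h : (lim_seen P t).Tight M r x) :
    P.Tight M r (x * t) := by
  obtain ⟨F, hF, hc, hne, hu⟩ := h
  refine ⟨F.map (lim_tr t), by rwa [Finset.card_map], ?_, lim_ne' hne, ?_⟩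
  · intro e he
    obtain ⟨d, hd, rfl⟩ := Finset.mem_map.1 he
    exact lim_cross (hc d hd)
  · intro e he
    obtain ⟨d, hd, rfl⟩ := Finset.mem_map.1 he
    obtain ⟨u, hu1, hu2⟩ := hu d hd
    refine ⟨u, hu1, ?_⟩
    have h3 : P.Eqv (u * x * t) (d.2 * t) := hu2
    rw [mul_assoc] at h3
    exact h3

theorem lim_fin (r : ℕ) : {g : Wd k | g.norm ≤ r}.Finite := by
  have h1 : {l : List (Fin k × Bool) | l.length ≤ r}.Finite := List.finite_length_le _ _
  exact Set.Finite.subset (h1.preimage (f := FreeGroup.toWord)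
    (fun a _ b _ hab => FreeGroup.toWord_injective hab)) fun g hg => hg

/-- the ultralimit -/
noncomputable def lim_P (Q : ℕ → Pre k) : Pre k where
  le g h := ∀ᶠ N in (Filter.hyperfilter ℕ : Filter ℕ), (Q N).le g h
  trans g h l h1 h2 := by
    filter_upwards [h1, h2] with N a b
    exact (Q N).trans _ _ _ a b
  total g h := by
    rw [← Ultrafilter.eventually_or]
    exact Filter.Eventually.of_forall fun N => (Q N).total _ _
  congr g h h1 h2 u := by
    filter_upwards [h1, h2] with N a b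
    exact (Q N).congr _ _ a b u

theorem lim_eqv (Q : ℕ → Pre k) (g h : Wd k) :
    (lim_P Q).Eqv g h ↔ ∀ᶠ N in (Filter.hyperfilter ℕ : Filter ℕ), (Q N).Eqv g h := by
  unfold Pre.Eqv
  rw [Filter.eventually_and]
  rfl

theorem lim_crossP (Q : ℕ → Pre k) (x : Wd k) (e : Fin k × Wd k) :
    (lim_P Q).Cross x e ↔ ∀ᶠ N in (Filter.hyperfilter ℕ : Filter ℕ), (Q N).Cross x e := by
  unfold Pre.Cross
  rw [Ultrafilter.eventually_or, Filter.eventually_and, Filter.eventually_and, Ultrafilter.eventually_not,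
    Ultrafilter.eventually_not]
  rfl

theorem lim_neP (Q : ℕ → Pre k) (e e' : Fin k × Wd k) :
    (lim_P Q).Ne e e' ↔ ∀ᶠ N in (Filter.hyperfilter ℕ : Filter ℕ), (Q N).Ne e e' := by
  unfold Pre.Ne
  have h1 : (∀ᶠ _N in (Filter.hyperfilter ℕ : Filter ℕ), e.1 ≠ e'.1) ↔ e.1 ≠ e'.1 :=
    Filter.eventually_const
  have h2 : (∀ᶠ N in (Filter.hyperfilter ℕ : Filter ℕ), ¬ (Q N).Eqv e.2 e'.2) ↔
      ¬ (lim_P Q).Eqv e.2 e'.2 := by
    rw [Ultrafilter.eventually_not, lim_eqv]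
  rw [Ultrafilter.eventually_or, h1, h2]

theorem lim_le_top {p : ℕ → Prop} (h : ∃ N₀, ∀ N ≥ N₀, p N) :
    ∀ᶠ N in (Filter.hyperfilter ℕ : Filter ℕ), p N :=
  Nat.hyperfilter_le_atTop (Filter.eventually_atTop.2 h)

/-- the case `root N = 1` -/
theorem lim_one (Q : ℕ → Pre k) (hbig : ∀ r, ∃ N₀, ∀ N ≥ N₀, (Q N).Big r) :
    ∃ P : Pre k, (∀ N, P.Big N) ∧
      (∀ n, (∀ g : Wd k, ∃ N₀, ∀ N ≥ N₀, ∀ x, (Q N).Eqv (g ^ n * x) x) → ∀ g x, P.Eqv (g ^ n * x) x) ∧
      (∀ c, (∃ N₀, ∀ N ≥ N₀, (Q N).CutLe c) → P.CutLe c) ∧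
      (∀ M, (∀ N, ∀ g : Wd k, g.norm ≤ N → ¬ (Q N).Tight (M + 1) N g) → P.CutLe M) := by
  classical
  have hall : ∀ (x : Wd k) (F : Finset (Fin k × Wd k)), (∀ e ∈ F, (lim_P Q).Cross x e) →
      (∀ e ∈ F, ∀ e' ∈ F, e ≠ e' → (lim_P Q).Ne e e') →
      ∀ᶠ N in (Filter.hyperfilter ℕ : Filter ℕ), (∀ e ∈ F, (Q N).Cross x e) ∧
        (∀ e ∈ F, ∀ e' ∈ F, e ≠ e' → (Q N).Ne e e') := by
    intro x F hF hne
    rw [Filter.eventually_and]
    constructor
    · rw [Filter.eventually_all_finset]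
      exact fun e he => (lim_crossP Q x e).1 (hF e he)
    · rw [Filter.eventually_all_finset]
      intro e he
      rw [Filter.eventually_all_finset]
      intro e' he'
      by_cases h : e = e'
      · exact Filter.Eventually.of_forall fun N hh => absurd h hh
      · filter_upwards [(lim_neP Q e e').1 (hne e he e' he' h)] with N hN _
        exact hN
  refine ⟨lim_P Q, ?_, ?_, ?_, ?_⟩
  · intro N
    rcases Nat.eq_zero_or_pos N with h | h
    · rw [h]
      exact ⟨∅, by simp, by simp⟩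
    · obtain ⟨r, rfl⟩ : ∃ r, N = r + 1 := ⟨N - 1, by omega⟩
      have h1 : ∀ᶠ N in (Filter.hyperfilter ℕ : Filter ℕ), ∃ F ∈ {F : Finset (Wd k) | (F : Set (Wd k)) ⊆ {g : Wd k | g.norm ≤ r}},
          r + 1 ≤ F.card ∧ ∀ g ∈ F, ∀ h ∈ F, g ≠ h → ¬ (Q N).Eqv g h := by
        filter_upwards [lim_le_top (hbig (r + 1))] with N hN
        obtain ⟨F, h2, h3, h4⟩ := big_ball (Q N) r hN
        exact ⟨F, fun g hg => h3 g hg, h2, h4⟩
      have hfin : {F : Finset (Wd k) | (F : Set (Wd k)) ⊆ {g : Wd k | g.norm ≤ r}}.Finite :=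
        (lim_fin r).finite_subsets.preimage Finset.coe_injective.injOn
      rw [Ultrafilter.eventually_exists_mem_iff hfin] at h1
      obtain ⟨F, _, hF⟩ := h1
      rw [Filter.eventually_and] at hF
      refine ⟨F, hF.1.exists.choose_spec, ?_⟩
      intro g hg g' hg' hne h5
      rw [lim_eqv] at h5
      obtain ⟨N, h6, h7⟩ := (h5.and hF.2).exists
      exact h7 g hg g' hg' hne h6
  · intro n hn g x
    rw [lim_eqv]
    filter_upwards [lim_le_top (hn g)] with N hN
    exact hN x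
  · intro c hc x F hF hne
    obtain ⟨N, h1, h2, h3⟩ := ((lim_le_top hc).and (hall x F hF hne)).exists
    exact h1 x F h2 h3
  · intro M hM x F hF hne
    by_contra hcon
    obtain ⟨F', hF', hcard⟩ := Finset.exists_subset_card_eq (show M + 1 ≤ F.card by omega)
    have h1 := hall x F' (fun e he => hF e (hF' he)) fun e he e' he' => hne e (hF' he) e' (hF' he')
    set r := F'.sup fun e => (e.2 * x⁻¹).norm with hr
    have h2 : ∀ᶠ N in (Filter.hyperfilter ℕ : Filter ℕ), max x.norm r ≤ N :=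
      lim_le_top ⟨max x.norm r, fun N hN => hN⟩
    obtain ⟨N, ⟨h3, h4⟩, h5⟩ := (h1.and h2).exists
    refine hM N x ((le_max_left _ _).trans h5) ⟨F', hcard, h3, h4, ?_⟩
    intro e he
    refine ⟨e.2 * x⁻¹, ?_, ?_⟩
    · have h6 : (e.2 * x⁻¹).norm ≤ r := Finset.le_sup (f := fun e : Fin k × Wd k => (e.2 * x⁻¹).norm) he
      exact h6.trans ((le_max_right _ _).trans h5)
    · rw [inv_mul_cancel_right]
      exact lim_refl _ _

theorem limit (Q : ℕ → Pre k) (root : ℕ → Wd k) (hbig : ∀ r, ∃ N₀, ∀ N ≥ N₀, (Q N).Big r) :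
    ∃ P : Pre k, (∀ N, P.Big N) ∧
      (∀ n, (∀ g : Wd k, ∃ N₀, ∀ N ≥ N₀, ∀ x, (Q N).Eqv (g ^ n * x) x) → ∀ g x, P.Eqv (g ^ n * x) x) ∧
      (∀ c, (∃ N₀, ∀ N ≥ N₀, (Q N).CutLe c) → P.CutLe c) ∧
      (∀ M, (∀ N, ∀ g : Wd k, g.norm ≤ N → ¬ (Q N).Tight (M + 1) N (g * root N)) → P.CutLe M) := by
  obtain ⟨P, h1, h2, h3, h4⟩ := lim_one (fun N => lim_seen (Q N) (root N)) (fun r => by
    obtain ⟨N₀, hN⟩ := hbig r
    exact ⟨N₀, fun N hN' => lim_big (hN N hN')⟩)
  refine ⟨P, h1, ?_, ?_, ?_⟩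
  · intro n hn
    refine h2 n fun g => ?_
    obtain ⟨N₀, hN⟩ := hn g
    refine ⟨N₀, fun N hN' x => ?_⟩
    have h5 := hN N hN' (x * root N)
    rw [← mul_assoc] at h5
    exact h5
  · rintro c ⟨N₀, hN⟩
    exact h3 c ⟨N₀, fun N hN' => lim_cutle (hN N hN')⟩
  · intro M hM
    exact h4 M fun N g hg ht => hM N g hg (lim_tight ht)

end Pool.Agent.Lib.MP_322c76_al.BW
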