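import Pool.Agent.Lib.MP_322c76_al.BW.CDefs
import Pool.Agent.Lib.MP_322c76_al.BW.Lim

set_option autoImplicit false

namespace Pool.Agent.Lib.MP_322c76_al.BW

variable {k : ℕ}

/-! ROW Tig. `M` = the least number such that there is `P` with `Big N` for all `N`, exponent `n`,
`CutLe M` (exists by `limit`, with `M ≤ c`; `root N = 1`). Suppose that for no `r₀, lam` every point has a
tight one nearby. If `M = 0`: `Tight 0 0` is trivial (`F = ∅`), `g = 1`. If `M = M' + 1`: for every `N` there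
is `root N` with no `Tight M N` cut at distance `≤ N`; `limit` (constant sequence `Q N = P`, last
part) gives `P'` with `CutLe M'`. Contradiction. -/

private theorem tig_big_mono {P : Pre k} {r N : ℕ} (h : r ≤ N) (hP : P.Big N) : P.Big r := by
  obtain ⟨F, hF, hF'⟩ := hP
  exact ⟨F, h.trans hF, hF'⟩

theorem exists_tight (n c : ℕ) (h : ∀ N : ℕ, ∃ P : Pre k,
      (∀ g : Wd k, g.norm ≤ N → ∀ x, P.Eqv (g ^ n * x) x) ∧ P.CutLe c ∧ P.Big N) :
    ∃ (P : Pre k) (M r₀ lam : ℕ), (∀ g x, P.Eqv (g ^ n * x) x) ∧ P.CutLe M ∧ (∀ N, P.Big N) ∧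
      ∀ x, ∃ g : Wd k, g.norm ≤ lam ∧ P.Tight M r₀ (g * x) := by
  classical
  choose Q hQ1 hQ2 hQ3 using h
  have hex : ∃ M : ℕ, ∃ P : Pre k, (∀ g x, P.Eqv (g ^ n * x) x) ∧ P.CutLe M ∧ ∀ N, P.Big N := by
    obtain ⟨P, h1, h2, h3, _⟩ := limit Q (fun _ => 1)
      (fun r => ⟨r, fun N hN => tig_big_mono hN (hQ3 N)⟩)
    exact ⟨c, P, h2 n (fun g => ⟨g.norm, fun N hN x => hQ1 N g hN x⟩),
      h3 c ⟨0, fun N _ => hQ2 N⟩, h1⟩
  obtain ⟨P, hP1, hP2, hP3⟩ := Nat.find_spec hex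
  have hmin : ∀ m, m < Nat.find hex → ¬ ∃ P : Pre k, (∀ g x, P.Eqv (g ^ n * x) x) ∧
      P.CutLe m ∧ ∀ N, P.Big N := fun m hm => Nat.find_min hex hm
  by_cases hgood : ∃ r₀ lam : ℕ, ∀ x, ∃ g : Wd k, g.norm ≤ lam ∧
      P.Tight (Nat.find hex) r₀ (g * x)
  · obtain ⟨r₀, lam, hg⟩ := hgood
    exact ⟨P, Nat.find hex, r₀, lam, hP1, hP2, hP3, hg⟩
  · exfalso
    push Not at hgood
    cases hM : Nat.find hex with
    | zero =>
      obtain ⟨x, hx⟩ := hgood 0 0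
      refine hx 1 (by rw [FreeGroup.norm_one]) ?_
      rw [hM]
      exact ⟨∅, rfl, by simp, by simp, by simp⟩
    | succ M' =>
      choose root hroot using fun N : ℕ => hgood N N
      obtain ⟨P', h1, h2, _, h4⟩ := limit (fun _ => P) root (fun r => ⟨0, fun _ _ => hP3 r⟩)
      refine hmin M' (by omega) ⟨P', h2 n (fun g => ⟨0, fun _ _ x => hP1 g x⟩), ?_, h1⟩
      refine h4 M' (fun N g hg => ?_)
      have := hroot N g hg
      rwa [hM] at this

end Pool.Agent.Lib.MP_322c76_al.BW
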