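import Pool.Agent.Lib.MP_322c76_al.BW.OrbB
import Pool.Agent.Lib.MP_322c76_al.BW.Tig
import Pool.Agent.Lib.MP_322c76_al.BW.Emb

set_option autoImplicit false

namespace Pool.Agent.Lib.MP_322c76_al.BW

variable {k : ℕ}

/-- orbits of actions of bounded cutwidth are bounded -/
theorem cut_bound (k n c : ℕ) (hn : 1 ≤ n) : ∃ N : ℕ, ∀ P : Pre k,
    (∀ g : Wd k, g.norm ≤ N → ∀ x, P.Eqv (g ^ n * x) x) → P.CutLe c → ¬ P.Big N := by
  by_contra hcon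
  push Not at hcon
  obtain ⟨P, M, r₀, lam, h1, h2, h3, h4⟩ := exists_tight (k := k) n c hcon
  obtain ⟨D, ω, h5, h6, h7⟩ := embed n P M r₀ lam h1 h2 h3 h4
  obtain ⟨N, hN⟩ := orbit_bound k n D hn
  obtain ⟨F, hF, hF'⟩ := h7 N
  exact absurd (hN ω h5 (fun g _ => h6 g) 0 F hF') (not_lt.2 hF)

end Pool.Agent.Lib.MP_322c76_al.BW
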