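import Mathlib

/-!
# Bounded bandwidth and bounded exponent (MP_322c76_al): definitions

Part A (groups of exponent `n` and polynomial growth are finite) uses `bl`, `lap`, `HarmLip`.
Part B (symbolic part) uses `Conf`, `act`, `shift`, `reroot`, `Agree`, `Orb`, `Sys`, `E`, `Insep`,
`Cyc`.
-/

set_option autoImplicit false

namespace Pool.Agent.Lib.MP_322c76_al.BW

/-! ### Part A -/

section A

variable {G : Type*} [Group G]

open Classical in
/-- products of exactly `r` elements of `T` (if `1 ∈ T`: of at most `r` elements) -/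
noncomputable def bl (T : Finset G) : ℕ → Finset G
  | 0 => {1}
  | r + 1 => (bl T r ×ˢ T).image fun p => p.1 * p.2

/-- `T` is a finite symmetric generating set containing `1` -/
structure GenSet (T : Finset G) : Prop where
  one : (1 : G) ∈ T
  inv : ∀ t ∈ T, t⁻¹ ∈ T
  gen : Subgroup.closure (T : Set G) = ⊤

/-- a symmetric weight on `T` with values in `[1, W]` -/
structure Weight (T : Finset G) (w : G → ℝ) (W : ℝ) : Prop where
  one_le : ∀ t ∈ T, 1 ≤ w t
  le : ∀ t ∈ T, w t ≤ W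
  inv : ∀ t ∈ T, w t⁻¹ = w t

/-- the (weighted) Laplacian -/
noncomputable def lap (T : Finset G) (w : G → ℝ) (f : G → ℝ) (x : G) : ℝ :=
  ∑ t ∈ T, w t * (f (x * t) - f x)

/-- the Lipschitz harmonic functions -/
def HarmLip (T : Finset G) (w : G → ℝ) : Submodule ℝ (G → ℝ) where
  carrier := {f | (∃ L : ℝ, ∀ x, ∀ t ∈ T, |f (x * t) - f x| ≤ L) ∧ ∀ x, lap T w f x = 0}
  add_mem' := by
    rintro f g ⟨⟨L, hL⟩, hf⟩ ⟨⟨M, hM⟩, hg⟩
    refine ⟨⟨L + M, fun x t ht => ?_⟩, fun x => ?_⟩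
    · have h1 := hL x t ht
      have h2 := hM x t ht
      calc |(f + g) (x * t) - (f + g) x| = |(f (x * t) - f x) + (g (x * t) - g x)| := by
            simp only [Pi.add_apply]; ring_nf
        _ ≤ _ := (abs_add_le _ _).trans (add_le_add h1 h2)
    · have h1 := hf x
      have h2 := hg x
      simp only [lap] at h1 h2 ⊢
      have : ∀ t, w t * ((f + g) (x * t) - (f + g) x) =
          w t * (f (x * t) - f x) + w t * (g (x * t) - g x) := by
        intro t; simp only [Pi.add_apply]; ring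
      simp only [this, Finset.sum_add_distrib, h1, h2, add_zero]
  zero_mem' := ⟨⟨0, fun x t _ => by simp⟩, fun x => by simp [lap]⟩
  smul_mem' := by
    rintro c f ⟨⟨L, hL⟩, hf⟩
    refine ⟨⟨|c| * L, fun x t ht => ?_⟩, fun x => ?_⟩
    · have h1 := hL x t ht
      calc |(c • f) (x * t) - (c • f) x| = |c| * |f (x * t) - f x| := by
            rw [← abs_mul]; simp only [Pi.smul_apply, smul_eq_mul]; ring_nf
        _ ≤ _ := mul_le_mul_of_nonneg_left h1 (abs_nonneg c)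
    · have h1 := hf x
      simp only [lap] at h1 ⊢
      have : ∀ t, w t * ((c • f) (x * t) - (c • f) x) = c * (w t * (f (x * t) - f x)) := by
        intro t; simp only [Pi.smul_apply, smul_eq_mul]; ring
      simp only [this, ← Finset.mul_sum, h1, mul_zero]

/-- the energy density at `x` -/
noncomputable def grad (T : Finset G) (f : G → ℝ) (x : G) : ℝ := ∑ t ∈ T, (f (x * t) - f x) ^ 2

end A

/-! ### Part B -/

/-- a configuration: `k` permutations of the line -/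
abbrev Conf (k : ℕ) := Fin k → Equiv.Perm ℤ

/-- words -/
abbrev Wd (k : ℕ) := FreeGroup (Fin k)

section B

variable {k : ℕ}

/-- the action of words on the line -/
noncomputable def act (ω : Conf k) (g : Wd k) : Equiv.Perm ℤ := FreeGroup.lift ω g

/-- the configuration seen from the point `c` -/
def shift (ω : Conf k) (c : ℤ) : Conf k := fun j =>
  (Equiv.addRight c).trans ((ω j).trans (Equiv.addRight (-c)))

/-- the configuration seen from the point `g · 0` -/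
noncomputable def reroot (ω : Conf k) (g : Wd k) : Conf k := shift ω (act ω g 0)

/-- the two configurations agree on `[-R, R]` -/
def Agree (R : ℕ) (ω ω' : Conf k) : Prop :=
  ∀ j, ∀ x : ℤ, |x| ≤ R → ω j x = ω' j x ∧ (ω j).symm x = (ω' j).symm x

/-- the orbit of `0` -/
def Orb (ω : Conf k) : Set ℤ := {y | ∃ g, act ω g 0 = y}

/-- a minimal system: `cpt` is compactness, `recu` is uniform recurrence. -/
structure Sys (k n D : ℕ) where
  Y : Set (Conf k)
  ne : Y.Nonempty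
  disp : ∀ ω ∈ Y, ∀ j x, |ω j x - x| ≤ D
  expn : ∀ ω ∈ Y, ∀ g : Wd k, act ω g ^ n = 1
  infi : ∀ ω ∈ Y, (Orb ω).Infinite
  rr : ∀ ω ∈ Y, ∀ g : Wd k, reroot ω g ∈ Y
  cpt : ∀ P : ℕ → Conf k → Prop, (∀ t ω, P t ω → P (t + 1) ω) →
    (∀ ω ∈ Y, ∃ t R : ℕ, ∀ ω' ∈ Y, Agree R ω' ω → P t ω') → ∃ t, ∀ ω ∈ Y, P t ω
  recu : ∀ ω₀ ∈ Y, ∀ R : ℕ, ∃ L : ℕ, ∀ ω ∈ Y, ∃ g : Wd k, g.norm ≤ L ∧ Agree R (reroot ω g) ω₀

/-- the points whose distance to `x` stays at most `Γ` under all words -/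
def E (Γ : ℕ) (ω : Conf k) (x : ℤ) : Set ℤ := {y | ∀ g : Wd k, |act ω g y - act ω g x| ≤ Γ}

/-- `x` and `y` stay at bounded distance -/
def Insep (ω : Conf k) (x y : ℤ) : Prop := ∃ Γ : ℕ, y ∈ E Γ ω x

/-- the classes of `x, hx, ..., h^(m-1) x` are distinct -/
def Cyc (Γ₀ : ℕ) (ω : Conf k) (x : ℤ) (h : Wd k) (m : ℕ) : Prop :=
  ∀ i : ℕ, 0 < i → i < m → act ω (h ^ i) x ∉ E Γ₀ ω x

/-- the hypothesis on `Γ₀`: inseparable points stay at distance at most `Γ₀` -/
def Stable {n D : ℕ} (S : Sys k n D) (Γ₀ : ℕ) : Prop :=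
  ∀ ω ∈ S.Y, ∀ Γ : ℕ, ∀ x ∈ Orb ω, E Γ ω x ⊆ E Γ₀ ω x

/-- `m` is the maximal cycle length -/
def MaxCyc {n D : ℕ} (S : Sys k n D) (Γ₀ m : ℕ) : Prop :=
  2 ≤ m ∧ (∃ ω ∈ S.Y, ∃ x ∈ Orb ω, ∃ h, Cyc Γ₀ ω x h m) ∧
    ∀ ω ∈ S.Y, ∀ x ∈ Orb ω, ∀ h, ¬ Cyc Γ₀ ω x h (m + 1)

end B

end Pool.Agent.Lib.MP_322c76_al.BW
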