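import Pool.Agent.Lib.MP_322c76_al.BW.Defs
import Pool.Agent.Lib.MP_322c76_al.BW.Act

set_option autoImplicit false

namespace Pool.Agent.Lib.MP_322c76_al.BW

variable {k n D : ℕ}

/-! ROW ExisL (limit). Translate so that `x_N = 0` (`shift`); limit along a nonprincipal ultrafilter on `ℕ`
(the values `ω_N j x` and `(ω_N j).symm x` are in a finite set). The limits are inverse
permutations, displacement `≤ D`, `act ω g x = lim act ω_N g x`, so `act ω g ^ n = 1`; if the orbit of
`x_N` has `≥ r + 1` points then words of length `≤ r` reach `≥ r + 1` points (connectedness: the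
balls grow strictly until they are the whole orbit), which passes to the limit. -/

open Filter

private theorem exl_wfin (k r : ℕ) : {g : Wd k | g.norm ≤ r}.Finite := by
  have h := (List.finite_length_le (Fin k × Bool) r).preimage
    (f := fun g : Wd k => g.toWord) (FreeGroup.toWord_injective.injOn)
  exact h

private def exlB (θ : Conf k) (r : ℕ) : Set ℤ := {y | ∃ g : Wd k, g.norm ≤ r ∧ act θ g 0 = y}

private theorem exlB_finite (θ : Conf k) (r : ℕ) : (exlB θ r).Finite :=
  ((exl_wfin k r).image (fun g => act θ g 0)).subset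
    (by rintro y ⟨g, hg, rfl⟩; exact ⟨g, hg, rfl⟩)

private theorem exlB_mono (θ : Conf k) (r : ℕ) : exlB θ r ⊆ exlB θ (r + 1) := by
  rintro y ⟨g, hg, rfl⟩
  exact ⟨g, by omega, rfl⟩

private theorem exlB_growth (θ : Conf k) (r : ℕ) :
    r + 1 ≤ (exlB θ r).ncard ∨ Orb θ ⊆ exlB θ r := by
  induction r with
  | zero =>
    left
    have h : ({0} : Set ℤ) ⊆ exlB θ 0 := by
      intro y hy
      rw [Set.mem_singleton_iff] at hy
      exact ⟨1, by simp, by simp [hy]⟩
    have := Set.ncard_le_ncard h (exlB_finite θ 0)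
    rwa [Set.ncard_singleton] at this
  | succ r ih =>
    by_cases hsub : exlB θ (r + 1) ⊆ exlB θ r
    · right
      have key : ∀ z : Wd k, ∀ y ∈ exlB θ r, act θ z y ∈ exlB θ r := by
        intro z
        induction z using FreeGroup.induction_on with
        | C1 =>
          intro y hy
          simpa using hy
        | of j =>
          rintro y ⟨g, hg, rfl⟩
          apply hsub
          refine ⟨FreeGroup.of j * g, ?_, act_mul _ _ _ _⟩
          have h1 := FreeGroup.norm_mul_le (FreeGroup.of j) g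
          have h2 : (FreeGroup.of j : Wd k).norm = 1 := FreeGroup.norm_of j
          omega
        | inv_of j _ =>
          rintro y ⟨g, hg, rfl⟩
          apply hsub
          refine ⟨(FreeGroup.of j)⁻¹ * g, ?_, act_mul _ _ _ _⟩
          have h1 := FreeGroup.norm_mul_le (FreeGroup.of j)⁻¹ g
          have h2 : ((FreeGroup.of j)⁻¹ : Wd k).norm = 1 := by
            rw [FreeGroup.norm_inv_eq]
            exact FreeGroup.norm_of j
          omega
        | mul a b iha ihb =>
          intro y hy
          rw [act_mul]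
          exact iha _ (ihb _ hy)
      rintro y ⟨g, rfl⟩
      exact exlB_mono θ r (key g 0 ⟨1, by simp, by simp⟩)
    · rcases ih with ih | ih
      · left
        have hss : exlB θ r ⊂ exlB θ (r + 1) := ⟨exlB_mono θ r, hsub⟩
        have := Set.ncard_lt_ncard hss (exlB_finite θ (r + 1))
        omega
      · right
        exact ih.trans (exlB_mono θ r)

private theorem exl_lim (U : Ultrafilter ℕ) (f : ℕ → ℤ) (x : ℤ) (D : ℕ)
    (h : ∀ N, |f N - x| ≤ D) : ∃ y : ℤ, ∀ᶠ N in (U : Filter ℕ), f N = y := by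
  have h1 : ∀ᶠ N in (U : Filter ℕ), ∃ y ∈ Set.Icc (x - D) (x + D), f N = y :=
    Filter.Eventually.of_forall fun N => ⟨f N, by
      have := abs_le.mp (h N)
      constructor <;> linarith [this.1, this.2], rfl⟩
  obtain ⟨y, -, hy⟩ := (Ultrafilter.eventually_exists_mem_iff (Set.finite_Icc _ _)).mp h1
  exact ⟨y, hy⟩

theorem limit_conf (k n D : ℕ)
    (h : ∀ N : ℕ, ∃ ω : Conf k, (∀ j x, |ω j x - x| ≤ D) ∧
      (∀ g : Wd k, g.norm ≤ N → act ω g ^ n = 1) ∧
      ∃ (x : ℤ) (F : Finset ℤ), N ≤ F.card ∧ ∀ y ∈ F, ∃ g : Wd k, act ω g x = y) :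
    ∃ ω : Conf k, (∀ j x, |ω j x - x| ≤ D) ∧ (∀ g : Wd k, act ω g ^ n = 1) ∧ (Orb ω).Infinite := by
  classical
  -- the shifted configurations
  have hs : ∀ N : ℕ, ∃ θ : Conf k, (∀ j x, |θ j x - x| ≤ D) ∧
      (∀ g : Wd k, g.norm ≤ N → ∀ x, act θ (g ^ n) x = x) ∧
      ∃ F : Finset ℤ, N ≤ F.card ∧ ∀ y ∈ F, y ∈ Orb θ := by
    intro N
    obtain ⟨ω, h1, h2, x, F, h3, h4⟩ := h N
    refine ⟨shift ω x, ?_, ?_, F.image (fun y => y - x), ?_, ?_⟩
    · intro j y
      have := h1 j (y + x)
      have e : shift ω x j y = ω j (y + x) - x := by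
        simp [shift, sub_eq_add_neg]
      rw [e]
      rwa [show ω j (y + x) - x - y = ω j (y + x) - (y + x) by ring]
    · intro g hg y
      rw [act_shift]
      have h5 : act ω (g ^ n) = 1 := by
        rw [← h2 g hg]
        exact map_pow (FreeGroup.lift ω) g n
      rw [h5]
      simp
    · rw [Finset.card_image_of_injective _ (sub_left_injective)]
      exact h3
    · intro y hy
      obtain ⟨y', hy', rfl⟩ := Finset.mem_image.mp hy
      obtain ⟨g, hg⟩ := h4 y' hy'
      exact ⟨g, by rw [act_shift, zero_add, hg]⟩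
  choose θ h1 h2 F h3 h4 using hs
  set U : Ultrafilter ℕ := hyperfilter ℕ with hU
  have hUge : ∀ M : ℕ, ∀ᶠ N in (U : Filter ℕ), M ≤ N := fun M =>
    (eventually_ge_atTop M).filter_mono Nat.hyperfilter_le_atTop
  have h1' : ∀ N j x, |(θ N j).symm x - x| ≤ D := by
    intro N j x
    have h5 := h1 N j ((θ N j).symm x)
    rw [Equiv.apply_symm_apply] at h5
    rwa [abs_sub_comm] at h5
  have ha : ∀ j x, ∃ y : ℤ, ∀ᶠ N in (U : Filter ℕ), θ N j x = y := fun j x =>
    exl_lim U (fun N => θ N j x) x D (fun N => h1 N j x)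
  have hb : ∀ j x, ∃ y : ℤ, ∀ᶠ N in (U : Filter ℕ), (θ N j).symm x = y := fun j x =>
    exl_lim U (fun N => (θ N j).symm x) x D (fun N => h1' N j x)
  choose a ha using ha
  choose b hb using hb
  let ω : Conf k := fun j =>
    { toFun := a j
      invFun := b j
      left_inv := by
        intro x
        obtain ⟨N, e1, e2⟩ := ((ha j x).and (hb j (a j x))).exists
        rw [← e2, ← e1, Equiv.symm_apply_apply]
      right_inv := by
        intro x
        obtain ⟨N, e1, e2⟩ := ((hb j x).and (ha j (b j x))).exists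
        rw [← e2, ← e1, Equiv.apply_symm_apply] }
  have hact : ∀ g : Wd k, ∀ x : ℤ, ∀ᶠ N in (U : Filter ℕ), act (θ N) g x = act ω g x := by
    intro g
    induction g using FreeGroup.induction_on with
    | C1 => intro x; simp
    | of j =>
      intro x
      have : ∀ ζ : Conf k, act ζ (FreeGroup.of j) = ζ j := fun ζ => by simp [act]
      simp only [this]
      exact ha j x
    | inv_of j _ =>
      intro x
      have : ∀ ζ : Conf k, act ζ (FreeGroup.of j)⁻¹ = (ζ j)⁻¹ := fun ζ => by simp [act]
      simp only [this]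
      exact hb j x
    | mul u v ihu ihv =>
      intro x
      filter_upwards [ihv x, ihu (act ω v x)] with N e1 e2
      rw [act_mul, act_mul, e1, e2]
  refine ⟨ω, ?_, ?_, ?_⟩
  · intro j x
    obtain ⟨N, e1⟩ := (ha j x).exists
    have e2 : ω j x = a j x := rfl
    rw [e2, ← e1]
    exact h1 N j x
  · intro g
    have h5 : act ω g ^ n = act ω (g ^ n) := (map_pow (FreeGroup.lift ω) g n).symm
    rw [h5]
    ext x
    obtain ⟨N, e1, e2⟩ := ((hact (g ^ n) x).and (hUge g.norm)).exists
    rw [← e1, h2 N g e2 x]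
    simp
  · intro hfin
    set M := (Orb ω).ncard with hM
    have hev : ∀ᶠ N in (U : Filter ℕ), ∀ g ∈ {g : Wd k | g.norm ≤ M}, act (θ N) g 0 = act ω g 0 :=
      (eventually_all_finite (exl_wfin k M)).mpr fun g _ => hact g 0
    obtain ⟨N, e1, e2⟩ := (hev.and (hUge (M + 1))).exists
    have hsub : exlB (θ N) M ⊆ Orb ω := by
      rintro y ⟨g, hg, rfl⟩
      exact ⟨g, (e1 g hg).symm⟩
    have hle := Set.ncard_le_ncard hsub hfin
    rcases exlB_growth (θ N) M with h5 | h5
    · omega
    · have h6 : (↑(F N) : Set ℤ) ⊆ Orb ω := fun y hy =>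
        hsub (h5 (h4 N y hy))
      have h7 := Set.ncard_le_ncard h6 hfin
      rw [Set.ncard_coe_finset] at h7
      have h8 := h3 N
      omega

end Pool.Agent.Lib.MP_322c76_al.BW
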