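import Pool.Agent.Lib.MP_322c76_al.BW.Defs
import Pool.Agent.Lib.MP_322c76_al.BW.Cpt

set_option autoImplicit false

namespace Pool.Agent.Lib.MP_322c76_al.BW

variable {k n D : ℕ}

/-! ROW Min (minimal system). `K₀` = all `ω` with displacement `≤ D`, exponent `n`, infinite orbit (this
is `Closed'`: infinite orbit = for all `r` at least `r + 1` points reached by words of length `≤ r`),
invariant under `reroot`. Zorn with `chain_inter`: a minimal nonempty closed invariant `Y ⊆ K₀`.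
`cpt` from `finite_subcover` (`P` monotone). `recu`: the set of `ω ∈ Y` such that no `reroot ω g`
agrees with `ω₀` on `[-R, R]` is closed, invariant and does not contain `ω₀`, so it is empty; then
`cpt`. -/

private theorem min_shift_apply (ω : Conf k) (c : ℤ) (j : Fin k) (x : ℤ) :
    shift ω c j x = ω j (x + c) - c := by
  simp [shift, sub_eq_add_neg]

private theorem min_shift_symm (ω : Conf k) (c : ℤ) (j : Fin k) (x : ℤ) :
    (shift ω c j).symm x = (ω j).symm (x + c) - c := by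
  simp [shift, sub_eq_add_neg]

private theorem min_agree_reroot {ω ω' : Conf k} (h : ∀ j x, |ω j x - x| ≤ D) (R : ℕ) (g : Wd k)
    (hA : Agree (R + D * g.norm) ω ω') : Agree R (reroot ω g) (reroot ω' g) := by
  have h0 : act ω g 0 = act ω' g 0 := by
    refine Agree.act_eq h hA g 0 ?_
    rw [abs_zero]
    push_cast
    have : (0 : ℤ) ≤ R := Int.natCast_nonneg _
    linarith
  have hc : |act ω g 0| ≤ D * g.norm := by
    have := act_disp h g 0
    rwa [sub_zero] at this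
  intro j x hx
  have hx2 : |x + act ω g 0| ≤ ((R + D * g.norm : ℕ) : ℤ) := by
    push_cast
    exact (abs_add_le _ _).trans (add_le_add hx hc)
  obtain ⟨h3, h4⟩ := hA j _ hx2
  constructor
  · rw [reroot, reroot, min_shift_apply, min_shift_apply, ← h0, h3]
  · rw [reroot, reroot, min_shift_symm, min_shift_symm, ← h0, h4]

private theorem min_agree_trans {R : ℕ} {ω₁ ω₂ ω₃ : Conf k} (h : Agree R ω₁ ω₂)
    (h' : Agree R ω₂ ω₃) : Agree R ω₁ ω₃ := by
  intro j x hx
  obtain ⟨a, b⟩ := h j x hx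
  obtain ⟨c, d⟩ := h' j x hx
  exact ⟨a.trans c, b.trans d⟩

private theorem min_agree_refl {R : ℕ} (ω : Conf k) : Agree R ω ω := fun _ _ _ => ⟨rfl, rfl⟩

private theorem min_disp_reroot {ω : Conf k} (h : ∀ j x, |ω j x - x| ≤ D) (g : Wd k) :
    ∀ j x, |reroot ω g j x - x| ≤ D := by
  intro j x
  rw [reroot, min_shift_apply]
  have := h j (x + act ω g 0)
  rwa [show ω j (x + act ω g 0) - act ω g 0 - x = ω j (x + act ω g 0) - (x + act ω g 0) by ring]

private theorem min_pow (ω : Conf k) (g : Wd k) (i : ℕ) : act ω (g ^ i) = act ω g ^ i := by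
  unfold act
  rw [map_pow]

private theorem min_expn_reroot {ω : Conf k} (h : ∀ g : Wd k, act ω g ^ n = 1) (g : Wd k) :
    ∀ g' : Wd k, act (reroot ω g) g' ^ n = 1 := by
  intro g'
  rw [← min_pow]
  ext x
  rw [act_reroot, min_pow, h]
  simp

/-- the ball of radius `r` in the orbit of `0` -/
private def mball (ω : Conf k) (r : ℕ) : Set ℤ := {y | ∃ g : Wd k, g.norm ≤ r ∧ act ω g 0 = y}

private theorem mball_sub {ω : Conf k} (h : ∀ j x, |ω j x - x| ≤ D) (r : ℕ) :
    mball ω r ⊆ Set.Icc (-(D * r : ℤ)) (D * r) := by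
  rintro y ⟨g, hg, rfl⟩
  have h1 := act_disp h g 0
  rw [sub_zero] at h1
  have h2 : (D : ℤ) * g.norm ≤ D * r := by
    have : (g.norm : ℤ) ≤ r := by exact_mod_cast hg
    exact mul_le_mul_of_nonneg_left this (Int.natCast_nonneg _)
  exact abs_le.1 (h1.trans h2)

private theorem mball_fin {ω : Conf k} (h : ∀ j x, |ω j x - x| ≤ D) (r : ℕ) :
    (mball ω r).Finite := (Set.finite_Icc _ _).subset (mball_sub h r)

private theorem mball_mono {ω : Conf k} {r s : ℕ} (h : r ≤ s) : mball ω r ⊆ mball ω s := by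
  rintro y ⟨g, hg, rfl⟩
  exact ⟨g, hg.trans h, rfl⟩

private theorem min_letter (g : Wd k) (j : Fin k) : (FreeGroup.of j * g).norm ≤ g.norm + 1 := by
  refine (FreeGroup.norm_mul_le _ _).trans ?_
  rw [FreeGroup.norm_of]
  omega

private theorem min_letter_inv (g : Wd k) (j : Fin k) :
    ((FreeGroup.of j)⁻¹ * g).norm ≤ g.norm + 1 := by
  refine (FreeGroup.norm_mul_le _ _).trans ?_
  rw [FreeGroup.norm_inv_eq, FreeGroup.norm_of]
  omega

private theorem mball_closed {ω : Conf k} {r : ℕ} (h : mball ω (r + 1) ⊆ mball ω r) (g : Wd k) :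
    ∀ y ∈ mball ω r, act ω g y ∈ mball ω r := by
  induction g using FreeGroup.induction_on with
  | C1 => intro y hy; rwa [act_one]
  | of j =>
    rintro y ⟨g, hg, rfl⟩
    refine h ⟨FreeGroup.of j * g, (min_letter g j).trans (by omega), ?_⟩
    rw [act_mul]
  | inv_of j _ =>
    rintro y ⟨g, hg, rfl⟩
    refine h ⟨(FreeGroup.of j)⁻¹ * g, (min_letter_inv g j).trans (by omega), ?_⟩
    rw [act_mul]
  | mul x y hx hy =>
    intro z hz
    rw [act_mul]
    exact hx _ (hy _ hz)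

private theorem mball_card {ω : Conf k} (h : ∀ j x, |ω j x - x| ≤ D) (hi : (Orb ω).Infinite)
    (r : ℕ) : r + 1 ≤ (mball ω r).ncard := by
  induction r with
  | zero =>
    have : (mball ω 0).Nonempty := ⟨0, 1, by simp, by simp⟩
    exact (Set.ncard_pos (mball_fin h 0)).2 this
  | succ r ih =>
    have h1 : mball ω r ⊂ mball ω (r + 1) := by
      refine ⟨mball_mono (Nat.le_succ r), fun h2 => hi ?_⟩
      refine (mball_fin h r).subset ?_
      rintro y ⟨g, rfl⟩
      exact mball_closed h2 g 0 ⟨1, by simp, by simp⟩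
    have := Set.ncard_lt_ncard h1 (mball_fin h (r + 1))
    omega

private theorem min_infinite {ω : Conf k} (h : ∀ r : ℕ, r + 1 ≤ (mball ω r).ncard) :
    (Orb ω).Infinite := by
  intro hf
  have h1 := h (Orb ω).ncard
  have h2 : (mball ω (Orb ω).ncard).ncard ≤ (Orb ω).ncard := by
    refine Set.ncard_le_ncard ?_ hf
    rintro y ⟨g, -, rfl⟩
    exact ⟨g, rfl⟩
  omega

private theorem min_inf_reroot {ω : Conf k} (hi : (Orb ω).Infinite) (g : Wd k) :
    (Orb (reroot ω g)).Infinite := by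
  intro hf
  refine hi ((hf.image fun y => y + act ω g 0).subset ?_)
  intro y hy
  refine ⟨y - act ω g 0, ?_, by ring⟩
  rw [mem_orb_reroot, sub_add_cancel]
  exact hy

/-- all configurations with displacement `≤ D`, exponent `n` and infinite orbit -/
private def minK (k n D : ℕ) : Set (Conf k) :=
  {ω | (∀ j x, |ω j x - x| ≤ D) ∧ (∀ g : Wd k, act ω g ^ n = 1) ∧ (Orb ω).Infinite}

private theorem minK_closed (k n D : ℕ) : Closed' D (minK k n D) := by
  intro ω hω happ
  refine ⟨hω, fun g => ?_, min_infinite (fun r => ?_)⟩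
  · rw [← min_pow]
    ext x
    obtain ⟨ω', ⟨h1, h2, -⟩, h4⟩ := happ (x.natAbs + D * (g ^ n).norm)
    have h5 := Agree.act_eq h1 h4 (g ^ n) x (by push_cast; exact le_rfl)
    rw [← h5, min_pow, h2]
  · obtain ⟨ω', ⟨h1, -, h3⟩, h4⟩ := happ (D * r)
    refine (mball_card h1 h3 r).trans (Set.ncard_le_ncard ?_ (mball_fin hω r))
    rintro y ⟨g, hg, rfl⟩
    refine ⟨g, hg, (Agree.act_eq h1 h4 g 0 ?_).symm⟩
    rw [abs_zero, zero_add]
    push_cast
    have : (g.norm : ℤ) ≤ r := by exact_mod_cast hg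
    exact mul_le_mul_of_nonneg_left this (Int.natCast_nonneg _)

private theorem minK_reroot {ω : Conf k} (h : ω ∈ minK k n D) (g : Wd k) :
    reroot ω g ∈ minK k n D :=
  ⟨min_disp_reroot h.1 g, min_expn_reroot h.2.1 g, min_inf_reroot h.2.2 g⟩

/-- the nonempty closed invariant subsets -/
private def minS (k n D : ℕ) : Set (Set (Conf k)) :=
  {K | K.Nonempty ∧ Closed' D K ∧ K ⊆ minK k n D ∧ ∀ ω ∈ K, ∀ g : Wd k, reroot ω g ∈ K}

private theorem min_zorn (k n D : ℕ) (hne : (minK k n D).Nonempty) :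
    ∃ Y, Minimal (· ∈ minS k n D) Y := by
  refine zorn_superset _ fun c hc hch => ?_
  rcases c.eq_empty_or_nonempty with h0 | h0
  · subst h0
    exact ⟨minK k n D, ⟨hne, minK_closed k n D, subset_rfl, fun ω hω g => minK_reroot hω g⟩,
      fun s hs => absurd hs (Set.notMem_empty s)⟩
  · refine ⟨⋂₀ c, ⟨?_, ?_, ?_, ?_⟩, fun s hs => Set.sInter_subset_of_mem hs⟩
    · exact chain_inter D c h0 hch fun K hK =>
        ⟨(hc hK).1, (hc hK).2.1, fun ω hω => ((hc hK).2.2.1 hω).1⟩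
    · intro ω hω happ K hK
      refine (hc hK).2.1 ω hω fun R => ?_
      obtain ⟨ω', h1, h2⟩ := happ R
      exact ⟨ω', h1 K hK, h2⟩
    · obtain ⟨K, hK⟩ := h0
      exact (Set.sInter_subset_of_mem hK).trans (hc hK).2.2.1
    · intro ω hω g K hK
      exact (hc hK).2.2.2 ω (hω K hK) g

private theorem min_cpt {Y : Set (Conf k)} (hY : Y ∈ minS k n D) (P : ℕ → Conf k → Prop)
    (hP : ∀ t ω, P t ω → P (t + 1) ω)
    (hloc : ∀ ω ∈ Y, ∃ t R : ℕ, ∀ ω' ∈ Y, Agree R ω' ω → P t ω') : ∃ t, ∀ ω ∈ Y, P t ω := by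
  classical
  have hP' : ∀ {s t : ℕ} {ω : Conf k}, s ≤ t → P s ω → P t ω := by
    intro s t ω hst h
    induction t, hst using Nat.le_induction with
    | base => exact h
    | succ t _ ih => exact hP t ω ih
  choose! tt RR hh using hloc
  obtain ⟨F, hF, hcov⟩ := finite_subcover D Y (fun ω hω => (hY.2.2.1 hω).1) hY.2.1 RR
  refine ⟨F.sup tt, fun ω hω => ?_⟩
  obtain ⟨ω', h1, h2⟩ := hcov ω hω
  exact hP' (Finset.le_sup h1) (hh ω' (hF ω' h1) ω hω h2)

theorem exists_minimal (k n D : ℕ) (ω : Conf k) (h1 : ∀ j x, |ω j x - x| ≤ D)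
    (h2 : ∀ g : Wd k, act ω g ^ n = 1) (h3 : (Orb ω).Infinite) : Nonempty (Sys k n D) := by
  obtain ⟨Y, hYS, hYmin⟩ := min_zorn k n D ⟨ω, h1, h2, h3⟩
  have hYS' : Y ∈ minS k n D := hYS
  have hcpt := fun P hP hloc => min_cpt hYS' P hP hloc
  obtain ⟨hne, hcl, hsub, hrr⟩ := hYS'
  refine ⟨⟨Y, hne, fun ω hω => (hsub hω).1, fun ω hω => (hsub hω).2.1, fun ω hω => (hsub hω).2.2,
    hrr, hcpt, fun ω₀ hω₀ R => ?_⟩⟩
  have hkey : ∀ ω ∈ Y, ∃ g : Wd k, Agree R (reroot ω g) ω₀ := by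
    by_contra hcon
    push Not at hcon
    obtain ⟨ω₁, hω₁, hno⟩ := hcon
    have hZ : {ω | ω ∈ Y ∧ ∀ g : Wd k, ¬ Agree R (reroot ω g) ω₀} ∈ minS k n D := by
      refine ⟨⟨ω₁, hω₁, hno⟩, ?_, fun ω hω => hsub hω.1, ?_⟩
      · intro ω hω happ
        refine ⟨hcl ω hω fun R' => ?_, fun g hg => ?_⟩
        · obtain ⟨ω', h4, h5⟩ := happ R'
          exact ⟨ω', h4.1, h5⟩
        · obtain ⟨ω', h4, h5⟩ := happ (R + D * g.norm)
          exact h4.2 g (min_agree_trans (min_agree_reroot (hsub h4.1).1 R g h5) hg)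
      · rintro ω ⟨hω, hno⟩ g
        refine ⟨hrr ω hω g, fun h => ?_⟩
        rw [reroot_reroot]
        exact hno _
    have h6 := (hYmin hZ (fun ω hω => hω.1)) hω₀
    refine h6.2 1 ?_
    rw [reroot_one]
    exact min_agree_refl ω₀
  refine hcpt (fun t ω => ∃ g : Wd k, g.norm ≤ t ∧ Agree R (reroot ω g) ω₀) ?_ ?_
  · rintro t ω ⟨g, hg, h⟩
    exact ⟨g, hg.trans (Nat.le_succ t), h⟩
  · intro ω hω
    obtain ⟨g, hg⟩ := hkey ω hω
    refine ⟨g.norm, R + D * g.norm, fun ω' hω' hA => ⟨g, le_rfl, ?_⟩⟩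
    exact min_agree_trans (min_agree_reroot (hsub hω').1 R g hA) hg

end Pool.Agent.Lib.MP_322c76_al.BW
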