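import Pool.Agent.Lib.MP_322c76_al.BW.Defs

set_option autoImplicit false

namespace Pool.Agent.Lib.MP_322c76_al.BW

variable {G : Type*} [Group G]

open Matrix

private theorem lina_amgm {k : ℕ} (hk : 1 ≤ k) (z : Fin k → ℝ) (hz : ∀ i, 0 ≤ z i) :
    ∏ i, z i ≤ ((∑ i, z i) / k) ^ k := by
  have hk0 : (0 : ℝ) < k := by exact_mod_cast hk
  have h1 := Real.geom_mean_le_arith_mean_weighted Finset.univ (fun _ : Fin k => 1 / (k : ℝ)) z
    (fun _ _ => by positivity) (by simp [hk0.ne']) (fun i _ => hz i)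
  have h2 : ∑ i, 1 / (k : ℝ) * z i = (∑ i, z i) / k := by
    rw [← Finset.mul_sum]
    ring
  rw [h2] at h1
  have h3 : (∏ i, z i ^ (1 / (k : ℝ))) ^ k = ∏ i, z i := by
    rw [← Finset.prod_pow]
    refine Finset.prod_congr rfl fun i _ => ?_
    rw [← Real.rpow_natCast, ← Real.rpow_mul (hz i), one_div, inv_mul_cancel₀ hk0.ne', Real.rpow_one]
  rw [← h3]
  exact pow_le_pow_left₀ (Finset.prod_nonneg fun i _ => Real.rpow_nonneg (hz i) _) h1 k

private theorem lina_sqrt {k : ℕ} (M : Matrix (Fin k) (Fin k) ℝ) (hM : M.PosSemidef) :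
    ∃ B : Matrix (Fin k) (Fin k) ℝ, M = Bᵀ * B := by
  open scoped MatrixOrder in
  obtain ⟨B, hB⟩ := CStarAlgebra.nonneg_iff_eq_star_mul_self.mp hM.nonneg
  exact ⟨B, by rw [hB, star_eq_conjTranspose, conjTranspose_eq_transpose_of_trivial]⟩

private theorem lina_orth {k : ℕ} {N : Matrix (Fin k) (Fin k) ℝ} (hN : N.IsHermitian) (i j : Fin k) :
    (⇑(hN.eigenvectorBasis i) : Fin k → ℝ) ⬝ᵥ ⇑(hN.eigenvectorBasis j) = if i = j then 1 else 0 := by
  have h := (orthonormal_iff_ite.1 hN.eigenvectorBasis.orthonormal) j i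
  rw [EuclideanSpace.inner_eq_star_dotProduct] at h
  simp only [star_trivial] at h
  rw [h]
  split_ifs with h1 h2 h2
  · rfl
  · exact absurd h1.symm h2
  · exact absurd h2.symm h1
  · rfl

/-- the quadratic form on combinations of eigenvectors -/
private theorem lina_form {k : ℕ} {N : Matrix (Fin k) (Fin k) ℝ} (hN : N.IsHermitian) (a : Fin k → ℝ) :
    (∑ i, a i • (⇑(hN.eigenvectorBasis i) : Fin k → ℝ)) ⬝ᵥ N *ᵥ (∑ i, a i • (⇑(hN.eigenvectorBasis i) : Fin k → ℝ)) =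
      ∑ i, hN.eigenvalues i * a i ^ 2 ∧
    (∑ i, a i • (⇑(hN.eigenvectorBasis i) : Fin k → ℝ)) ⬝ᵥ (∑ i, a i • (⇑(hN.eigenvectorBasis i) : Fin k → ℝ)) =
      ∑ i, a i ^ 2 := by
  constructor
  · rw [mulVec_sum, sum_dotProduct]
    refine Finset.sum_congr rfl fun i _ => ?_
    rw [dotProduct_sum, Finset.sum_eq_single i]
    · rw [mulVec_smul, hN.mulVec_eigenvectorBasis, smul_dotProduct, dotProduct_smul, dotProduct_smul, lina_orth, if_pos rfl]
      simp only [smul_eq_mul]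
      ring
    · intro j _ hj
      rw [mulVec_smul, hN.mulVec_eigenvectorBasis, smul_dotProduct, dotProduct_smul, dotProduct_smul, lina_orth,
        if_neg (Ne.symm hj)]
      simp
    · intro h
      exact absurd (Finset.mem_univ i) h
  · rw [sum_dotProduct]
    refine Finset.sum_congr rfl fun i _ => ?_
    rw [dotProduct_sum, Finset.sum_eq_single i]
    · rw [smul_dotProduct, dotProduct_smul, lina_orth, if_pos rfl]
      simp only [smul_eq_mul]
      ring
    · intro j _ hj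
      rw [smul_dotProduct, dotProduct_smul, lina_orth, if_neg (Ne.symm hj)]
      simp
    · intro h
      exact absurd (Finset.mem_univ i) h

/-- monotonicity (`K = 0`, `δ = 1` above up to the trivial case) and the bound by the trace -/
theorem det_le_trace {k : ℕ} (hk : 1 ≤ k) (M : Matrix (Fin k) (Fin k) ℝ) (hM : M.PosSemidef) :
    M.det ≤ (M.trace / k) ^ k := by
  have h1 := hM.1.det_eq_prod_eigenvalues
  have h2 := hM.1.trace_eq_sum_eigenvalues
  simp only [RCLike.ofReal_real_eq_id, id_eq] at h1 h2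
  rw [h1, h2]
  exact lina_amgm hk _ fun i => hM.eigenvalues_nonneg i

private theorem lina_eigen_le {k K : ℕ} {N : Matrix (Fin k) (Fin k) ℝ} (hN : N.PosSemidef)
    (h1 : ∀ w : Fin k → ℝ, w ⬝ᵥ N *ᵥ w ≤ w ⬝ᵥ w)
    (L : (Fin k → ℝ) →ₗ[ℝ] (Fin K → ℝ)) {δ : ℝ} (hδ : 0 ≤ δ)
    (h2 : ∀ w : Fin k → ℝ, L w = 0 → w ⬝ᵥ N *ᵥ w ≤ δ * (w ⬝ᵥ w)) : N.trace ≤ K + k * δ := by
  classical
  have htr := hN.1.trace_eq_sum_eigenvalues
  simp only [RCLike.ofReal_real_eq_id, id_eq] at htr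
  rw [htr]
  -- all eigenvalues are at most one
  have hle1 : ∀ i, hN.1.eigenvalues i ≤ 1 := by
    intro i
    obtain ⟨f1, f2⟩ := lina_form hN.1 (Pi.single i 1)
    have h3 := h1 (∑ j, (Pi.single i 1 : Fin k → ℝ) j • (⇑(hN.1.eigenvectorBasis j) : Fin k → ℝ))
    rw [f1, f2] at h3
    rw [Finset.sum_eq_single i, Finset.sum_eq_single i] at h3
    · simpa using h3
    · intro j _ hj
      rw [Pi.single_eq_of_ne hj]
      simp
    · intro h
      exact absurd (Finset.mem_univ i) h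
    · intro j _ hj
      rw [Pi.single_eq_of_ne hj]
      simp
    · intro h
      exact absurd (Finset.mem_univ i) h
  obtain ⟨I, hI⟩ : ∃ I : Finset (Fin k), I = Finset.univ.filter (fun i => δ < hN.1.eigenvalues i) := ⟨_, rfl⟩
  have hmem : ∀ i, i ∈ I ↔ δ < hN.1.eigenvalues i := by
    intro i
    rw [hI, Finset.mem_filter]
    simp
  -- few eigenvalues exceed `δ`
  have hcard : I.card ≤ K := by
    by_contra hcon
    push Not at hcon
    let S : (Fin k → ℝ) →ₗ[ℝ] (Fin k → ℝ) :=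
      Fintype.linearCombination ℝ (fun i => (⇑(hN.1.eigenvectorBasis i) : Fin k → ℝ))
    let φ : (Fin k → ℝ) →ₗ[ℝ] (Fin K → ℝ) × ({i // i ∉ I} → ℝ) :=
      LinearMap.prod (L ∘ₗ S) (LinearMap.pi fun i : {i // i ∉ I} => LinearMap.proj i.1)
    have hfin : Module.finrank ℝ ((Fin K → ℝ) × ({i // i ∉ I} → ℝ)) < Module.finrank ℝ (Fin k → ℝ) := by
      rw [Module.finrank_prod, Module.finrank_fintype_fun_eq_card, Module.finrank_fintype_fun_eq_card,
        Module.finrank_fintype_fun_eq_card, Fintype.card_fin, Fintype.card_fin, Fintype.card_subtype_compl,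
        Fintype.card_fin, Fintype.card_coe]
      have h3 : I.card ≤ k := by
        have := Finset.card_le_univ I
        rwa [Fintype.card_fin] at this
      omega
    have hker := LinearMap.ker_ne_bot_of_finrank_lt (f := φ) hfin
    obtain ⟨a, ha, ha0⟩ := (Submodule.ne_bot_iff _).1 hker
    rw [LinearMap.mem_ker] at ha
    have hL : L (S a) = 0 := congrArg Prod.fst ha
    have hoff : ∀ i, i ∉ I → a i = 0 := fun i hi => congrFun (congrArg Prod.snd ha) ⟨i, hi⟩
    obtain ⟨f1, f2⟩ := lina_form hN.1 a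
    have hS : S a = ∑ i, a i • (⇑(hN.1.eigenvectorBasis i) : Fin k → ℝ) := Fintype.linearCombination_apply _ _ _
    have h3 := h2 (S a) hL
    rw [hS, f1, f2, Finset.mul_sum] at h3
    have h4 : ∀ i ∈ Finset.univ, δ * a i ^ 2 ≤ hN.1.eigenvalues i * a i ^ 2 := by
      intro i _
      by_cases hi : i ∈ I
      · exact mul_le_mul_of_nonneg_right ((hmem i).1 hi).le (sq_nonneg _)
      · rw [hoff i hi]
        simp
    have h5 := (Finset.sum_eq_sum_iff_of_le h4).1 (le_antisymm (Finset.sum_le_sum h4) h3)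
    apply ha0
    funext i
    by_cases hi : i ∈ I
    · have h6 := h5 i (Finset.mem_univ i)
      have h7 : (hN.1.eigenvalues i - δ) * a i ^ 2 = 0 := by linarith
      rcases mul_eq_zero.1 h7 with h8 | h8
      · have := (hmem i).1 hi
        linarith
      · rw [Pi.zero_apply]
        exact pow_eq_zero_iff (two_ne_zero) |>.1 h8
    · exact hoff i hi
  have hsplit : ∑ i, hN.1.eigenvalues i ≤ ∑ i, ((if i ∈ I then (1 : ℝ) else 0) + δ) := by
    refine Finset.sum_le_sum fun i _ => ?_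
    split_ifs with hi
    · linarith [hle1 i]
    · rw [zero_add]
      exact not_lt.1 fun h => hi ((hmem i).2 h)
  refine hsplit.trans ?_
  rw [Finset.sum_add_distrib, Finset.sum_const, Finset.card_univ, Fintype.card_fin, nsmul_eq_mul]
  have h3 : ∑ i : Fin k, (if i ∈ I then (1 : ℝ) else 0) = I.card := by
    rw [Finset.sum_ite_mem, Finset.univ_inter, Finset.sum_const, nsmul_eq_mul, mul_one]
  rw [h3]
  have h4 : (I.card : ℝ) ≤ K := by exact_mod_cast hcard
  linarith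

theorem det_le_of_functionals {k K : ℕ} (hk : 1 ≤ k) (M M' : Matrix (Fin k) (Fin k) ℝ)
    (hM : M.PosSemidef) (hM' : M'.PosDef) (hle : ∀ v : Fin k → ℝ, v ⬝ᵥ M.mulVec v ≤ v ⬝ᵥ M'.mulVec v)
    (L : Fin K → (Fin k → ℝ) →ₗ[ℝ] ℝ) {δ : ℝ} (hδ : 0 ≤ δ)
    (hU : ∀ v : Fin k → ℝ, (∀ i, L i v = 0) → v ⬝ᵥ M.mulVec v ≤ δ * v ⬝ᵥ M'.mulVec v) :
    M.det ≤ ((K : ℝ) / k + δ) ^ k * M'.det := by
  have hk0 : (0 : ℝ) < k := by exact_mod_cast hk
  obtain ⟨B, hB⟩ := lina_sqrt M' hM'.posSemidef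
  have hdet' : M'.det = B.det * B.det := by rw [hB, det_mul, det_transpose]
  have hpos := hM'.det_pos
  have hB0 : B.det ≠ 0 := by
    intro h0
    rw [hdet', h0, mul_zero] at hpos
    exact lt_irrefl _ hpos
  have hBu : IsUnit B.det := isUnit_iff_ne_zero.2 hB0
  have hBB : B * B⁻¹ = 1 := mul_nonsing_inv B hBu
  obtain ⟨N, hNdef⟩ : ∃ N : Matrix (Fin k) (Fin k) ℝ, N = (B⁻¹)ᵀ * M * B⁻¹ := ⟨_, rfl⟩
  have hN : N.PosSemidef := by
    have h1 := hM.conjTranspose_mul_mul_same B⁻¹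
    rw [conjTranspose_eq_transpose_of_trivial] at h1
    rw [hNdef]
    exact h1
  have hNform : ∀ w : Fin k → ℝ, w ⬝ᵥ N *ᵥ w = (B⁻¹ *ᵥ w) ⬝ᵥ M *ᵥ (B⁻¹ *ᵥ w) := by
    intro w
    rw [hNdef, Matrix.mul_assoc, ← mulVec_mulVec, ← mulVec_mulVec, dotProduct_mulVec, vecMul_transpose]
  have hM'form : ∀ w : Fin k → ℝ, (B⁻¹ *ᵥ w) ⬝ᵥ M' *ᵥ (B⁻¹ *ᵥ w) = w ⬝ᵥ w := by
    intro w
    rw [hB, ← mulVec_mulVec, dotProduct_mulVec, vecMul_transpose, mulVec_mulVec, hBB, one_mulVec]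
  have hdetN : M.det = N.det * M'.det := by
    have h1 : N.det = B⁻¹.det * M.det * B⁻¹.det := by rw [hNdef, det_mul, det_mul, det_transpose]
    have h2 : B⁻¹.det * B.det = 1 := by rw [← det_mul, nonsing_inv_mul B hBu, det_one]
    rw [h1, hdet']
    calc M.det = (B⁻¹.det * B.det) * M.det * (B⁻¹.det * B.det) := by rw [h2]; ring
      _ = _ := by ring
  have htr : N.trace ≤ K + k * δ := by
    refine lina_eigen_le hN (fun w => ?_)
      ((LinearMap.pi fun i => L i) ∘ₗ (B⁻¹).mulVecLin) hδ (fun w hw => ?_)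
    · rw [hNform, ← hM'form w]
      exact hle _
    · rw [hNform, ← hM'form w]
      exact hU _ fun i => congrFun hw i
  have htr0 : 0 ≤ N.trace := hN.trace_nonneg
  have h1 : N.det ≤ ((K : ℝ) / k + δ) ^ k := by
    refine (det_le_trace hk N hN).trans (pow_le_pow_left₀ (by positivity) ?_ k)
    rw [div_le_iff₀ hk0]
    have h2 : ((K : ℝ) / k + δ) * k = K + k * δ := by
      field_simp
    rw [h2]
    exact htr
  rw [hdetN]
  exact mul_le_mul_of_nonneg_right h1 hpos.le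

end Pool.Agent.Lib.MP_322c76_al.BW
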