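import Pool.Agent.Lib.MP_322c76_al.BW.Defs

set_option autoImplicit false

namespace Pool.Agent.Lib.MP_322c76_al.BW

variable {G : Type*} [Group G]

/-! ROW Scale (pigeonhole): `v j ≥ 1`, `D j > 0` nondecreasing, `v j ≤ A b^(e j)`,
`D j ≤ A b^(e' j)`; the number of `j < J` with `v (j+c) > K v j` is at most
`c (log A + e (J+c) log b)/log K`, etc. So for `K ≥ b^(8 e)` etc. and large `J` there is a common `j`. -/

private theorem scale_tele {f : ℕ → ℝ} (hf : Monotone f) (hf0 : ∀ j, 0 ≤ f j) (j₀ J : ℕ) : ∀ c : ℕ,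
    ∑ i ∈ Finset.range J, (f (j₀ + i + c) - f (j₀ + i)) ≤ c * f (j₀ + J + c)
  | 0 => by simp
  | c + 1 => by
    have ih := scale_tele hf hf0 j₀ J c
    have h1 : ∑ i ∈ Finset.range J, (f (j₀ + i + (c + 1)) - f (j₀ + i)) =
        ∑ i ∈ Finset.range J, (f (j₀ + c + (i + 1)) - f (j₀ + c + i)) +
          ∑ i ∈ Finset.range J, (f (j₀ + i + c) - f (j₀ + i)) := by
      rw [← Finset.sum_add_distrib]
      refine Finset.sum_congr rfl fun i _ => ?_
      rw [show j₀ + i + (c + 1) = j₀ + c + (i + 1) by ring, show j₀ + i + c = j₀ + c + i by ring]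
      ring
    have h2 : ∑ i ∈ Finset.range J, (f (j₀ + c + (i + 1)) - f (j₀ + c + i)) =
        f (j₀ + c + J) - f (j₀ + c) := by
      have := Finset.sum_range_sub (fun i => f (j₀ + c + i)) J
      simpa using this
    rw [h1, h2]
    have h3 : f (j₀ + c + J) ≤ f (j₀ + J + (c + 1)) := hf (by omega)
    have h4 : f (j₀ + J + c) ≤ f (j₀ + J + (c + 1)) := hf (by omega)
    have h5 := hf0 (j₀ + c)
    have h6 : (c : ℝ) * f (j₀ + J + c) ≤ c * f (j₀ + J + (c + 1)) :=
      mul_le_mul_of_nonneg_left h4 (Nat.cast_nonneg c)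
    push_cast
    nlinarith

private theorem scale_log {B x y : ℝ} {n : ℕ} (hB : 0 < B) (hx : 0 < x) (h : ¬ y ≤ B ^ n * x) :
    n * Real.log B + Real.log x ≤ Real.log y := by
  have h1 : B ^ n * x < y := not_le.mp h
  have h2 : 0 < B ^ n * x := by positivity
  have h3 := Real.log_le_log h2 h1.le
  rwa [Real.log_mul (by positivity) hx.ne', Real.log_pow] at h3

theorem good_scale (b e c : ℕ) (hb : 2 ≤ b) (he : 1 ≤ e) :
    ∃ K' : ℝ, 1 ≤ K' ∧ ∀ (v : ℕ → ℝ) (D : ℕ → ℝ) (A : ℝ) (p : ℕ), 1 ≤ p →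
      (∀ j, 1 ≤ v j) → (∀ j, v j ≤ v (j + 1)) → (∀ j, v j ≤ A * (b : ℝ) ^ (e * j)) →
      (∀ j, 0 < D j) → (∀ j, D j ≤ D (j + 1)) → (∀ j, D j ≤ A * (b : ℝ) ^ (p * j)) →
      ∀ j₀ : ℕ, ∃ j, j₀ ≤ j ∧ v (j + 1) ≤ (b : ℝ) ^ (8 * e) * v j ∧ v (j + c) ≤ K' * v j ∧
        D (j + 1) ≤ (b : ℝ) ^ (8 * p) * D j := by
  have hb1 : (1 : ℝ) < b := by
    have : 1 < b := by omega
    exact_mod_cast this
  have hb0 : (0 : ℝ) < b := by linarith
  refine ⟨(b : ℝ) ^ (8 * e * (c + 1)), one_le_pow₀ hb1.le, ?_⟩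
  intro v D A p hp hv1 hvm hvA hD0 hDm hDA j₀
  by_contra hcon
  push Not at hcon
  obtain ⟨L, hL⟩ : ∃ L : ℝ, L = Real.log b := ⟨_, rfl⟩
  have hL0 : 0 < L := by
    rw [hL]
    exact Real.log_pos hb1
  have he0 : (1 : ℝ) ≤ e := by exact_mod_cast he
  have hp0 : (1 : ℝ) ≤ p := by exact_mod_cast hp
  have hc0 : (0 : ℝ) ≤ c := Nat.cast_nonneg c
  have hA : 1 ≤ A := by
    have h1 := hvA 0
    rw [mul_zero, pow_zero, mul_one] at h1
    exact (hv1 0).trans h1
  obtain ⟨T, hT⟩ : ∃ T : ℝ, T = Real.log A := ⟨_, rfl⟩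
  have hT0 : 0 ≤ T := by
    rw [hT]
    exact Real.log_nonneg hA
  obtain ⟨f, hf⟩ : ∃ f : ℕ → ℝ, f = fun j => Real.log (v j) := ⟨_, rfl⟩
  obtain ⟨g, hg⟩ : ∃ g : ℕ → ℝ, g = fun j => Real.log (D j) := ⟨_, rfl⟩
  have hv0 : ∀ j, 0 < v j := fun j => lt_of_lt_of_le one_pos (hv1 j)
  have hfm : Monotone f := by
    refine monotone_nat_of_le_succ fun j => ?_
    rw [hf]
    exact Real.log_le_log (hv0 j) (hvm j)
  have hgm : Monotone g := by
    refine monotone_nat_of_le_succ fun j => ?_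
    rw [hg]
    exact Real.log_le_log (hD0 j) (hDm j)
  have hf0 : ∀ j, 0 ≤ f j := by
    intro j
    rw [hf]
    exact Real.log_nonneg (hv1 j)
  have hfA : ∀ j : ℕ, f j ≤ T + e * j * L := by
    intro j
    rw [hf, hT, hL]
    have h1 := Real.log_le_log (hv0 j) (hvA j)
    rw [Real.log_mul (by linarith) (by positivity), Real.log_pow] at h1
    push_cast at h1
    exact h1
  have hgA : ∀ j : ℕ, g j ≤ T + p * j * L := by
    intro j
    rw [hg, hT, hL]
    have h1 := Real.log_le_log (hD0 j) (hDA j)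
    rw [Real.log_mul (by linarith) (by positivity), Real.log_pow] at h1
    push_cast at h1
    exact h1
  have p1 : 0 < 8 * (e : ℝ) * L := by positivity
  have p2 : 0 < 8 * (e : ℝ) * (c + 1) * L := by positivity
  have p3 : 0 < 8 * (p : ℝ) * L := by positivity
  have key : ∀ j, j₀ ≤ j → 1 ≤ (f (j + 1) - f j) / (8 * e * L) + (f (j + c) - f j) / (8 * e * (c + 1) * L) +
      (g (j + 1) - g j) / (8 * p * L) := by
    intro j hj
    have q1 : 0 ≤ (f (j + 1) - f j) / (8 * e * L) := div_nonneg (sub_nonneg.mpr (hfm (by omega))) p1.le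
    have q2 : 0 ≤ (f (j + c) - f j) / (8 * e * (c + 1) * L) := div_nonneg (sub_nonneg.mpr (hfm (by omega))) p2.le
    have q3 : 0 ≤ (g (j + 1) - g j) / (8 * p * L) := div_nonneg (sub_nonneg.mpr (hgm (by omega))) p3.le
    by_cases c1 : v (j + 1) ≤ (b : ℝ) ^ (8 * e) * v j
    · by_cases c2 : v (j + c) ≤ (b : ℝ) ^ (8 * e * (c + 1)) * v j
      · have c3 := hcon j hj c1 c2
        have h1 := scale_log hb0 (hD0 j) (not_le.mpr c3)
        have h2 : 1 ≤ (g (j + 1) - g j) / (8 * p * L) := by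
          rw [one_le_div p3, hg, hL]
          push_cast at h1
          linarith
        linarith
      · have h1 := scale_log hb0 (hv0 j) c2
        have h2 : 1 ≤ (f (j + c) - f j) / (8 * e * (c + 1) * L) := by
          rw [one_le_div p2, hf, hL]
          push_cast at h1
          linarith
        linarith
    · have h1 := scale_log hb0 (hv0 j) c1
      have h2 : 1 ≤ (f (j + 1) - f j) / (8 * e * L) := by
        rw [one_le_div p1, hf, hL]
        push_cast at h1
        linarith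
      linarith
  have hsum : ∀ J : ℕ, (J : ℝ) ≤ (f (j₀ + J) - f j₀) / (8 * e * L) +
      (∑ i ∈ Finset.range J, (f (j₀ + i + c) - f (j₀ + i))) / (8 * e * (c + 1) * L) +
      (g (j₀ + J) - g j₀) / (8 * p * L) := by
    intro J
    induction J with
    | zero => simp
    | succ J ih =>
      have h1 := key (j₀ + J) (by omega)
      rw [Finset.sum_range_succ, add_div]
      have e1 : (f (j₀ + (J + 1)) - f j₀) / (8 * e * L) =
          (f (j₀ + J) - f j₀) / (8 * e * L) + (f (j₀ + J + 1) - f (j₀ + J)) / (8 * e * L) := by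
        rw [← add_div, show j₀ + (J + 1) = j₀ + J + 1 by ring]
        congr 1
        ring
      have e2 : (g (j₀ + (J + 1)) - g j₀) / (8 * p * L) =
          (g (j₀ + J) - g j₀) / (8 * p * L) + (g (j₀ + J + 1) - g (j₀ + J)) / (8 * p * L) := by
        rw [← add_div, show j₀ + (J + 1) = j₀ + J + 1 by ring]
        congr 1
        ring
      rw [e1, e2]
      push_cast
      linarith
  obtain ⟨C, hC⟩ : ∃ C : ℝ, C = 2 * (T / (8 * e * L)) + |T - g j₀| / (8 * p * L) + 3 * (j₀ / 8) + c / 8 := ⟨_, rfl⟩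
  have hfin : ∀ J : ℕ, (J : ℝ) ≤ C + 3 * (J / 8) := by
    intro J
    have h1 := hsum J
    have h2 : (f (j₀ + J) - f j₀) / (8 * e * L) ≤ T / (8 * e * L) + ((j₀ : ℝ) + J) / 8 := by
      have e1 : T / (8 * e * L) + ((j₀ : ℝ) + J) / 8 = (T + e * (j₀ + J) * L) / (8 * e * L) := by
        field_simp
      rw [e1]
      refine div_le_div_of_nonneg_right ?_ p1.le
      have h3 := hfA (j₀ + J)
      have h4 := hf0 j₀
      push_cast at h3
      linarith
    have h3 : (∑ i ∈ Finset.range J, (f (j₀ + i + c) - f (j₀ + i))) / (8 * e * (c + 1) * L) ≤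
        T / (8 * e * L) + ((j₀ : ℝ) + J + c) / 8 := by
      have e1 : T / (8 * e * L) + ((j₀ : ℝ) + J + c) / 8 = ((c + 1) * (T + e * (j₀ + J + c) * L)) / (8 * e * (c + 1) * L) := by
        field_simp
      rw [e1]
      refine div_le_div_of_nonneg_right ?_ p2.le
      refine (scale_tele hfm hf0 j₀ J c).trans ?_
      have h4 := hfA (j₀ + J + c)
      push_cast at h4
      have h5 := hf0 (j₀ + J + c)
      have h6 : (c : ℝ) * f (j₀ + J + c) ≤ (c + 1) * f (j₀ + J + c) := by nlinarith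
      refine h6.trans ?_
      exact mul_le_mul_of_nonneg_left h4 (by positivity)
    have h4 : (g (j₀ + J) - g j₀) / (8 * p * L) ≤ |T - g j₀| / (8 * p * L) + ((j₀ : ℝ) + J) / 8 := by
      have e1 : |T - g j₀| / (8 * p * L) + ((j₀ : ℝ) + J) / 8 = (|T - g j₀| + p * (j₀ + J) * L) / (8 * p * L) := by
        field_simp
      rw [e1]
      refine div_le_div_of_nonneg_right ?_ p3.le
      have h5 := hgA (j₀ + J)
      have h6 := le_abs_self (T - g j₀)
      push_cast at h5
      linarith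
    rw [hC]
    linarith
  obtain ⟨J, hJ⟩ := exists_nat_gt (8 / 5 * C)
  have := hfin J
  linarith

end Pool.Agent.Lib.MP_322c76_al.BW
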