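import Pool.Agent.Lib.MP_322c76_al.BW.Defs
import Pool.Agent.Lib.MP_322c76_al.BW.Contr
import Pool.Agent.Lib.MP_322c76_al.BW.LinAlg
import Pool.Agent.Lib.MP_322c76_al.BW.Scale

set_option autoImplicit false

namespace Pool.Agent.Lib.MP_322c76_al.BW

variable {G : Type*} [Group G]

/-! ROW FinDim. Let `f_1..f_k` be linearly independent in `HarmLip`, `k` large. Gram matrices
`M_R = (∑_{x ∈ bl R} f_i f_j)`; positive definite for `R ≥ R_0` (the kernels decrease to `0`).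
`|f_i(x)| ≤ L' (r+1)` on `bl r`, so `det M_R ≤ (C' (R+1)^(d+2))^k` (`det_le_trace`).
Apply `good_scale` with `b = 21`, `v j = |bl (21^j)|`, `D j = det M_{m 21^j}` (from some `j` on;
shift the index), `e = d` (or `d+1`), `p = k (d+3)`, `2m ≤ 21^c`; `ρ = 21^j`, `R = mρ`;
`contraction` with `K = 21^(8e)`, functionals `v ↦ ∑_{y ∈ bl 2ρ} f(xy)`, `x ∈ X`,
`|X| ≤ |bl(2mρ)|/|bl ρ| ≤ K'`. Then `D j ≤ (K'/k + C K²/m²)^k D (j+1) ≤ (..)^k 21^(8 k (d+3)) D j`.
First choose `m` with `C K²/m² ≤ 21^(-8(d+3))/4`, then `c`, `K'`, then `k > 4 K' 21^(8(d+3))`.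
So `dim ≤ k`. -/

/-! ### balls -/

private theorem fd_bl_succ (T : Finset G) (r : ℕ) (x : G) : x ∈ bl T (r + 1) ↔ ∃ y ∈ bl T r, ∃ t ∈ T, y * t = x := by
  simp only [bl, Finset.mem_image, Finset.mem_product, Prod.exists]
  constructor
  · rintro ⟨a, b, ⟨ha, hb⟩, rfl⟩
    exact ⟨a, ha, b, hb, rfl⟩
  · rintro ⟨a, ha, b, hb, rfl⟩
    exact ⟨a, b, ⟨ha, hb⟩, rfl⟩

private theorem fd_bl_step {T : Finset G} (h1 : (1 : G) ∈ T) (r : ℕ) : bl T r ⊆ bl T (r + 1) := by
  intro x hx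
  rw [fd_bl_succ]
  exact ⟨x, hx, 1, h1, mul_one x⟩

private theorem fd_bl_mono {T : Finset G} (h1 : (1 : G) ∈ T) {r s : ℕ} (h : r ≤ s) : bl T r ⊆ bl T s :=
  monotone_nat_of_le_succ (fd_bl_step h1) h

private theorem fd_one_mem {T : Finset G} (h1 : (1 : G) ∈ T) (r : ℕ) : (1 : G) ∈ bl T r :=
  fd_bl_mono h1 (Nat.zero_le r) (by simp [bl])

private theorem fd_card_pos {T : Finset G} (h1 : (1 : G) ∈ T) (r : ℕ) : 1 ≤ (bl T r).card :=
  Finset.card_pos.2 ⟨1, fd_one_mem h1 r⟩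

private theorem fd_bl_mul {T : Finset G} {r : ℕ} {x : G} (hx : x ∈ bl T r) :
    ∀ (s : ℕ) (y : G), y ∈ bl T s → x * y ∈ bl T (r + s) := by
  intro s
  induction s with
  | zero =>
    intro y hy
    simp only [bl, Finset.mem_singleton] at hy
    subst hy
    simpa using hx
  | succ s ih =>
    intro y hy
    obtain ⟨z, hz, t, ht, rfl⟩ := (fd_bl_succ T s y).1 hy
    rw [← add_assoc, fd_bl_succ]
    exact ⟨x * z, ih z hz, t, ht, by rw [mul_assoc]⟩

private theorem fd_mem_one {T : Finset G} {t : G} (ht : t ∈ T) : t ∈ bl T 1 := by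
  rw [fd_bl_succ]
  exact ⟨1, by simp [bl], t, ht, one_mul t⟩

private theorem fd_bl_inv {T : Finset G} (hT : GenSet T) :
    ∀ (r : ℕ) (x : G), x ∈ bl T r → x⁻¹ ∈ bl T r := by
  intro r
  induction r with
  | zero =>
    intro x hx
    simp only [bl, Finset.mem_singleton] at hx ⊢
    rw [hx, inv_one]
  | succ r ih =>
    intro x hx
    obtain ⟨y, hy, t, ht, rfl⟩ := (fd_bl_succ T r x).1 hx
    rw [mul_inv_rev, add_comm]
    exact fd_bl_mul (fd_mem_one (hT.inv t ht)) r _ (ih y hy)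

private theorem fd_exhaust {T : Finset G} (hT : GenSet T) (x : G) : ∃ r, x ∈ bl T r := by
  have hx : x ∈ Subgroup.closure (T : Set G) := by rw [hT.gen]; trivial
  induction hx using Subgroup.closure_induction with
  | mem y hy => exact ⟨1, fd_mem_one hy⟩
  | one => exact ⟨0, by simp [bl]⟩
  | mul y z _ _ h1 h2 =>
    obtain ⟨r, hr⟩ := h1
    obtain ⟨s, hs⟩ := h2
    exact ⟨r + s, fd_bl_mul hr s z hs⟩
  | inv y _ h1 =>
    obtain ⟨r, hr⟩ := h1
    exact ⟨r, fd_bl_inv hT r y hr⟩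

/-! ### growth of Lipschitz functions -/

private theorem fd_growth {T : Finset G} {f : G → ℝ} {L : ℝ} (hL : ∀ x, ∀ t ∈ T, |f (x * t) - f x| ≤ L) (hL0 : 0 ≤ L) :
    ∀ (r : ℕ) (x : G), x ∈ bl T r → |f x| ≤ |f 1| + L * r := by
  intro r
  induction r with
  | zero =>
    intro x hx
    simp only [bl, Finset.mem_singleton] at hx
    subst hx
    simp
  | succ r ih =>
    intro x hx
    obtain ⟨y, hy, t, ht, rfl⟩ := (fd_bl_succ T r x).1 hx
    have h1 := ih y hy
    have h2 := hL y t ht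
    have h3 : |f (y * t)| ≤ |f (y * t) - f y| + |f y| := by
      calc |f (y * t)| = |(f (y * t) - f y) + f y| := by rw [sub_add_cancel]
        _ ≤ _ := abs_add_le _ _
    push_cast
    linarith

private theorem fd_growth' {T : Finset G} {k : ℕ} (f : Fin k → G → ℝ)
    (h : ∀ i, ∃ L : ℝ, ∀ x, ∀ t ∈ T, |f i (x * t) - f i x| ≤ L) :
    ∃ L : ℝ, 0 ≤ L ∧ ∀ i (r : ℕ), ∀ x ∈ bl T r, |f i x| ≤ L * (r + 1) := by
  choose L hL using h
  refine ⟨∑ i, (|f i 1| + |L i|), Finset.sum_nonneg fun i _ => by positivity, fun i r x hx => ?_⟩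
  have h1 : |f i x| ≤ |f i 1| + |L i| * r :=
    fd_growth (fun x t ht => (hL i x t ht).trans (le_abs_self _)) (abs_nonneg _) r x hx
  have h2 : |f i 1| + |L i| ≤ ∑ i, (|f i 1| + |L i|) :=
    Finset.single_le_sum (f := fun i => |f i 1| + |L i|) (fun i _ => by positivity) (Finset.mem_univ i)
  have hr : (0 : ℝ) ≤ r := Nat.cast_nonneg r
  calc |f i x| ≤ |f i 1| + |L i| * r := h1
    _ ≤ (|f i 1| + |L i|) * (r + 1) := by
        have := abs_nonneg (f i 1)
        have := abs_nonneg (L i)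
        nlinarith [mul_nonneg (abs_nonneg (f i 1)) hr]
    _ ≤ _ := mul_le_mul_of_nonneg_right h2 (by positivity)

/-! ### Gram matrices -/

private noncomputable def fd_gram {k : ℕ} (T : Finset G) (f : Fin k → G → ℝ) (R : ℕ) : Matrix (Fin k) (Fin k) ℝ :=
  Matrix.of fun i j => ∑ x ∈ bl T R, f i x * f j x

private def fd_comb {k : ℕ} (f : Fin k → G → ℝ) (v : Fin k → ℝ) (x : G) : ℝ := ∑ i, v i * f i x

private theorem fd_quad {k : ℕ} (T : Finset G) (f : Fin k → G → ℝ) (R : ℕ) (v : Fin k → ℝ) :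
    v ⬝ᵥ (fd_gram T f R).mulVec v = ∑ x ∈ bl T R, fd_comb f v x ^ 2 := by
  simp only [dotProduct, Matrix.mulVec, fd_gram, Matrix.of_apply, fd_comb]
  have h1 : ∀ i, v i * ∑ j, (∑ x ∈ bl T R, f i x * f j x) * v j =
      ∑ x ∈ bl T R, ∑ j, v i * f i x * (v j * f j x) := by
    intro i
    rw [Finset.mul_sum, Finset.sum_comm]
    refine Finset.sum_congr rfl fun j _ => ?_
    rw [Finset.sum_mul, Finset.mul_sum]
    exact Finset.sum_congr rfl fun x _ => by ring
  simp_rw [h1]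
  rw [Finset.sum_comm]
  refine Finset.sum_congr rfl fun x _ => ?_
  rw [sq, Finset.sum_mul_sum]

private theorem fd_herm {k : ℕ} (T : Finset G) (f : Fin k → G → ℝ) (R : ℕ) : (fd_gram T f R).IsHermitian := by
  ext i j
  simp only [fd_gram, Matrix.conjTranspose_apply, Matrix.of_apply, star_trivial]
  exact Finset.sum_congr rfl fun x _ => mul_comm _ _

private theorem fd_psd {k : ℕ} (T : Finset G) (f : Fin k → G → ℝ) (R : ℕ) : (fd_gram T f R).PosSemidef := by
  refine Matrix.PosSemidef.of_dotProduct_mulVec_nonneg (fd_herm T f R) fun v => ?_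
  rw [star_trivial, fd_quad]
  exact Finset.sum_nonneg fun x _ => sq_nonneg _

private theorem fd_le {k : ℕ} {T : Finset G} (h1 : (1 : G) ∈ T) (f : Fin k → G → ℝ) {R R' : ℕ} (hR : R ≤ R') (v : Fin k → ℝ) :
    v ⬝ᵥ (fd_gram T f R).mulVec v ≤ v ⬝ᵥ (fd_gram T f R').mulVec v := by
  rw [fd_quad, fd_quad]
  exact Finset.sum_le_sum_of_subset_of_nonneg (fd_bl_mono h1 hR) fun x _ _ => sq_nonneg _

/-- the combinations vanishing on a ball -/
private def fd_ker {k : ℕ} (T : Finset G) (f : Fin k → G → ℝ) (R : ℕ) : Submodule ℝ (Fin k → ℝ) where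
  carrier := {v | ∀ x ∈ bl T R, fd_comb f v x = 0}
  add_mem' := by
    intro v v' h h' x hx
    have h1 := h x hx
    have h2 := h' x hx
    simp only [fd_comb] at h1 h2 ⊢
    simp only [Pi.add_apply, add_mul, Finset.sum_add_distrib, h1, h2, add_zero]
  zero_mem' := by
    intro x _
    simp [fd_comb]
  smul_mem' := by
    intro c v h x hx
    have h1 := h x hx
    simp only [fd_comb] at h1 ⊢
    simp only [Pi.smul_apply, smul_eq_mul, mul_assoc, ← Finset.mul_sum, h1, mul_zero]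

private theorem fd_ker_bot {k : ℕ} {T : Finset G} (hT : GenSet T) (f : Fin k → G → ℝ)
    (hf : ∀ v : Fin k → ℝ, (∀ x, fd_comb f v x = 0) → v = 0) : ∃ R₀, ∀ R, R₀ ≤ R → fd_ker T f R = ⊥ := by
  let F : ℕ →o (Submodule ℝ (Fin k → ℝ))ᵒᵈ :=
    ⟨fun R => OrderDual.toDual (fd_ker T f R), fun R R' h => by
      show fd_ker T f R' ≤ fd_ker T f R
      exact fun v hv x hx => hv x (fd_bl_mono hT.one h hx)⟩
  obtain ⟨R₀, hR₀⟩ := IsArtinian.monotone_stabilizes F
  refine ⟨R₀, fun R hR => ?_⟩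
  have e0 : ∀ R, R₀ ≤ R → fd_ker T f R = fd_ker T f R₀ := fun R hR => (hR₀ R hR).symm
  rw [e0 R hR, Submodule.eq_bot_iff]
  intro v hv
  apply hf
  intro x
  obtain ⟨r, hr⟩ := fd_exhaust hT x
  have h1 : v ∈ fd_ker T f (max R₀ r) := by
    rw [e0 _ (le_max_left _ _)]
    exact hv
  exact h1 x (fd_bl_mono hT.one (le_max_right _ _) hr)

private theorem fd_pd {k : ℕ} {T : Finset G} {f : Fin k → G → ℝ} {R : ℕ} (h : fd_ker T f R = ⊥) : (fd_gram T f R).PosDef := by
  refine Matrix.PosDef.of_dotProduct_mulVec_pos (fd_herm T f R) fun v hv => ?_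
  rw [star_trivial, fd_quad]
  refine lt_of_le_of_ne (Finset.sum_nonneg fun x _ => sq_nonneg _) fun h0 => hv ?_
  have h1 := (Finset.sum_eq_zero_iff_of_nonneg fun x _ => sq_nonneg _).1 h0.symm
  have h2 : v ∈ fd_ker T f R := fun x hx => pow_eq_zero_iff (two_ne_zero) |>.1 (h1 x hx)
  rw [h] at h2
  exact (Submodule.mem_bot ℝ).1 h2

private theorem fd_det_bound {k : ℕ} (hk : 1 ≤ k) {T : Finset G} {f : Fin k → G → ℝ} {L : ℝ} (hL0 : 0 ≤ L)
    (hL : ∀ i (r : ℕ), ∀ x ∈ bl T r, |f i x| ≤ L * (r + 1)) {C d : ℕ}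
    (hgr : ∀ r, (bl T r).card ≤ C * (r + 1) ^ d) (R : ℕ) :
    (fd_gram T f R).det ≤ (C * L ^ 2 * ((R : ℝ) + 1) ^ (d + 2)) ^ k := by
  have hk' : (0 : ℝ) < k := by exact_mod_cast hk
  refine (det_le_trace hk _ (fd_psd T f R)).trans (pow_le_pow_left₀ ?_ ?_ k)
  · exact div_nonneg (fd_psd T f R).trace_nonneg hk'.le
  rw [div_le_iff₀ hk']
  have h1 : ∀ i, (fd_gram T f R) i i ≤ C * L ^ 2 * ((R : ℝ) + 1) ^ (d + 2) := by
    intro i
    simp only [fd_gram, Matrix.of_apply]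
    have h2 : ∀ x ∈ bl T R, f i x * f i x ≤ (L * (R + 1)) ^ 2 := by
      intro x hx
      have := hL i R x hx
      rw [← sq, ← sq_abs]
      exact pow_le_pow_left₀ (abs_nonneg _) this 2
    have h3 := Finset.sum_le_card_nsmul _ _ _ h2
    rw [nsmul_eq_mul] at h3
    refine h3.trans ?_
    have h4 : ((bl T R).card : ℝ) ≤ C * ((R : ℝ) + 1) ^ d := by exact_mod_cast hgr R
    calc ((bl T R).card : ℝ) * (L * (R + 1)) ^ 2 ≤ (C * ((R : ℝ) + 1) ^ d) * (L * (R + 1)) ^ 2 :=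
          mul_le_mul_of_nonneg_right h4 (by positivity)
      _ = C * L ^ 2 * ((R : ℝ) + 1) ^ (d + 2) := by ring
  have h5 : (fd_gram T f R).trace ≤ ∑ _i : Fin k, C * L ^ 2 * ((R : ℝ) + 1) ^ (d + 2) :=
    Finset.sum_le_sum fun i _ => h1 i
  rw [Finset.sum_const, Finset.card_univ, Fintype.card_fin, nsmul_eq_mul, mul_comm] at h5
  exact h5

private theorem fd_det_mono {k : ℕ} (hk : 1 ≤ k) {T : Finset G} (h1 : (1 : G) ∈ T) (f : Fin k → G → ℝ) {R R' : ℕ}
    (hR : R ≤ R') (hpd : (fd_gram T f R').PosDef) : (fd_gram T f R).det ≤ (fd_gram T f R').det := by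
  have h := det_le_of_functionals (K := 0) hk (fd_gram T f R) (fd_gram T f R') (fd_psd T f R) hpd
    (fun v => fd_le h1 f hR v) (fun i => i.elim0) (δ := 1) zero_le_one (fun v _ => by
      rw [one_mul]
      exact fd_le h1 f hR v)
  simpa using h

/-- the functionals -/
private noncomputable def fd_fun {k : ℕ} (f : Fin k → G → ℝ) (B : Finset G) (x : G) : (Fin k → ℝ) →ₗ[ℝ] ℝ where
  toFun v := ∑ y ∈ B, fd_comb f v (x * y)
  map_add' v v' := by
    rw [← Finset.sum_add_distrib]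
    refine Finset.sum_congr rfl fun y _ => ?_
    simp only [fd_comb, Pi.add_apply, add_mul, Finset.sum_add_distrib]
  map_smul' c v := by
    rw [RingHom.id_apply, smul_eq_mul, Finset.mul_sum]
    refine Finset.sum_congr rfl fun y _ => ?_
    simp only [fd_comb, Pi.smul_apply, smul_eq_mul, mul_assoc, Finset.mul_sum]

private theorem fd_harm {k : ℕ} {T : Finset G} {w : G → ℝ} (f : Fin k → G → ℝ) (hf : ∀ i x, lap T w (f i) x = 0)
    (v : Fin k → ℝ) (x : G) : lap T w (fd_comb f v) x = 0 := by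
  have h1 : lap T w (fd_comb f v) x = ∑ i, v i * lap T w (f i) x := by
    simp only [lap, fd_comb, Finset.mul_sum]
    rw [Finset.sum_comm]
    refine Finset.sum_congr rfl fun t _ => ?_
    rw [← Finset.sum_sub_distrib, Finset.mul_sum]
    exact Finset.sum_congr rfl fun i _ => by ring
  rw [h1]
  exact Finset.sum_eq_zero fun i _ => by rw [hf i x, mul_zero]

/-- the comparison of consecutive scales -/
private theorem fd_scale {k : ℕ} (hk : 1 ≤ k) {T : Finset G} (hT : GenSet T) {w : G → ℝ} {f : Fin k → G → ℝ}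
    (hf : ∀ i x, lap T w (f i) x = 0) {C₀ K K' : ℝ} {ρ m c : ℕ} (hρ : 1 ≤ ρ)
    (hδ : 0 ≤ C₀ * K ^ 2 / (m : ℝ) ^ 2) (hmc : m * ρ + ρ ≤ c)
    (hX : ∃ X : Finset G, X.card * (bl T ρ).card ≤ (bl T (m * ρ + ρ)).card ∧
        ∀ f : G → ℝ, (∀ x, lap T w f x = 0) → (∀ x ∈ X, ∑ y ∈ bl T (2 * ρ), f (x * y) = 0) →
          ∑ x ∈ bl T (m * ρ), f x ^ 2 ≤
            C₀ * K ^ 2 / (m : ℝ) ^ 2 * ∑ x ∈ bl T (21 * (m * ρ)), f x ^ 2)
    (hv : ((bl T c).card : ℝ) ≤ K' * (bl T ρ).card) (hpd : (fd_gram T f (21 * (m * ρ))).PosDef) :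
    (fd_gram T f (m * ρ)).det ≤ (K' / k + C₀ * K ^ 2 / (m : ℝ) ^ 2) ^ k * (fd_gram T f (21 * (m * ρ))).det := by
  obtain ⟨X, hXc, hXf⟩ := hX
  have hk' : (0 : ℝ) < k := by exact_mod_cast hk
  have hcard : (X.card : ℝ) ≤ K' := by
    have h1 : (0 : ℝ) < (bl T ρ).card := by exact_mod_cast fd_card_pos hT.one ρ
    have h2 : ((X.card : ℝ)) * (bl T ρ).card ≤ K' * (bl T ρ).card := by
      calc ((X.card : ℝ)) * (bl T ρ).card ≤ (bl T (m * ρ + ρ)).card := by exact_mod_cast hXc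
        _ ≤ (bl T c).card := by exact_mod_cast Finset.card_le_card (fd_bl_mono hT.one hmc)
        _ ≤ _ := hv
    exact le_of_mul_le_mul_right h2 h1
  let e := X.equivFin
  have h := det_le_of_functionals hk (fd_gram T f (m * ρ)) (fd_gram T f (21 * (m * ρ))) (fd_psd T f _) hpd
    (fun v => fd_le hT.one f (by omega) v) (fun i : Fin X.card => fd_fun f (bl T (2 * ρ)) (e.symm i : G))
    (δ := C₀ * K ^ 2 / (m : ℝ) ^ 2) hδ (fun v hv => by
      rw [fd_quad, fd_quad]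
      apply hXf _ (fd_harm f hf v)
      intro x hx
      have := hv (e ⟨x, hx⟩)
      simpa [fd_fun] using this)
  refine h.trans (mul_le_mul_of_nonneg_right (pow_le_pow_left₀ (by positivity) ?_ k) hpd.det_pos.le)
  have : (X.card : ℝ) / k ≤ K' / k := div_le_div_of_nonneg_right hcard hk'.le
  linarith

/-- no large linearly independent families -/
private theorem fd_main {T : Finset G} (hT : GenSet T) {w : G → ℝ} {W : ℝ} (hw : Weight T w W) {C d : ℕ}
    (hgr : ∀ r, (bl T r).card ≤ C * (r + 1) ^ d) : ∃ k : ℕ, ∀ f : Fin k → G → ℝ,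
      (∀ i, ∃ L : ℝ, ∀ x, ∀ t ∈ T, |f i (x * t) - f i x| ≤ L) → (∀ i x, lap T w (f i) x = 0) →
      (∀ v : Fin k → ℝ, (∀ x, fd_comb f v x = 0) → v = 0) → False := by
  obtain ⟨C₀, hC₀, hcon⟩ := contraction hT hw
  -- constants
  set K : ℝ := (21 : ℝ) ^ (8 * (d + 1)) with hK
  have hK0 : 0 < K := by positivity
  set q : ℝ := (21 : ℝ) ^ (8 * (d + 2)) with hq
  have hq0 : 0 < q := by positivity
  obtain ⟨m, hm⟩ := exists_nat_gt (4 * C₀ * K ^ 2 * q)
  have hm0 : (0 : ℝ) < m := lt_trans (by positivity) hm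
  have hm1 : 1 ≤ m := by exact_mod_cast hm0
  have hδ0 : 0 ≤ C₀ * K ^ 2 / (m : ℝ) ^ 2 := by positivity
  have hδ : C₀ * K ^ 2 / (m : ℝ) ^ 2 * q ≤ 1 / 4 := by
    rw [div_mul_eq_mul_div, div_le_iff₀ (by positivity)]
    have hmR : (1 : ℝ) ≤ m := by exact_mod_cast hm1
    nlinarith
  obtain ⟨c, hc⟩ := pow_unbounded_of_one_lt (m + 1) (show 1 < 21 by norm_num)
  obtain ⟨K', hK'1, hscale⟩ := good_scale 21 (d + 1) c (by norm_num) (by omega)
  obtain ⟨k, hkK⟩ := exists_nat_gt (4 * K' * q)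
  have hk0 : (0 : ℝ) < k := lt_trans (by positivity) hkK
  have hk : 1 ≤ k := by exact_mod_cast hk0
  refine ⟨k, fun f hlip hf hind => ?_⟩
  obtain ⟨L, hL0, hL⟩ := fd_growth' f hlip
  obtain ⟨R₀, hR₀⟩ := fd_ker_bot hT f hind
  -- shift
  obtain ⟨s, hs⟩ := pow_unbounded_of_one_lt R₀ (show 1 < 21 by norm_num)
  have hpd : ∀ j, (fd_gram T f (m * 21 ^ (j + s))).PosDef := by
    intro j
    apply fd_pd
    apply hR₀
    calc R₀ ≤ 21 ^ s := hs.le
      _ ≤ 21 ^ (j + s) := Nat.pow_le_pow_right (by norm_num) (by omega)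
      _ ≤ m * 21 ^ (j + s) := Nat.le_mul_of_pos_left _ hm1
  have hρ1 : ∀ j, 1 ≤ 21 ^ (j + s) := fun j => Nat.one_le_pow _ _ (by norm_num)
  have hρs : ∀ j, 21 ^ (j + 1 + s) = 21 * 21 ^ (j + s) := fun j => by rw [show j + 1 + s = (j + s) + 1 by omega, pow_succ]; ring
  have hCpos : (1 : ℝ) ≤ C := by
    have h1 := hgr 0
    have h2 := fd_card_pos hT.one (T := T) 0
    have : 1 ≤ C := by
      rcases Nat.eq_zero_or_pos C with h0 | h0
      · rw [h0] at h1; omega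
      · exact h0
    exact_mod_cast this
  set A₁ : ℝ := C * (2 * (21 : ℝ) ^ s) ^ d with hA₁
  set A₂ : ℝ := (C * L ^ 2 * (2 * m * (21 : ℝ) ^ s) ^ (d + 2)) ^ k with hA₂
  have hA₁0 : 0 ≤ A₁ := by positivity
  have hA₂0 : 0 ≤ A₂ := by positivity
  obtain ⟨j, _, hj1, hj2, hj3⟩ := hscale (fun j => ((bl T (21 ^ (j + s))).card : ℝ))
    (fun j => (fd_gram T f (m * 21 ^ (j + s))).det) (max A₁ A₂) (k * (d + 2))
    (Nat.mul_pos hk (by omega))
    (fun j => by exact_mod_cast fd_card_pos hT.one _)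
    (fun j => by
      have : 21 ^ (j + s) ≤ 21 ^ (j + 1 + s) := Nat.pow_le_pow_right (by norm_num) (by omega)
      exact_mod_cast Finset.card_le_card (fd_bl_mono hT.one this))
    (fun j => by
      have h1 : ((bl T (21 ^ (j + s))).card : ℝ) ≤ C * ((21 : ℝ) ^ (j + s) + 1) ^ d := by
        exact_mod_cast hgr (21 ^ (j + s))
      have h2 : (1 : ℝ) ≤ (21 : ℝ) ^ (j + s) := one_le_pow₀ (by norm_num)
      calc ((bl T (21 ^ (j + s))).card : ℝ) ≤ C * ((21 : ℝ) ^ (j + s) + 1) ^ d := h1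
        _ ≤ C * (2 * (21 : ℝ) ^ (j + s)) ^ d := by
            apply mul_le_mul_of_nonneg_left _ (by positivity)
            exact pow_le_pow_left₀ (by positivity) (by linarith) d
        _ = A₁ * (21 : ℝ) ^ (d * j) := by
            rw [hA₁, pow_add, show (21 : ℝ) ^ (d * j) = ((21 : ℝ) ^ j) ^ d by rw [← pow_mul, mul_comm]]
            ring
        _ ≤ max A₁ A₂ * ((21 : ℕ) : ℝ) ^ ((d + 1) * j) := by
            push_cast
            apply mul_le_mul (le_max_left _ _) _ (by positivity) (le_trans hA₁0 (le_max_left _ _))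
            exact pow_le_pow_right₀ (by norm_num) (Nat.mul_le_mul_right j (by omega)))
    (fun j => (hpd j).det_pos)
    (fun j => by
      apply fd_det_mono hk hT.one f _ (hpd (j + 1))
      exact Nat.mul_le_mul_left m (Nat.pow_le_pow_right (by norm_num) (by omega)))
    (fun j => by
      have h2 : (1 : ℝ) ≤ (21 : ℝ) ^ (j + s) := one_le_pow₀ (by norm_num)
      have hmR : (1 : ℝ) ≤ m := by exact_mod_cast hm1
      calc (fd_gram T f (m * 21 ^ (j + s))).det ≤ (C * L ^ 2 * (((m * 21 ^ (j + s) : ℕ) : ℝ) + 1) ^ (d + 2)) ^ k :=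
            fd_det_bound hk hL0 hL hgr _
        _ ≤ (C * L ^ 2 * (2 * m * (21 : ℝ) ^ (j + s)) ^ (d + 2)) ^ k := by
            push_cast
            apply pow_le_pow_left₀ (by positivity)
            apply mul_le_mul_of_nonneg_left _ (by positivity)
            apply pow_le_pow_left₀ (by positivity)
            nlinarith
        _ = A₂ * (21 : ℝ) ^ (k * (d + 2) * j) := by
            rw [hA₂, pow_add, show (21 : ℝ) ^ (k * (d + 2) * j) = (((21 : ℝ) ^ j) ^ (d + 2)) ^ k by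
              rw [← pow_mul, ← pow_mul]; congr 1; ring, ← mul_pow]
            congr 1
            ring
        _ ≤ max A₁ A₂ * ((21 : ℕ) : ℝ) ^ (k * (d + 2) * j) := by
            push_cast
            exact mul_le_mul_of_nonneg_right (le_max_right _ _) (by positivity)) 0
  -- the contraction at the scale `j`
  set ρ : ℕ := 21 ^ (j + s) with hρ
  have e1 : 21 ^ (j + 1 + s) = 21 * ρ := hρs j
  have e2 : m * (21 * ρ) = 21 * (m * ρ) := by ring
  have hX := hcon ρ m K (hρ1 j) hm1 (by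
    calc ((bl T (7 * ρ)).card : ℝ) ≤ ((bl T (21 ^ (j + 1 + s))).card : ℝ) := by
          rw [e1]
          exact_mod_cast Finset.card_le_card (fd_bl_mono hT.one (by omega))
      _ ≤ _ := by
          rw [hK]
          exact_mod_cast hj1)
  have hmain := fd_scale hk hT hf (hρ1 j) hδ0 (c := 21 ^ (j + c + s)) (K' := K') (by
      calc m * ρ + ρ = (m + 1) * ρ := by ring
        _ ≤ 21 ^ c * ρ := Nat.mul_le_mul_right _ hc.le
        _ = 21 ^ (j + c + s) := by rw [hρ, ← pow_add]; congr 1; ring) hX hj2 (by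
      have := hpd (j + 1)
      rwa [e1, e2] at this)
  have hj3' : (fd_gram T f (21 * (m * ρ))).det ≤ q ^ k * (fd_gram T f (m * ρ)).det := by
    have h1 : (fd_gram T f (m * 21 ^ (j + 1 + s))).det ≤ ((21 : ℕ) : ℝ) ^ (8 * (k * (d + 2))) * (fd_gram T f (m * 21 ^ (j + s))).det := hj3
    rw [e1, e2] at h1
    have e3 : ((21 : ℕ) : ℝ) ^ (8 * (k * (d + 2))) = q ^ k := by
      rw [hq, ← pow_mul]
      push_cast
      congr 1
      ring
    rw [e3] at h1
    exact h1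
  have hdpos : 0 < (fd_gram T f (m * ρ)).det := (hpd j).det_pos
  have hS0 : 0 ≤ K' / k + C₀ * K ^ 2 / (m : ℝ) ^ 2 := by positivity
  have h1 : (fd_gram T f (m * ρ)).det ≤ ((K' / k + C₀ * K ^ 2 / (m : ℝ) ^ 2) * q) ^ k * (fd_gram T f (m * ρ)).det := by
    calc (fd_gram T f (m * ρ)).det ≤ _ := hmain
      _ ≤ (K' / k + C₀ * K ^ 2 / (m : ℝ) ^ 2) ^ k * (q ^ k * (fd_gram T f (m * ρ)).det) :=
          mul_le_mul_of_nonneg_left hj3' (by positivity)
      _ = _ := by rw [mul_pow]; ring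
  have h2 : 1 ≤ ((K' / k + C₀ * K ^ 2 / (m : ℝ) ^ 2) * q) ^ k := by
    by_contra hlt
    push Not at hlt
    have := mul_lt_mul_of_pos_right hlt hdpos
    linarith
  have h3 : (K' / k + C₀ * K ^ 2 / (m : ℝ) ^ 2) * q ≤ 1 / 2 := by
    have h4 : K' / k * q ≤ 1 / 4 := by
      rw [div_mul_eq_mul_div, div_le_iff₀ hk0]
      linarith
    rw [add_mul]
    linarith
  have h4 : ((K' / k + C₀ * K ^ 2 / (m : ℝ) ^ 2) * q) ^ k ≤ (1 / 2 : ℝ) ^ k := pow_le_pow_left₀ (by positivity) h3 k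
  have h5 : (1 / 2 : ℝ) ^ k ≤ (1 / 2 : ℝ) ^ 1 := pow_le_pow_of_le_one (by norm_num) (by norm_num) hk
  norm_num at h5
  linarith

theorem finDim {T : Finset G} (hT : GenSet T) {w : G → ℝ} {W : ℝ} (hw : Weight T w W) {C d : ℕ}
    (hgr : ∀ r, (bl T r).card ≤ C * (r + 1) ^ d) : FiniteDimensional ℝ (HarmLip T w) := by
  obtain ⟨k, hk⟩ := fd_main hT hw hgr
  by_contra hfin
  have h1 : ¬ Module.rank ℝ (HarmLip T w) < Cardinal.aleph0 := fun h => hfin (Module.rank_lt_aleph0_iff.1 h)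
  have h2 : (k : Cardinal) ≤ Module.rank ℝ (HarmLip T w) :=
    (Cardinal.natCast_lt_aleph0 (n := k)).le.trans (not_lt.1 h1)
  obtain ⟨s, hs, hlin⟩ := le_rank_iff_exists_linearIndependent_finset.1 h2
  let e : Fin k ≃ s := (Fin.castOrderIso hs.symm).toEquiv.trans s.equivFin.symm
  have hlin' : LinearIndependent ℝ (fun i : Fin k => ((e i : s) : HarmLip T w)) :=
    hlin.comp e e.injective
  refine hk (fun i => ((e i : s) : HarmLip T w).1) (fun i => ((e i : s) : HarmLip T w).2.1)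
    (fun i => ((e i : s) : HarmLip T w).2.2) fun v hv => ?_
  have h3 := Fintype.linearIndependent_iff.1 hlin' v (by
    apply Subtype.ext
    funext x
    have := hv x
    simp only [fd_comb] at this
    simpa [Finset.sum_apply] using this)
  funext i
  exact h3 i

end Pool.Agent.Lib.MP_322c76_al.BW
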