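import Pool.Agent.Lib.MP_322c76_al.BW.Defs
import Pool.Agent.Lib.MP_322c76_al.BW.Ball

set_option autoImplicit false

namespace Pool.Agent.Lib.MP_322c76_al.BW

variable {G : Type*} [Group G]

/-! ROW Gen2: the set `bl T 2` is again a generating set of the same kind, with the same growth. -/

theorem genSet_bl_two {T : Finset G} (hT : GenSet T) : GenSet (bl T 2) := by
  refine ⟨one_mem_bl hT 2, fun t ht => bl_inv hT ht, ?_⟩
  have h1 : (T : Set G) ⊆ (bl T 2 : Finset G) := by
    have h2 := bl_mono hT (show 1 ≤ 2 by norm_num)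
    rw [bl_one] at h2
    exact_mod_cast h2
  exact top_le_iff.1 (hT.gen ▸ Subgroup.closure_mono h1)

theorem bl_bl_two {T : Finset G} (hT : GenSet T) (r : ℕ) : bl (bl T 2) r = bl T (2 * r) := by
  have _ := hT
  induction r with
  | zero => rfl
  | succ r ih =>
    ext x
    rw [mem_bl_succ]
    constructor
    · rintro ⟨y, hy, t, ht, rfl⟩
      rw [ih] at hy
      exact bl_mul hy ht
    · intro hx
      have hx' : x ∈ bl T (2 * r + 2) := hx
      obtain ⟨y, hy, z, hz, rfl⟩ := bl_split hx'
      exact ⟨y, ih ▸ hy, z, hz, rfl⟩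

end Pool.Agent.Lib.MP_322c76_al.BW
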