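import Pool.Agent.Lib.MP_322c76_al.BW.Defs
import Pool.Agent.Lib.MP_322c76_al.BW.Ball

set_option autoImplicit false

namespace Pool.Agent.Lib.MP_322c76_al.BW

variable {G : Type*} [Group G]

/-! ROW Ret (return probabilities; finitely supported functions).

`P u (x) = (1/|T|) ∑_{s ∈ T} u (x s)`, `p j = P^j δ`, `a j = ∑_x (p j x)^2`.
`b j = a j - a (j+1) ≥ 0`, `b j - b (j+1) = |(1 - P²) p_j|² ≥ 0`.  `a j → 0`: for `g ∈ G`
`|p_j - p_j(· g)|² ≤ c_g b j`, and `b j ≤ 1/(j+1)`; if `a j ≥ δ > 0` for all `j` then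
`M > 2/δ` different `g` would give `∑_g ⟨p_j, p_j(· g)⟩ > 1`.
If `b (j+1) < (1-ε) b j` whenever `b j > 0`, then `b j ≤ q^j`, `a j ≤ q^j/(1-q)`,
but Cauchy-Schwarz: `a j ≥ 1/|bl T j| ≥ 1/(C (j+1)^d)`. Contradiction for large `j`.
The statement: `u = p_j / sqrt (b j)`. -/

section ret

open Function

private theorem ret_fs_tr {u : G → ℝ} (hu : (support u).Finite) (g : G) :
    (support fun x => u (x * g)).Finite :=
  hu.preimage (mul_left_injective g).injOn

private theorem ret_fs_mul {u : G → ℝ} (hu : (support u).Finite) (v : G → ℝ) :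
    (support fun x => u x * v x).Finite := by
  refine hu.subset fun x hx => ?_
  rw [mem_support] at hx ⊢
  intro h
  exact hx (by rw [h, zero_mul])

private theorem ret_fs_mul' {v : G → ℝ} (hv : (support v).Finite) (u : G → ℝ) :
    (support fun x => u x * v x).Finite := by
  refine hv.subset fun x hx => ?_
  rw [mem_support] at hx ⊢
  intro h
  exact hx (by rw [h, mul_zero])

private theorem ret_fs_add {u v : G → ℝ} (hu : (support u).Finite) (hv : (support v).Finite) :
    (support fun x => u x + v x).Finite := by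
  refine (hu.union hv).subset fun x hx => ?_
  by_contra h
  rw [Set.mem_union, mem_support, mem_support] at h
  push Not at h
  exact hx (show u x + v x = 0 by rw [h.1, h.2, add_zero])

private theorem ret_fs_sub {u v : G → ℝ} (hu : (support u).Finite) (hv : (support v).Finite) :
    (support fun x => u x - v x).Finite := by
  refine (hu.union hv).subset fun x hx => ?_
  by_contra h
  rw [Set.mem_union, mem_support, mem_support] at h
  push Not at h
  exact hx (show u x - v x = 0 by rw [h.1, h.2, sub_zero])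

private theorem ret_fs_sum (T : Finset G) (f : G → G → ℝ) (h : ∀ s ∈ T, (support (f s)).Finite) :
    (support fun x => ∑ s ∈ T, f s x).Finite := by
  refine (T.finite_toSet.biUnion fun s hs => h s (Finset.mem_coe.1 hs)).subset fun x hx => ?_
  rw [mem_support] at hx
  obtain ⟨s, hs, hne⟩ := Finset.exists_ne_zero_of_sum_ne_zero hx
  exact Set.mem_biUnion (Finset.mem_coe.2 hs) hne

private theorem ret_fs_sq {u : G → ℝ} (hu : (support u).Finite) : (support fun x => u x ^ 2).Finite := by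
  refine hu.subset fun x hx => ?_
  rw [mem_support] at hx ⊢
  intro h
  exact hx (by rw [h]; norm_num)

private theorem ret_tr (f : G → ℝ) (g : G) : ∑ᶠ x, f (x * g) = ∑ᶠ x, f x :=
  finsum_comp_equiv (Equiv.mulRight g)

/-- the square norm -/
private noncomputable def ret_N (u : G → ℝ) : ℝ := ∑ᶠ x, u x ^ 2

/-- the inner product -/
private noncomputable def ret_in (u v : G → ℝ) : ℝ := ∑ᶠ x, u x * v x

/-- the average over right translations -/
private noncomputable def ret_P (T : Finset G) (u : G → ℝ) : G → ℝ := fun x => (∑ s ∈ T, u (x * s)) / T.card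

private theorem ret_in_self (u : G → ℝ) : ret_in u u = ret_N u := by
  unfold ret_in ret_N
  exact finsum_congr fun x => (sq (u x)).symm

private theorem ret_in_comm (u v : G → ℝ) : ret_in u v = ret_in v u := by
  unfold ret_in
  exact finsum_congr fun x => mul_comm _ _

private theorem ret_N_nonneg (u : G → ℝ) : 0 ≤ ret_N u := finsum_nonneg fun x => sq_nonneg _

private theorem ret_N_sub {u v : G → ℝ} (hu : (support u).Finite) (hv : (support v).Finite) :
    ret_N (fun x => u x - v x) = ret_N u - 2 * ret_in u v + ret_N v := by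
  unfold ret_N ret_in
  rw [mul_finsum, ← finsum_sub_distrib (ret_fs_sq hu) (ret_fs_mul' (ret_fs_mul hu v) fun _ => 2),
    ← finsum_add_distrib (ret_fs_sub (ret_fs_sq hu) (ret_fs_mul' (ret_fs_mul hu v) fun _ => 2)) (ret_fs_sq hv)]
  exact finsum_congr fun x => by ring

private theorem ret_N_tr (u : G → ℝ) (g : G) : ret_N (fun x => u (x * g)) = ret_N u :=
  ret_tr (fun x => u x ^ 2) g

private theorem ret_inv {T : Finset G} (hT : GenSet T) (f : G → ℝ) : ∑ s ∈ T, f s⁻¹ = ∑ s ∈ T, f s :=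
  Finset.sum_nbij' (fun s => s⁻¹) (fun s => s⁻¹) (fun s hs => hT.inv s hs) (fun s hs => hT.inv s hs)
    (fun s _ => inv_inv s) (fun s _ => inv_inv s) (fun s _ => rfl)

private theorem ret_fs_P {T : Finset G} {u : G → ℝ} (hu : (support u).Finite) : (support (ret_P T u)).Finite := by
  have h := ret_fs_sum T (fun s x => u (x * s)) fun s _ => ret_fs_tr hu s
  refine h.subset fun x hx => ?_
  rw [mem_support] at hx ⊢
  intro h0
  apply hx
  unfold ret_P
  rw [h0, zero_div]

private theorem ret_card {T : Finset G} (hT : GenSet T) : (0 : ℝ) < T.card := by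
  exact_mod_cast Finset.card_pos.2 ⟨1, hT.one⟩

/-- `P` is self-adjoint -/
private theorem ret_adj {T : Finset G} (hT : GenSet T) {u v : G → ℝ} (hu : (support u).Finite) :
    ret_in (ret_P T u) v = ret_in u (ret_P T v) := by
  have h1 : ret_in (ret_P T u) v = (∑ s ∈ T, ∑ᶠ x, u (x * s) * v x) / T.card := by
    rw [← finsum_sum_comm T (fun x s => u (x * s) * v x) fun s _ => ret_fs_mul (ret_fs_tr hu s) v,
      div_eq_mul_inv, finsum_mul]
    unfold ret_in ret_P
    refine finsum_congr fun x => ?_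
    rw [← Finset.sum_mul]
    ring
  have h2 : ret_in u (ret_P T v) = (∑ s ∈ T, ∑ᶠ x, u x * v (x * s)) / T.card := by
    rw [← finsum_sum_comm T (fun x s => u x * v (x * s)) fun s _ => ret_fs_mul hu _,
      div_eq_mul_inv, finsum_mul]
    unfold ret_in ret_P
    refine finsum_congr fun x => ?_
    rw [← Finset.mul_sum]
    ring
  rw [h1, h2, ← ret_inv hT fun s => ∑ᶠ x, u x * v (x * s)]
  congr 1
  refine Finset.sum_congr rfl fun s _ => ?_
  rw [← ret_tr (fun x => u x * v (x * s⁻¹)) s]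
  refine finsum_congr fun x => ?_
  rw [mul_inv_cancel_right]

private theorem ret_PP {T : Finset G} (u : G → ℝ) (x : G) :
    ret_P T (ret_P T u) x = (∑ s ∈ T, ∑ s' ∈ T, u (x * (s * s'))) / (T.card : ℝ) ^ 2 := by
  unfold ret_P
  rw [← Finset.sum_div, div_div, sq]
  congr 1
  refine Finset.sum_congr rfl fun s _ => Finset.sum_congr rfl fun s' _ => ?_
  rw [mul_assoc]

/-- the energy -/
private theorem ret_energy {T : Finset G} (hT : GenSet T) {u : G → ℝ} (hu : (support u).Finite) :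
    ∑ s ∈ T, ∑ s' ∈ T, ∑ᶠ x, (u (x * (s * s')) - u x) ^ 2 =
      2 * (T.card : ℝ) ^ 2 * (ret_N u - ret_N (ret_P T u)) := by
  have hc := ret_card hT
  have h1 : ∀ g : G, ∑ᶠ x, (u (x * g) - u x) ^ 2 = 2 * ret_N u - 2 * ret_in (fun x => u (x * g)) u := by
    intro g
    have := ret_N_sub (ret_fs_tr hu g) hu
    rw [ret_N_tr] at this
    have h2 : ∑ᶠ x, (u (x * g) - u x) ^ 2 = ret_N (fun x => u (x * g) - u x) := rfl
    rw [h2, this]
    ring
  have h3 : ret_N (ret_P T u) = (∑ s ∈ T, ∑ s' ∈ T, ret_in (fun x => u (x * (s * s'))) u) / (T.card : ℝ) ^ 2 := by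
    rw [← ret_in_self, ret_adj hT hu, ret_in_comm]
    unfold ret_in
    have h4 : ∀ s ∈ T, ∑ s' ∈ T, ∑ᶠ x, u (x * (s * s')) * u x = ∑ᶠ x, ∑ s' ∈ T, u (x * (s * s')) * u x := by
      intro s _
      rw [finsum_sum_comm T (fun x s' => u (x * (s * s')) * u x) fun s' _ => ret_fs_mul (ret_fs_tr hu _) u]
    rw [Finset.sum_congr rfl h4, ← finsum_sum_comm T (fun x s => ∑ s' ∈ T, u (x * (s * s')) * u x) fun s _ =>
      ret_fs_sum T (fun s' x => u (x * (s * s')) * u x) fun s' _ => ret_fs_mul (ret_fs_tr hu _) u,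
      div_eq_mul_inv, finsum_mul]
    refine finsum_congr fun x => ?_
    rw [ret_PP, div_eq_mul_inv, mul_right_comm, Finset.sum_mul]
    congr 1
    exact Finset.sum_congr rfl fun s _ => by rw [Finset.sum_mul]
  simp only [h1, Finset.sum_sub_distrib, Finset.sum_const, nsmul_eq_mul, ← Finset.mul_sum]
  rw [h3]
  field_simp

/-- the defect -/
private theorem ret_defect {T : Finset G} (hT : GenSet T) {u : G → ℝ} (hu : (support u).Finite) :
    ∑ᶠ x, (∑ s ∈ T, ∑ s' ∈ T, (u (x * (s * s')) - u x)) ^ 2 =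
      (T.card : ℝ) ^ 4 * (ret_N (ret_P T (ret_P T u)) - 2 * ret_N (ret_P T u) + ret_N u) := by
  have hc := ret_card hT
  have h1 : ∀ x, ∑ s ∈ T, ∑ s' ∈ T, (u (x * (s * s')) - u x) =
      (T.card : ℝ) ^ 2 * (ret_P T (ret_P T u) x - u x) := by
    intro x
    rw [ret_PP]
    simp only [Finset.sum_sub_distrib, Finset.sum_const, nsmul_eq_mul]
    field_simp
  have h2 := ret_N_sub (ret_fs_P (T := T) (ret_fs_P (T := T) hu)) hu
  rw [ret_adj hT (ret_fs_P hu), ret_in_self] at h2
  rw [← h2]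
  unfold ret_N
  rw [mul_finsum]
  refine finsum_congr fun x => ?_
  rw [h1]
  ring

/-- the distribution of the random walk -/
private noncomputable def ret_p (T : Finset G) : ℕ → G → ℝ
  | 0 => fun x => open Classical in if x = 1 then 1 else 0
  | j + 1 => ret_P T (ret_p T j)

private theorem ret_p_nonneg (T : Finset G) (j : ℕ) (x : G) : 0 ≤ ret_p T j x := by
  induction j generalizing x with
  | zero =>
    simp only [ret_p]
    split_ifs <;> norm_num
  | succ j ih =>
    simp only [ret_p, ret_P]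
    exact div_nonneg (Finset.sum_nonneg fun s _ => ih _) (Nat.cast_nonneg _)

private theorem ret_p_supp {T : Finset G} (hT : GenSet T) (j : ℕ) : support (ret_p T j) ⊆ bl T j := by
  induction j with
  | zero =>
    intro x hx
    rw [mem_support] at hx
    simp only [ret_p] at hx
    have : x = 1 := by
      by_contra h
      rw [if_neg h] at hx
      exact hx rfl
    rw [this]
    exact Finset.mem_coe.2 (one_mem_bl hT 0)
  | succ j ih =>
    intro x hx
    rw [mem_support] at hx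
    simp only [ret_p, ret_P] at hx
    have h1 : ∑ s ∈ T, ret_p T j (x * s) ≠ 0 := fun h => hx (by rw [h, zero_div])
    obtain ⟨s, hs, hne⟩ := Finset.exists_ne_zero_of_sum_ne_zero h1
    have h2 : x * s ∈ bl T j := Finset.mem_coe.1 (ih hne)
    rw [Finset.mem_coe, mem_bl_succ]
    exact ⟨x * s, h2, s⁻¹, hT.inv s hs, by rw [mul_inv_cancel_right]⟩

private theorem ret_p_fs {T : Finset G} (hT : GenSet T) (j : ℕ) : (support (ret_p T j)).Finite :=
  (bl T j).finite_toSet.subset (ret_p_supp hT j)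

private theorem ret_p_sum {T : Finset G} (hT : GenSet T) (j : ℕ) : ∑ᶠ x, ret_p T j x = 1 := by
  induction j with
  | zero =>
    classical
    rw [finsum_eq_sum_of_support_subset (s := {1}) _ (by
      intro x hx
      rw [mem_support] at hx
      simp only [ret_p] at hx
      rw [Finset.coe_singleton, Set.mem_singleton_iff]
      by_contra h
      rw [if_neg h] at hx
      exact hx rfl), Finset.sum_singleton]
    simp [ret_p]
  | succ j ih =>
    have hc := ret_card hT
    have h1 : ∑ᶠ x, ret_p T (j + 1) x = (∑ s ∈ T, ∑ᶠ x, ret_p T j (x * s)) / T.card := by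
      rw [← finsum_sum_comm T (fun x s => ret_p T j (x * s)) fun s _ => ret_fs_tr (ret_p_fs hT j) s,
        div_eq_mul_inv, finsum_mul]
      exact finsum_congr fun x => div_eq_mul_inv _ _
    rw [h1]
    simp only [ret_tr, ih, Finset.sum_const, nsmul_eq_mul, mul_one]
    exact div_self hc.ne'

private theorem ret_cs {T : Finset G} (hT : GenSet T) (j : ℕ) :
    1 ≤ ((bl T j).card : ℝ) * ret_N (ret_p T j) := by
  have h1 := ret_p_sum hT j
  rw [finsum_eq_sum_of_support_subset _ (ret_p_supp hT j)] at h1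
  have h2 : ret_N (ret_p T j) = ∑ x ∈ bl T j, ret_p T j x ^ 2 := by
    unfold ret_N
    refine finsum_eq_sum_of_support_subset _ fun x hx => ret_p_supp hT j ?_
    rw [mem_support] at hx ⊢
    intro h
    exact hx (by simp [h])
  rw [h2]
  have h3 := sq_sum_le_card_mul_sum_sq (s := bl T j) (f := ret_p T j)
  rw [h1] at h3
  linarith

private theorem ret_mono {f g : G → ℝ} (hf : (support f).Finite) (hg : (support g).Finite)
    (h : ∀ x, f x ≤ g x) : ∑ᶠ x, f x ≤ ∑ᶠ x, g x :=
  finsum_le_finsum' hf hg h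

private theorem ret_b_nonneg {T : Finset G} (hT : GenSet T) {u : G → ℝ} (hu : (support u).Finite) :
    ret_N (ret_P T u) ≤ ret_N u := by
  have hc := ret_card hT
  have h1 := ret_energy hT hu
  have h2 : 0 ≤ ∑ s ∈ T, ∑ s' ∈ T, ∑ᶠ x, (u (x * (s * s')) - u x) ^ 2 :=
    Finset.sum_nonneg fun s _ => Finset.sum_nonneg fun s' _ => finsum_nonneg fun x => sq_nonneg _
  rw [h1] at h2
  have h3 : 0 < 2 * (T.card : ℝ) ^ 2 := by positivity
  have h4 := nonneg_of_mul_nonneg_right h2 h3
  linarith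

private theorem ret_bb {T : Finset G} (hT : GenSet T) {u : G → ℝ} (hu : (support u).Finite) :
    ret_N (ret_P T u) - ret_N (ret_P T (ret_P T u)) ≤ ret_N u - ret_N (ret_P T u) := by
  have hc := ret_card hT
  have h1 := ret_defect hT hu
  have h2 : 0 ≤ ∑ᶠ x, (∑ s ∈ T, ∑ s' ∈ T, (u (x * (s * s')) - u x)) ^ 2 :=
    finsum_nonneg fun x => sq_nonneg _
  rw [h1] at h2
  have h3 : 0 < (T.card : ℝ) ^ 4 := by positivity
  have h4 := nonneg_of_mul_nonneg_right h2 h3
  linarith

/-- the square of the distance to a translate -/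
private noncomputable def ret_e (u : G → ℝ) (g : G) : ℝ := ∑ᶠ x, (u (x * g) - u x) ^ 2

private theorem ret_e_T {T : Finset G} (hT : GenSet T) {u : G → ℝ} (hu : (support u).Finite) {t : G}
    (ht : t ∈ T) : ret_e u t ≤ 2 * (T.card : ℝ) ^ 2 * (ret_N u - ret_N (ret_P T u)) := by
  rw [← ret_energy hT hu]
  have h1 : ret_e u t ≤ ∑ s' ∈ T, ∑ᶠ x, (u (x * (t * s')) - u x) ^ 2 := by
    have h2 := Finset.single_le_sum (s := T) (f := fun s' => ∑ᶠ x, (u (x * (t * s')) - u x) ^ 2)
      (fun s' _ => finsum_nonneg fun x => sq_nonneg _) hT.one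
    simp only [mul_one] at h2
    exact h2
  exact h1.trans (Finset.single_le_sum (s := T)
    (f := fun s => ∑ s' ∈ T, ∑ᶠ x, (u (x * (s * s')) - u x) ^ 2)
    (fun s _ => Finset.sum_nonneg fun s' _ => finsum_nonneg fun x => sq_nonneg _) ht)

private theorem ret_e_mul {u : G → ℝ} (hu : (support u).Finite) (y t : G) :
    ret_e u (y * t) ≤ 2 * ret_e u t + 2 * ret_e u y := by
  unfold ret_e
  rw [← ret_tr (fun x => (u (x * t) - u x) ^ 2) y, mul_finsum, mul_finsum]
  have f1 : (support fun x => 2 * (u (x * y * t) - u (x * y)) ^ 2).Finite :=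
    ret_fs_mul' (ret_fs_sq (ret_fs_sub (ret_fs_tr (ret_fs_tr hu t) y) (ret_fs_tr hu y))) fun _ => 2
  have f2 : (support fun x => 2 * (u (x * y) - u x) ^ 2).Finite :=
    ret_fs_mul' (ret_fs_sq (ret_fs_sub (ret_fs_tr hu y) hu)) fun _ => 2
  rw [← finsum_add_distrib f1 f2]
  refine ret_mono (ret_fs_sq (ret_fs_sub (ret_fs_tr hu (y * t)) hu)) (ret_fs_add f1 f2) fun x => ?_
  rw [← mul_assoc]
  nlinarith [sq_nonneg ((u (x * y * t) - u (x * y)) - (u (x * y) - u x))]

private theorem ret_e_bl {T : Finset G} (hT : GenSet T) (g : G) :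
    ∃ K : ℝ, 0 ≤ K ∧ ∀ u : G → ℝ, (support u).Finite → ret_e u g ≤ K * (ret_N u - ret_N (ret_P T u)) := by
  obtain ⟨r, hr⟩ := exists_bl hT g
  induction r generalizing g with
  | zero =>
    have hg : g = 1 := by
      unfold bl at hr
      exact Finset.mem_singleton.1 hr
    refine ⟨0, le_rfl, fun u hu => ?_⟩
    rw [hg]
    unfold ret_e
    simp
  | succ r ih =>
    obtain ⟨y, hy, t, ht, rfl⟩ := mem_bl_succ.1 hr
    obtain ⟨K, hK0, hK⟩ := ih y hy
    refine ⟨2 * (2 * (T.card : ℝ) ^ 2) + 2 * K, by positivity, fun u hu => ?_⟩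
    have h1 := ret_e_mul hu y t
    have h2 := ret_e_T hT hu ht
    have h3 := hK u hu
    linarith

private theorem ret_in_tr {u : G → ℝ} (hu : (support u).Finite) (g : G) :
    ret_in (fun x => u (x * g)) u = ret_N u - ret_e u g / 2 := by
  have := ret_N_sub (ret_fs_tr hu g) hu
  rw [ret_N_tr] at this
  have h2 : ret_e u g = ret_N (fun x => u (x * g) - u x) := rfl
  rw [h2, this]
  ring

private theorem ret_sum_le {T : Finset G} (hT : GenSet T) (j : ℕ) (X : Finset G) :
    ∑ g ∈ X, ret_in (fun x => ret_p T j (x * g)) (ret_p T j) ≤ 1 := by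
  classical
  have hf := ret_p_fs hT j
  unfold ret_in
  rw [← finsum_sum_comm X (fun x g => ret_p T j (x * g) * ret_p T j x) fun g _ =>
    ret_fs_mul (ret_fs_tr hf g) _, ← ret_p_sum hT j]
  refine ret_mono (ret_fs_sum X (fun g x => ret_p T j (x * g) * ret_p T j x) fun g _ =>
    ret_fs_mul (ret_fs_tr hf g) _) hf fun x => ?_
  rw [← Finset.sum_mul]
  have h1 : ∑ g ∈ X, ret_p T j (x * g) ≤ 1 := by
    have h2 : ∑ᶠ g, ret_p T j (x * g) = 1 := by
      rw [← ret_p_sum hT j]
      exact finsum_comp_equiv (Equiv.mulLeft x)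
    have h3 : (support fun g => ret_p T j (x * g)).Finite :=
      hf.preimage (mul_right_injective x).injOn
    rw [← h2, finsum_eq_sum_of_support_subset (s := X ∪ h3.toFinset) _ (by
      intro g hg
      rw [Finset.coe_union, Set.mem_union]
      exact Or.inr (Finset.mem_coe.2 (h3.mem_toFinset.2 hg)))]
    exact Finset.sum_le_sum_of_subset_of_nonneg Finset.subset_union_left fun g _ _ =>
      ret_p_nonneg T j _
  calc (∑ g ∈ X, ret_p T j (x * g)) * ret_p T j x ≤ 1 * ret_p T j x :=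
        mul_le_mul_of_nonneg_right h1 (ret_p_nonneg T j x)
    _ = ret_p T j x := one_mul _

private theorem ret_a_le {T : Finset G} (hT : GenSet T) (j : ℕ) : ret_N (ret_p T j) ≤ 1 := by
  have h := ret_sum_le hT j {1}
  rw [Finset.sum_singleton] at h
  simp only [mul_one] at h
  rw [← ret_in_self]
  exact h

private theorem ret_b_le {a : ℕ → ℝ} (ha : a 0 ≤ 1)
    (hbb : ∀ j, a (j + 1) - a (j + 2) ≤ a j - a (j + 1)) (n : ℕ) :
    ((n : ℝ) + 1) * (a n - a (n + 1)) + a (n + 1) ≤ 1 := by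
  induction n with
  | zero =>
    simp only [Nat.cast_zero, zero_add, one_mul, sub_add_cancel]
    exact ha
  | succ n ih =>
    have h1 := hbb n
    have h2 : (0 : ℝ) ≤ (n : ℝ) + 1 := by positivity
    have h3 := mul_le_mul_of_nonneg_left h1 h2
    push_cast
    nlinarith

private theorem ret_lim {T : Finset G} (hT : GenSet T) [Infinite G] {δ : ℝ} (hδ : 0 < δ) :
    ∃ j, ret_N (ret_p T j) < δ := by
  by_contra hcon
  push Not at hcon
  obtain ⟨M, hM⟩ := exists_nat_gt (2 / δ)
  obtain ⟨X, hX⟩ := Infinite.exists_subset_card_eq G M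
  choose K hK0 hK using fun g : G => ret_e_bl hT g
  have hbb : ∀ j, ret_N (ret_p T (j + 1)) - ret_N (ret_p T (j + 2)) ≤
      ret_N (ret_p T j) - ret_N (ret_p T (j + 1)) := fun j => ret_bb hT (ret_p_fs hT j)
  have hb := ret_b_le (a := fun j => ret_N (ret_p T j)) (ret_a_le hT 0) hbb
  have h1 : ∀ j, (M : ℝ) * δ ≤ 1 + (∑ g ∈ X, K g / 2) *
      (ret_N (ret_p T j) - ret_N (ret_p T (j + 1))) := by
    intro j
    have h2 := ret_sum_le hT j X
    have h3 : ∀ g ∈ X, δ - K g / 2 * (ret_N (ret_p T j) - ret_N (ret_p T (j + 1))) ≤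
        ret_in (fun x => ret_p T j (x * g)) (ret_p T j) := by
      intro g _
      rw [ret_in_tr (ret_p_fs hT j)]
      have h4 := hK g _ (ret_p_fs hT j)
      have h5 := hcon j
      have h6 : ret_N (ret_P T (ret_p T j)) = ret_N (ret_p T (j + 1)) := rfl
      rw [h6] at h4
      linarith
    have h4 := (Finset.sum_le_sum h3).trans h2
    rw [Finset.sum_sub_distrib, Finset.sum_const, nsmul_eq_mul, hX, ← Finset.sum_mul] at h4
    linarith
  obtain ⟨n, hn⟩ := exists_nat_gt (∑ g ∈ X, K g / 2)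
  have hS : 0 ≤ ∑ g ∈ X, K g / 2 := Finset.sum_nonneg fun g _ => div_nonneg (hK0 g) (by norm_num)
  have h2 := h1 n
  have h3 := hb n
  have h4 : 0 ≤ ret_N (ret_p T (n + 1)) := ret_N_nonneg _
  have h5 : 0 ≤ ret_N (ret_p T n) - ret_N (ret_p T (n + 1)) := by
    have : ret_N (ret_p T (n + 1)) ≤ ret_N (ret_p T n) := ret_b_nonneg hT (ret_p_fs hT n)
    linarith
  have h6 : (∑ g ∈ X, K g / 2) * (ret_N (ret_p T n) - ret_N (ret_p T (n + 1))) ≤ 1 := by
    have h7 : (∑ g ∈ X, K g / 2) * (ret_N (ret_p T n) - ret_N (ret_p T (n + 1))) ≤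
        ((n : ℝ) + 1) * (ret_N (ret_p T n) - ret_N (ret_p T (n + 1))) :=
      mul_le_mul_of_nonneg_right (by linarith) h5
    linarith
  have h7 : 2 < (M : ℝ) * δ := by
    rw [div_lt_iff₀ hδ] at hM
    exact hM
  linarith

/-- the selection of the scale -/
private theorem ret_seq {a : ℕ → ℝ} {C d : ℕ} {η : ℝ} (hη : 0 < η)
    (h1 : ∀ j, a (j + 1) ≤ a j)
    (h2 : ∀ j, a (j + 1) - a (j + 2) ≤ a j - a (j + 1))
    (h3 : ∀ j, 0 ≤ a j) (h3' : a 0 ≤ 1)
    (h4 : ∀ δ : ℝ, 0 < δ → ∃ j, a j < δ)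
    (h5 : ∀ j : ℕ, 1 ≤ (C : ℝ) * ((j : ℝ) + 1) ^ d * a j) :
    ∃ j, 0 < a j - a (j + 1) ∧ (1 - η) * (a j - a (j + 1)) ≤ a (j + 1) - a (j + 2) := by
  by_contra hcon
  push Not at hcon
  obtain ⟨q, hq⟩ : ∃ q : ℝ, q = max (1 - η) (1 / 2) := ⟨_, rfl⟩
  have hq1 : 1 - η ≤ q := hq ▸ le_max_left _ _
  have hq2 : 1 / 2 ≤ q := hq ▸ le_max_right _ _
  have hq3 : q < 1 := by
    rw [hq]
    exact max_lt (by linarith) (by norm_num)
  have hq0 : 0 < q := by linarith
  have hb0 : ∀ j, 0 ≤ a j - a (j + 1) := fun j => by linarith [h1 j]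
  have hbq : ∀ j, a (j + 1) - a (j + 2) ≤ q * (a j - a (j + 1)) := by
    intro j
    rcases (hb0 j).eq_or_lt with h | h
    · rw [← h, mul_zero]
      have := h2 j
      rw [← h] at this
      exact this
    · exact (hcon j h).le.trans (mul_le_mul_of_nonneg_right hq1 (hb0 j))
  have hbp : ∀ j, a j - a (j + 1) ≤ q ^ j := by
    intro j
    induction j with
    | zero =>
      rw [pow_zero, zero_add]
      have := h3 1
      linarith
    | succ j ih =>
      rw [pow_succ']
      exact (hbq j).trans (mul_le_mul_of_nonneg_left ih hq0.le)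
  have h1q : 0 < 1 - q := by linarith
  have hcm : Monotone fun j => a j - q ^ j / (1 - q) := by
    refine monotone_nat_of_le_succ fun j => ?_
    have h6 := hbp j
    have h7 : q ^ (j + 1) / (1 - q) = q ^ j / (1 - q) - q ^ j := by
      rw [eq_sub_iff_add_eq, div_add' _ _ _ h1q.ne']
      congr 1
      ring
    show a j - q ^ j / (1 - q) ≤ a (j + 1) - q ^ (j + 1) / (1 - q)
    rw [h7]
    linarith
  have haa : Antitone a := antitone_nat_of_succ_le h1
  have hle : ∀ j, a j ≤ q ^ j / (1 - q) := by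
    intro j
    by_contra hj
    push Not at hj
    obtain ⟨k, hk⟩ := h4 (a j - q ^ j / (1 - q)) (by linarith)
    rcases le_total j k with h | h
    · have h6 : a j - q ^ j / (1 - q) ≤ a k - q ^ k / (1 - q) := hcm h
      have h7 : 0 ≤ q ^ k / (1 - q) := by positivity
      linarith
    · have h6 : a j ≤ a k := haa h
      have h7 : 0 ≤ q ^ j / (1 - q) := by positivity
      linarith
  have hlim := (tendsto_pow_const_mul_const_pow_of_lt_one d hq0.le hq3).const_mul
    ((C : ℝ) / (q * (1 - q)))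
  rw [mul_zero] at hlim
  obtain ⟨n, hn⟩ := ((hlim.eventually (gt_mem_nhds (zero_lt_one : (0 : ℝ) < 1))).and
    (Filter.eventually_ge_atTop 1)).exists
  obtain ⟨hn1, hn2⟩ := hn
  obtain ⟨j, rfl⟩ : ∃ j, n = j + 1 := ⟨n - 1, by omega⟩
  have h6 := h5 j
  have h7 : (C : ℝ) * ((j : ℝ) + 1) ^ d * a j ≤ (C : ℝ) * ((j : ℝ) + 1) ^ d * (q ^ j / (1 - q)) :=
    mul_le_mul_of_nonneg_left (hle j) (by positivity)
  have h8 : (C : ℝ) / (q * (1 - q)) * (((j + 1 : ℕ) : ℝ) ^ d * q ^ (j + 1)) =
      (C : ℝ) * ((j : ℝ) + 1) ^ d * (q ^ j / (1 - q)) := by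
    push_cast
    rw [pow_succ]
    field_simp
  rw [h8] at hn1
  linarith

private theorem ret_N_div (u : G → ℝ) (k : ℝ) : ret_N (fun x => u x / k) = ret_N u / k ^ 2 := by
  unfold ret_N
  rw [div_eq_mul_inv, finsum_mul]
  refine finsum_congr fun x => ?_
  rw [div_pow, div_eq_mul_inv]

private theorem ret_P_div (T : Finset G) (u : G → ℝ) (k : ℝ) :
    ret_P T (fun x => u x / k) = fun x => ret_P T u x / k := by
  funext x
  unfold ret_P
  rw [← Finset.sum_div, div_div, div_div, mul_comm]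

end ret

theorem slow_function {T : Finset G} (hT : GenSet T) [Infinite G] {C d : ℕ}
    (hgr : ∀ r, (bl T r).card ≤ C * (r + 1) ^ d) {ε : ℝ} (hε : 0 < ε) :
    ∃ u : G → ℝ, ∃ F : Finset G, (∀ x, x ∉ F → u x = 0) ∧
      -- energy: `∑_{s,s'} |u(· s s') - u|² = 2 |T|²`
      (∑ s ∈ T, ∑ s' ∈ T, ∑ᶠ x, (u (x * (s * s')) - u x) ^ 2 = 2 * (T.card : ℝ) ^ 2) ∧
      -- defect: `|∑_{s,s'} (u(· s s') - u)|² ≤ ε`
      ∑ᶠ x, (∑ s ∈ T, ∑ s' ∈ T, (u (x * (s * s')) - u x)) ^ 2 ≤ ε := by
  have hc := ret_card hT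
  obtain ⟨j, hj1, hj2⟩ := ret_seq (a := fun j => ret_N (ret_p T j)) (C := C) (d := d)
    (η := ε / (T.card : ℝ) ^ 4) (by positivity)
    (fun j => ret_b_nonneg hT (ret_p_fs hT j)) (fun j => ret_bb hT (ret_p_fs hT j))
    (fun j => ret_N_nonneg _) (ret_a_le hT 0) (fun δ hδ => ret_lim hT hδ) (by
      intro j
      refine (ret_cs hT j).trans (mul_le_mul_of_nonneg_right ?_ (ret_N_nonneg _))
      exact_mod_cast hgr j)
  obtain ⟨b, hb⟩ : ∃ b : ℝ, b = ret_N (ret_p T j) - ret_N (ret_p T (j + 1)) := ⟨_, rfl⟩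
  rw [← hb] at hj1 hj2
  have hsq : Real.sqrt b ^ 2 = b := Real.sq_sqrt hj1.le
  have hfs : (Function.support fun x => ret_p T j x / Real.sqrt b).Finite := by
    refine (ret_p_fs hT j).subset fun x hx => ?_
    rw [Function.mem_support] at hx ⊢
    intro h
    exact hx (by rw [h, zero_div])
  have e1 : ret_N (fun x => ret_p T j x / Real.sqrt b) = ret_N (ret_p T j) / b := by
    rw [ret_N_div, hsq]
  have e2 : ret_N (ret_P T fun x => ret_p T j x / Real.sqrt b) = ret_N (ret_p T (j + 1)) / b := by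
    rw [ret_P_div, ret_N_div, hsq]
    rfl
  have e3 : ret_N (ret_P T (ret_P T fun x => ret_p T j x / Real.sqrt b)) =
      ret_N (ret_p T (j + 2)) / b := by
    rw [ret_P_div, ret_P_div, ret_N_div, hsq]
    rfl
  refine ⟨fun x => ret_p T j x / Real.sqrt b, bl T j, fun x hx => ?_, ?_, ?_⟩
  · have : ret_p T j x = 0 := by
      by_contra h
      exact hx (Finset.mem_coe.1 (ret_p_supp hT j h))
    show ret_p T j x / Real.sqrt b = 0
    rw [this, zero_div]
  · rw [ret_energy hT hfs, e1, e2, ← sub_div, ← hb, div_self hj1.ne', mul_one]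
  · rw [ret_defect hT hfs, e1, e2, e3]
    have h1 : ret_N (ret_p T (j + 2)) / b - 2 * (ret_N (ret_p T (j + 1)) / b) +
        ret_N (ret_p T j) / b =
        (b - (ret_N (ret_p T (j + 1)) - ret_N (ret_p T (j + 2)))) / b := by
      rw [hb]
      ring
    rw [h1]
    have h2 : (b - (ret_N (ret_p T (j + 1)) - ret_N (ret_p T (j + 2)))) / b ≤
        ε / (T.card : ℝ) ^ 4 := by
      rw [div_le_iff₀ hj1]
      linarith
    calc (T.card : ℝ) ^ 4 * ((b - (ret_N (ret_p T (j + 1)) - ret_N (ret_p T (j + 2)))) / b) ≤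
        (T.card : ℝ) ^ 4 * (ε / (T.card : ℝ) ^ 4) := mul_le_mul_of_nonneg_left h2 (by positivity)
      _ = ε := by field_simp

end Pool.Agent.Lib.MP_322c76_al.BW
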