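import Pool.Agent.Lib.MP_322c76_al.BW.Defs
import Pool.Agent.Lib.MP_322c76_al.BW.Ret
import Pool.Agent.Lib.MP_322c76_al.BW.Gen2

set_option autoImplicit false

namespace Pool.Agent.Lib.MP_322c76_al.BW

variable {G : Type*} [Group G]

/-! ROW Harm (limit). `T₂ = bl T 2`, weight `w t = #{(s,s') ∈ T × T : s s' = t}` (in `[1, |T|²]`,
symmetric). For `ε = 1/(i+1)` take `u_i`; some `t_i ∈ T₂` has `∑ᶠ (u(x t_i) - u x)² ≥ 2 ≥ 1`;
`v = (u(· t_i) - u)/|u(· t_i) - u|` (finitely supported unit vector),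
`F_i(x) = ∑ᶠ y, (u(y x) - u(y)) v(y)`.
`F_i(x t) - F_i(x) = ∑ᶠ y, (u(y x t) - u(y x)) v(y)`, so `|F_i(xt) - F_i(x)| ≤ L = sqrt 2 |T|`
(Cauchy-Schwarz and translation invariance), `|lap T₂ w F_i x| ≤ sqrt ε_i`, `F_i(1) = 0`,
`F_i(t_i) ≥ 1`. `|F_i(x)| ≤ L r` for `x ∈ bl T₂ r`. Take the limit along a nonprincipal
ultrafilter on `ℕ` (bounded real sequences converge along ultrafilters). -/

open Classical in
/-- the number of ways to write `t` as a product of two elements of `T` -/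
private noncomputable def harm_w (T : Finset G) (t : G) : ℝ :=
  (((T ×ˢ T).filter fun p => p.1 * p.2 = t).card : ℝ)

private theorem harm_mem {T : Finset G} {t : G} :
    t ∈ bl T 2 ↔ ∃ s ∈ T, ∃ s' ∈ T, s * s' = t := by
  have h := mem_bl_succ (T := T) (r := 1) (x := t)
  rw [bl_one] at h
  exact h

private theorem harm_sum (T : Finset G) (g : G → ℝ) :
    ∑ t ∈ bl T 2, harm_w T t * g t = ∑ s ∈ T, ∑ s' ∈ T, g (s * s') := by
  classical
  have h1 : ∑ s ∈ T, ∑ s' ∈ T, g (s * s') = ∑ p ∈ T ×ˢ T, g (p.1 * p.2) :=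
    (Finset.sum_product T T (fun p => g (p.1 * p.2))).symm
  have h2 : ∀ p ∈ T ×ˢ T, p.1 * p.2 ∈ bl T 2 := fun p hp =>
    harm_mem.mpr ⟨p.1, (Finset.mem_product.mp hp).1, p.2, (Finset.mem_product.mp hp).2, rfl⟩
  rw [h1, ← Finset.sum_fiberwise_of_maps_to h2]
  refine Finset.sum_congr rfl fun t _ => ?_
  have h3 : ∀ p ∈ (T ×ˢ T).filter (fun p => p.1 * p.2 = t), g (p.1 * p.2) = g t := by
    intro p hp
    rw [(Finset.mem_filter.mp hp).2]
  rw [Finset.sum_congr rfl h3, Finset.sum_const, nsmul_eq_mul]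
  unfold harm_w
  congr

private theorem harm_weight {T : Finset G} (hT : GenSet T) :
    Weight (bl T 2) (harm_w T) ((T.card : ℝ) ^ 2) where
  one_le := by
    classical
    intro t ht
    obtain ⟨s, hs, s', hs', h⟩ := harm_mem.mp ht
    unfold harm_w
    rw [Nat.one_le_cast]
    exact Finset.card_pos.mpr ⟨(s, s'), Finset.mem_filter.mpr
      ⟨Finset.mem_product.mpr ⟨hs, hs'⟩, h⟩⟩
  le := by
    classical
    intro t _
    unfold harm_w
    have h := Finset.card_filter_le (T ×ˢ T) (fun p => p.1 * p.2 = t)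
    rw [Finset.card_product] at h
    rw [sq]
    exact_mod_cast h
  inv := by
    classical
    intro t _
    unfold harm_w
    rw [Nat.cast_inj]
    refine Finset.card_bij (fun p _ => (p.2⁻¹, p.1⁻¹)) ?_ ?_ ?_
    · intro p hp
      obtain ⟨h1, h2⟩ := Finset.mem_filter.mp hp
      obtain ⟨h3, h4⟩ := Finset.mem_product.mp h1
      refine Finset.mem_filter.mpr ⟨Finset.mem_product.mpr ⟨hT.inv _ h4, hT.inv _ h3⟩, ?_⟩
      show p.2⁻¹ * p.1⁻¹ = t
      rw [← mul_inv_rev, h2, inv_inv]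
    · intro p _ q _ h
      have h1 := congrArg Prod.fst h
      have h2 := congrArg Prod.snd h
      exact Prod.ext (inv_injective h2) (inv_injective h1)
    · intro p hp
      obtain ⟨h1, h2⟩ := Finset.mem_filter.mp hp
      obtain ⟨h3, h4⟩ := Finset.mem_product.mp h1
      refine ⟨(p.2⁻¹, p.1⁻¹), Finset.mem_filter.mpr
        ⟨Finset.mem_product.mpr ⟨hT.inv _ h4, hT.inv _ h3⟩, ?_⟩, ?_⟩
      · show p.2⁻¹ * p.1⁻¹ = t⁻¹
        rw [← mul_inv_rev, h2]
      · simp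

private theorem harm_sum_le {g : G → ℝ} (hg : ∀ y, 0 ≤ g y) (hf : (Function.support g).Finite)
    (K : Finset G) (x : G) : ∑ y ∈ K, g (y * x) ≤ ∑ᶠ y, g y := by
  classical
  have h1 : ∑ y ∈ K, g (y * x) = ∑ y ∈ K.map (Equiv.mulRight x).toEmbedding, g y := by
    rw [Finset.sum_map]
    rfl
  have h2 : ∑ᶠ y, g y = ∑ y ∈ hf.toFinset ∪ K.map (Equiv.mulRight x).toEmbedding, g y := by
    refine finsum_eq_sum_of_support_subset g ?_
    intro y hy
    have : y ∈ hf.toFinset ∪ K.map (Equiv.mulRight x).toEmbedding :=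
      Finset.mem_union_left _ (hf.mem_toFinset.mpr hy)
    exact this
  rw [h1, h2]
  exact Finset.sum_le_sum_of_subset_of_nonneg Finset.subset_union_right (fun i _ _ => hg i)

private theorem harm_cs {h v : G → ℝ} {A : ℝ} (hf : (Function.support h).Finite)
    (hA : ∑ᶠ y, h y ^ 2 ≤ A) (K : Finset G) (hv : ∑ y ∈ K, v y ^ 2 ≤ 1) (x : G) :
    |∑ y ∈ K, h (y * x) * v y| ≤ √A := by
  have h1 : (∑ y ∈ K, h (y * x) * v y) ^ 2 ≤ (∑ y ∈ K, h (y * x) ^ 2) * ∑ y ∈ K, v y ^ 2 :=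
    Finset.sum_mul_sq_le_sq_mul_sq K _ _
  have hs : (Function.support fun y => h y ^ 2).Finite := by
    refine hf.subset fun y hy => ?_
    intro h0
    exact hy (by simp [h0])
  have h2 : ∑ y ∈ K, h (y * x) ^ 2 ≤ A :=
    (harm_sum_le (g := fun y => h y ^ 2) (fun y => sq_nonneg _) hs K x).trans hA
  apply Real.abs_le_sqrt
  calc (∑ y ∈ K, h (y * x) * v y) ^ 2
      ≤ (∑ y ∈ K, h (y * x) ^ 2) * ∑ y ∈ K, v y ^ 2 := h1
    _ ≤ (∑ y ∈ K, h (y * x) ^ 2) * 1 :=
        mul_le_mul_of_nonneg_left hv (Finset.sum_nonneg fun _ _ => sq_nonneg _)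
    _ ≤ A := by rw [mul_one]; exact h2

private theorem harm_eps {T : Finset G} (hT : GenSet T) [Infinite G] {C d : ℕ}
    (hgr : ∀ r, (bl T r).card ≤ C * (r + 1) ^ d) {ε : ℝ} (hε : 0 < ε) :
    ∃ F : G → ℝ, F 1 = 0 ∧ (∃ t ∈ bl T 2, 1 ≤ F t) ∧
      (∀ x, ∀ t ∈ bl T 2, |F (x * t) - F x| ≤ √(2 * (T.card : ℝ) ^ 2)) ∧
      ∀ x, |lap (bl T 2) (harm_w T) F x| ≤ √ε := by
  classical
  obtain ⟨u, S, hu, hen, hdef⟩ := slow_function hT hgr hε
  have hsup : ∀ t, (Function.support fun x => u (x * t) - u x).Finite := by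
    intro t
    refine (S.finite_toSet.union ((S.image fun y => y * t⁻¹).finite_toSet)).subset ?_
    intro x hx
    by_contra hcon
    apply hx
    have h1 : x ∉ S := fun h => hcon (Or.inl h)
    have h2 : x * t ∉ S := by
      intro h
      apply hcon
      right
      exact Finset.mem_coe.mpr (Finset.mem_image.mpr ⟨x * t, h, by simp⟩)
    show u (x * t) - u x = 0
    rw [hu _ h1, hu _ h2, sub_zero]
  have hnn : ∀ t, 0 ≤ ∑ᶠ x, (u (x * t) - u x) ^ 2 := fun t =>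
    finsum_nonneg fun x => sq_nonneg _
  have hup : ∀ t ∈ bl T 2, ∑ᶠ x, (u (x * t) - u x) ^ 2 ≤ 2 * (T.card : ℝ) ^ 2 := by
    intro t ht
    obtain ⟨s, hs, s', hs', rfl⟩ := harm_mem.mp ht
    rw [← hen]
    calc ∑ᶠ x, (u (x * (s * s')) - u x) ^ 2
        ≤ ∑ s'' ∈ T, ∑ᶠ x, (u (x * (s * s'')) - u x) ^ 2 :=
          Finset.single_le_sum (f := fun s'' => ∑ᶠ x, (u (x * (s * s'')) - u x) ^ 2)
            (fun i _ => hnn _) hs'
      _ ≤ _ := Finset.single_le_sum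
            (f := fun r => ∑ s'' ∈ T, ∑ᶠ x, (u (x * (r * s'')) - u x) ^ 2)
            (fun i _ => Finset.sum_nonneg fun j _ => hnn _) hs
  obtain ⟨t₀, ht₀, hlow⟩ : ∃ t ∈ bl T 2, 1 ≤ ∑ᶠ x, (u (x * t) - u x) ^ 2 := by
    by_contra hcon
    push Not at hcon
    have h1 : ∑ s ∈ T, ∑ s' ∈ T, ∑ᶠ x, (u (x * (s * s')) - u x) ^ 2 ≤
        ∑ s ∈ T, ∑ s' ∈ T, (1 : ℝ) :=
      Finset.sum_le_sum fun s hs => Finset.sum_le_sum fun s' hs' =>
        (hcon _ (harm_mem.mpr ⟨s, hs, s', hs', rfl⟩)).le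
    rw [hen] at h1
    simp only [Finset.sum_const, nsmul_eq_mul, mul_one] at h1
    have hc : 0 < (T.card : ℝ) := by
      exact_mod_cast Finset.card_pos.mpr ⟨1, hT.one⟩
    nlinarith
  obtain ⟨N, hN⟩ : ∃ N, N = ∑ᶠ x, (u (x * t₀) - u x) ^ 2 := ⟨_, rfl⟩
  rw [← hN] at hlow
  have hN0 : 0 < N := by linarith
  have hsN : 0 < √N := Real.sqrt_pos.mpr hN0
  have hNK : N = ∑ y ∈ (hsup t₀).toFinset, (u (y * t₀) - u y) ^ 2 := by
    rw [hN]
    refine finsum_eq_sum_of_support_subset _ ?_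
    intro y hy
    rw [Set.Finite.coe_toFinset]
    intro h0
    apply hy
    show (u (y * t₀) - u y) ^ 2 = 0
    have h0' : u (y * t₀) - u y = 0 := h0
    rw [h0']
    norm_num
  obtain ⟨K, hK⟩ : ∃ K, K = (hsup t₀).toFinset := ⟨_, rfl⟩
  rw [← hK] at hNK
  obtain ⟨v, hvdef⟩ : ∃ v : G → ℝ, ∀ y, v y = (u (y * t₀) - u y) / √N := ⟨_, fun _ => rfl⟩
  have hv : ∑ y ∈ K, v y ^ 2 ≤ 1 := by
    have h1 : ∀ y ∈ K, v y ^ 2 = (u (y * t₀) - u y) ^ 2 / N := fun y _ => by
      rw [hvdef, div_pow, Real.sq_sqrt hN0.le]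
    rw [Finset.sum_congr rfl h1, ← Finset.sum_div, ← hNK, div_self hN0.ne']
  have hdiff : ∀ x t, (∑ y ∈ K, (u (y * (x * t)) - u y) * v y) -
      ∑ y ∈ K, (u (y * x) - u y) * v y =
      ∑ y ∈ K, (fun z => u (z * t) - u z) (y * x) * v y := by
    intro x t
    rw [← Finset.sum_sub_distrib]
    refine Finset.sum_congr rfl fun y _ => ?_
    show _ = (u (y * x * t) - u (y * x)) * v y
    rw [mul_assoc y x t]
    ring
  refine ⟨fun x => ∑ y ∈ K, (u (y * x) - u y) * v y, ?_, ⟨t₀, ht₀, ?_⟩, ?_, ?_⟩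
  · simp
  · have h1 : ∀ y ∈ K, (u (y * t₀) - u y) * v y = (u (y * t₀) - u y) ^ 2 / √N := fun y _ => by
      rw [hvdef]
      ring
    show 1 ≤ ∑ y ∈ K, (u (y * t₀) - u y) * v y
    rw [Finset.sum_congr rfl h1, ← Finset.sum_div, ← hNK, Real.div_sqrt]
    exact Real.one_le_sqrt.mpr hlow
  · intro x t ht
    show |(∑ y ∈ K, (u (y * (x * t)) - u y) * v y) - ∑ y ∈ K, (u (y * x) - u y) * v y| ≤ _
    rw [hdiff]
    exact harm_cs (h := fun z => u (z * t) - u z) (hsup t) (hup t ht) K hv x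
  · intro x
    have h1 : lap (bl T 2) (harm_w T) (fun x => ∑ y ∈ K, (u (y * x) - u y) * v y) x =
        ∑ y ∈ K, (fun z => ∑ s ∈ T, ∑ s' ∈ T, (u (z * (s * s')) - u z)) (y * x) * v y := by
      unfold lap
      rw [harm_sum T (fun t => (∑ y ∈ K, (u (y * (x * t)) - u y) * v y) -
        ∑ y ∈ K, (u (y * x) - u y) * v y)]
      simp only [hdiff]
      simp only [Finset.sum_mul]
      calc ∑ s ∈ T, ∑ s' ∈ T, ∑ y ∈ K, (u (y * x * (s * s')) - u (y * x)) * v y
          = ∑ s ∈ T, ∑ y ∈ K, ∑ s' ∈ T, (u (y * x * (s * s')) - u (y * x)) * v y :=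
            Finset.sum_congr rfl fun s _ => Finset.sum_comm
        _ = _ := Finset.sum_comm
    rw [h1]
    refine harm_cs (h := fun z => ∑ s ∈ T, ∑ s' ∈ T, (u (z * (s * s')) - u z)) ?_ hdef K hv x
    refine (Set.Finite.biUnion T.finite_toSet fun s _ =>
      Set.Finite.biUnion T.finite_toSet fun s' _ => hsup (s * s')).subset ?_
    intro z hz
    by_contra hcon
    apply hz
    refine Finset.sum_eq_zero fun s hs => Finset.sum_eq_zero fun s' hs' => ?_
    by_contra hne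
    apply hcon
    exact Set.mem_biUnion (Finset.mem_coe.mpr hs) (Set.mem_biUnion (Finset.mem_coe.mpr hs') hne)

theorem exists_harmonic {T : Finset G} (hT : GenSet T) [Infinite G] {C d : ℕ}
    (hgr : ∀ r, (bl T r).card ≤ C * (r + 1) ^ d) :
    ∃ (w : G → ℝ) (W : ℝ), Weight (bl T 2) w W ∧ ∃ f ∈ HarmLip (bl T 2) w, ∃ x y, f x ≠ f y := by
  classical
  choose F hF1 hFt hFL hFlap using fun i : ℕ =>
    harm_eps hT hgr (ε := 1 / ((i : ℝ) + 1)) (by positivity)
  obtain ⟨L, hL⟩ : ∃ L, L = √(2 * (T.card : ℝ) ^ 2) := ⟨_, rfl⟩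
  rw [← hL] at hFL
  have hbd : ∀ r : ℕ, ∀ x ∈ bl (bl T 2) r, ∀ i, |F i x| ≤ r * L := by
    intro r
    induction r with
    | zero =>
      intro x hx i
      have hx1 : x = 1 := by simpa [bl] using hx
      rw [hx1, hF1]
      simp
    | succ r ih =>
      intro x hx i
      obtain ⟨y, hy, t, ht, rfl⟩ := mem_bl_succ.mp hx
      have h1 := ih y hy i
      have h2 := hFL i y t ht
      have h3 : |F i (y * t)| ≤ |F i y| + |F i (y * t) - F i y| := by
        calc |F i (y * t)| = |F i y + (F i (y * t) - F i y)| := by ring_nf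
          _ ≤ _ := abs_add_le _ _
      push_cast
      linarith
  have hlim : ∀ x, ∃ y, Filter.Tendsto (fun i => F i x) (Filter.hyperfilter ℕ : Filter ℕ)
      (nhds y) := by
    intro x
    obtain ⟨r, hr⟩ := exists_bl (genSet_bl_two hT) x
    have hc : IsCompact (Set.Icc (-(r * L)) (r * L)) := isCompact_Icc
    obtain ⟨y, -, hy⟩ := hc.ultrafilter_le_nhds ((Filter.hyperfilter ℕ).map (fun i => F i x)) (by
      rw [Filter.le_principal_iff]
      exact Filter.mem_map.mpr (Filter.univ_mem' fun i => abs_le.mp (hbd r x hr i)))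
    exact ⟨y, hy⟩
  choose f hf using hlim
  refine ⟨harm_w T, (T.card : ℝ) ^ 2, harm_weight hT, f, ⟨⟨L, ?_⟩, ?_⟩, ?_⟩
  · intro x t ht
    have h1 : Filter.Tendsto (fun i => |F i (x * t) - F i x|) (Filter.hyperfilter ℕ : Filter ℕ)
        (nhds |f (x * t) - f x|) := ((hf _).sub (hf _)).abs
    exact le_of_tendsto h1 (Filter.Eventually.of_forall fun i => hFL i x t ht)
  · intro x
    have h1 : Filter.Tendsto (fun i => lap (bl T 2) (harm_w T) (F i) x)
        (Filter.hyperfilter ℕ : Filter ℕ) (nhds (lap (bl T 2) (harm_w T) f x)) := by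
      unfold lap
      exact tendsto_finsetSum _ fun t _ => ((hf _).sub (hf _)).const_mul _
    have h2 : Filter.Tendsto (fun i => lap (bl T 2) (harm_w T) (F i) x)
        (Filter.hyperfilter ℕ : Filter ℕ) (nhds 0) := by
      refine squeeze_zero_norm (a := fun i : ℕ => √(1 / ((i : ℝ) + 1)))
        (fun i => hFlap i x) ?_
      have h3 : Filter.Tendsto (fun i : ℕ => √(1 / ((i : ℝ) + 1))) Filter.atTop (nhds 0) := by
        have h4 := (tendsto_one_div_add_atTop_nhds_zero_nat (𝕜 := ℝ)).sqrt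
        rwa [Real.sqrt_zero] at h4
      exact h3.mono_left Nat.hyperfilter_le_atTop
    exact tendsto_nhds_unique h1 h2
  · have h1 : Filter.Tendsto (fun i => ∑ t ∈ bl T 2, |F i t|)
        (Filter.hyperfilter ℕ : Filter ℕ) (nhds (∑ t ∈ bl T 2, |f t|)) :=
      tendsto_finsetSum _ fun t _ => (hf t).abs
    have h2 : 1 ≤ ∑ t ∈ bl T 2, |f t| := ge_of_tendsto h1 (Filter.Eventually.of_forall fun i => by
      obtain ⟨t, ht, h⟩ := hFt i
      exact h.trans ((le_abs_self _).trans (Finset.single_le_sum (f := fun t => |F i t|)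
        (fun _ _ => abs_nonneg _) ht)))
    have h3 : f 1 = 0 := by
      refine tendsto_nhds_unique (hf 1) ?_
      simp only [hF1]
      exact tendsto_const_nhds
    by_contra hcon
    push Not at hcon
    have h4 : ∑ t ∈ bl T 2, |f t| = 0 := Finset.sum_eq_zero fun t _ => by
      rw [hcon t 1, h3, abs_zero]
    linarith

end Pool.Agent.Lib.MP_322c76_al.BW
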