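import Pool.Agent.Lib.MP_322c76_al.BW.Defs
import Pool.Agent.Lib.MP_322c76_al.BW.Ball
import Pool.Agent.Lib.MP_322c76_al.BW.Gen2
import Pool.Agent.Lib.MP_322c76_al.BW.Harm
import Pool.Agent.Lib.MP_322c76_al.BW.FinDim
import Pool.Agent.Lib.MP_322c76_al.Noeth

set_option autoImplicit false

namespace Pool.Agent.Lib.MP_322c76_al.BW

variable {G : Type*} [Group G]

/-! ROW Klei. Suppose `G` infinite. `exists_harmonic`, `finDim` for `bl T 2`. `G` acts on `V = HarmLip`
by `(g f)(x) = f(g⁻¹ x)`; in a basis this is a homomorphism to matrices, the kernel has finite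
index (`fi_noeth` in `Noeth.lean`, `G` is finitely generated of exponent `n`). So the non-constant
`f` is left invariant under a subgroup of finite index, takes finitely many values, has a maximum;
`lap f = 0` with positive weights: `f(xt) = f(x)` at a maximum; so `f` is constant. Contradiction. -/

private def kl_act (T : Finset G) (w : G → ℝ) (g : G) : HarmLip T w →ₗ[ℝ] HarmLip T w where
  toFun f := ⟨fun x => f.1 (g⁻¹ * x), by
    obtain ⟨⟨L, hL⟩, hf⟩ := f.2
    refine ⟨⟨L, fun x t ht => ?_⟩, fun x => ?_⟩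
    · have h1 := hL (g⁻¹ * x) t ht
      rw [mul_assoc] at h1
      exact h1
    · have h1 := hf (g⁻¹ * x)
      simp only [lap] at h1 ⊢
      simp only [← mul_assoc]
      exact h1⟩
  map_add' _ _ := rfl
  map_smul' _ _ := rfl

private theorem kl_act_apply (T : Finset G) (w : G → ℝ) (g : G) (f : HarmLip T w) (x : G) :
    (kl_act T w g f).1 x = f.1 (g⁻¹ * x) := rfl

private def kl_rep (T : Finset G) (w : G → ℝ) : G →* Module.End ℝ (HarmLip T w) where
  toFun := kl_act T w
  map_one' := by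
    ext f x
    rw [kl_act_apply, inv_one, one_mul]
    rfl
  map_mul' g h := by
    ext f x
    rw [Module.End.mul_apply, kl_act_apply, kl_act_apply, kl_act_apply, mul_inv_rev, mul_assoc]

theorem kleiner {T : Finset G} (hT : GenSet T) {n : ℕ} (hn : 1 ≤ n) (hexp : ∀ g : G, g ^ n = 1)
    {C d : ℕ} (hgr : ∀ r, (bl T r).card ≤ C * (r + 1) ^ d) : Finite G := by
  by_contra hfin
  have : Infinite G := not_finite_iff_infinite.mp hfin
  have hT2 := genSet_bl_two hT
  have hgr2 : ∀ r, (bl (bl T 2) r).card ≤ (C * 2 ^ d) * (r + 1) ^ d := by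
    intro r
    rw [bl_bl_two hT]
    refine (hgr (2 * r)).trans ?_
    rw [mul_assoc, ← mul_pow]
    exact Nat.mul_le_mul_left C (Nat.pow_le_pow_left (by omega) d)
  obtain ⟨w, W, hw, f, hf, x0, y0, hxy⟩ := exists_harmonic hT hgr
  have hfd : FiniteDimensional ℝ (HarmLip (bl T 2) w) := finDim hT2 hw hgr2
  have hFG : Group.FG G := ⟨⟨T, hT.gen⟩⟩
  let b := Module.finBasis ℝ (HarmLip (bl T 2) w)
  let ρ : G →* Matrix (Fin (Module.finrank ℝ (HarmLip (bl T 2) w))) (Fin (Module.finrank ℝ (HarmLip (bl T 2) w))) ℝ :=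
    ((LinearMap.toMatrixAlgEquiv b).toAlgHom.toRingHom.toMonoidHom).comp (kl_rep (bl T 2) w)
  have hρ : ρ.ker.FiniteIndex := by
    refine fi_noeth ρ (n := n) hn fun x => ?_
    rw [← map_pow, hexp, map_one]
  have hinv : ∀ g ∈ ρ.ker, ∀ x, f (g⁻¹ * x) = f x := by
    intro g hg x
    have h1 : kl_rep (bl T 2) w g = 1 := by
      apply (LinearMap.toMatrixAlgEquiv b).injective
      rw [map_one]
      exact hg
    have h2 := congrArg (fun φ : Module.End ℝ (HarmLip (bl T 2) w) => (φ ⟨f, hf⟩).1 x) h1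
    exact h2
  have hq : ∀ x : G, f ((x : G ⧸ ρ.ker).out) = f x := by
    intro x
    have h1 : ((x : G ⧸ ρ.ker).out : G ⧸ ρ.ker) = (x : G ⧸ ρ.ker) := QuotientGroup.out_eq' _
    have h2 : x⁻¹ * (x : G ⧸ ρ.ker).out ∈ ρ.ker := QuotientGroup.eq.mp h1.symm
    have h3 : x * (x⁻¹ * (x : G ⧸ ρ.ker).out) * x⁻¹ ∈ ρ.ker := (MonoidHom.normal_ker ρ).conj_mem _ h2 x
    have h4 : x * (x⁻¹ * (x : G ⧸ ρ.ker).out) * x⁻¹ = (x : G ⧸ ρ.ker).out * x⁻¹ := by group
    rw [h4] at h3
    have h5 := hinv _ (ρ.ker.inv_mem h3) x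
    rw [inv_inv, inv_mul_cancel_right] at h5
    exact h5
  obtain ⟨q, hmax⟩ := Finite.exists_max (fun q : G ⧸ ρ.ker => f q.out)
  set m := f q.out with hm
  have hle : ∀ x, f x ≤ m := fun x => by
    rw [← hq x]
    exact hmax _
  have hstep : ∀ x, f x = m → ∀ t ∈ bl T 2, f (x * t) = m := by
    intro x hx t ht
    have h1 : ∑ t ∈ bl T 2, w t * (f (x * t) - f x) = 0 := hf.2 x
    have h2 : ∀ t ∈ bl T 2, w t * (f (x * t) - f x) ≤ 0 := fun t ht =>
      mul_nonpos_of_nonneg_of_nonpos (zero_le_one.trans (hw.one_le t ht)) (by rw [hx]; linarith [hle (x * t)])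
    have h3 := (Finset.sum_eq_zero_iff_of_nonpos h2).mp h1 t ht
    have h4 : w t ≠ 0 := fun h0 => by
      have := hw.one_le t ht
      rw [h0] at this
      linarith
    have h5 := (mul_eq_zero.mp h3).resolve_left h4
    linarith
  have hball : ∀ r : ℕ, ∀ y ∈ bl (bl T 2) r, f (q.out * y) = m := by
    intro r
    induction r with
    | zero =>
      intro y hy
      have h1 : y = 1 := by simpa [bl] using hy
      rw [h1, mul_one]
    | succ r ih =>
      intro y hy
      obtain ⟨y', hy', t, ht, rfl⟩ := mem_bl_succ.mp hy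
      rw [← mul_assoc]
      exact hstep _ (ih y' hy') t ht
  have hconst : ∀ x, f x = m := by
    intro x
    obtain ⟨r, hr⟩ := exists_bl hT2 (q.out⁻¹ * x)
    have h1 := hball r _ hr
    rwa [mul_inv_cancel_left] at h1
  exact hxy ((hconst x0).trans (hconst y0).symm)

end Pool.Agent.Lib.MP_322c76_al.BW
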