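import Pool.Agent.Lib.MP_322c76_al.BW.Defs
import Pool.Agent.Lib.MP_322c76_al.BW.EAct

set_option autoImplicit false

namespace Pool.Agent.Lib.MP_322c76_al.BW

variable {k n D : ℕ}

/-! ROW Max. `m` = largest number such that `Cyc Γ₀ ω x h m` for some `ω ∈ Y`, `x ∈ Orb ω`, `h`.
`m ≤ n` (`h^n x = x`), `m ≥ 2` (the orbit is infinite, classes are finite). -/

private theorem Max_le {S : Sys k n D} {Γ₀ : ℕ} (hn : 1 ≤ n) {ω : Conf k} (hω : ω ∈ S.Y) {x : ℤ}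
    {h : Wd k} {m : ℕ} (hc : Cyc Γ₀ ω x h m) : m ≤ n := by
  by_contra hlt
  push Not at hlt
  refine hc n hn hlt ?_
  have h1 : act ω (h ^ n) = 1 := by
    have := S.expn ω hω h
    unfold act at this ⊢
    rw [map_pow]
    exact this
  rw [h1]
  exact E_self Γ₀ ω x

private theorem Max_two {S : Sys k n D} {Γ₀ : ℕ} :
    ∃ ω ∈ S.Y, ∃ x ∈ Orb ω, ∃ h, Cyc Γ₀ ω x h 2 := by
  obtain ⟨ω, hω⟩ := S.ne
  have hinf := S.infi ω hω
  have hfin := E_finite Γ₀ ω 0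
  obtain ⟨y, hy, hyE⟩ := hinf.exists_notMem_finite hfin
  obtain ⟨g, hg⟩ := hy
  refine ⟨ω, hω, 0, ⟨1, by simp [act]⟩, g, ?_⟩
  intro i hi hi2
  have : i = 1 := by omega
  subst this
  rw [pow_one, hg]
  exact hyE

theorem exists_max {S : Sys k n D} {Γ₀ : ℕ} (hn : 1 ≤ n) (hS : Stable S Γ₀) :
    ∃ m : ℕ, MaxCyc S Γ₀ m := by
  classical
  let P : ℕ → Prop := fun m => ∃ ω ∈ S.Y, ∃ x ∈ Orb ω, ∃ h, Cyc Γ₀ ω x h m
  have hP2 : P 2 := Max_two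
  have hle : ∀ m, P m → m ≤ n := by
    rintro m ⟨ω, hω, x, _, h, hc⟩
    exact Max_le hn hω hc
  have h2n : 2 ≤ n := hle 2 hP2
  refine ⟨Nat.findGreatest P n, Nat.le_findGreatest h2n hP2, Nat.findGreatest_spec h2n hP2, ?_⟩
  intro ω hω x hx h hc
  have hPm : P (Nat.findGreatest P n + 1) := ⟨ω, hω, x, hx, h, hc⟩
  have := Nat.le_findGreatest (hle _ hPm) hPm
  omega

end Pool.Agent.Lib.MP_322c76_al.BW
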