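import Pool.Agent.Lib.MP_322c76_al.BW.Defs
import Pool.Agent.Lib.MP_322c76_al.BW.EAct

set_option autoImplicit false

namespace Pool.Agent.Lib.MP_322c76_al.BW

variable {k n D : ℕ}

/-! ROW Inf. If `Orb ω` meets infinitely many classes of `Insep`, then the points reached by words
of length `≤ r` meet at least `r + 1` classes (connectedness); for representatives `x_i` the sets
`E Γ ω x_i` are disjoint, have `(E Γ ω 0).ncard` elements each (`E_act`) and lie in
`[-(D r + Γ), D r + Γ]`. Let `r → ∞`. -/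

private theorem inf_symm {ω : Conf k} {x y : ℤ} (h : Insep ω x y) : Insep ω y x := by
  obtain ⟨Γ, h⟩ := h
  exact ⟨Γ, E_symm h⟩

private theorem inf_trans {ω : Conf k} {x y z : ℤ} (h : Insep ω x y) (h' : Insep ω y z) :
    Insep ω x z := by
  obtain ⟨Γ, h⟩ := h
  obtain ⟨Γ', h'⟩ := h'
  exact ⟨Γ + Γ', E_trans h h'⟩

private theorem inf_act {ω : Conf k} {x y : ℤ} (h : Insep ω x y) (g : Wd k) :
    Insep ω (act ω g x) (act ω g y) := by
  obtain ⟨Γ, h⟩ := h
  exact ⟨Γ, (E_act Γ ω g x y).mpr h⟩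

/-- many classes are met by short words -/
private theorem inf_many {ω : Conf k}
    (hinf : ∀ F : Finset ℤ, ∃ x ∈ Orb ω, ∀ y ∈ F, ¬ Insep ω x y) (r : ℕ) :
    ∃ F : Finset ℤ, F.card = r + 1 ∧ (0 : ℤ) ∈ F ∧
      (∀ y ∈ F, ∃ g : Wd k, g.norm ≤ r ∧ act ω g 0 = y) ∧
      ∀ y ∈ F, ∀ z ∈ F, y ≠ z → ¬ Insep ω y z := by
  classical
  induction r with
  | zero =>
    refine ⟨{0}, by simp, by simp, fun y hy => ⟨1, by simp, ?_⟩, fun y hy z hz hyz => ?_⟩
    · rw [Finset.mem_singleton] at hy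
      simp [hy]
    · rw [Finset.mem_singleton] at hy hz
      exact absurd (hy.trans hz.symm) hyz
  | succ r ih =>
    obtain ⟨F, hcard, h0, hreach, hsep⟩ := ih
    have hstep : ∃ f ∈ F, ∃ a : Wd k, a.norm ≤ 1 ∧ ∀ y ∈ F, ¬ Insep ω y (act ω a f) := by
      by_contra hcon
      push Not at hcon
      have hinv : ∀ a : Wd k, a.norm ≤ 1 → ∀ z : ℤ, (∃ y ∈ F, Insep ω y z) →
          ∃ y ∈ F, Insep ω y (act ω a z) := by
        rintro a ha z ⟨y, hy, hyz⟩
        obtain ⟨y', hy', h⟩ := hcon y hy a ha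
        exact ⟨y', hy', inf_trans h (inf_act hyz a)⟩
      have hall : ∀ g : Wd k, ∀ z : ℤ, (∃ y ∈ F, Insep ω y z) →
          ∃ y ∈ F, Insep ω y (act ω g z) := by
        intro g
        induction g using FreeGroup.induction_on with
        | C1 => intro z hz; simpa using hz
        | of i =>
          intro z hz
          exact hinv _ (by simp [FreeGroup.norm_of]) z hz
        | inv_of i _ =>
          intro z hz
          exact hinv _ (by rw [FreeGroup.norm_inv_eq]; simp [FreeGroup.norm_of]) z hz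
        | mul x y hx hy =>
          intro z hz
          rw [act_mul]
          exact hx _ (hy z hz)
      obtain ⟨x, ⟨g, rfl⟩, hx⟩ := hinf F
      obtain ⟨y, hy, h⟩ := hall g 0 ⟨0, h0, 0, E_self 0 ω 0⟩
      exact hx y hy (inf_symm h)
    obtain ⟨f, hf, a, ha, hnew⟩ := hstep
    have hnot : act ω a f ∉ F := fun h => hnew _ h ⟨0, E_self 0 ω _⟩
    refine ⟨insert (act ω a f) F, ?_, Finset.mem_insert_of_mem h0, ?_, ?_⟩
    · rw [Finset.card_insert_of_notMem hnot, hcard]
    · intro y hy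
      rcases Finset.mem_insert.mp hy with rfl | hy
      · obtain ⟨g, hg, hgf⟩ := hreach f hf
        refine ⟨a * g, (FreeGroup.norm_mul_le a g).trans (by omega), ?_⟩
        rw [act_mul, hgf]
      · obtain ⟨g, hg, hgf⟩ := hreach y hy
        exact ⟨g, by omega, hgf⟩
    · intro y hy z hz hyz
      rcases Finset.mem_insert.mp hy with rfl | hy <;> rcases Finset.mem_insert.mp hz with rfl | hz
      · exact absurd rfl hyz
      · exact fun h => hnew z hz (inf_symm h)
      · exact hnew y hy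
      · exact hsep y hy z hz hyz

private theorem inf_card (Γ : ℕ) (ω : Conf k) (g : Wd k) :
    (E Γ ω (act ω g 0)).ncard = (E Γ ω 0).ncard := by
  have h : E Γ ω (act ω g 0) = act ω g '' E Γ ω 0 := by
    ext y
    constructor
    · intro hy
      refine ⟨(act ω g).symm y, ?_, by simp⟩
      rw [← E_act Γ ω g]
      simpa using hy
    · rintro ⟨z, hz, rfl⟩
      exact (E_act Γ ω g 0 z).mpr hz
  rw [h]
  exact Set.ncard_image_of_injective _ (act ω g).injective

theorem card_E_le (S : Sys k n D) {ω : Conf k} (hω : ω ∈ S.Y)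
    (hinf : ∀ F : Finset ℤ, ∃ x ∈ Orb ω, ∀ y ∈ F, ¬ Insep ω x y) (Γ : ℕ) :
    (E Γ ω 0).ncard ≤ 2 * D := by
  classical
  have key : ∀ r : ℕ, (r + 1) * (E Γ ω 0).ncard ≤ 2 * (D * r + Γ) + 1 := by
    intro r
    obtain ⟨F, hcard, -, hreach, hsep⟩ := inf_many hinf r
    set B : ℤ → Finset ℤ := fun f => (E_finite Γ ω f).toFinset with hB
    have hBcard : ∀ f ∈ F, (B f).card = (E Γ ω 0).ncard := by
      intro f hf
      obtain ⟨g, -, rfl⟩ := hreach f hf
      rw [hB, ← Set.ncard_eq_toFinset_card _ (E_finite Γ ω _), inf_card]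
    have hdisj : ∀ y ∈ F, ∀ z ∈ F, y ≠ z → Disjoint (B y) (B z) := by
      intro y hy z hz hyz
      rw [Finset.disjoint_left]
      intro u hu hu'
      simp only [hB, Set.Finite.mem_toFinset] at hu hu'
      exact hsep y hy z hz hyz (inf_trans ⟨Γ, hu⟩ (inf_symm ⟨Γ, hu'⟩))
    have hsub : F.biUnion B ⊆ Finset.Icc (-((D * r + Γ : ℕ) : ℤ)) ((D * r + Γ : ℕ) : ℤ) := by
      intro u hu
      rw [Finset.mem_biUnion] at hu
      obtain ⟨f, hf, hu⟩ := hu
      simp only [hB, Set.Finite.mem_toFinset] at hu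
      obtain ⟨g, hg, rfl⟩ := hreach f hf
      have h1 := E_abs hu
      have h2 := act_disp (S.disp ω hω) g 0
      rw [sub_zero] at h2
      have h3 : (D : ℤ) * g.norm ≤ D * r := by
        have : (g.norm : ℤ) ≤ r := by exact_mod_cast hg
        exact mul_le_mul_of_nonneg_left this (by positivity)
      rw [abs_le] at h1 h2
      rw [Finset.mem_Icc]
      push_cast
      constructor <;> linarith [h1.1, h1.2, h2.1, h2.2]
    have h := Finset.card_le_card hsub
    rw [Finset.card_biUnion hdisj, Finset.sum_congr rfl hBcard, Finset.sum_const, hcard,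
      smul_eq_mul, Int.card_Icc] at h
    omega
  by_contra hcon
  push Not at hcon
  have h := key (2 * Γ + 1)
  have h2 : (2 * Γ + 1 + 1) * (2 * D + 1) ≤ (2 * Γ + 1 + 1) * (E Γ ω 0).ncard :=
    Nat.mul_le_mul_left _ hcon
  nlinarith

end Pool.Agent.Lib.MP_322c76_al.BW
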