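import Pool.Agent.Lib.MP_322c76_al.BW.Defs
import Pool.Agent.Lib.MP_322c76_al.BW.ECst

set_option autoImplicit false

namespace Pool.Agent.Lib.MP_322c76_al.BW

variable {k n D : ℕ}

/-! ROW G1. The stabiliser of the class of `0`. -/

private theorem g1_symm {ω : Conf k} {x y : ℤ} (h : Insep ω x y) : Insep ω y x := by
  obtain ⟨Γ, hΓ⟩ := h
  exact ⟨Γ, E_symm hΓ⟩

private theorem g1_trans {ω : Conf k} {x y z : ℤ} (h : Insep ω x y) (h' : Insep ω y z) :
    Insep ω x z := by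
  obtain ⟨Γ, hΓ⟩ := h
  obtain ⟨Γ', hΓ'⟩ := h'
  exact ⟨Γ + Γ', E_trans hΓ hΓ'⟩

private theorem g1_act {ω : Conf k} (g : Wd k) {x y : ℤ} (h : Insep ω x y) :
    Insep ω (act ω g x) (act ω g y) := by
  obtain ⟨Γ, hΓ⟩ := h
  exact ⟨Γ, (E_act Γ ω g x y).mpr hΓ⟩

/-- the stabiliser of the class of `0` -/
def G1 (ω : Conf k) : Subgroup (Wd k) where
  carrier := {g | Insep ω (act ω g 0) 0}
  one_mem' := by
    refine ⟨0, ?_⟩
    have : act ω (1 : Wd k) 0 = 0 := by simp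
    rw [this]
    exact E_self 0 ω 0
  mul_mem' := by
    intro g h hg hh
    change Insep ω (act ω g 0) 0 at hg
    change Insep ω (act ω h 0) 0 at hh
    change Insep ω (act ω (g * h) 0) 0
    rw [act_mul]
    exact g1_trans (g1_act g hh) hg
  inv_mem' := by
    intro g hg
    change Insep ω (act ω g 0) 0 at hg
    change Insep ω (act ω g⁻¹ 0) 0
    have h1 := g1_act g⁻¹ hg
    rw [act_inv_act] at h1
    exact g1_symm h1

theorem mem_G1 {ω : Conf k} {g : Wd k} : g ∈ G1 ω ↔ Insep ω (act ω g 0) 0 := Iff.rfl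

/-- finitely many classes: finite index (`g ↦` class of `g 0` is injective on cosets). -/
theorem G1_finiteIndex {ω : Conf k} (h : ∃ F : Finset ℤ, ∀ x ∈ Orb ω, ∃ y ∈ F, Insep ω x y) :
    (G1 ω).FiniteIndex := by
  obtain ⟨F, hF⟩ := h
  have hc : ∀ g : Wd k, ∃ y : F, Insep ω (act ω g 0) y := by
    intro g
    obtain ⟨y, hy, hI⟩ := hF (act ω g 0) ⟨g, rfl⟩
    exact ⟨⟨y, hy⟩, hI⟩
  choose f hf using hc
  have hinj : Function.Injective (fun q : Wd k ⧸ G1 ω => f q.out) := by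
    intro q q' hq
    simp only at hq
    have h1 : Insep ω (act ω q.out 0) (act ω q'.out 0) := by
      refine g1_trans (hf q.out) ?_
      rw [hq]
      exact g1_symm (hf q'.out)
    have h2 := g1_act q.out⁻¹ h1
    rw [act_inv_act, ← act_mul] at h2
    have h3 : q.out⁻¹ * q'.out ∈ G1 ω := mem_G1.mpr (g1_symm h2)
    have h4 : (q.out : Wd k ⧸ G1 ω) = (q'.out : Wd k ⧸ G1 ω) := QuotientGroup.eq.mpr h3
    simpa using h4
  have : Finite (Wd k ⧸ G1 ω) := Finite.of_injective _ hinj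
  exact Subgroup.finiteIndex_of_finite_quotient

/-- `G1 (reroot ω g) = g (G1 ω) g⁻¹` -/
theorem mem_G1_reroot {ω : Conf k} {g h : Wd k} : h ∈ G1 (reroot ω g) ↔ g⁻¹ * h * g ∈ G1 ω := by
  rw [mem_G1, mem_G1]
  unfold Insep
  refine exists_congr fun Γ => ?_
  rw [E_reroot, act_reroot, act_mul, act_mul]
  have h1 := E_act Γ ω g⁻¹ (act ω h (act ω g 0)) (act ω g 0)
  rw [act_inv_act] at h1
  rw [h1]
  simp only [zero_add, sub_add_cancel]

private theorem g1_index_reroot (ω : Conf k) (g : Wd k) :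
    (G1 (reroot ω g)).index = (G1 ω).index := by
  have h1 : G1 (reroot ω g) = (G1 ω).comap (MulAut.conj g⁻¹).toMonoidHom := by
    ext h
    rw [mem_G1_reroot, Subgroup.mem_comap]
    simp
  rw [h1]
  exact Subgroup.index_comap_of_surjective _ (MulAut.conj g⁻¹).surjective

private theorem g1_le_near (S : Sys k n D)
    (h : ∀ ω ∈ S.Y, ∃ F : Finset ℤ, ∀ x ∈ Orb ω, ∃ y ∈ F, Insep ω x y) :
    ∀ ω ∈ S.Y, ∃ R : ℕ, ∀ ω' ∈ S.Y, Agree R ω' ω → G1 ω ≤ G1 ω' := by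
  intro ω hω
  have hfi := G1_finiteIndex (h ω hω)
  have hfg : (G1 ω).FG := (Group.fg_iff_subgroup_fg (G1 ω)).mp (Subgroup.fg_of_index_ne_zero (G1 ω))
  obtain ⟨V, hV⟩ := hfg
  have hmem : ∀ v ∈ V, v ∈ G1 ω := by
    intro v hv
    rw [← hV]
    exact Subgroup.subset_closure hv
  have hloc : ∀ v ∈ V, ∃ R : ℕ, ∀ ω' ∈ S.Y, Agree R ω' ω → v ∈ G1 ω' := by
    intro v hv
    obtain ⟨Γ, hΓ⟩ := mem_G1.mp (hmem v hv)
    obtain ⟨R, hR⟩ := E_local S Γ ω hω
    refine ⟨max R (D * v.norm), fun ω' hω' hA => ?_⟩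
    have h1 : E Γ ω' 0 = E Γ ω 0 := hR ω' hω' (hA.mono (le_max_left _ _))
    have h2 : act ω' v 0 = act ω v 0 := by
      refine Agree.act_eq (S.disp ω' hω') (hA.mono (le_max_right _ _)) v 0 ?_
      simp
    rw [mem_G1, h2]
    refine ⟨Γ, E_symm ?_⟩
    rw [h1]
    exact E_symm hΓ
  choose! R hR using hloc
  refine ⟨V.sup R, fun ω' hω' hA => ?_⟩
  rw [← hV, Subgroup.closure_le]
  intro v hv
  exact hR v hv ω' hω' (hA.mono (Finset.le_sup hv))

/-- LOCAL CONSTANCY. `G1 ω` is generated by finitely many `v_i` (finite index in a free group of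
finite rank), `v_i 0 ∈ E Γ ω 0` for one `Γ`; by `E_local` (and `Agree.act_eq`) `G1 ω ≤ G1 ω'` for `ω'`
near `ω`. Minimal index over `Y` at `ω₂`; near `ω₂` the index is the same, so equality there; by
`recu` and `mem_G1_reroot` the index is the same everywhere; so equality near every `ω`. -/
theorem G1_local (S : Sys k n D)
    (h : ∀ ω ∈ S.Y, ∃ F : Finset ℤ, ∀ x ∈ Orb ω, ∃ y ∈ F, Insep ω x y) :
    ∀ ω ∈ S.Y, ∃ R : ℕ, ∀ ω' ∈ S.Y, Agree R ω' ω → G1 ω' = G1 ω := by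
  -- the index is constant
  have hne : ((fun ω => (G1 ω).index) '' S.Y).Nonempty := S.ne.image _
  obtain ⟨ω₂, hω₂, hmin2⟩ := Nat.sInf_mem hne
  simp only at hmin2
  have hmin : ∀ ω ∈ S.Y, (G1 ω₂).index ≤ (G1 ω).index := by
    intro ω hω
    rw [hmin2]
    exact Nat.sInf_le ⟨ω, hω, rfl⟩
  obtain ⟨R, hR⟩ := g1_le_near S h ω₂ hω₂
  obtain ⟨L, hL⟩ := S.recu ω₂ hω₂ R
  have hconst : ∀ ω ∈ S.Y, (G1 ω).index = (G1 ω₂).index := by
    intro ω hω
    obtain ⟨g, -, hA⟩ := hL ω hω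
    have h1 := hR (reroot ω g) (S.rr ω hω g) hA
    have h2 : (G1 (reroot ω g)).index ∣ (G1 ω₂).index := Subgroup.index_dvd_of_le h1
    rw [g1_index_reroot] at h2
    have hpos : 0 < (G1 ω₂).index := by
      have := G1_finiteIndex (h ω₂ hω₂)
      exact Nat.pos_of_ne_zero Subgroup.FiniteIndex.index_ne_zero
    exact le_antisymm (Nat.le_of_dvd hpos h2) (hmin ω hω)
  intro ω hω
  obtain ⟨R', hR'⟩ := g1_le_near S h ω hω
  refine ⟨R', fun ω' hω' hA => ?_⟩
  have h1 := hR' ω' hω' hA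
  have h2 : (G1 ω).index = (G1 ω').index := by rw [hconst ω hω, hconst ω' hω']
  have hfi := G1_finiteIndex (h ω' hω')
  by_contra hcon
  have hlt : G1 ω < G1 ω' := lt_of_le_of_ne h1 (fun he => hcon he.symm)
  have h3 := Subgroup.relIndex_mul_index h1
  rw [h2] at h3
  have h4 : (G1 ω).relIndex (G1 ω') = 1 := by
    have h5 : (G1 ω').index ≠ 0 := hfi.index_ne_zero
    exact Nat.eq_of_mul_eq_mul_right (Nat.pos_of_ne_zero h5) (by rw [h3, one_mul])
  exact absurd (Subgroup.relIndex_eq_one.mp h4) (not_le_of_gt hlt)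

end Pool.Agent.Lib.MP_322c76_al.BW
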