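import Pool.Agent.Lib.MP_322c76_al.BW.Defs
import Pool.Agent.Lib.MP_322c76_al.BW.G1
import Pool.Agent.Lib.MP_322c76_al.BW.Hair

set_option autoImplicit false

namespace Pool.Agent.Lib.MP_322c76_al.BW

variable {k n D : ℕ}

/-! ROW Unif. For a word `v`: `v ∈ G1 ω` is locally constant, and then `v 0 ∈ E Γ ω 0` for some `Γ`,
which persists nearby (`E_local`); by compactness (`cpt` with
`P Γ ω := v ∈ G1 ω → act ω v 0 ∈ E Γ ω 0`) one `Γ_v` works. By `no_hairpin` (reroot at `x`) only finitely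
many `v` matter for `|x - y| ≤ L`. -/

private theorem unif_fin (κ : ℕ) : {g : Wd k | g.norm ≤ κ}.Finite := by
  have h1 : {l : List (Fin k × Bool) | l.length ≤ κ}.Finite := List.finite_length_le _ _
  refine Set.Finite.of_finite_image (f := FreeGroup.toWord) (h1.subset ?_) (FreeGroup.toWord_injective.injOn)
  rintro _ ⟨g, hg, rfl⟩
  exact hg

private theorem unif_word (S : Sys k n D)
    (h : ∀ ω ∈ S.Y, ∃ F : Finset ℤ, ∀ x ∈ Orb ω, ∃ y ∈ F, Insep ω x y) (v : Wd k) :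
    ∃ t : ℕ, ∀ ω ∈ S.Y, v ∈ G1 ω → act ω v 0 ∈ E t ω 0 := by
  refine S.cpt (fun t ω => v ∈ G1 ω → act ω v 0 ∈ E t ω 0) (fun t ω h1 h2 => E_mono (Nat.le_succ t) ω 0 (h1 h2)) ?_
  intro ω hω
  obtain ⟨R1, hR1⟩ := G1_local S h ω hω
  by_cases hv : v ∈ G1 ω
  · obtain ⟨Γ, hΓ⟩ := mem_G1.1 hv
    have h1 : act ω v 0 ∈ E Γ ω 0 := E_symm hΓ
    obtain ⟨R2, hR2⟩ := E_local S Γ ω hω
    refine ⟨Γ, max R2 (D * v.norm), fun ω' hω' hA _ => ?_⟩
    rw [hR2 ω' hω' (Agree.mono (le_max_left _ _) hA)]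
    rw [Agree.act_eq (S.disp ω' hω') hA v 0 (by
      rw [abs_zero, zero_add]
      exact_mod_cast le_max_right _ _)]
    exact h1
  · refine ⟨0, R1, fun ω' hω' hA h2 => ?_⟩
    rw [hR1 ω' hω' hA] at h2
    exact absurd h2 hv

theorem uniform_E (S : Sys k n D)
    (h : ∀ ω ∈ S.Y, ∃ F : Finset ℤ, ∀ x ∈ Orb ω, ∃ y ∈ F, Insep ω x y) (L : ℕ) :
    ∃ f : ℕ, ∀ ω ∈ S.Y, ∀ x ∈ Orb ω, ∀ y ∈ Orb ω, |x - y| ≤ L → Insep ω x y → y ∈ E f ω x := by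
  obtain ⟨κ, hκ⟩ := no_hairpin S L
  choose t ht using unif_word S h
  refine ⟨(unif_fin κ).toFinset.sup t, fun ω hω x hx y hy hxy hI => ?_⟩
  obtain ⟨g, hg, hgx⟩ := hκ ω hω x hx y hy hxy
  obtain ⟨a, ha⟩ := hx
  have h1 : reroot ω a ∈ S.Y := S.rr ω hω a
  have h2 : act (reroot ω a) g 0 = y - x := by
    rw [act_reroot, ha, zero_add, hgx]
  have h3 : g ∈ G1 (reroot ω a) := by
    rw [mem_G1, h2]
    obtain ⟨Γ, hΓ⟩ := hI
    refine ⟨Γ, ?_⟩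
    rw [E_reroot, ha, zero_add, sub_add_cancel]
    exact E_symm hΓ
  have h4 := ht g (reroot ω a) h1 h3
  rw [h2, E_reroot, ha, zero_add, sub_add_cancel] at h4
  exact E_mono (Finset.le_sup (f := t) ((unif_fin κ).mem_toFinset.2 hg)) ω x h4

end Pool.Agent.Lib.MP_322c76_al.BW
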