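import Pool.Agent.Lib.MP_322c76_al.BW.Defs
import Pool.Agent.Lib.MP_322c76_al.BW.Unif

set_option autoImplicit false

namespace Pool.Agent.Lib.MP_322c76_al.BW

variable {k n D : ℕ}

/-! ROW Orient (section 3 of the note), everything for one `ω ∈ Y`. `H = G1 ω`, finite index,
`X₁ = H 0` infinite; `f : ℕ → ℕ` from `uniform_E`, made nondecreasing, `f L ≥ L`. All points of `X₁` are
inseparable, so for `x, y ∈ X₁`: `|x-y| ≤ L → |wx - wy| ≤ f L` for all words `w` (and conversely, use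
`w⁻¹`). `H` is generated by finitely many words, displacement `≤ D₁`. If `x < u, u'` in `X₁`,
`|u - u'| ≤ 2 D₁` and `u - x, u' - x > f (f (2 D₁))` then `|wu-wx|, |wu'-wx| > f (2D₁) ≥ |wu-wu'|`: same
sign. So the sign of `wy - wx` (`x < y` far apart in `X₁`) does not depend on the pair (move `y`, move
`x`; `X₁` is unbounded on one side): `ε w`, multiplicative on `H`. Choose `g ∈ H` with `ε g = +` and
`|g 0| ≥ R_n`, `R_{j+1} = f (R_j) + 1`, `R_1` large. Then `g^(j+1) 0 - g^j 0` keeps its sign and is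
`≥ R_(n-j)` in absolute value; so `g^n 0 ≠ 0`, contradiction. -/

/-- moving the upper point -/
private theorem orient_up (X : Set ℤ) (D₁ T M : ℤ) (w : ℤ → ℤ)
    (hstep : ∀ u ∈ X, ∀ u' ∈ X, u < u' → ∃ q ∈ X, u < q ∧ q ≤ u + D₁)
    (h1 : ∀ x ∈ X, ∀ u ∈ X, T < |u - x| → M < |w u - w x|)
    (h2 : ∀ x ∈ X, ∀ u ∈ X, |u - x| ≤ D₁ → |w u - w x| ≤ M)
    (x : ℤ) (hx : x ∈ X) : ∀ N : ℕ, ∀ u ∈ X, ∀ u' ∈ X, u ≤ u' → u' - u ≤ N → T < u - x → 0 ≤ u - x →
    (0 < w u - w x ↔ 0 < w u' - w x) := by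
  intro N
  induction N with
  | zero =>
    intro u hu u' hu' huu hN hT h0
    have : u = u' := by push_cast at hN; omega
    rw [this]
  | succ N ih =>
    intro u hu u' hu' huu hN hT h0
    have key : ∀ q ∈ X, u ≤ q → q ≤ u + D₁ → (0 < w u - w x ↔ 0 < w q - w x) := by
      intro q hq huq hqD
      have a1 : M < |w u - w x| := h1 x hx u hu (by rw [abs_of_nonneg h0]; exact hT)
      have a2 : M < |w q - w x| := h1 x hx q hq (by rw [abs_of_nonneg (by omega)]; omega)
      have a3 : |w q - w u| ≤ M := h2 u hu q hq (by rw [abs_of_nonneg (by omega)]; omega)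
      rw [abs_le] at a3
      constructor
      · intro hp
        rw [abs_of_pos hp] at a1
        omega
      · intro hp
        rw [abs_of_pos hp] at a2
        omega
    by_cases hle : u' ≤ u + D₁
    · exact key u' hu' huu hle
    · by_cases hEq : u = u'
      · rw [hEq]
      obtain ⟨q, hq, huq, hqD⟩ := hstep u hu u' hu' (by omega)
      rw [key q hq huq.le hqD]
      exact ih q hq u' hu' (by omega) (by push_cast at hN; omega) (by omega) (by omega)

private theorem orient_dich (X : Set ℤ) (hX : X.Infinite) (D₁ T M : ℤ) (hT0 : 0 ≤ T) (w : ℤ → ℤ)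
    (hstep : ∀ u ∈ X, ∀ u' ∈ X, u < u' → ∃ q ∈ X, u < q ∧ q ≤ u + D₁)
    (hstep' : ∀ u ∈ X, ∀ u' ∈ X, u' < u → ∃ q ∈ X, q < u ∧ u - D₁ ≤ q)
    (h1 : ∀ x ∈ X, ∀ u ∈ X, T < |u - x| → M < |w u - w x|)
    (h2 : ∀ x ∈ X, ∀ u ∈ X, |u - x| ≤ D₁ → |w u - w x| ≤ M) :
    (∀ x ∈ X, ∀ u ∈ X, T < u - x → 0 < w u - w x) ∨
      (∀ x ∈ X, ∀ u ∈ X, T < u - x → w u - w x < 0) := by
  have hM : 0 ≤ M := by
    obtain ⟨x, hx⟩ := hX.nonempty
    by_cases hD : 0 ≤ D₁
    · have := h2 x hx x hx (by simpa using hD)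
      exact le_trans (abs_nonneg _) this
    · exfalso
      obtain ⟨u, hu, u', hu', hne⟩ : ∃ u ∈ X, ∃ u' ∈ X, u < u' := by
        obtain ⟨y, hy, hyx⟩ : ∃ y ∈ X, y ≠ x := by
          by_contra hcon
          push Not at hcon
          exact hX ((Set.finite_singleton x).subset fun y hy => hcon y hy)
        rcases lt_or_gt_of_ne hyx with h | h
        · exact ⟨y, hy, x, hx, h⟩
        · exact ⟨x, hx, y, hy, h⟩
      obtain ⟨q, _, hq1, hq2⟩ := hstep u hu u' hu' hne
      omega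
  have up : ∀ x ∈ X, ∀ u ∈ X, ∀ u' ∈ X, T < u - x → T < u' - x →
      (0 < w u - w x ↔ 0 < w u' - w x) := by
    intro x hx u hu u' hu' hT hT'
    rcases le_total u u' with h | h
    · exact orient_up X D₁ T M w hstep h1 h2 x hx (u' - u).toNat u hu u' hu' h
        (by rw [Int.toNat_of_nonneg (by omega)]) hT (by omega)
    · exact (orient_up X D₁ T M w hstep h1 h2 x hx (u - u').toNat u' hu' u hu h
        (by rw [Int.toNat_of_nonneg (by omega)]) hT' (by omega)).symm
  have down : ∀ u ∈ X, ∀ x ∈ X, ∀ x' ∈ X, T < u - x → T < u - x' →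
      (0 < w u - w x ↔ 0 < w u - w x') := by
    intro u hu x hx x' hx' hT hT'
    -- reflect
    have hs : ∀ v ∈ (Neg.neg ⁻¹' X : Set ℤ), ∀ v' ∈ (Neg.neg ⁻¹' X : Set ℤ), v < v' →
        ∃ q ∈ (Neg.neg ⁻¹' X : Set ℤ), v < q ∧ q ≤ v + D₁ := by
      intro v hv v' hv' hvv
      obtain ⟨q, hq, h3, h4⟩ := hstep' (-v) hv (-v') hv' (by omega)
      exact ⟨-q, by simpa using hq, by omega, by omega⟩
    have hh1 : ∀ x ∈ (Neg.neg ⁻¹' X : Set ℤ), ∀ u ∈ (Neg.neg ⁻¹' X : Set ℤ), T < |u - x| →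
        M < |(fun z => - w (-z)) u - (fun z => - w (-z)) x| := by
      intro x hx u hu h
      have := h1 (-x) hx (-u) hu (by
        have e : -u - -x = -(u - x) := by ring
        rw [e, abs_neg]; exact h)
      have e : (fun z => - w (-z)) u - (fun z => - w (-z)) x = -(w (-u) - w (-x)) := by
        simp only; ring
      rw [e, abs_neg]; exact this
    have hh2 : ∀ x ∈ (Neg.neg ⁻¹' X : Set ℤ), ∀ u ∈ (Neg.neg ⁻¹' X : Set ℤ), |u - x| ≤ D₁ →
        |(fun z => - w (-z)) u - (fun z => - w (-z)) x| ≤ M := by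
      intro x hx u hu h
      have := h2 (-x) hx (-u) hu (by
        have e : -u - -x = -(u - x) := by ring
        rw [e, abs_neg]; exact h)
      have e : (fun z => - w (-z)) u - (fun z => - w (-z)) x = -(w (-u) - w (-x)) := by
        simp only; ring
      rw [e, abs_neg]; exact this
    have e1 : ∀ a : ℤ, - w (- -a) - - w (- -u) = w u - w a := by intro a; simp only [neg_neg]; ring
    rcases le_total x x' with h | h
    · have := orient_up (Neg.neg ⁻¹' X) D₁ T M (fun z => - w (-z)) hs hh1 hh2 (-u)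
        (by simpa using hu) (x' - x).toNat (-x') (by simpa using hx') (-x) (by simpa using hx)
        (by omega) (by rw [Int.toNat_of_nonneg (by omega)]; omega) (by omega) (by omega)
      simp only [e1] at this
      exact this.symm
    · have := orient_up (Neg.neg ⁻¹' X) D₁ T M (fun z => - w (-z)) hs hh1 hh2 (-u)
        (by simpa using hu) (x - x').toNat (-x) (by simpa using hx) (-x') (by simpa using hx')
        (by omega) (by rw [Int.toNat_of_nonneg (by omega)]; omega) (by omega) (by omega)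
      simp only [e1] at this
      exact this
  have main : ∀ x ∈ X, ∀ u ∈ X, ∀ x' ∈ X, ∀ u' ∈ X, T < u - x → T < u' - x' →
      (0 < w u - w x ↔ 0 < w u' - w x') := by
    intro x hx u hu x' hx' u' hu' hT hT'
    -- unbounded above or below
    by_cases hub : ∀ B : ℤ, ∃ u ∈ X, B < u
    · obtain ⟨v, hv, hBv⟩ := hub (max (x + T) (x' + T))
      have b1 := le_max_left (x + T) (x' + T)
      have b2 := le_max_right (x + T) (x' + T)
      rw [up x hx u hu v hv hT (by omega), down v hv x hx x' hx' (by omega) (by omega),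
        up x' hx' v hv u' hu' (by omega) hT']
    · have hlb : ∀ B : ℤ, ∃ u ∈ X, u < B := by
        push Not at hub
        obtain ⟨B, hB⟩ := hub
        intro B'
        by_contra hcon
        push Not at hcon
        exact hX ((Set.finite_Icc B' B).subset fun y hy => ⟨hcon y hy, hB y hy⟩)
      obtain ⟨v, hv, hBv⟩ := hlb (min (u - T) (u' - T))
      have b1 := min_le_left (u - T) (u' - T)
      have b2 := min_le_right (u - T) (u' - T)
      rw [down u hu x hx v hv hT (by omega), up v hv u hu u' hu' (by omega) (by omega),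
        down u' hu' v hv x' hx' (by omega) hT']
  by_cases hex : ∃ x ∈ X, ∃ u ∈ X, T < u - x ∧ 0 < w u - w x
  · left
    obtain ⟨x₀, hx₀, u₀, hu₀, hT, hp⟩ := hex
    intro x hx u hu hxu
    exact (main x₀ hx₀ u₀ hu₀ x hx u hu hT hxu).1 hp
  · right
    push Not at hex
    intro x hx u hu hxu
    have a1 := hex x hx u hu hxu
    have a2 := h1 x hx u hu (by rw [abs_of_nonneg (by omega)]; exact hxu)
    rcases lt_or_eq_of_le a1 with h | h
    · exact h
    · rw [h, abs_zero] at a2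
      omega

/-- crossing a level -/
private theorem orient_cross {ω : Conf k} (H : Subgroup (Wd k)) (S : Set (Wd k))
    (hS : Subgroup.closure S = H) (D₁ : ℤ) (hD : ∀ v ∈ S, ∀ x, |act ω v x - x| ≤ D₁) (c : ℤ) :
    ∀ g ∈ H, ∀ x ∈ {y | ∃ h ∈ H, act ω h 0 = y},
      ((x ≤ c ∧ c < act ω g x) ∨ (act ω g x ≤ c ∧ c < x)) →
      ∃ p ∈ {y | ∃ h ∈ H, act ω h 0 = y}, ∃ q ∈ {y | ∃ h ∈ H, act ω h 0 = y},
        p ≤ c ∧ c < q ∧ q - p ≤ D₁ := by
  have hmem : ∀ g ∈ H, ∀ x ∈ {y | ∃ h ∈ H, act ω h 0 = y},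
      act ω g x ∈ {y | ∃ h ∈ H, act ω h 0 = y} := by
    rintro g hg x ⟨h, hh, rfl⟩
    exact ⟨g * h, H.mul_mem hg hh, by rw [act_mul]⟩
  intro g hg
  rw [← hS] at hg
  induction hg using Subgroup.closure_induction with
  | mem v hv =>
    intro x hx hc
    have hvH : v ∈ H := hS ▸ Subgroup.subset_closure hv
    have hd := abs_le.1 (hD v hv x)
    rcases hc with ⟨h1, h2⟩ | ⟨h1, h2⟩
    · exact ⟨x, hx, act ω v x, hmem v hvH x hx, h1, h2, by omega⟩
    · exact ⟨act ω v x, hmem v hvH x hx, x, hx, h1, h2, by omega⟩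
  | one =>
    intro x hx hc
    simp only [act_one, Equiv.Perm.coe_one, id_eq] at hc
    omega
  | mul a b ha hb iha ihb =>
    intro x hx hc
    have hbH : b ∈ H := hS ▸ hb
    rw [act_mul] at hc
    by_cases hbx : act ω b x ≤ c
    · rcases hc with ⟨h1, h2⟩ | ⟨h1, h2⟩
      · exact iha _ (hmem b hbH x hx) (Or.inl ⟨hbx, h2⟩)
      · exact ihb x hx (Or.inr ⟨hbx, h2⟩)
    · push Not at hbx
      rcases hc with ⟨h1, h2⟩ | ⟨h1, h2⟩
      · exact ihb x hx (Or.inl ⟨h1, hbx⟩)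
      · exact iha _ (hmem b hbH x hx) (Or.inr ⟨h1, hbx⟩)
  | inv a ha iha =>
    intro x hx hc
    have haH : a ∈ H := hS ▸ ha
    have := iha (act ω a⁻¹ x) (hmem _ (H.inv_mem haH) x hx)
    rw [act_act_inv] at this
    exact this (by tauto)

theorem not_finite_classes (S : Sys k n D) (hn : 1 ≤ n)
    (h : ∀ ω ∈ S.Y, ∃ F : Finset ℤ, ∀ x ∈ Orb ω, ∃ y ∈ F, Insep ω x y) : False := by
  obtain ⟨ω, hω⟩ := S.ne
  have hfi : (G1 ω).FiniteIndex := G1_finiteIndex (h ω hω)
  set H := G1 ω with hH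
  set X : Set ℤ := {y | ∃ g ∈ H, act ω g 0 = y} with hX
  have hmem : ∀ g ∈ H, ∀ x ∈ X, act ω g x ∈ X := by
    rintro g hg x ⟨h, hh, rfl⟩
    exact ⟨g * h, H.mul_mem hg hh, by rw [act_mul]⟩
  have h0X : (0 : ℤ) ∈ X := ⟨1, H.one_mem, by simp⟩
  -- the set is infinite
  have hXinf : X.Infinite := by
    intro hfin
    apply S.infi ω hω
    have : Finite (Wd k ⧸ H) := inferInstance
    have hsub : Orb ω ⊆ ⋃ q : Wd k ⧸ H, (act ω q.out) '' X := by
      rintro y ⟨g, rfl⟩
      obtain ⟨h', hh'⟩ := QuotientGroup.mk_out_eq_mul H g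
      refine Set.mem_iUnion.2 ⟨(g : Wd k ⧸ H), ?_⟩
      refine ⟨act ω (h' : Wd k)⁻¹ 0, ⟨(h' : Wd k)⁻¹, H.inv_mem h'.2, rfl⟩, ?_⟩
      rw [← act_mul, hh']
      simp
    exact (Set.finite_iUnion fun q => hfin.image _).subset hsub
  -- generators of finite displacement
  have hFG : H.FG := (Group.fg_iff_subgroup_fg H).1 (Subgroup.fg_of_index_ne_zero H)
  obtain ⟨V, hV⟩ := hFG
  set D₁ : ℕ := ∑ v ∈ V, D * v.norm with hD₁
  have hdisp : ∀ v ∈ (V : Set (Wd k)), ∀ x, |act ω v x - x| ≤ (D₁ : ℤ) := by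
    intro v hv x
    refine (act_disp (S.disp ω hω) v x).trans ?_
    have : D * v.norm ≤ D₁ :=
      Finset.single_le_sum (f := fun v : Wd k => D * v.norm) (fun _ _ => Nat.zero_le _) hv
    exact_mod_cast this
  have hcon : ∀ x ∈ X, ∀ y ∈ X, ∃ g ∈ H, act ω g x = y := by
    rintro x ⟨a, ha, rfl⟩ y ⟨b, hb, rfl⟩
    refine ⟨b * a⁻¹, H.mul_mem hb (H.inv_mem ha), ?_⟩
    rw [act_mul, act_inv_act]
  have hstep : ∀ u ∈ X, ∀ u' ∈ X, u < u' → ∃ q ∈ X, u < q ∧ q ≤ u + (D₁ : ℤ) := by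
    intro u hu u' hu' hlt
    obtain ⟨g, hg, hgu⟩ := hcon u hu u' hu'
    obtain ⟨p, hp, q, hq, h1, h2, h3⟩ := orient_cross (ω := ω) H V hV D₁ hdisp u g hg u hu
      (Or.inl ⟨le_rfl, by rw [hgu]; exact hlt⟩)
    exact ⟨q, hq, h2, by omega⟩
  have hstep' : ∀ u ∈ X, ∀ u' ∈ X, u' < u → ∃ q ∈ X, q < u ∧ u - (D₁ : ℤ) ≤ q := by
    intro u hu u' hu' hlt
    obtain ⟨g, hg, hgu⟩ := hcon u hu u' hu'
    obtain ⟨p, hp, q, hq, h1, h2, h3⟩ := orient_cross (ω := ω) H V hV D₁ hdisp (u - 1) g hg u hu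
      (Or.inr ⟨by rw [hgu]; omega, by omega⟩)
    exact ⟨p, hp, by omega, by omega⟩
  -- the function
  choose f₀ hf₀ using fun L => uniform_E S h L
  set F : ℕ → ℕ := fun L => L + ∑ l ∈ Finset.range (L + 1), f₀ l with hF
  have hFmono : Monotone F := by
    intro a b hab
    simp only [hF]
    exact add_le_add hab (Finset.sum_le_sum_of_subset (by
      intro i hi
      rw [Finset.mem_range] at hi ⊢
      omega))
  have hFge : ∀ L, L ≤ F L := fun L => Nat.le_add_right _ _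
  have hf₀F : ∀ L, f₀ L ≤ F L := by
    intro L
    have : f₀ L ≤ ∑ l ∈ Finset.range (L + 1), f₀ l :=
      Finset.single_le_sum (f := f₀) (fun _ _ => Nat.zero_le _) (by simp)
    simp only [hF]
    omega
  have hins : ∀ x ∈ X, ∀ y ∈ X, Insep ω x y := by
    rintro x ⟨a, ha, rfl⟩ y ⟨b, hb, rfl⟩
    obtain ⟨Γ, hΓ⟩ := mem_G1.1 ha
    obtain ⟨Γ', hΓ'⟩ := mem_G1.1 hb
    exact ⟨Γ + Γ', E_trans hΓ (E_symm hΓ')⟩
  have horb : ∀ x ∈ X, x ∈ Orb ω := by
    rintro x ⟨a, ha, rfl⟩
    exact ⟨a, rfl⟩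
  have hclose : ∀ L : ℕ, ∀ x ∈ X, ∀ y ∈ X, |x - y| ≤ L → ∀ w : Wd k,
      |act ω w x - act ω w y| ≤ F L := by
    intro L x hx y hy hxy w
    have := hf₀ L ω hω x (horb x hx) y (horb y hy) hxy (hins x hx y hy) w
    rw [abs_sub_comm]
    refine this.trans ?_
    exact_mod_cast hf₀F L
  have hfar : ∀ L : ℕ, ∀ x ∈ X, ∀ y ∈ X, (F L : ℤ) < |x - y| → ∀ w ∈ H,
      (L : ℤ) < |act ω w x - act ω w y| := by
    intro L x hx y hy hxy w hw
    by_contra hle
    push Not at hle
    have := hclose L _ (hmem w hw x hx) _ (hmem w hw y hy) hle w⁻¹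
    rw [act_inv_act, act_inv_act] at this
    omega
  -- orientation
  set T : ℕ := F (F D₁) with hT
  have hdich : ∀ w ∈ H, (∀ x ∈ X, ∀ u ∈ X, (T : ℤ) < u - x → 0 < act ω w u - act ω w x) ∨
      (∀ x ∈ X, ∀ u ∈ X, (T : ℤ) < u - x → act ω w u - act ω w x < 0) := by
    intro w hw
    refine orient_dich X hXinf D₁ T (F D₁) (by positivity) (fun z => act ω w z) hstep hstep' ?_ ?_
    · intro x hx u hu hxu
      exact hfar (F D₁) u hu x hx hxu w hw
    · intro x hx u hu hxu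
      exact hclose D₁ u hu x hx hxu w
  -- large elements
  have hlarge : ∀ B : ℕ, ∃ g ∈ H, (B : ℤ) ≤ |act ω g 0| := by
    intro B
    by_contra hcon'
    push Not at hcon'
    apply hXinf
    refine (Set.finite_Icc (-(B : ℤ)) B).subset ?_
    rintro y ⟨g, hg, rfl⟩
    have := abs_lt.1 (hcon' g hg)
    exact ⟨this.1.le, this.2.le⟩
  have hfarpair : ∀ B : ℕ, ∃ x ∈ X, ∃ u ∈ X, (B : ℤ) < u - x := by
    intro B
    obtain ⟨g, hg, hgB⟩ := hlarge (B + 1)
    have hgX : act ω g 0 ∈ X := ⟨g, hg, rfl⟩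
    rcases le_total 0 (act ω g 0) with h' | h'
    · rw [abs_of_nonneg h'] at hgB
      exact ⟨0, h0X, _, hgX, by push_cast at hgB; omega⟩
    · rw [abs_of_nonpos h'] at hgB
      exact ⟨_, hgX, 0, h0X, by push_cast at hgB; omega⟩
  have hpos : ∀ B : ℕ, ∃ g ∈ H, (B : ℤ) ≤ |act ω g 0| ∧
      ∀ x ∈ X, ∀ u ∈ X, (T : ℤ) < u - x → 0 < act ω g u - act ω g x := by
    intro B
    by_cases hneg : ∃ w ∈ H, ∀ x ∈ X, ∀ u ∈ X, (T : ℤ) < u - x → act ω w u - act ω w x < 0
    · obtain ⟨w, hw, hwneg⟩ := hneg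
      obtain ⟨g, hg, hgB⟩ := hlarge (B + D * w.norm)
      rcases hdich g hg with hp | hnn
      · refine ⟨g, hg, ?_, hp⟩
        push_cast at hgB
        have : (0 : ℤ) ≤ D * w.norm := by positivity
        omega
      · refine ⟨w * g, H.mul_mem hw hg, ?_, ?_⟩
        · rw [act_mul]
          have hd := act_disp (S.disp ω hω) w (act ω g 0)
          push_cast at hgB
          have h3 : |act ω g 0| ≤ |act ω w (act ω g 0)| + |act ω w (act ω g 0) - act ω g 0| := by
            have := abs_sub_abs_le_abs_sub (act ω g 0) (act ω w (act ω g 0))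
            rw [abs_sub_comm] at this
            linarith
          linarith
        · rcases hdich (w * g) (H.mul_mem hw hg) with hp | hnn'
          · exact hp
          · exfalso
            obtain ⟨x, hx, u, hu, hxu⟩ := hfarpair (F T)
            have hTF : (T : ℤ) ≤ F T := by exact_mod_cast hFge T
            have a1 := hnn' x hx u hu (by omega)
            have a2 := hnn x hx u hu (by omega)
            have a3 := hfar T u hu x hx (by rw [abs_of_nonneg (by omega)]; exact hxu) g hg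
            rw [abs_of_neg a2] at a3
            have a4 := hwneg _ (hmem g hg u hu) _ (hmem g hg x hx) (by omega)
            rw [act_mul, act_mul] at a1
            omega
    · push Not at hneg
      obtain ⟨g, hg, hgB⟩ := hlarge B
      refine ⟨g, hg, hgB, ?_⟩
      rcases hdich g hg with hp | hnn
      · exact hp
      · obtain ⟨x, hx, u, hu, hxu, hle⟩ := hneg g hg
        have := hnn x hx u hu hxu
        omega
  -- scales
  set Rs : ℕ → ℕ := fun j => Nat.rec (T + 1) (fun _ r => F r + 1) j with hRs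
  have hRs0 : Rs 0 = T + 1 := rfl
  have hRs1 : ∀ j, Rs (j + 1) = F (Rs j) + 1 := fun j => rfl
  have hRsT : ∀ j, T < Rs j := by
    intro j
    induction j with
    | zero => rw [hRs0]; omega
    | succ j ih => rw [hRs1]; have := hFge (Rs j); omega
  obtain ⟨g, hg, hgB, hgp⟩ := hpos (Rs n)
  have hgj : ∀ j : ℕ, act ω (g ^ j) 0 ∈ X := fun j => ⟨g ^ j, H.pow_mem hg j, rfl⟩
  have hend : act ω (g ^ n) 0 = 0 := by
    have h1 : act ω (g ^ n) = act ω g ^ n := by simp [act]
    rw [h1, S.expn ω hω g]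
    rfl
  -- one step
  have hone : ∀ (s : ℤ), (s = 1 ∨ s = -1) → ∀ j m : ℕ,
      (Rs (m + 1) : ℤ) ≤ s * (act ω (g ^ (j + 1)) 0 - act ω (g ^ j) 0) →
      (Rs m : ℤ) ≤ s * (act ω (g ^ (j + 1 + 1)) 0 - act ω (g ^ (j + 1)) 0) := by
    intro s hs j m hle
    have hT1 : (T : ℤ) < Rs (m + 1) := by exact_mod_cast hRsT (m + 1)
    have hF1 : (F (Rs m) : ℤ) < Rs (m + 1) := by rw [hRs1]; push_cast; omega
    rcases hs with rfl | rfl
    · rw [one_mul] at hle ⊢
      have a1 := hgp _ (hgj j) _ (hgj (j + 1)) (by omega)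
      have a2 := hfar (Rs m) _ (hgj (j + 1)) _ (hgj j) (by rw [abs_of_nonneg (by omega)]; omega) g hg
      rw [← act_pow, ← act_pow] at a1 a2
      rw [abs_of_pos a1] at a2
      omega
    · have a1 := hgp _ (hgj (j + 1)) _ (hgj j) (by omega)
      have a2 := hfar (Rs m) _ (hgj j) _ (hgj (j + 1)) (by rw [abs_of_nonneg (by omega)]; omega) g hg
      rw [← act_pow, ← act_pow] at a1 a2
      rw [abs_of_pos a1] at a2
      omega
  have hall : ∀ (s : ℤ), (s = 1 ∨ s = -1) → (Rs n : ℤ) ≤ s * act ω g 0 → ∀ j ≤ n,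
      (Rs (n - j) : ℤ) ≤ s * (act ω (g ^ (j + 1)) 0 - act ω (g ^ j) 0) := by
    intro s hs h0 j
    induction j with
    | zero =>
      intro _
      simpa using h0
    | succ j ih =>
      intro hj
      refine hone s hs j (n - (j + 1)) ?_
      have : n - (j + 1) + 1 = n - j := by omega
      rw [this]
      exact ih (by omega)
  have hfin : ∀ (s : ℤ), (s = 1 ∨ s = -1) → (Rs n : ℤ) ≤ s * act ω g 0 → False := by
    intro s hs h0
    have hpp : ∀ j ≤ n, (j : ℤ) ≤ s * act ω (g ^ j) 0 := by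
      intro j
      induction j with
      | zero => intro _; simp
      | succ j ih =>
        intro hj
        have a1 := ih (by omega)
        have a2 := hall s hs h0 j (by omega)
        have a3 : (T : ℤ) < Rs (n - j) := by exact_mod_cast hRsT (n - j)
        have a4 : (0 : ℤ) ≤ T := by positivity
        rw [mul_sub] at a2
        push_cast
        omega
    have := hpp n le_rfl
    rw [hend, mul_zero] at this
    omega
  rcases le_total 0 (act ω g 0) with h' | h'
  · rw [abs_of_nonneg h'] at hgB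
    exact hfin 1 (Or.inl rfl) (by rw [one_mul]; exact hgB)
  · rw [abs_of_nonpos h'] at hgB
    exact hfin (-1) (Or.inr rfl) (by rw [neg_one_mul]; exact hgB)

end Pool.Agent.Lib.MP_322c76_al.BW
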