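import Pool.Agent.Lib.MP_322c76_al.BW.Defs
import Pool.Agent.Lib.MP_322c76_al.BW.Inf
import Pool.Agent.Lib.MP_322c76_al.BW.Orient
import Pool.Agent.Lib.MP_322c76_al.BW.ECst

set_option autoImplicit false

namespace Pool.Agent.Lib.MP_322c76_al.BW

variable {k n D : ℕ}

/-! ROW Stab. By `not_finite_classes` some `ω` has infinitely many classes, so by `card_E_le` and
`E_card_const` the numbers `s_Γ` are `≤ 2D` for all `Γ`; they are nondecreasing, so constant from some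
`Γ₀` on, and then `E Γ ω 0 = E Γ₀ ω 0`. -/

theorem stable (S : Sys k n D) (hn : 1 ≤ n) : ∃ Γ₀ : ℕ, Stable S Γ₀ := by
  have h1 : ∃ ω ∈ S.Y, ∀ F : Finset ℤ, ∃ x ∈ Orb ω, ∀ y ∈ F, ¬ Insep ω x y := by
    by_contra hcon
    push Not at hcon
    exact not_finite_classes S hn hcon
  obtain ⟨ω₀, hω₀, hinf⟩ := h1
  choose s hs using fun Γ => E_card_const S Γ
  have hs2 : ∀ Γ, s Γ ≤ 2 * D := fun Γ => by
    rw [← hs Γ ω₀ hω₀]
    exact card_E_le S hω₀ hinf Γ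
  obtain ⟨Γ₀, hΓ₀⟩ : ∃ Γ₀, ∀ Γ, s Γ ≤ s Γ₀ := by
    have hb : BddAbove (Set.range s) := ⟨2 * D, by rintro _ ⟨Γ, rfl⟩; exact hs2 Γ⟩
    obtain ⟨Γ₀, h⟩ := Nat.sSup_mem (Set.range_nonempty s) hb
    exact ⟨Γ₀, fun Γ => by rw [h]; exact le_csSup hb ⟨Γ, rfl⟩⟩
  have hzero : ∀ ω ∈ S.Y, ∀ Γ : ℕ, E Γ ω 0 ⊆ E Γ₀ ω 0 := by
    intro ω hω Γ
    have h2 : E Γ₀ ω 0 ⊆ E (max Γ Γ₀) ω 0 := E_mono (le_max_right _ _) ω 0
    have h3 : E Γ₀ ω 0 = E (max Γ Γ₀) ω 0 := by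
      refine Set.eq_of_subset_of_ncard_le h2 ?_ (E_finite _ _ _)
      rw [hs _ ω hω, hs _ ω hω]
      exact hΓ₀ _
    rw [h3]
    exact E_mono (le_max_left _ _) ω 0
  refine ⟨Γ₀, fun ω hω Γ x hx y hy => ?_⟩
  obtain ⟨g, rfl⟩ := hx
  have h4 : y - act ω g 0 ∈ E Γ (reroot ω g) 0 := by
    rw [E_reroot]
    simpa using hy
  have h5 := hzero _ (S.rr ω hω g) Γ h4
  rw [E_reroot] at h5
  simpa using h5

end Pool.Agent.Lib.MP_322c76_al.BW
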