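import Pool.Agent.Lib.MP_322c76_al.BW.Defs
import Pool.Agent.Lib.MP_322c76_al.BW.Clos
import Pool.Agent.Lib.MP_322c76_al.BW.Stab
import Pool.Agent.Lib.MP_322c76_al.BW.Max
import Pool.Agent.Lib.MP_322c76_al.BW.Rel
import Pool.Agent.Lib.MP_322c76_al.BW.Klei

set_option autoImplicit false

namespace Pool.Agent.Lib.MP_322c76_al.BW

variable {k n D : ℕ}

/-! ROW NoSys. Take `ω ∈ Y`, `N = {u : ∀ y ∈ Orb ω, act ω u y ∈ E Γ₀ ω y}` normal subgroup of `Wd k`,
`G = Wd k ⧸ N`, exponent dividing `n`, infinite (transitive on the classes of `Orb ω`, of which there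
are infinitely many), generated by the image `T` of the letters, their inverses and `1`. An
element of `bl T r` is the class of a word of norm `≤ r`, determined by the points
`u y`, `y ∈ Orb ω ∩ [-l, l]`, `|u y - y| ≤ D r`: `|bl T r| ≤ (2 D r + 1)^(2l+1)`. `kleiner`:
`G` is finite. -/

/-- the words that fix all classes of the orbit -/
private def noSysKer {S : Sys k n D} {Γ₀ : ℕ} (hS : Stable S Γ₀) {ω : Conf k} (hω : ω ∈ S.Y) :
    Subgroup (Wd k) where
  carrier := {u | ∀ y ∈ Orb ω, act ω u y ∈ E Γ₀ ω y}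
  one_mem' := fun y _ => by
    rw [act_one]
    exact E_self Γ₀ ω y
  mul_mem' := fun {u v} hu hv y hy => by
    rw [act_mul]
    exact rel_trans hS hω hy (hv y hy) (hu _ (act_mem_orb hy v))
  inv_mem' := fun {u} hu y hy => by
    have h1 := hu _ (act_mem_orb hy u⁻¹)
    rw [act_act_inv] at h1
    exact E_symm h1

private theorem noSys_mem {S : Sys k n D} {Γ₀ : ℕ} (hS : Stable S Γ₀) {ω : Conf k} (hω : ω ∈ S.Y)
    {u : Wd k} : u ∈ noSysKer hS hω ↔ ∀ y ∈ Orb ω, act ω u y ∈ E Γ₀ ω y := Iff.rfl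

private theorem noSys_normal {S : Sys k n D} {Γ₀ : ℕ} (hS : Stable S Γ₀) {ω : Conf k}
    (hω : ω ∈ S.Y) : (noSysKer hS hω).Normal := by
  refine ⟨fun u hu g y hy => ?_⟩
  have h1 := hu _ (act_mem_orb hy g⁻¹)
  rw [← E_act Γ₀ ω g, act_act_inv] at h1
  rw [act_mul, act_mul]
  exact h1

/-- the letters, their inverses and `1` -/
private theorem noSys_card {G : Type*} [Group G] {T : Finset G} (ω : Conf k) (π : Wd k →* G)
    (hT : ∀ t ∈ T, ∃ s : Wd k, π s = t ∧ ∀ y, |act ω s y - y| ≤ D) (r : ℕ) :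
    ∀ x ∈ bl T r, ∃ u : Wd k, π u = x ∧ ∀ y, |act ω u y - y| ≤ D * r := by
  induction r with
  | zero =>
    intro x hx
    have hx1 : x = 1 := by simpa [bl] using hx
    subst hx1
    exact ⟨1, map_one _, fun y => by simp⟩
  | succ r ih =>
    intro x hx
    obtain ⟨y, hy, t, ht, rfl⟩ := mem_bl_succ.1 hx
    obtain ⟨u, hu, hu2⟩ := ih y hy
    obtain ⟨s, hs, hs2⟩ := hT t ht
    refine ⟨u * s, by rw [map_mul, hu, hs], fun z => ?_⟩
    rw [act_mul]
    have h1 := hu2 (act ω s z)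
    have h2 := hs2 z
    push_cast
    calc |act ω u (act ω s z) - z| = |(act ω u (act ω s z) - act ω s z) + (act ω s z - z)| := by
          congr 1; ring
      _ ≤ |act ω u (act ω s z) - act ω s z| + |act ω s z - z| := abs_add_le _ _
      _ ≤ D * r + D := add_le_add h1 h2
      _ = D * (r + 1) := by ring

theorem no_sys (hn : 1 ≤ n) (S : Sys k n D) : False := by
  classical
  obtain ⟨Γ₀, hS⟩ := stable S hn
  obtain ⟨m, hM⟩ := exists_max hn hS
  obtain ⟨l, hl⟩ := closure hS hM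
  obtain ⟨ω, hω⟩ := S.ne
  have hnor := noSys_normal hS hω
  set N := noSysKer hS hω with hN
  let π : Wd k →* Wd k ⧸ N := QuotientGroup.mk' N
  have hπ : Function.Surjective π := QuotientGroup.mk'_surjective N
  have hker : ∀ u v : Wd k, π u = π v ↔ u⁻¹ * v ∈ N := fun u v => QuotientGroup.eq
  let T : Finset (Wd k ⧸ N) :=
    {1} ∪ (Finset.univ.image fun j : Fin k => π (FreeGroup.of j)) ∪
      (Finset.univ.image fun j : Fin k => (π (FreeGroup.of j))⁻¹)
  have hTmem : ∀ t, t ∈ T ↔ t = 1 ∨ (∃ j, π (FreeGroup.of j) = t) ∨ ∃ j, (π (FreeGroup.of j))⁻¹ = t := by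
    intro t
    simp only [T, Finset.mem_union, Finset.mem_singleton, Finset.mem_image, Finset.mem_univ,
      true_and]
    tauto
  have hT : GenSet T := by
    refine ⟨(hTmem 1).2 (Or.inl rfl), ?_, ?_⟩
    · intro t ht
      rcases (hTmem t).1 ht with h | ⟨j, h⟩ | ⟨j, h⟩
      · subst h; rw [inv_one]; exact ht
      · exact (hTmem _).2 (Or.inr (Or.inr ⟨j, by rw [h]⟩))
      · exact (hTmem _).2 (Or.inr (Or.inl ⟨j, by rw [← h, inv_inv]⟩))
    · rw [eq_top_iff]
      have h1 : (⊤ : Subgroup (Wd k ⧸ N)) = (⊤ : Subgroup (Wd k)).map π := by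
        rw [← MonoidHom.range_eq_map, MonoidHom.range_eq_top.2 hπ]
      rw [h1, ← FreeGroup.closure_range_of, MonoidHom.map_closure]
      refine Subgroup.closure_mono ?_
      rintro _ ⟨_, ⟨j, rfl⟩, rfl⟩
      exact (hTmem _).2 (Or.inr (Or.inl ⟨j, rfl⟩))
  have hof : ∀ j y, act ω (FreeGroup.of j) y = ω j y := by
    intro j y
    show FreeGroup.lift ω (FreeGroup.of j) y = ω j y
    rw [FreeGroup.lift_apply_of]
  have hTs : ∀ t ∈ T, ∃ s : Wd k, π s = t ∧ ∀ y, |act ω s y - y| ≤ D := by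
    intro t ht
    rcases (hTmem t).1 ht with h | ⟨j, h⟩ | ⟨j, h⟩
    · exact ⟨1, by rw [map_one, h], fun y => by simp⟩
    · refine ⟨FreeGroup.of j, h, fun y => ?_⟩
      rw [hof]
      exact S.disp ω hω j y
    · refine ⟨(FreeGroup.of j)⁻¹, by rw [map_inv, h], fun y => ?_⟩
      have h1 := S.disp ω hω j (act ω (FreeGroup.of j)⁻¹ y)
      rw [← hof, act_act_inv] at h1
      rw [abs_sub_comm]
      exact h1
  have hexp : ∀ g : Wd k ⧸ N, g ^ n = 1 := by
    intro g
    obtain ⟨u, rfl⟩ := hπ g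
    rw [← map_pow, ← map_one π, eq_comm, hker, inv_one, one_mul]
    intro y hy
    have h1 : act ω (u ^ n) = act ω u ^ n := map_pow (FreeGroup.lift ω) u n
    rw [h1, S.expn ω hω u]
    exact E_self Γ₀ ω y
  have hgr : ∀ r, (bl T r).card ≤ (2 * D + 1) ^ (2 * l + 1) * (r + 1) ^ (2 * l + 1) := by
    intro r
    have hc : ∀ x : {x // x ∈ bl T r}, ∃ u : Wd k, π u = x.1 ∧ ∀ y, |act ω u y - y| ≤ D * r :=
      fun x => noSys_card ω π hTs r x.1 x.2
    choose u hu1 hu2 using hc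
    let F : {x // x ∈ bl T r} → ({y // y ∈ Finset.Icc (-(l : ℤ)) l} →
        {y // y ∈ Finset.Icc (-((D : ℤ) * r)) (D * r)}) :=
      fun x y => ⟨act ω (u x) y.1 - y.1, by
        rw [Finset.mem_Icc]
        exact abs_le.1 (hu2 x y)⟩
    have hF : Function.Injective F := by
      intro x x' hxx
      have h1 : ∀ y : ℤ, |y| ≤ l → act ω (u x) y = act ω (u x') y := by
        intro y hy
        have h2 := congrFun hxx ⟨y, by rw [Finset.mem_Icc]; exact abs_le.1 hy⟩
        have h3 := congrArg Subtype.val h2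
        simp only [F] at h3
        linarith
      apply Subtype.ext
      rw [← hu1 x, ← hu1 x', hker]
      apply hl ω hω
      intro y _ hy
      rw [act_mul, ← h1 y hy, act_inv_act]
      exact E_self Γ₀ ω y
    have h2 := Fintype.card_le_of_injective F hF
    rw [Fintype.card_fun, Fintype.card_coe, Fintype.card_coe, Fintype.card_coe, Int.card_Icc,
      Int.card_Icc] at h2
    have e1 : ((D : ℤ) * r + 1 - -((D : ℤ) * r)).toNat = 2 * D * r + 1 := by
      have : ((D : ℤ) * r + 1 - -((D : ℤ) * r)) = ((2 * D * r + 1 : ℕ) : ℤ) := by push_cast; ring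
      rw [this, Int.toNat_natCast]
    have e2 : ((l : ℤ) + 1 - -(l : ℤ)).toNat = 2 * l + 1 := by
      have : ((l : ℤ) + 1 - -(l : ℤ)) = ((2 * l + 1 : ℕ) : ℤ) := by push_cast; ring
      rw [this, Int.toNat_natCast]
    rw [e1, e2] at h2
    refine h2.trans ?_
    rw [← mul_pow]
    refine Nat.pow_le_pow_left ?_ _
    nlinarith [Nat.zero_le D, Nat.zero_le r]
  have hfin : Finite (Wd k ⧸ N) := kleiner hT hn hexp hgr
  -- the orbit is a finite union of finite sets
  apply S.infi ω hω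
  have hsub : Orb ω ⊆ ⋃ g : Wd k ⧸ N, E Γ₀ ω (act ω g.out 0) := by
    rintro y ⟨g, rfl⟩
    refine Set.mem_iUnion.2 ⟨π g, ?_⟩
    have h1 : π (π g).out = π g := QuotientGroup.out_eq' (π g)
    rw [hker] at h1
    have h2 := h1 0 (mem_orb_zero ω)
    rw [← E_act Γ₀ ω (π g).out, act_mul, act_act_inv] at h2
    exact h2
  exact (Set.finite_iUnion fun g => E_finite _ _ _).subset hsub

end Pool.Agent.Lib.MP_322c76_al.BW
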