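import Pool.Agent.Lib.MP_322c76_al.BW.Defs
import Pool.Agent.Lib.MP_322c76_al.BW.ExisL
import Pool.Agent.Lib.MP_322c76_al.BW.Min
import Pool.Agent.Lib.MP_322c76_al.BW.NoSys

set_option autoImplicit false

namespace Pool.Agent.Lib.MP_322c76_al.BW

variable {k n D : ℕ}

/-! ROW OrbB (assembly, already proved). -/

/-- **orbits are bounded**: a number `N` that works for the words and for the size of the
orbits -/
theorem orbit_bound (k n D : ℕ) (hn : 1 ≤ n) : ∃ N : ℕ, ∀ ω : Conf k, (∀ j x, |ω j x - x| ≤ D) →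
    (∀ g : Wd k, g.norm ≤ N → act ω g ^ n = 1) →
      ∀ (x : ℤ) (F : Finset ℤ), (∀ y ∈ F, ∃ g : Wd k, act ω g x = y) → F.card < N := by
  by_contra hcon
  push Not at hcon
  obtain ⟨ω, h1, h2, h3⟩ := limit_conf k n D fun N => by
    obtain ⟨ω, h1, h2, x, F, h3, h4⟩ := hcon N
    exact ⟨ω, h1, h2, x, F, h4, h3⟩
  obtain ⟨S⟩ := exists_minimal k n D ω h1 h2 h3
  exact no_sys hn S

end Pool.Agent.Lib.MP_322c76_al.BW
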