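import Pool.Agent.Lib.MP_322c76_al.BW.Defs
import Pool.Agent.Lib.MP_322c76_al.Series

set_option autoImplicit false

namespace Pool.Agent.Lib.MP_322c76_al.BW

variable {k n D : ℕ}

/-! ROW Words. Enumerate `A` (fill up with `1`): `a : Fin k → G`, see `LinearSeries.lean`. A word of norm
`≤ N` in `a_j^{±1}` is a positive word of length `≤ n N` (`a_j⁻¹ = a_j^(n-1)`, as `a_j^n = 1`). -/

private theorem words_pos {n : ℕ} (hn : 1 ≤ n) {G : Type*} [Group G] {k : ℕ} (a : Fin k → G)
    (ha : ∀ i, a i ^ n = 1) (L : List (Fin k × Bool)) :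
    ∃ w : List (Fin k), w.length ≤ n * L.length ∧
      wp a w = (L.map fun x => cond x.2 (a x.1) (a x.1)⁻¹).prod := by
  induction L with
  | nil => exact ⟨[], by simp, by simp [wp]⟩
  | cons x L ih =>
    obtain ⟨w, hw, hw'⟩ := ih
    obtain ⟨i, b⟩ := x
    cases b with
    | true =>
      refine ⟨i :: w, ?_, ?_⟩
      · simp only [List.length_cons, mul_add, mul_one]
        omega
      · rw [List.map_cons, List.prod_cons, ← hw']
        simp [wp]
    | false =>
      refine ⟨List.replicate (n - 1) i ++ w, ?_, ?_⟩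
      · simp only [List.length_append, List.length_replicate, List.length_cons, mul_add, mul_one]
        omega
      · rw [List.map_cons, List.prod_cons, ← hw', wp_append]
        congr 1
        have h1 : wp a (List.replicate (n - 1) i) = a i ^ (n - 1) := by simp [wp]
        rw [h1]
        have h2 : a i ^ (n - 1) * a i = 1 := by
          rw [← pow_succ, Nat.sub_add_cancel hn, ha]
        simpa using eq_inv_of_mul_eq_one_left h2

theorem words_of_cond (k n N : ℕ) (hn : 1 ≤ n) (G : Type*) [Group G] (A : Finset G)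
    (hA : A.card ≤ k) (hgen : Subgroup.closure (A : Set G) = ⊤)
    (hx : ∀ x : Fin (n * N + 1) → G, (∀ i, x i = 1 ∨ x i ∈ A) → (List.ofFn x).prod ^ n = 1) :
    ∃ a : Fin k → G, (∀ i, a i = 1 ∨ a i ∈ A) ∧ (∀ g ∈ A, ∃ i, a i = g) ∧
      Subgroup.closure (Set.range a) = ⊤ ∧
      (∀ w : List (Fin k), w.length ≤ N → wp a w ^ n = 1) ∧
      ∀ g : Wd k, g.norm ≤ N → FreeGroup.lift a g ^ n = 1 := by
  -- an enumeration of the generators, filled up with `1`
  let a : Fin k → G := fun i => if h : (i : ℕ) < A.card then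
    (A.equivFin.symm ⟨i, h⟩ : G) else 1
  have ha : ∀ i, a i = 1 ∨ a i ∈ A := by
    intro i
    simp only [a]
    split_ifs
    · exact Or.inr (Finset.coe_mem _)
    · exact Or.inl rfl
  have hsurj : ∀ g ∈ A, ∃ i, a i = g := by
    intro g hg
    have h1 := (A.equivFin ⟨g, hg⟩).2
    refine ⟨⟨A.equivFin ⟨g, hg⟩, lt_of_lt_of_le h1 hA⟩, ?_⟩
    simp only [a]
    rw [dif_pos h1]
    simp
  have hgen' : Subgroup.closure (Set.range a) = ⊤ := by
    rw [eq_top_iff, ← hgen]
    exact Subgroup.closure_mono fun g hg => hsurj g hg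
  have hw : ∀ w : List (Fin k), w.length ≤ n * N + 1 → wp a w ^ n = 1 := by
    intro w hwl
    let x : Fin (n * N + 1) → G := fun i => if h : (i : ℕ) < w.length then a (w.get ⟨i, h⟩) else 1
    have h1 : ∀ i, x i = 1 ∨ x i ∈ A := by
      intro i
      simp only [x]
      split_ifs
      · exact ha _
      · exact Or.inl rfl
    have h2 : (List.ofFn x).prod = wp a w := by
      have h3 : List.ofFn x = w.map a ++ List.replicate (n * N + 1 - w.length) 1 := by
        apply List.ext_getElem
        · simp
          omega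
        · intro i hi1 hi2
          rw [List.getElem_ofFn, List.getElem_append]
          simp only [x]
          split_ifs with h4 h5 h5
          · simp
          · simp at h5; omega
          · simp at h5; omega
          · simp
      rw [h3, List.prod_append]
      simp [wp]
    rw [← h2]
    exact hx x h1
  have hN : N ≤ n * N := Nat.le_mul_of_pos_left N hn
  refine ⟨a, ha, hsurj, hgen', fun w h => hw w (by omega), fun g hg => ?_⟩
  have h1 : ∀ i, a i ^ n = 1 := by
    intro i
    have h := hw [i] (by simp)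
    rwa [wp_single] at h
  obtain ⟨w, hw1, hw2⟩ := words_pos hn a h1 g.toWord
  have h3 : FreeGroup.lift a g = wp a w := by
    rw [hw2]
    conv_lhs => rw [← FreeGroup.mk_toWord (x := g)]
    rw [FreeGroup.lift_mk]
  rw [h3]
  apply hw
  have h4 : g.toWord.length ≤ N := hg
  calc w.length ≤ n * g.toWord.length := hw1
    _ ≤ n * N := Nat.mul_le_mul_left n h4
    _ ≤ n * N + 1 := Nat.le_succ _

end Pool.Agent.Lib.MP_322c76_al.BW
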