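import Pool.Agent.Lib.MP_322c76_al.BW.Defs
import Pool.Agent.Lib.MP_322c76_al.BW.OrbB
import Pool.Agent.Lib.MP_322c76_al.BW.Words
import Pool.Agent.Lib.MP_322c76_al.BW.Cnt

set_option autoImplicit false

namespace Pool.Agent.Lib.MP_322c76_al.BW

variable {k n D : ℕ}

/-! ROW FinBW (bandwidth form). `N₀` from `orbit_bound`, `N₁, B` from `of_orbits k n N₀`,
`N := n * max N₀ N₁ + 1`, `words_of_cond`. For `G` acting on `X` with `p`:
`ω j := Equiv.Perm.extendDomain (MulAction.toPerm (a j)) (Equiv.ofInjective p hp)` (identity outside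
`p(X)`), `act ω g = extendDomain (toPerm (lift a g))`. -/

theorem final_bw (k n D : ℕ) (hn : 1 ≤ n) : ∃ N B : ℕ, ∀ (G : Type*) [Group G] (A : Finset G),
    A.card ≤ k → Subgroup.closure (A : Set G) = ⊤ →
      ∀ (X : Type*) [MulAction G X] [FaithfulSMul G X] (p : X → ℤ), Function.Injective p →
        (∀ a ∈ A, ∀ x : X, |p (a • x) - p x| ≤ D) →
        (∀ x : Fin N → G, (∀ i, x i = 1 ∨ x i ∈ A) → (List.ofFn x).prod ^ n = 1) →
          Finite G ∧ Nat.card G ≤ B ∧ (∀ g : G, g ^ n = 1) ∧ Monoid.exponent G ≤ n := by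
  classical
  obtain ⟨N₀, hN₀⟩ := orbit_bound k n D hn
  obtain ⟨N₁, B, h⟩ := of_orbits k n N₀ hn
  refine ⟨n * max N₀ N₁ + 1, B, ?_⟩
  intro G _ A hA hgen X _ _ p hp hdisp hx
  obtain ⟨a, ha, -, hcl, hw, hl⟩ := words_of_cond k n (max N₀ N₁) hn G A hA hgen hx
  set f : X ≃ Set.range p := Equiv.ofInjective p hp with hf
  have hfp : ∀ x : X, ((f x : Set.range p) : ℤ) = p x := fun x => rfl
  set ω : Conf k := fun j => (MulAction.toPerm (a j) : Equiv.Perm X).extendDomain f with hω
  have hact : ∀ g : Wd k, act ω g =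
      (MulAction.toPerm (FreeGroup.lift a g) : Equiv.Perm X).extendDomain f := by
    have h1 : (FreeGroup.lift ω : Wd k →* Equiv.Perm ℤ) =
        ((Equiv.Perm.extendDomainHom f).comp ((MulAction.toPermHom G X).comp (FreeGroup.lift a))) := by
      refine FreeGroup.ext_hom _ _ fun j => ?_
      rw [FreeGroup.lift_apply_of]
      simp [hω, Equiv.Perm.extendDomainHom]
    intro g
    have h2 := congrArg (fun φ : Wd k →* Equiv.Perm ℤ => φ g) h1
    exact h2
  have hval : ∀ (g : Wd k) (x : X), act ω g (p x) = p (FreeGroup.lift a g • x) := by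
    intro g x
    rw [hact, ← hfp x, Equiv.Perm.extendDomain_apply_image]
    rfl
  have hdis : ∀ j x, |ω j x - x| ≤ (D : ℤ) := by
    intro j y
    by_cases hy : y ∈ Set.range p
    · obtain ⟨x, rfl⟩ := hy
      have h1 : ω j (p x) = p (a j • x) := by
        simp only [hω]
        rw [← hfp x, Equiv.Perm.extendDomain_apply_image]
        rfl
      rw [h1]
      rcases ha j with h2 | h2
      · rw [h2, one_smul, sub_self, abs_zero]
        positivity
      · exact hdisp _ h2 x
    · have h1 : ω j y = y := Equiv.Perm.extendDomain_apply_not_subtype _ _ hy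
      rw [h1, sub_self, abs_zero]
      positivity
  have hexp : ∀ g : Wd k, g.norm ≤ N₀ → act ω g ^ n = 1 := by
    intro g hg
    have h1 := hl g (hg.trans (le_max_left _ _))
    have h2 : act ω g ^ n = act ω (g ^ n) := by
      unfold act
      rw [map_pow]
    rw [h2, hact, map_pow, h1]
    have h3 : (MulAction.toPerm (1 : G) : Equiv.Perm X) = 1 := by
      ext x
      simp
    rw [h3, Equiv.Perm.extendDomain_one]
  have horb : ∀ (x : X) (F : Finset X), (∀ y ∈ F, ∃ g : G, g • x = y) → F.card ≤ N₀ := by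
    intro x F hF
    have h1 := hN₀ ω hdis hexp (p x) (F.image p) (fun y hy => by
      obtain ⟨z, hz, rfl⟩ := Finset.mem_image.1 hy
      obtain ⟨g, hg⟩ := hF z hz
      have h2 : g ∈ (FreeGroup.lift a).range := by
        rw [FreeGroup.range_lift_eq_closure, hcl]
        exact Subgroup.mem_top g
      obtain ⟨w, hw'⟩ := h2
      refine ⟨w, ?_⟩
      rw [hval, hw', hg])
    rw [Finset.card_image_of_injective F hp] at h1
    exact h1.le
  obtain ⟨h1, h2, h3⟩ := h G a hcl X horb (fun w hw' => hw w (hw'.trans (le_max_right _ _)))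
  refine ⟨h1, h2, h3, ?_⟩
  exact Nat.le_of_dvd (by omega) (Monoid.exponent_dvd_of_forall_pow_eq_one h3)

end Pool.Agent.Lib.MP_322c76_al.BW
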