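import Pool.Agent.Lib.MP_322c76_al.BW.CutB
import Pool.Agent.Lib.MP_322c76_al.BW.Words
import Pool.Agent.Lib.MP_322c76_al.BW.Cnt

set_option autoImplicit false

namespace Pool.Agent.Lib.MP_322c76_al.BW

/-! ROW FinC (cutwidth form). `N₀` from `cut_bound k n (k * c)`, `N₁, B` from `of_orbits k n N₀`,
`N := n * max N₀ N₁ + 1`, `words_of_cond`. For `x ∈ X` the preorder
`le g h := lift a g • x ≤ lift a h • x` is a `Pre k` with `CutLe (k * c)`: map the edge `(j, y)` to
`(j, (a_j, y x))` (injective on different edges), the second component is in the set of the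
hypothesis (`a_j ∈ A`, since for `a_j = 1` nothing crosses). So by `cut_bound` all orbits of `G` have
`< N₀` points (a finite subset of the orbit with `≥ N₀` elements gives `Big N₀`). -/

theorem final_cut (k n c : ℕ) (hn : 1 ≤ n) : ∃ N B : ℕ, ∀ (G : Type*) [Group G] (A : Finset G),
    A.card ≤ k → Subgroup.closure (A : Set G) = ⊤ →
      ∀ (X : Type*) [LinearOrder X] [MulAction G X] [FaithfulSMul G X],
        (∀ x₀ : X, {e : G × X | e.1 ∈ A ∧ ((e.2 < x₀ ∧ x₀ ≤ e.1 • e.2) ∨
          (e.1 • e.2 < x₀ ∧ x₀ ≤ e.2))}.encard ≤ c) →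
        (∀ x : Fin N → G, (∀ i, x i = 1 ∨ x i ∈ A) → (List.ofFn x).prod ^ n = 1) →
          Finite G ∧ Nat.card G ≤ B ∧ (∀ g : G, g ^ n = 1) ∧ Monoid.exponent G ≤ n := by
  classical
  obtain ⟨N₀, hN₀⟩ := cut_bound k n (k * c) hn
  obtain ⟨N₁, B, h⟩ := of_orbits k n N₀ hn
  refine ⟨n * max N₀ N₁ + 1, B, ?_⟩
  intro G _ A hA hgen X _ _ _ hcut hx
  obtain ⟨a, ha, -, hcl, hw, hl⟩ := words_of_cond k n (max N₀ N₁) hn G A hA hgen hx
  have horb : ∀ (x : X) (F : Finset X), (∀ y ∈ F, ∃ g : G, g • x = y) → F.card ≤ N₀ := by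
    intro x F hF
    let P : Pre k :=
      { le := fun g h => FreeGroup.lift a g • x ≤ FreeGroup.lift a h • x
        trans := fun g h l h1 h2 => h1.trans h2
        total := fun g h => le_total _ _
        congr := fun g h h1 h2 u => by
          have h3 : FreeGroup.lift a g • x = FreeGroup.lift a h • x := le_antisymm h1 h2
          rw [map_mul, map_mul, mul_smul, mul_smul, h3] }
    have hle : ∀ g h, P.le g h ↔ FreeGroup.lift a g • x ≤ FreeGroup.lift a h • x :=
      fun g h => Iff.rfl
    have heqv : ∀ g h, P.Eqv g h ↔ FreeGroup.lift a g • x = FreeGroup.lift a h • x := by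
      intro g h
      constructor
      · rintro ⟨h1, h2⟩
        exact le_antisymm h1 h2
      · intro h1
        exact ⟨h1.le, h1.ge⟩
    have hexp : ∀ g : Wd k, g.norm ≤ N₀ → ∀ y, P.Eqv (g ^ n * y) y := by
      intro g hg y
      rw [heqv, map_mul, map_pow, hl g (hg.trans (le_max_left _ _)), one_mul]
    have hCut : P.CutLe (k * c) := by
      intro t E hE hne
      set S : Set (G × X) := {e : G × X | e.1 ∈ A ∧
        ((e.2 < FreeGroup.lift a t • x ∧ FreeGroup.lift a t • x ≤ e.1 • e.2) ∨
          (e.1 • e.2 < FreeGroup.lift a t • x ∧ FreeGroup.lift a t • x ≤ e.2))} with hS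
      have hSc : S.encard ≤ c := hcut _
      have hSf : S.Finite := Set.finite_of_encard_le_coe hSc
      have hSn : hSf.toFinset.card ≤ c := by
        rw [hSf.encard_eq_coe_toFinset_card] at hSc
        exact_mod_cast hSc
      have hmap : ∀ e ∈ E, ((e.1, (a e.1, FreeGroup.lift a e.2 • x)) : Fin k × (G × X)) ∈
          (Finset.univ : Finset (Fin k)) ×ˢ hSf.toFinset := by
        intro e he
        have h1 := hE e he
        unfold Pre.Cross at h1
        simp only [hle, not_le, map_mul, FreeGroup.lift_apply_of, mul_smul] at h1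
        simp only [Finset.mem_product, Finset.mem_univ, true_and, Set.Finite.mem_toFinset, hS,
          Set.mem_setOf_eq]
        refine ⟨?_, h1⟩
        rcases ha e.1 with h2 | h2
        · exfalso
          rw [h2, one_smul] at h1
          rcases h1 with ⟨h3, h4⟩ | ⟨h3, h4⟩
          · exact absurd h4 (not_le.2 h3)
          · exact absurd h4 (not_le.2 h3)
        · exact h2
      have hinj : Set.InjOn (fun e : Fin k × Wd k =>
          ((e.1, (a e.1, FreeGroup.lift a e.2 • x)) : Fin k × (G × X))) (E : Set (Fin k × Wd k)) := by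
        intro e he e' he' hee
        by_contra hcon
        have h1 := hne e he e' he' hcon
        simp only [Prod.mk.injEq] at hee
        rcases h1 with h1 | h1
        · exact h1 hee.1
        · exact h1 ((heqv _ _).2 hee.2.2)
      have h1 := Finset.card_le_card_of_injOn _ hmap hinj
      rw [Finset.card_product, Finset.card_univ, Fintype.card_fin] at h1
      exact h1.trans (Nat.mul_le_mul_left k hSn)
    by_contra hcon
    push Not at hcon
    apply hN₀ P hexp hCut
    have hsur : ∀ y ∈ F, ∃ w : Wd k, FreeGroup.lift a w • x = y := by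
      intro y hy
      obtain ⟨g, hg⟩ := hF y hy
      have h2 : g ∈ (FreeGroup.lift a).range := by
        rw [FreeGroup.range_lift_eq_closure, hcl]
        exact Subgroup.mem_top g
      obtain ⟨w, hw'⟩ := h2
      exact ⟨w, by rw [hw', hg]⟩
    choose! s hs using hsur
    refine ⟨F.image s, ?_, ?_⟩
    · rw [Finset.card_image_of_injOn]
      · exact hcon.le
      · intro y hy z hz hyz
        rw [← hs y hy, ← hs z hz]
        exact congrArg (fun w => FreeGroup.lift a w • x) hyz
    · intro g hg g' hg' hgg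
      obtain ⟨y, hy, rfl⟩ := Finset.mem_image.1 hg
      obtain ⟨z, hz, rfl⟩ := Finset.mem_image.1 hg'
      rw [heqv, hs y hy, hs z hz]
      rintro rfl
      exact hgg rfl
  obtain ⟨h1, h2, h3⟩ := h G a hcl X horb (fun w hw' => hw w (hw'.trans (le_max_right _ _)))
  refine ⟨h1, h2, h3, ?_⟩
  exact Nat.le_of_dvd (by omega) (Monoid.exponent_dvd_of_forall_pow_eq_one h3)

end Pool.Agent.Lib.MP_322c76_al.BW
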