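import Pool.Agent.Lib.MP_322c76_al.BW.CutB
import Pool.Agent.Lib.MP_322c76_al.BW.Words
import Pool.Agent.Lib.MP_322c76_al.BW.Cnt

set_option autoImplicit false

namespace Pool.Agent.Lib.MP_322c76_al.BW

/-- in an action of cutwidth at most `c` the orbits have less than `N₀` points -/
theorem orbit_card_of_cut {k n c N₀ : ℕ} (hN₀ : ∀ P : Pre k,
      (∀ g : Wd k, g.norm ≤ N₀ → ∀ x, P.Eqv (g ^ n * x) x) → P.CutLe (k * c) → ¬ P.Big N₀)
    {G : Type*} [Group G] {A : Finset G} (a : Fin k → G) (ha : ∀ i, a i = 1 ∨ a i ∈ A)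
    (hcl : Subgroup.closure (Set.range a) = ⊤)
    (hl : ∀ g : Wd k, g.norm ≤ N₀ → FreeGroup.lift a g ^ n = 1)
    {Y : Type*} [LinearOrder Y] [MulAction G Y]
    (hcut : ∀ x₀ : Y, {e : G × Y | e.1 ∈ A ∧ ((e.2 < x₀ ∧ x₀ ≤ e.1 • e.2) ∨
          (e.1 • e.2 < x₀ ∧ x₀ ≤ e.2))}.encard ≤ c)
    (y : Y) (F : Finset Y) (hF : ∀ z ∈ F, ∃ g : G, g • y = z) : F.card < N₀ := by
  classical
  let P : Pre k :=
    { le := fun g h => FreeGroup.lift a g • y ≤ FreeGroup.lift a h • y
      trans := fun g h l h1 h2 => le_trans h1 h2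
      total := fun g h => le_total _ _
      congr := fun g h h1 h2 u => by
        have h3 : FreeGroup.lift a g • y = FreeGroup.lift a h • y := le_antisymm h1 h2
        simp only [map_mul, mul_smul, h3, le_refl] }
  have heqv : ∀ g h, P.Eqv g h ↔ FreeGroup.lift a g • y = FreeGroup.lift a h • y := fun g h =>
    ⟨fun h1 => le_antisymm h1.1 h1.2, fun h1 => ⟨h1.le, h1.ge⟩⟩
  have h1 : ∀ g : Wd k, g.norm ≤ N₀ → ∀ x, P.Eqv (g ^ n * x) x := by
    intro g hg x
    rw [heqv, map_mul, map_pow, hl g hg, one_mul]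
  have h2 : P.CutLe (k * c) := by
    intro x F' hF' hne
    have hS := hcut (FreeGroup.lift a x • y)
    set S := {e : G × Y | e.1 ∈ A ∧ ((e.2 < FreeGroup.lift a x • y ∧
      FreeGroup.lift a x • y ≤ e.1 • e.2) ∨ (e.1 • e.2 < FreeGroup.lift a x • y ∧
        FreeGroup.lift a x • y ≤ e.2))} with hSdef
    have hfin : S.Finite := Set.finite_of_encard_le_coe hS
    have hcard : hfin.toFinset.card ≤ c := by
      have h3 := hfin.encard_eq_coe_toFinset_card
      rw [h3] at hS
      exact_mod_cast hS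
    let φ : Fin k × Wd k → Fin k × (G × Y) := fun e => (e.1, (a e.1, FreeGroup.lift a e.2 • y))
    have h4 : (F'.image φ) ⊆ Finset.univ ×ˢ hfin.toFinset := by
      intro q hq
      obtain ⟨e, he, rfl⟩ := Finset.mem_image.1 hq
      rw [Finset.mem_product]
      refine ⟨Finset.mem_univ _, ?_⟩
      rw [Set.Finite.mem_toFinset]
      have h5 := hF' e he
      have h6 : FreeGroup.lift a (FreeGroup.of e.1 * e.2) • y =
          a e.1 • (FreeGroup.lift a e.2 • y) := by
        rw [map_mul, FreeGroup.lift_apply_of, mul_smul]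
      have h7 : (FreeGroup.lift a e.2 • y < FreeGroup.lift a x • y ∧
          FreeGroup.lift a x • y ≤ a e.1 • (FreeGroup.lift a e.2 • y)) ∨
          (a e.1 • (FreeGroup.lift a e.2 • y) < FreeGroup.lift a x • y ∧
            FreeGroup.lift a x • y ≤ FreeGroup.lift a e.2 • y) := by
        rcases h5 with ⟨h8, h9⟩ | ⟨h8, h9⟩
        · left
          refine ⟨not_le.1 h8, ?_⟩
          rw [← h6]; exact h9
        · right
          refine ⟨?_, h9⟩
          rw [← h6]; exact not_le.1 h8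
      refine ⟨?_, h7⟩
      rcases ha e.1 with h8 | h8
      · exfalso
        rw [h8, one_smul] at h7
        rcases h7 with ⟨h9, h10⟩ | ⟨h9, h10⟩
        · exact absurd h10 (not_le.2 h9)
        · exact absurd h10 (not_le.2 h9)
      · exact h8
    have h5 : (F'.image φ).card = F'.card := by
      refine Finset.card_image_of_injOn fun e he e' he' hee => ?_
      by_contra hcon
      rcases hne e he e' he' hcon with h6 | h6
      · exact h6 (congrArg (fun q : Fin k × (G × Y) => q.1) hee)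
      · exact h6 ((heqv _ _).2 (congrArg (fun q : Fin k × (G × Y) => q.2.2) hee))
    calc F'.card = (F'.image φ).card := h5.symm
      _ ≤ (Finset.univ ×ˢ hfin.toFinset).card := Finset.card_le_card h4
      _ = k * hfin.toFinset.card := by rw [Finset.card_product, Finset.card_fin]
      _ ≤ k * c := Nat.mul_le_mul_left _ hcard
  by_contra hcon
  push Not at hcon
  refine hN₀ P h1 h2 ?_
  have h3 : ∀ z : Y, ∃ w : Wd k, z ∈ F → FreeGroup.lift a w • y = z := by
    intro z
    by_cases hz : z ∈ F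
    · obtain ⟨g, hg⟩ := hF z hz
      have h4 : g ∈ (FreeGroup.lift a).range := by
        rw [FreeGroup.range_lift_eq_closure, hcl]
        exact Subgroup.mem_top g
      obtain ⟨w, hw⟩ := h4
      exact ⟨w, fun _ => by rw [hw, hg]⟩
    · exact ⟨1, fun h => absurd h hz⟩
  choose w hw using h3
  refine ⟨F.image w, ?_, ?_⟩
  · rw [Finset.card_image_of_injOn]
    · exact hcon
    · intro z hz z' hz' hzz
      rw [← hw z hz, ← hw z' hz', hzz]
  · intro g hg h hh hgh hE
    obtain ⟨z, hz, rfl⟩ := Finset.mem_image.1 hg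
    obtain ⟨z', hz', rfl⟩ := Finset.mem_image.1 hh
    rw [heqv, hw z hz, hw z' hz'] at hE
    exact hgh (by rw [hE])

/-- orbit form: every orbit has a linear order such that every cut is crossed by at most `c`
pairs `(a, y)` -/
theorem final_orbits (k n c : ℕ) (hn : 1 ≤ n) : ∃ N B : ℕ, ∀ (G : Type*) [Group G] (A : Finset G),
    A.card ≤ k → Subgroup.closure (A : Set G) = ⊤ →
      ∀ (X : Type*) [MulAction G X] [FaithfulSMul G X],
        (∀ x : X, ∃ _ : LinearOrder (MulAction.orbit G x), ∀ x₀ : MulAction.orbit G x,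
          {e : G × MulAction.orbit G x | e.1 ∈ A ∧ ((e.2 < x₀ ∧ x₀ ≤ e.1 • e.2) ∨
            (e.1 • e.2 < x₀ ∧ x₀ ≤ e.2))}.encard ≤ c) →
        (∀ x : Fin N → G, (∀ i, x i = 1 ∨ x i ∈ A) → (List.ofFn x).prod ^ n = 1) →
          Finite G ∧ Nat.card G ≤ B ∧ (∀ g : G, g ^ n = 1) ∧ Monoid.exponent G ≤ n := by
  classical
  obtain ⟨N₀, hN₀⟩ := cut_bound k n (k * c) hn
  obtain ⟨N₁, B, h⟩ := of_orbits k n N₀ hn
  refine ⟨n * max N₀ N₁ + 1, B, ?_⟩
  intro G _ A hA hgen X _ _ hcut hx
  obtain ⟨a, ha, -, hcl, hw, hl⟩ := words_of_cond k n (max N₀ N₁) hn G A hA hgen hx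
  have horb : ∀ (x : X) (F : Finset X), (∀ y ∈ F, ∃ g : G, g • x = y) → F.card ≤ N₀ := by
    intro x F hF
    obtain ⟨L, hL⟩ := hcut x
    let _ := L
    have hmem : ∀ y : F, (y : X) ∈ MulAction.orbit G x := fun y => by
      obtain ⟨g, hg⟩ := hF y y.2
      exact ⟨g, hg⟩
    let ψ : F → MulAction.orbit G x := fun y => ⟨y, hmem y⟩
    have hψ : Function.Injective ψ := by
      intro y y' hy
      have h1 := congrArg (fun q : MulAction.orbit G x => (q : X)) hy
      exact Subtype.ext h1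
    have h1 := orbit_card_of_cut hN₀ a ha hcl (fun g hg => hl g (hg.trans (le_max_left _ _))) hL
      (⟨x, MulAction.mem_orbit_self x⟩ : MulAction.orbit G x) (Finset.univ.image ψ) (fun z hz => by
        obtain ⟨y, -, rfl⟩ := Finset.mem_image.1 hz
        obtain ⟨g, hg⟩ := hF y y.2
        refine ⟨g, Subtype.ext ?_⟩
        rw [MulAction.orbit.coe_smul]
        exact hg)
    rw [Finset.card_image_of_injective _ hψ, Finset.card_univ, Fintype.card_coe] at h1
    exact h1.le
  obtain ⟨h1, h2, h3⟩ := h G a hcl X horb (fun w hw' => hw w (hw'.trans (le_max_right _ _)))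
  refine ⟨h1, h2, h3, ?_⟩
  exact Nat.le_of_dvd (by omega) (Monoid.exponent_dvd_of_forall_pow_eq_one h3)

end Pool.Agent.Lib.MP_322c76_al.BW
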